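import Pool.Agent.Lib.MP_7c08ba_nt.Gen.Local
import Pool.Agent.Lib.MP_7c08ba_nt.Dyadic
import Pool.Agent.Lib.MP_7c08ba_nt.Quad

set_option autoImplicit false

/-!
Rigidity at `p = 2` of the imaginary quadratic fields `ℚ(√-q)`, `q ≡ 7 (mod 16)` prime, and
`ℚ(√-(q r))`, `q ≡ 3`, `r ≡ 5 (mod 8)` primes.
-/

namespace BKGen
namespace RTwo

open Module Pool.Agent.Lib.MP_7c08ba_nt

section Loc

variable {l : ℕ} [hl : Fact l.Prime]

/-- even powers of `l` -/
def Ev (l : ℕ) (r : ℝ) : Prop := ∃ k : ℤ, r = (l : ℝ) ^ (2 * k)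

theorem l_ne : (l : ℝ) ≠ 0 := by exact_mod_cast hl.out.ne_zero

theorem Ev.mul {r t : ℝ} (hr : Ev l r) (ht : Ev l t) : Ev l (r * t) := by
  obtain ⟨k, rfl⟩ := hr
  obtain ⟨m, rfl⟩ := ht
  exact ⟨k + m, by rw [← zpow_add₀ l_ne]; congr 1; ring⟩

theorem Ev.of_mul {r t : ℝ} (h : Ev l (r * t)) (ht : Ev l t) : Ev l r := by
  obtain ⟨k, hk⟩ := h
  obtain ⟨m, rfl⟩ := ht
  refine ⟨k - m, ?_⟩
  have h1 : (l : ℝ) ^ (2 * m) ≠ 0 := zpow_ne_zero _ l_ne
  rw [mul_sub, zpow_sub₀ l_ne, ← hk, mul_div_cancel_right₀ _ h1]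

theorem ev_sq {x : ℚ_[l]} (hx : x ≠ 0) : Ev l (‖x‖ ^ 2) := by
  refine ⟨-x.valuation, ?_⟩
  rw [Padic.norm_eq_zpow_neg_valuation hx, ← zpow_natCast, ← zpow_mul]
  congr 1
  push_cast
  ring

theorem not_ev_inv : ¬ Ev l ((l : ℝ)⁻¹) := by
  rintro ⟨k, hk⟩
  have h1 : (1 : ℝ) < l := by exact_mod_cast hl.out.one_lt
  rw [← zpow_neg_one] at hk
  have h2 := zpow_right_injective₀ (by linarith) h1.ne' hk
  omega

theorem norm_sqfree {g : ℕ} (hg : Squarefree g) (h : l ∣ g) : ‖(g : ℚ_[l])‖ = (l : ℝ)⁻¹ := by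
  obtain ⟨c, rfl⟩ := h
  have hc : ¬ l ∣ c := by
    rintro ⟨d, rfl⟩
    have h1 := hg l ⟨d, by ring⟩
    exact hl.out.one_lt.ne' (Nat.isUnit_iff.1 h1)
  push_cast
  rw [norm_mul, Padic.norm_p, Padic.norm_natCast_eq_one_iff.2 ((hl.out.coprime_iff_not_dvd).2 hc),
    mul_one]

theorem norm_rat (a : ℚ) : ‖(a : PadicAlgCl l)‖ = ‖(a : ℚ_[l])‖ := by
  have h := PadicAlgCl.norm_extends l (a : ℚ_[l])
  rwa [map_ratCast] at h

theorem norm_nat (a : ℕ) : ‖(a : PadicAlgCl l)‖ = ‖(a : ℚ_[l])‖ := by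
  have h := PadicAlgCl.norm_extends l (a : ℚ_[l])
  rwa [map_natCast] at h

/-- either the square root lies in `ℚ_l` or the conjugation is an isometry -/
theorem dich {D : ℕ} {σ : PadicAlgCl l} (hσ : σ ^ 2 = -(D : PadicAlgCl l)) :
    (∃ t : ℚ_[l], algebraMap ℚ_[l] (PadicAlgCl l) t = σ) ∨
    ∀ a b : ℚ, ‖(a : PadicAlgCl l) + b * σ‖ = ‖(a : PadicAlgCl l) - b * σ‖ := by
  by_cases h : ∀ τ : PadicAlgCl l ≃ₐ[ℚ_[l]] PadicAlgCl l, τ σ = σ
  · left
    obtain ⟨t, ht⟩ := (InfiniteGalois.mem_range_algebraMap_iff_fixed (k := ℚ_[l])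
      (K := PadicAlgCl l) σ).2 h
    exact ⟨t, ht⟩
  · right
    push Not at h
    obtain ⟨τ, hτ⟩ := h
    have h1 : τ σ = -σ := by
      have h2 : (τ σ) ^ 2 = σ ^ 2 := by rw [← map_pow, hσ, map_neg, map_natCast]
      rcases sq_eq_sq_iff_eq_or_eq_neg.1 h2 with h3 | h3
      · exact absurd h3 hτ
      · exact h3
    intro a b
    rw [← norm_equiv τ, map_add, map_mul, h1, map_ratCast, map_ratCast, mul_neg, ← sub_eq_add_neg]

end Loc

/-- natural numbers of even valuation at all odd primes -/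
theorem sq_or {M : ℕ} (hM : 0 < M)
    (h : ∀ (l : ℕ) [Fact l.Prime], l ≠ 2 → Ev l ‖(M : ℚ_[l])‖) :
    (∃ T : ℕ, M = T ^ 2) ∨ ∃ T : ℕ, M = 2 * T ^ 2 := by
  obtain ⟨a, b, ha0, hb0, hab, ha⟩ := Nat.sq_mul_squarefree_of_pos hM
  have h2 : ∀ l : ℕ, l.Prime → l ∣ a → l = 2 := by
    intro l hl hla
    by_contra h2
    have : Fact l.Prime := ⟨hl⟩
    have h3 := h l h2
    rw [← hab] at h3
    push_cast at h3
    rw [norm_mul, norm_pow, mul_comm] at h3
    have hb : (b : ℚ_[l]) ≠ 0 := by exact_mod_cast hb0.ne'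
    have h4 := h3.of_mul (ev_sq hb)
    rw [norm_sqfree ha hla] at h4
    exact not_ev_inv h4
  by_cases h1 : a = 1
  · left
    exact ⟨b, by rw [← hab, h1, mul_one]⟩
  · right
    obtain ⟨l, hl, hla⟩ := Nat.exists_prime_and_dvd h1
    have hl2 := h2 l hl hla
    subst hl2
    obtain ⟨c, rfl⟩ := hla
    have hc : c = 1 := by
      by_contra hc
      obtain ⟨l', hl', hlc⟩ := Nat.exists_prime_and_dvd hc
      have hl2' := h2 l' hl' (hlc.mul_left 2)
      subst hl2'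
      obtain ⟨d, rfl⟩ := hlc
      have h3 := ha 2 ⟨d, by ring⟩
      exact absurd (Nat.isUnit_iff.1 h3) (by norm_num)
    exact ⟨b, by rw [← hab, hc]; ring⟩

section Glob

variable {K : Type*} [Field K] [NumberField K] {D : ℕ} (hD0 : 0 < D) (hK : finrank ℚ K = 2)
  {s : K} (hs : s ^ 2 = -(D : K))

omit [NumberField K] in
include hs in
theorem emb_s {E : Type*} [Field E] (j : K →+* E) : (j s) ^ 2 = -(D : E) := by
  rw [← map_pow, hs, map_neg, map_natCast]

include hD0 hK hs in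
theorem exists_conj : ∃ f : K →+* K, f s = -s := by
  have : Algebra.IsQuadraticExtension ℚ K := ⟨hK⟩
  have h1 : ¬ ∀ f : K ≃ₐ[ℚ] K, f s = s := by
    intro h
    obtain ⟨a, ha⟩ := (IsGalois.mem_range_algebraMap_iff_fixed (F := ℚ) (E := K) s).2 h
    have h2 : ((a : ℚ) : K) + ((-1 : ℚ) : K) * s = 0 := by
      rw [← ha]
      push_cast
      simp
    have h3 := (coords_zero hD0 hs h2).2
    norm_num at h3
  push Not at h1
  obtain ⟨f, hf⟩ := h1
  refine ⟨(f : K →+* K), ?_⟩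
  have h2 : (f s) ^ 2 = s ^ 2 := by rw [← map_pow, hs, map_neg, map_natCast]
  rcases sq_eq_sq_iff_eq_or_eq_neg.1 h2 with h3 | h3
  · exact absurd h3 hf
  · exact h3

variable {l : ℕ} [hl : Fact l.Prime]

include hs in
theorem norm_emb (j : K →+* PadicAlgCl l) (a b : ℚ) :
    ‖j ((a : K) + b * s)‖ * ‖j ((a : K) - b * s)‖ = ‖((a ^ 2 + D * b ^ 2 : ℚ) : ℚ_[l])‖ := by
  rw [← norm_mul, ← map_mul]
  have h1 : ((a : K) + b * s) * ((a : K) - b * s) = ((a ^ 2 + D * b ^ 2 : ℚ) : K) := by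
    push_cast
    linear_combination (-(b : K) ^ 2) * hs
  rw [h1, map_ratCast, norm_rat]

/-- in the first case all values are values of `ℚ_l` -/
theorem emb_of_dich {j : K →+* PadicAlgCl l} {t : ℚ_[l]}
    (ht : algebraMap ℚ_[l] (PadicAlgCl l) t = j s) (a b : ℚ) :
    algebraMap ℚ_[l] (PadicAlgCl l) (a + b * t) = j ((a : K) + b * s) := by
  rw [map_add, map_mul, map_add, map_mul, ht]
  simp only [map_ratCast]

include hD0 hK hs in
theorem ev_norm {a b : ℚ} (hu0 : (a : K) + b * s ≠ 0) (h : PowAway 2 ((a : K) + b * s))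
    (hl2 : l ≠ 2) : Ev l ‖((a ^ 2 + D * b ^ 2 : ℚ) : ℚ_[l])‖ := by
  obtain ⟨f, hf⟩ := exists_conj hD0 hK hs
  let j : K →+* PadicAlgCl l :=
    ((IsAlgClosed.lift (R := ℚ) (S := K) (M := PadicAlgCl l) : K →ₐ[ℚ] PadicAlgCl l) :
      K →+* PadicAlgCl l)
  have hu0' : (a : K) - b * s ≠ 0 := by
    intro h0
    apply hu0
    have h1 : f ((a : K) + b * s) = 0 := by
      rw [map_add, map_mul, hf, map_ratCast, map_ratCast, mul_neg, ← sub_eq_add_neg]
      exact h0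
    exact (map_eq_zero f).1 h1
  rw [← norm_emb hs j a b]
  obtain ⟨c, hc⟩ := h l hl2 j
  obtain ⟨c', hc'⟩ := h l hl2 (j.comp f)
  have hc2 : ‖j ((a : K) - b * s)‖ = ‖j (f c')‖ ^ 2 := by
    rw [← RingHom.comp_apply, ← hc', RingHom.comp_apply, map_add f, map_mul, hf, map_ratCast,
      map_ratCast, mul_neg, ← sub_eq_add_neg]
  have hc0 : c ≠ 0 := by
    rintro rfl
    rw [map_zero, norm_zero, zero_pow two_ne_zero, norm_eq_zero, map_eq_zero] at hc
    exact hu0 hc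
  have hc0' : f c' ≠ 0 := by
    intro h0
    rw [h0, map_zero, norm_zero, zero_pow two_ne_zero, norm_eq_zero, map_eq_zero] at hc2
    exact hu0' hc2
  rcases dich (emb_s hs j) with ⟨t, ht⟩ | hiso
  · have key : ∀ z : K, z ≠ 0 → Ev l (‖j z‖ ^ 2) := by
      intro z hz
      obtain ⟨x, y, rfl⟩ := exists_coords hD0 hK hs z
      rw [← emb_of_dich ht x y]
      have h2 : (x : ℚ_[l]) + y * t ≠ 0 := by
        intro h3
        have h4 := emb_of_dich ht x y
        rw [h3, map_zero, eq_comm, map_eq_zero] at h4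
        exact hz h4
      have h5 := PadicAlgCl.norm_extends l ((x : ℚ_[l]) + y * t)
      rw [h5]
      exact ev_sq h2
    rw [hc, hc2]
    exact (key c hc0).mul (key _ hc0')
  · have h2 : ‖j ((a : K) - b * s)‖ = ‖j ((a : K) + b * s)‖ := by
      have h3 := hiso a b
      rw [map_sub, map_add, map_mul, map_ratCast, map_ratCast]
      exact h3.symm
    obtain ⟨x, y, hxy⟩ := exists_coords hD0 hK hs c
    have h4 : ‖j c‖ ^ 2 = ‖((x ^ 2 + D * y ^ 2 : ℚ) : ℚ_[l])‖ := by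
      rw [← norm_emb hs j x y, ← hxy, sq]
      congr 1
      have h3 := hiso x y
      rw [hxy, map_sub, map_add, map_mul, map_ratCast, map_ratCast]
      exact h3
    rw [h2, hc, h4, ← sq]
    apply ev_sq
    intro h5
    rw [h5, norm_zero, sq_eq_zero_iff, norm_eq_zero, map_eq_zero] at h4
    exact hc0 h4

include hD0 hK hs in
/-- the value group at a place not dividing `2 D` -/
theorem ev_emb_sq (hl2 : l ≠ 2) (hlD : ¬ l ∣ D) (j : K →+* PadicAlgCl l) {z : K} (hz : z ≠ 0) :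
    Ev l (‖j z‖ ^ 2) := by
  obtain ⟨x, y, rfl⟩ := exists_coords hD0 hK hs z
  rcases dich (emb_s hs j) with ⟨t, ht⟩ | hiso
  · rw [← emb_of_dich ht x y]
    have h2 : (x : ℚ_[l]) + y * t ≠ 0 := by
      intro h3
      have h4 := emb_of_dich ht x y
      rw [h3, map_zero, eq_comm, map_eq_zero] at h4
      exact hz h4
    have h5 := PadicAlgCl.norm_extends l ((x : ℚ_[l]) + y * t)
    rw [h5]
    exact ev_sq h2
  · have n2 : ‖(2 : PadicAlgCl l)‖ = 1 := by
      have h1 := norm_nat (l := l) 2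
      push_cast at h1
      rw [h1]
      have h3 : ‖((2 : ℕ) : ℚ_[l])‖ = 1 := Padic.norm_natCast_eq_one_iff.2
        ((Nat.coprime_primes hl.out Nat.prime_two).2 hl2)
      simpa using h3
    have nD : ‖j s‖ = 1 := by
      have h1 : ‖j s‖ ^ 2 = 1 := by
        rw [← norm_pow, emb_s hs j, norm_neg, norm_nat]
        exact Padic.norm_natCast_eq_one_iff.2 ((hl.out.coprime_iff_not_dvd).2 hlD)
      exact (pow_eq_one_iff_of_nonneg (norm_nonneg _) two_ne_zero).1 h1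
    have e1 : j ((x : K) + y * s) = (x : PadicAlgCl l) + y * j s := by
      rw [map_add, map_mul, map_ratCast, map_ratCast]
    rw [e1]
    set c : PadicAlgCl l := (x : PadicAlgCl l) + y * j s with hc
    have h3 : ‖(x : PadicAlgCl l) - y * j s‖ = ‖c‖ := (hiso x y).symm
    have hx : ‖(x : PadicAlgCl l)‖ ≤ ‖c‖ := by
      have h4 : ‖(2 : PadicAlgCl l) * x‖ ≤ max ‖c‖ ‖(x : PadicAlgCl l) - y * j s‖ := by
        have h5 : (2 : PadicAlgCl l) * x = c + ((x : PadicAlgCl l) - y * j s) := by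
          rw [hc]; ring
        rw [h5]
        exact IsUltrametricDist.norm_add_le_max _ _
      rwa [norm_mul, n2, one_mul, h3, max_self] at h4
    have hy : ‖(y : PadicAlgCl l)‖ ≤ ‖c‖ := by
      have h4 : ‖(2 : PadicAlgCl l) * (y * j s)‖ ≤ max ‖c‖ ‖-((x : PadicAlgCl l) - y * j s)‖ := by
        have h5 : (2 : PadicAlgCl l) * (y * j s) = c + -((x : PadicAlgCl l) - y * j s) := by
          rw [hc]; ring
        rw [h5]
        exact IsUltrametricDist.norm_add_le_max _ _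
      rwa [norm_mul, n2, one_mul, norm_neg, h3, max_self, norm_mul, nD, mul_one] at h4
    have hc1 : ‖c‖ ≤ max ‖(x : PadicAlgCl l)‖ ‖(y : PadicAlgCl l)‖ := by
      refine (IsUltrametricDist.norm_add_le_max _ _).trans ?_
      rw [norm_mul, nD, mul_one]
    have hc0 : c ≠ 0 := by
      intro h0
      rw [← e1] at h0
      exact hz ((map_eq_zero j).1 h0)
    rcases le_total ‖(x : PadicAlgCl l)‖ ‖(y : PadicAlgCl l)‖ with h6 | h6
    · rw [max_eq_right h6] at hc1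
      have h7 : ‖c‖ = ‖(y : PadicAlgCl l)‖ := le_antisymm hc1 hy
      rw [h7, norm_rat]
      apply ev_sq
      intro h8
      rw [← norm_eq_zero, ← norm_rat, ← h7, norm_eq_zero] at h8
      exact hc0 h8
    · rw [max_eq_left h6] at hc1
      have h7 : ‖c‖ = ‖(x : PadicAlgCl l)‖ := le_antisymm hc1 hx
      rw [h7, norm_rat]
      apply ev_sq
      intro h8
      rw [← norm_eq_zero, ← norm_rat, ← h7, norm_eq_zero] at h8
      exact hc0 h8

include hD0 hK hs in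
theorem prime_dvd {g : ℕ} {x y : ℤ} (hg : Squarefree g) (hxy : IsCoprime x y)
    (h : PowAway 2 ((g : K) * (x + y * s))) (hlg : l ∣ g) : l ∣ 2 * D := by
  by_contra hcon
  have hl2 : l ≠ 2 := by
    rintro rfl
    exact hcon (dvd_mul_right 2 D)
  have hlD : ¬ l ∣ D := fun h1 => hcon (h1.mul_left 2)
  obtain ⟨f, hf⟩ := exists_conj hD0 hK hs
  have n2 : ‖(2 : PadicAlgCl l)‖ = 1 := by
    have h1 := norm_nat (l := l) 2
    push_cast at h1
    rw [h1]
    have h3 : ‖((2 : ℕ) : ℚ_[l])‖ = 1 := Padic.norm_natCast_eq_one_iff.2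
      ((Nat.coprime_primes hl.out Nat.prime_two).2 hl2)
    simpa using h3
  have nint : ∀ z : ℤ, ‖(z : PadicAlgCl l)‖ = ‖(z : ℚ_[l])‖ := by
    intro z
    have h1 := norm_rat (l := l) (z : ℚ)
    simpa using h1
  have nD : ∀ j : K →+* PadicAlgCl l, ‖j s‖ = 1 := by
    intro j
    have h1 : ‖j s‖ ^ 2 = 1 := by
      rw [← norm_pow, emb_s hs j, norm_neg, norm_nat]
      exact Padic.norm_natCast_eq_one_iff.2 ((hl.out.coprime_iff_not_dvd).2 hlD)
    exact (pow_eq_one_iff_of_nonneg (norm_nonneg _) two_ne_zero).1 h1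
  have key : ∀ j : K →+* PadicAlgCl l, ‖(x : PadicAlgCl l) + y * j s‖ < 1 := by
    intro j
    obtain ⟨b, hb⟩ := h l hl2 j
    have e1 : j ((g : K) * (x + y * s)) = g * ((x : PadicAlgCl l) + y * j s) := by
      rw [map_mul, map_natCast, map_add, map_mul, map_intCast, map_intCast]
    rw [e1, norm_mul, norm_nat, norm_sqfree hg hlg] at hb
    have hle : ‖(x : PadicAlgCl l) + y * j s‖ ≤ 1 := by
      refine (IsUltrametricDist.norm_add_le_max _ _).trans (max_le ?_ ?_)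
      · rw [nint]
        exact Padic.norm_int_le_one x
      · rw [norm_mul, nD j, mul_one, nint]
        exact Padic.norm_int_le_one y
    refine lt_of_le_of_ne hle fun h1 => ?_
    rw [h1, mul_one] at hb
    have hb0 : b ≠ 0 := by
      rintro rfl
      rw [map_zero, norm_zero, zero_pow two_ne_zero] at hb
      exact (inv_ne_zero l_ne) hb
    have h2 := ev_emb_sq hD0 hK hs hl2 hlD j hb0
    rw [← hb] at h2
    exact not_ev_inv h2
  let j : K →+* PadicAlgCl l :=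
    ((IsAlgClosed.lift (R := ℚ) (S := K) (M := PadicAlgCl l) : K →ₐ[ℚ] PadicAlgCl l) :
      K →+* PadicAlgCl l)
  have k1 := key j
  have k2 := key (j.comp f)
  rw [RingHom.comp_apply, hf, map_neg, mul_neg, ← sub_eq_add_neg] at k2
  have hx : ‖(x : PadicAlgCl l)‖ < 1 := by
    have h4 : ‖(2 : PadicAlgCl l) * x‖ < 1 := by
      have h5 : (2 : PadicAlgCl l) * x = ((x : PadicAlgCl l) + y * j s) +
          ((x : PadicAlgCl l) - y * j s) := by ring
      rw [h5]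
      exact (IsUltrametricDist.norm_add_le_max _ _).trans_lt (max_lt k1 k2)
    rwa [norm_mul, n2, one_mul] at h4
  have hy : ‖(y : PadicAlgCl l)‖ < 1 := by
    have h4 : ‖(2 : PadicAlgCl l) * (y * j s)‖ < 1 := by
      have h5 : (2 : PadicAlgCl l) * (y * j s) = ((x : PadicAlgCl l) + y * j s) +
          -((x : PadicAlgCl l) - y * j s) := by ring
      rw [h5]
      refine (IsUltrametricDist.norm_add_le_max _ _).trans_lt (max_lt k1 ?_)
      rw [norm_neg]
      exact k2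
    rwa [norm_mul, n2, one_mul, norm_mul, nD j, mul_one] at h4
  rw [nint, Padic.norm_intCast_lt_one_iff] at hx hy
  have h6 := hxy.isUnit_of_dvd' hx hy
  have h7 : (l : ℤ) ∣ 1 := isUnit_iff_dvd_one.1 h6
  have h8 : l ∣ 1 := by exact_mod_cast h7
  exact hl.out.one_lt.ne' (Nat.dvd_one.1 h8)

end Glob

theorem powAway_mul_sq {K : Type*} [Field K] {a w : K} (hw : w ≠ 0)
    (h : PowAway 2 (a * w ^ 2)) : PowAway 2 a := by
  intro l _ hl j
  obtain ⟨b, hb⟩ := h l hl j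
  refine ⟨b / w, ?_⟩
  have hw' : ‖j w‖ ≠ 0 := by
    rw [norm_ne_zero_iff]
    exact (map_ne_zero j).2 hw
  rw [map_mul, map_pow, norm_mul, norm_pow] at hb
  rw [map_div₀, norm_div, div_pow, ← hb, mul_div_cancel_right₀ _ (pow_ne_zero 2 hw')]

theorem powAt_mul_sq {K : Type*} [Field K] {ι : K →+* PadicAlgCl 2} {a w : K} (hw : w ≠ 0)
    (h : PowAt 2 ι (a * w ^ 2)) : PowAt 2 ι a := by
  obtain ⟨β, hβ, h2⟩ := h
  refine ⟨β / ι w, div_mem hβ (mem_comp ι w), ?_⟩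
  have hw' : ι w ≠ 0 := (map_ne_zero ι).2 hw
  rw [div_pow, h2, map_mul, map_pow, mul_div_cancel_right₀ _ (pow_ne_zero 2 hw')]

theorem sqf_dvd {g n : ℕ} (hg : Squarefree g) (h : ∀ l : ℕ, l.Prime → l ∣ g → l ∣ n) : g ∣ n := by
  rw [← Nat.prod_primeFactors_of_squarefree hg]
  exact Finset.prod_primes_dvd n (fun p hp => (Nat.prime_of_mem_primeFactors hp).prime)
    (fun p hp => h p (Nat.prime_of_mem_primeFactors hp) (Nat.dvd_of_mem_primeFactors hp))

theorem mod_eight_int {n : ℤ} (h4 : ¬ (4 : ℤ) ∣ n) (h : IsSquare (n : ℚ_[2])) : n % 8 = 1 := by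
  obtain ⟨β, hβ⟩ := h
  obtain ⟨b, -, hb⟩ := exists_int_of_sq (α := (n : ℤ_[2])) (β := β) (by
    rw [sq, ← hβ]; rfl)
  have h1 := congrArg (PadicInt.toZModPow 3) hb
  rw [map_intCast, map_pow] at h1
  generalize (PadicInt.toZModPow 3) b = c at h1
  have h2 : ∀ c : ZMod (2 ^ 3), c ^ 2 = ((0 : ℤ) : ZMod (2 ^ 3)) ∨ c ^ 2 = ((1 : ℤ) : ZMod (2 ^ 3)) ∨
      c ^ 2 = ((4 : ℤ) : ZMod (2 ^ 3)) := by decide
  rcases h2 c with h3 | h3 | h3 <;> rw [h3, ZMod.intCast_eq_intCast_iff] at h1 <;>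
    have h5 := Int.ModEq.eq h1 <;> norm_num at h5 <;> omega

section Fin

variable {K : Type*} [Field K] [NumberField K] {D : ℕ} (hD0 : 0 < D) (hK : finrank ℚ K = 2)
  {s : K} (hs : s ^ 2 = -(D : K))

include hD0 hK hs in
theorem norm_form {g : ℕ} {x y : ℤ} (hg : Squarefree g) (hxy : IsCoprime x y)
    (h : PowAway 2 ((g : K) * (x + y * s))) :
    (∃ T : ℤ, x ^ 2 + D * y ^ 2 = T ^ 2) ∨ ∃ T : ℤ, x ^ 2 + D * y ^ 2 = 2 * T ^ 2 := by
  have hDz : (0 : ℤ) < D := by exact_mod_cast hD0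
  have hne : x ≠ 0 ∨ y ≠ 0 := by
    by_contra hcon
    push Not at hcon
    rw [hcon.1, hcon.2] at hxy
    exact not_isCoprime_zero_zero hxy
  have hpos : 0 < x ^ 2 + D * y ^ 2 := by
    rcases hne with h1 | h1
    · have h2 : 0 < x ^ 2 := by positivity
      have h3 : 0 ≤ (D : ℤ) * y ^ 2 := by positivity
      linarith
    · have h2 : 0 < (D : ℤ) * y ^ 2 := by positivity
      have h3 : 0 ≤ x ^ 2 := by positivity
      linarith
  obtain ⟨M, hM⟩ : ∃ M : ℕ, (M : ℤ) = x ^ 2 + D * y ^ 2 :=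
    ⟨(x ^ 2 + D * y ^ 2).toNat, Int.toNat_of_nonneg hpos.le⟩
  have hM0 : 0 < M := by
    have h1 : (0 : ℤ) < (M : ℤ) := by rw [hM]; exact hpos
    exact_mod_cast h1
  have hg0 : g ≠ 0 := hg.ne_zero
  have h2 : ((g * x : ℚ) : K) + ((g * y : ℚ) : K) * s = (g : K) * (x + y * s) := by
    push_cast
    ring
  have hne0 : ((g * x : ℚ) : K) + ((g * y : ℚ) : K) * s ≠ 0 := by
    intro h0
    obtain ⟨h3, h4⟩ := coords_zero hD0 hs h0
    have hg0' : (g : ℚ) ≠ 0 := by exact_mod_cast hg0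
    rcases hne with h5 | h5
    · exact h5 (by exact_mod_cast (mul_eq_zero.1 h3).resolve_left hg0')
    · exact h5 (by exact_mod_cast (mul_eq_zero.1 h4).resolve_left hg0')
  have h1 := sq_or hM0 (by
    intro l _ hl2
    have h3 := ev_norm hD0 hK hs (a := g * x) (b := g * y) (l := l) hne0 (by rw [h2]; exact h) hl2
    have h4 : (((g * x : ℚ) ^ 2 + D * (g * y : ℚ) ^ 2 : ℚ) : ℚ_[l]) =
        (M : ℚ_[l]) * (g : ℚ_[l]) ^ 2 := by
      have h5 : (M : ℚ_[l]) = (x : ℚ_[l]) ^ 2 + D * (y : ℚ_[l]) ^ 2 := by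
        have h6 := congrArg (fun t : ℤ => (t : ℚ_[l])) hM
        push_cast at h6
        exact h6
      push_cast
      rw [h5]
      ring
    rw [h4, norm_mul, norm_pow] at h3
    exact h3.of_mul (ev_sq (by exact_mod_cast hg0)))
  rcases h1 with ⟨T, hT⟩ | ⟨T, hT⟩
  · left
    exact ⟨T, by rw [← hM, hT]; push_cast; ring⟩
  · right
    exact ⟨T, by rw [← hM, hT]; push_cast; ring⟩

include hD0 hs in
theorem rat_red {x y T : ℤ} (hxy : IsCoprime x y) (hT : x ^ 2 + D * y ^ 2 = T ^ 2) :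
    ∃ (m : ℚ) (w : K), m ≠ 0 ∧ w ≠ 0 ∧ (x : K) + y * s = m * w ^ 2 := by
  by_cases h : x + T = 0
  · have hy : y = 0 := by
      have h1 : (D : ℤ) * y ^ 2 = 0 := by
        have h2 : T = -x := by omega
        rw [h2] at hT
        linarith
      have hq' : (D : ℤ) ≠ 0 := by exact_mod_cast hD0.ne'
      exact pow_eq_zero_iff two_ne_zero |>.mp ((mul_eq_zero.mp h1).resolve_left hq')
    have hx : x ≠ 0 := by
      rintro rfl
      rw [hy] at hxy
      exact not_isCoprime_zero_zero hxy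
    exact ⟨x, 1, by exact_mod_cast hx, one_ne_zero, by rw [hy]; push_cast; ring⟩
  · have h1 : ((x : ℚ) + T) ≠ 0 := by exact_mod_cast h
    have h1' : ((x : K) + T) ≠ 0 := by exact_mod_cast h
    refine ⟨1 / (2 * (x + T)), (x : K) + T + y * s, by positivity, ?_, ?_⟩
    · intro h0
      have h2 : ((x + T : ℚ) : K) + ((y : ℚ) : K) * s = 0 := by
        push_cast
        exact h0
      exact h1 (coords_zero hD0 hs h2).1
    · have hTF : ((x : K)) ^ 2 + D * (y : K) ^ 2 = (T : K) ^ 2 := by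
        exact_mod_cast congrArg (fun t : ℤ => (t : K)) hT
      push_cast
      rw [div_mul_eq_mul_div, one_mul, eq_div_iff (mul_ne_zero two_ne_zero h1')]
      linear_combination hTF - (y : K) ^ 2 * hs

include hD0 hK hs in
theorem rat_prim {m : ℚ} (hm : m ≠ 0) (h : PowAway 2 (m : K)) :
    ∃ (g : ℕ) (e : ℤ) (r : ℚ), Squarefree g ∧ (e = 1 ∨ e = -1) ∧ r ≠ 0 ∧ m = e * g * r ^ 2 ∧
      g ∣ 2 * D := by
  have hm' : (m : K) ≠ 0 := by exact_mod_cast hm
  obtain ⟨g, x, y, r, hg, hxy, hr, hu⟩ := exists_primitive hD0 hK hs hm'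
  have hrF : (r : K) ≠ 0 := by exact_mod_cast hr
  have hA : PowAway 2 ((g : K) * (x + y * s)) := by
    apply powAway_mul_sq hrF
    rw [← hu]
    exact h
  have hgd : g ∣ 2 * D := sqf_dvd hg (fun l hl hlg => by
    have : Fact l.Prime := ⟨hl⟩
    exact prime_dvd hD0 hK hs hg hxy hA hlg)
  have h1 : ((m : ℚ) : K) + ((0 : ℚ) : K) * s =
      ((g * x * r ^ 2 : ℚ) : K) + ((g * y * r ^ 2 : ℚ) : K) * s := by
    rw [hu]
    push_cast
    ring
  obtain ⟨h2, h3⟩ := coords_inj hD0 hs h1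
  have hy : y = 0 := by
    have hg0 : (g : ℚ) ≠ 0 := by exact_mod_cast hg.ne_zero
    rw [eq_comm, mul_eq_zero, mul_eq_zero] at h3
    rcases h3 with (h3 | h3) | h3
    · exact absurd h3 hg0
    · exact_mod_cast h3
    · exact absurd h3 (pow_ne_zero 2 hr)
  rw [hy, isCoprime_zero_right, Int.isUnit_iff] at hxy
  exact ⟨g, x, r, hg, hxy, hr, by rw [h2]; ring, hgd⟩

omit [NumberField K] in
include hs in
theorem exists_t (hD8 : D % 8 = 7) (ι : K →+* PadicAlgCl 2) :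
    ∃ t : ℚ_[2], algebraMap ℚ_[2] (PadicAlgCl 2) t = ι s := by
  obtain ⟨k, hk⟩ : ∃ k : ℤ, -(D : ℤ) = 1 + 8 * k := ⟨(-(D : ℤ) - 1) / 8, by omega⟩
  obtain ⟨z, hz⟩ := isSquare_one_add_eight (k : ℤ_[2])
  have h0 : z ^ 2 = -(D : ℤ_[2]) := by
    have h1 := congrArg (fun t : ℤ => (t : ℤ_[2])) hk
    push_cast at h1
    rw [sq, ← hz, h1]
  have h1 : (z : ℚ_[2]) ^ 2 = -(D : ℚ_[2]) := by
    have h2 := congrArg (fun t : ℤ_[2] => (t : ℚ_[2])) h0
    push_cast at h2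
    exact h2
  have h2 : (ι s) ^ 2 = (algebraMap ℚ_[2] (PadicAlgCl 2) (z : ℚ_[2])) ^ 2 := by
    rw [emb_s hs ι, ← map_pow, h1, map_neg, map_natCast]
  rcases sq_eq_sq_iff_eq_or_eq_neg.1 h2 with h | h
  · exact ⟨z, h.symm⟩
  · exact ⟨-z, by rw [map_neg, h]⟩

include hD0 hK hs in
theorem comp_bot {ι : K →+* PadicAlgCl 2} {t : ℚ_[2]}
    (ht : algebraMap ℚ_[2] (PadicAlgCl 2) t = ι s) : comp 2 ι = ⊥ := by
  rw [eq_bot_iff]
  unfold comp
  rw [IntermediateField.adjoin_le_iff]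
  rintro z ⟨k, rfl⟩
  obtain ⟨x, y, rfl⟩ := exists_coords hD0 hK hs k
  rw [← emb_of_dich ht x y]
  exact IntermediateField.algebraMap_mem _ _

include hD0 hK hs in
theorem local_sq {ι : K →+* PadicAlgCl 2} {t : ℚ_[2]}
    (ht : algebraMap ℚ_[2] (PadicAlgCl 2) t = ι s) {a b : ℚ}
    (h : PowAt 2 ι ((a : K) + b * s)) : IsSquare ((a : ℚ_[2]) + b * t) := by
  obtain ⟨β, hβ, h2⟩ := h
  rw [comp_bot hD0 hK hs ht] at hβ
  obtain ⟨γ, hγ⟩ := IntermediateField.mem_bot.1 hβ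
  refine ⟨γ, ?_⟩
  apply (algebraMap ℚ_[2] (PadicAlgCl 2)).injective
  rw [emb_of_dich ht a b, ← h2, ← hγ, map_mul, sq]

include hD0 hK hs in
/-- the general form of the argument -/
theorem rigid_of (hD8 : D % 8 = 7)
    (hrat : ∀ g : ℕ, g ∣ 2 * D → (g % 8 = 1 → g = 1) ∧ (g % 8 = 7 → g = D))
    (hB : ∀ (t : ℚ_[2]) (g : ℕ) (x y T : ℤ), t ^ 2 = -(D : ℚ_[2]) → g ∣ 2 * D →
      IsCoprime x y → x ^ 2 + D * y ^ 2 = 2 * T ^ 2 →
      ¬ IsSquare ((g : ℚ_[2]) * (x + y * t))) (ι : K →+* PadicAlgCl 2) : Rigid 2 K ι := by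
  intro u hu hA hL
  obtain ⟨t, ht⟩ := exists_t hs hD8 ι
  have ht2 : t ^ 2 = -(D : ℚ_[2]) := by
    apply (algebraMap ℚ_[2] (PadicAlgCl 2)).injective
    rw [map_pow, ht, emb_s hs ι, map_neg, map_natCast]
  obtain ⟨g, x, y, r, hg, hxy, hr, rfl⟩ := exists_primitive hD0 hK hs hu
  have hrF : (r : K) ≠ 0 := by exact_mod_cast hr
  have hA' : PowAway 2 ((g : K) * (x + y * s)) := powAway_mul_sq hrF hA
  have hL' : PowAt 2 ι ((g : K) * (x + y * s)) := powAt_mul_sq hrF hL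
  have hgd : g ∣ 2 * D := sqf_dvd hg (fun l hl hlg => by
    have : Fact l.Prime := ⟨hl⟩
    exact prime_dvd hD0 hK hs hg hxy hA' hlg)
  rcases norm_form hD0 hK hs hg hxy hA' with ⟨T, hT⟩ | ⟨T, hT⟩
  · obtain ⟨m, w, hm, hw, hmw⟩ := rat_red hD0 hs hxy hT
    have hg0 : (g : ℚ) ≠ 0 := by exact_mod_cast hg.ne_zero
    have hgm : (g : ℚ) * m ≠ 0 := mul_ne_zero hg0 hm
    have e1 : (g : K) * (x + y * s) = ((g * m : ℚ) : K) * w ^ 2 := by
      rw [hmw]
      push_cast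
      ring
    rw [e1] at hA' hL'
    have hA2 := powAway_mul_sq hw hA'
    have hL2 := powAt_mul_sq hw hL'
    obtain ⟨g', e, r', hg', he, hr', hm2, hgd'⟩ := rat_prim hD0 hK hs hgm hA2
    have hl := local_sq hD0 hK hs ht (a := g * m) (b := 0) (by
      rw [Rat.cast_zero, zero_mul, add_zero]
      exact hL2)
    rw [Rat.cast_zero, zero_mul, add_zero, hm2] at hl
    have hrp : (r' : ℚ_[2]) ≠ 0 := by exact_mod_cast hr'
    have hl2 : IsSquare (((e * g' : ℤ)) : ℚ_[2]) := by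
      obtain ⟨b, hb⟩ := hl
      refine ⟨b / r', ?_⟩
      push_cast at hb ⊢
      rw [div_mul_div_comm, eq_div_iff (mul_ne_zero hrp hrp), ← hb]
      ring
    have h4 : ¬ (4 : ℤ) ∣ e * g' := by
      intro h4
      have h5 : (4 : ℤ) ∣ g' := by
        rcases he with rfl | rfl
        · rwa [one_mul] at h4
        · rwa [neg_one_mul, dvd_neg] at h4
      have h6 : 4 ∣ g' := by exact_mod_cast h5
      obtain ⟨c, hc⟩ := h6
      have h7 := hg' 2 ⟨c, by rw [hc]; ring⟩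
      exact absurd (Nat.isUnit_iff.1 h7) (by norm_num)
    have h8 := mod_eight_int h4 hl2
    obtain ⟨k1, k2⟩ := hrat g' hgd'
    rcases he with rfl | rfl
    · have h9 : g' = 1 := k1 (by omega)
      refine ⟨r' * w * r, ?_⟩
      rw [e1, hm2, h9]
      push_cast
      ring
    · have h9 : g' = D := k2 (by omega)
      refine ⟨s * r' * w * r, ?_⟩
      rw [e1, hm2, h9]
      push_cast
      linear_combination ((r' : K) ^ 2 * w ^ 2 * (r : K) ^ 2) * hs
  · exfalso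
    apply hB t g x y T ht2 hgd hxy hT
    have hl := local_sq hD0 hK hs ht (a := g * x) (b := g * y) (by
      have e1 : ((g * x : ℚ) : K) + ((g * y : ℚ) : K) * s = (g : K) * (x + y * s) := by
        push_cast
        ring
      rw [e1]
      exact hL')
    have e2 : (((g * x : ℚ) : ℚ_[2])) + ((g * y : ℚ) : ℚ_[2]) * t =
        (g : ℚ_[2]) * (x + y * t) := by
      push_cast
      ring
    rwa [e2] at hl

end Fin

end RTwo

open RTwo Module Pool.Agent.Lib.MP_7c08ba_nt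

/-- Rigidity of `ℚ(√-q)` at both places above `2`, `q ≡ 7 (mod 16)`. -/
theorem rigidTwo {q : ℕ} (hq : q.Prime) (h16 : q % 16 = 7) {K : Type*} [Field K] [NumberField K]
    (hK : finrank ℚ K = 2) {s : K} (hs : s ^ 2 = -(q : K)) (ι : K →+* PadicAlgCl 2) :
    Rigid 2 K ι := by
  refine rigid_of hq.pos hK hs (by omega) ?_ ?_ ι
  · intro g hg
    obtain ⟨d1, d2, h4, h5, rfl⟩ := (Nat.dvd_mul).mp hg
    rcases (Nat.dvd_prime Nat.prime_two).mp h4 with rfl | rfl <;>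
      rcases (Nat.dvd_prime hq).mp h5 with rfl | rfl <;> constructor <;> intro h <;> omega
  · intro t g x y T ht hg hxy hT
    refine not_isSquare_dyadic h16 hxy hT ht ?_
    obtain ⟨d1, d2, h4, h5, rfl⟩ := (Nat.dvd_mul).mp hg
    rcases (Nat.dvd_prime Nat.prime_two).mp h4 with rfl | rfl <;>
      rcases (Nat.dvd_prime hq).mp h5 with rfl | rfl <;> simp

/-- Rigidity of `ℚ(√-(q r))` at both places above `2`, `q ≡ 3`, `r ≡ 5 (mod 8)`. -/
theorem rigidTwo_qr {q r : ℕ} (hq : q.Prime) (hr : r.Prime) (h3 : q % 8 = 3) (h5 : r % 8 = 5)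
    {K : Type*} [Field K] [NumberField K] (hK : finrank ℚ K = 2) {s : K}
    (hs : s ^ 2 = -((q * r : ℕ) : K)) (ι : K →+* PadicAlgCl 2) : Rigid 2 K ι := by
  have hqr : (q * r) % 8 = 7 := by rw [Nat.mul_mod, h3, h5]
  refine rigid_of (Nat.mul_pos hq.pos hr.pos) hK hs hqr ?_ ?_ ι
  · intro g hg
    obtain ⟨d1, d2, h4, h6, rfl⟩ := (Nat.dvd_mul).mp hg
    obtain ⟨d3, d4, h7, h8, rfl⟩ := (Nat.dvd_mul).mp h6
    rcases (Nat.dvd_prime Nat.prime_two).mp h4 with rfl | rfl <;>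
      rcases (Nat.dvd_prime hq).mp h7 with rfl | rfl <;>
      rcases (Nat.dvd_prime hr).mp h8 with rfl | rfl <;> constructor <;> intro h <;>
      (try simp only [one_mul, mul_one] at h ⊢) <;> omega
  · intro t g x y T ht hg hxy hT
    exfalso
    have : Fact q.Prime := ⟨hq⟩
    have hqp : Prime (q : ℤ) := Nat.prime_iff_prime_int.mp hq
    have hTz : (q : ℤ) ∣ T := by
      rw [← ZMod.intCast_zmod_eq_zero_iff_dvd] at *
      by_contra hT0
      have h1 : ((x : ZMod q)) ^ 2 = 2 * (T : ZMod q) ^ 2 := by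
        have h2 := congrArg (fun t : ℤ => (t : ZMod q)) hT
        push_cast at h2
        rw [ZMod.natCast_self, zero_mul, zero_mul, add_zero] at h2
        exact h2
      have h2 : IsSquare (2 : ZMod q) := by
        refine ⟨(x : ZMod q) / T, ?_⟩
        rw [div_mul_div_comm, eq_div_iff (mul_ne_zero hT0 hT0), ← sq, ← sq, h1]
      rw [ZMod.exists_sq_eq_two_iff (by rintro rfl; omega)] at h2
      omega
    have hx : (q : ℤ) ∣ x := by
      have h1 : (q : ℤ) ∣ x ^ 2 := by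
        have h2 : x ^ 2 = 2 * T ^ 2 - q * (r * y ^ 2) := by
          push_cast at hT
          linear_combination hT
        rw [h2]
        exact dvd_sub ((hTz.pow two_ne_zero).mul_left 2) (dvd_mul_right _ _)
      exact hqp.dvd_of_dvd_pow h1
    have hy : (q : ℤ) ∣ y := by
      obtain ⟨a, rfl⟩ := hx
      obtain ⟨b, rfl⟩ := hTz
      have h1 : (q : ℤ) * (r * y ^ 2) = q * (q * (2 * b ^ 2 - a ^ 2)) := by
        push_cast at hT
        linear_combination hT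
      have h2 : (r : ℤ) * y ^ 2 = q * (2 * b ^ 2 - a ^ 2) :=
        mul_left_cancel₀ (by exact_mod_cast hq.ne_zero) h1
      have h3' : (q : ℤ) ∣ r * y ^ 2 := ⟨_, h2⟩
      rcases hqp.dvd_or_dvd h3' with h6 | h6
      · exfalso
        have h7 : q ∣ r := by exact_mod_cast h6
        have h8 := (Nat.prime_dvd_prime_iff_eq hq hr).1 h7
        omega
      · exact hqp.dvd_of_dvd_pow h6
    have h6 := hxy.isUnit_of_dvd' hx hy
    exact hqp.not_isUnit h6

/-- `2` splits: the completion at a place above `2` is `ℚ₂`. -/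
theorem comp_two_eq_bot {D : ℕ} (hD : D % 8 = 7) {K : Type*} [Field K] [NumberField K]
    (hK : finrank ℚ K = 2) {s : K} (hs : s ^ 2 = -(D : K)) (ι : K →+* PadicAlgCl 2) :
    comp 2 ι = ⊥ := by
  obtain ⟨t, ht⟩ := exists_t hs hD ι
  exact comp_bot (by omega) hK hs ht

end BKGen
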