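import Mathlib

/-!
Definitions: places, decomposition and inertia groups of the algebraic closure of a number field,
through embeddings into the algebraic closure of `ℚ_l`; the rigidity condition.
-/

namespace BKGen

/-- The completion, inside the algebraic closure of `ℚ_p`, of the field `K` at the place given by
the embedding `ι`: it is `ℚ_p(ι(K))`. -/
noncomputable def comp (p : ℕ) [Fact p.Prime] {K : Type*} [Field K] (ι : K →+* PadicAlgCl p) :
    IntermediateField ℚ_[p] (PadicAlgCl p) :=
  IntermediateField.adjoin ℚ_[p] (Set.range ι)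

/-- `a` is, up to units, a `p`-th power at all places of `K` which do not lie above `p`. -/
def PowAway (p : ℕ) {K : Type*} [Field K] (a : K) : Prop :=
  ∀ (l : ℕ) [Fact l.Prime], l ≠ p → ∀ j : K →+* PadicAlgCl l, ∃ b : K, ‖j a‖ = ‖j b‖ ^ p

/-- `a` is a `p`-th power in the completion of `K` at the place given by `ι`. -/
def PowAt (p : ℕ) [Fact p.Prime] {K : Type*} [Field K] (ι : K →+* PadicAlgCl p) (a : K) : Prop :=
  ∃ β ∈ comp p ι, β ^ p = ι a

/-- Rigidity of the number field `K` at the place `ι` above `p`. -/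
def Rigid (p : ℕ) [Fact p.Prime] (K : Type*) [Field K] (ι : K →+* PadicAlgCl p) : Prop :=
  ∀ a : K, a ≠ 0 → PowAway p a → PowAt p ι a → ∃ b : K, b ^ p = a

section Groups

variable (F Ω : Type*) [Field F] [Field Ω] [Algebra F Ω]

/-- The decomposition group of the place `j`. -/
def Dec {l : ℕ} [Fact l.Prime] (j : Ω →+* PadicAlgCl l) : Subgroup (Ω ≃ₐ[F] Ω) where
  carrier := {σ | ∀ x, ‖j (σ x)‖ = ‖j x‖}
  one_mem' := fun _ => rfl
  mul_mem' := by
    intro a b ha hb x
    rw [AlgEquiv.mul_apply, ha, hb]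
  inv_mem' := by
    intro a ha x
    have h := ha (a⁻¹ x)
    rw [← AlgEquiv.mul_apply, mul_inv_cancel, AlgEquiv.one_apply] at h
    exact h.symm

/-- The inertia group of the place `j`: all `σ` with `|j (σ x - x)| < 1` for `|j x| ≤ 1`. -/
def Inert {l : ℕ} [Fact l.Prime] (j : Ω →+* PadicAlgCl l) : Set (Ω ≃ₐ[F] Ω) :=
  {σ | ∀ x, ‖j x‖ ≤ 1 → ‖j (σ x - x)‖ < 1}

end Groups

end BKGen
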