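import Pool.Agent.Lib.MP_7c08ba_nt.Gen.Unram
import Pool.Agent.Lib.MP_7c08ba_nt.Split

/-!
Places of number fields given by embeddings into the algebraic closure of `ℚ_l`, and prime ideals.
-/

set_option linter.unusedSectionVars false

namespace BKGen.Genus

open Ideal NumberField IsDedekindDomain HeightOneSpectrum WithZero
open scoped Pointwise

section Place

variable {l : ℕ} [Fact l.Prime]

theorem norm_le_one_of_integral {x : PadicAlgCl l} (hx : IsIntegral ℤ x) : ‖x‖ ≤ 1 := by
  by_contra hcon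
  push Not at hcon
  obtain ⟨f, hf, hfx⟩ := hx
  have h1 : (Polynomial.eval₂ (algebraMap ℤ (PadicAlgCl l)) x f) = 0 := hfx
  rw [Polynomial.eval₂_eq_sum_range, Finset.sum_range_succ, hf.coeff_natDegree, map_one, one_mul] at h1
  have h2 : ‖∑ i ∈ Finset.range f.natDegree, algebraMap ℤ (PadicAlgCl l) (f.coeff i) * x ^ i‖ <
      ‖x‖ ^ f.natDegree := by
    by_cases hd : f.natDegree = 0
    · rw [hd]; simp
    · obtain ⟨i, hi, hi2⟩ := IsUltrametricDist.exists_norm_finsetSum_le_of_nonempty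
        (t := Finset.range f.natDegree) (Finset.nonempty_range_iff.mpr hd)
        (fun i => algebraMap ℤ (PadicAlgCl l) (f.coeff i) * x ^ i)
      refine hi2.trans_lt ?_
      rw [norm_mul, norm_pow]
      have h3 : ‖algebraMap ℤ (PadicAlgCl l) (f.coeff i)‖ ≤ 1 := by
        rw [eq_intCast]; exact IsUltrametricDist.norm_intCast_le_one _ _
      refine (mul_le_of_le_one_left (pow_nonneg (norm_nonneg _) _) h3).trans_lt ?_
      exact pow_lt_pow_right₀ hcon (Finset.mem_range.mp hi)
  have h3 : x ^ f.natDegree = -∑ i ∈ Finset.range f.natDegree,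
      algebraMap ℤ (PadicAlgCl l) (f.coeff i) * x ^ i := by
    rw [eq_neg_iff_add_eq_zero, add_comm]; exact h1
  rw [← norm_pow, h3, norm_neg] at h2
  exact lt_irrefl _ h2

/-- The prime of the ring of algebraic integers given by an embedding. -/
def primeOf {E : Type*} [Field E] (j : E →+* PadicAlgCl l) : Ideal (𝓞 E) where
  carrier := {x | ‖j (x : E)‖ < 1}
  zero_mem' := by
    change ‖j ((0 : 𝓞 E) : E)‖ < 1
    simp
  add_mem' := by
    intro a b ha hb
    change ‖j ((a + b : 𝓞 E) : E)‖ < 1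
    have : ((a + b : 𝓞 E) : E) = (a : E) + b := map_add _ _ _
    rw [this, map_add]
    exact (IsUltrametricDist.norm_add_le_max _ _).trans_lt (max_lt ha hb)
  smul_mem' := by
    intro c x hx
    change ‖j ((c * x : 𝓞 E) : E)‖ < 1
    have : ((c * x : 𝓞 E) : E) = (c : E) * x := map_mul _ _ _
    rw [this, map_mul, norm_mul]
    have h1 : ‖j (c : E)‖ ≤ 1 := norm_le_one_of_integral (c.2.map j.toIntAlgHom)
    exact mul_lt_one_of_nonneg_of_lt_one_right h1 (norm_nonneg _) hx

variable {E : Type*} [Field E] (j : E →+* PadicAlgCl l)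

theorem mem_primeOf {x : 𝓞 E} : x ∈ primeOf j ↔ ‖j (x : E)‖ < 1 := Iff.rfl

theorem norm_int_le (x : 𝓞 E) : ‖j (x : E)‖ ≤ 1 := norm_le_one_of_integral (x.2.map j.toIntAlgHom)

theorem norm_eq_one_of_not_mem {x : 𝓞 E} (h : x ∉ primeOf j) : ‖j (x : E)‖ = 1 :=
  le_antisymm (norm_int_le j x) (not_lt.mp h)

instance primeOf_isPrime : (primeOf j).IsPrime := by
  constructor
  · intro h
    have h1 : (1 : 𝓞 E) ∈ primeOf j := by rw [h]; trivial
    rw [mem_primeOf] at h1
    simp at h1
  · intro x y hxy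
    by_contra hcon
    push Not at hcon
    have h1 := norm_eq_one_of_not_mem j hcon.1
    have h2 := norm_eq_one_of_not_mem j hcon.2
    rw [mem_primeOf] at hxy
    have : ((x * y : 𝓞 E) : E) = (x : E) * y := map_mul _ _ _
    rw [this, map_mul, norm_mul, h1, h2] at hxy
    norm_num at hxy

theorem l_mem_primeOf : (l : 𝓞 E) ∈ primeOf j := by
  rw [mem_primeOf]
  have : ((l : 𝓞 E) : E) = (l : E) := map_natCast _ _
  rw [this, map_natCast]
  exact norm_l_lt

theorem natCast_mem_primeOf {m : ℕ} (hm : m.Prime) : (m : 𝓞 E) ∈ primeOf j ↔ m = l := by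
  constructor
  · intro h
    by_contra hne
    rw [mem_primeOf] at h
    have h1 : ((m : 𝓞 E) : E) = (m : E) := map_natCast _ _
    rw [h1, map_natCast, norm_natCast_eq_one (fun hd => hne (
      ((Nat.prime_dvd_prime_iff_eq Fact.out hm).mp hd).symm))] at h
    exact lt_irrefl _ h
  · rintro rfl
    exact l_mem_primeOf j

theorem primeOf_ne_bot [CharZero E] : primeOf j ≠ ⊥ := by
  intro h
  have h1 := l_mem_primeOf j
  rw [h, Ideal.mem_bot] at h1
  have h2 := congrArg (fun x : 𝓞 E => (x : E)) h1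
  simp only [map_natCast, map_zero] at h2
  exact (Fact.out : l.Prime).ne_zero (by exact_mod_cast h2)

end Place

section Valuation

variable {l : ℕ} [Fact l.Prime] {E : Type*} [Field E] [NumberField E] (j : E →+* PadicAlgCl l)

/-- The prime as a point of the height one spectrum. -/
noncomputable def spec : HeightOneSpectrum (𝓞 E) := ⟨primeOf j, primeOf_isPrime j, primeOf_ne_bot j⟩

theorem spec_asIdeal : (spec j).asIdeal = primeOf j := rfl

theorem norm_of_val_eq_one {y : E} (h : (spec j).valuation E y = 1) : ‖j y‖ = 1 := by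
  obtain ⟨n, d, hnd⟩ := exists_primeCompl_mul_eq_of_integer (spec j) y h.le
  have hd : (d : 𝓞 E) ∉ primeOf j := d.2
  have hd1 := norm_eq_one_of_not_mem j hd
  have hvd : (spec j).valuation E (algebraMap (𝓞 E) E (d : 𝓞 E)) = 1 := by
    rw [valuation_eq_one_iff_notMem]; exact hd
  have hvn : (spec j).valuation E (algebraMap (𝓞 E) E n) = 1 := by
    rw [← hnd, map_mul, h, hvd, one_mul]
  rw [valuation_eq_one_iff_notMem] at hvn
  have hn1 := norm_eq_one_of_not_mem j hvn
  have h1 : ‖j (y * algebraMap (𝓞 E) E (d : 𝓞 E))‖ = ‖j (algebraMap (𝓞 E) E n)‖ := by rw [hnd]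
  rw [map_mul, norm_mul] at h1
  change ‖j y‖ * ‖j ((d : 𝓞 E) : E)‖ = ‖j ((n : 𝓞 E) : E)‖ at h1
  rw [hd1, hn1, mul_one] at h1
  exact h1

theorem norm_of_val_lt_one {y : E} (h : (spec j).valuation E y < 1) : ‖j y‖ < 1 := by
  obtain ⟨n, d, hnd⟩ := exists_primeCompl_mul_eq_of_integer (spec j) y h.le
  have hd : (d : 𝓞 E) ∉ primeOf j := d.2
  have hd1 := norm_eq_one_of_not_mem j hd
  have hvd : (spec j).valuation E (algebraMap (𝓞 E) E (d : 𝓞 E)) = 1 := by
    rw [valuation_eq_one_iff_notMem]; exact hd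
  have hvn : (spec j).valuation E (algebraMap (𝓞 E) E n) < 1 := by
    rw [← hnd, map_mul, hvd, mul_one]; exact h
  rw [valuation_lt_one_iff_mem] at hvn
  have hn1 : ‖j (n : E)‖ < 1 := hvn
  have h1 : ‖j (y * algebraMap (𝓞 E) E (d : 𝓞 E))‖ = ‖j (algebraMap (𝓞 E) E n)‖ := by rw [hnd]
  rw [map_mul, norm_mul] at h1
  change ‖j y‖ * ‖j ((d : 𝓞 E) : E)‖ = ‖j ((n : 𝓞 E) : E)‖ at h1
  rw [hd1, mul_one] at h1
  rw [h1]; exact hn1

theorem val_eq_one_of_norm {y : E} (h : ‖j y‖ = 1) : (spec j).valuation E y = 1 := by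
  have hy0 : y ≠ 0 := by
    rintro rfl
    rw [map_zero, norm_zero] at h
    exact zero_ne_one h
  rcases lt_trichotomy ((spec j).valuation E y) 1 with h1 | h1 | h1
  · exact absurd (norm_of_val_lt_one j h1) (by rw [h]; exact lt_irrefl _)
  · exact h1
  · have h2 : (spec j).valuation E y⁻¹ < 1 := by
      rw [map_inv₀]
      exact inv_lt_one_of_one_lt₀ h1
    have h3 := norm_of_val_lt_one j h2
    rw [map_inv₀, norm_inv, h, inv_one] at h3
    exact absurd h3 (lt_irrefl _)

/-- The absolute value is determined by the prime. -/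
theorem norm_eq_of_prime_eq (j₁ j₂ : E →+* PadicAlgCl l) (h : primeOf j₁ = primeOf j₂) (x : E) :
    ‖j₁ x‖ = ‖j₂ x‖ := by
  by_cases hx0 : x = 0
  · rw [hx0, map_zero, map_zero]
  have hs : spec j₁ = spec j₂ := HeightOneSpectrum.ext h
  set v := spec j₁ with hv
  have hl : (l : E) ≠ 0 := by exact_mod_cast (Fact.out : l.Prime).ne_zero
  have hvl : v.valuation E (l : E) < 1 := by
    have h1 : (l : E) = algebraMap (𝓞 E) E (l : 𝓞 E) := (map_natCast _ _).symm
    rw [h1, valuation_lt_one_iff_mem]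
    exact l_mem_primeOf j₁
  have hvl0 : v.valuation E (l : E) ≠ 0 := by rwa [Ne, (v.valuation E).zero_iff]
  have hvx0 : v.valuation E x ≠ 0 := by rwa [Ne, (v.valuation E).zero_iff]
  set a := log (v.valuation E x) with ha
  set e := log (v.valuation E (l : E)) with he
  have hva : v.valuation E x = exp a := (exp_log hvx0).symm
  have hve : v.valuation E (l : E) = exp e := (exp_log hvl0).symm
  have he0 : e < 0 := by
    rw [hve, ← exp_zero, exp_lt_exp] at hvl
    exact hvl
  have hy : v.valuation E (x ^ e * (l : E) ^ (-a)) = 1 := by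
    rw [map_mul, map_zpow₀, map_zpow₀, hva, hve, ← exp_zsmul, ← exp_zsmul, ← exp_add, ← exp_zero]
    congr 1
    simp only [smul_eq_mul]
    ring
  have h1 := norm_of_val_eq_one j₁ hy
  have h2 := norm_of_val_eq_one j₂ (by rw [← hs]; exact hy)
  rw [map_mul, map_zpow₀, map_zpow₀, map_natCast, norm_mul, norm_zpow] at h1 h2
  have hl0 : ‖((l : PadicAlgCl l)) ^ (-a)‖ ≠ 0 := by
    rw [norm_ne_zero_iff]
    apply zpow_ne_zero
    have : (l : PadicAlgCl l) = j₁ (l : E) := (map_natCast _ _).symm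
    rw [this, Ne, map_eq_zero]
    exact hl
  have h3 : ‖j₁ x‖ ^ e = ‖j₂ x‖ ^ e := mul_right_cancel₀ hl0 (h1.trans h2.symm)
  exact (zpow_left_inj₀ (norm_nonneg _) (norm_nonneg _) he0.ne).mp h3

end Valuation

end BKGen.Genus
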