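import Pool.Agent.Lib.MP_7c08ba_nt.Gen.Local

/-!
Part (C), second half: an element fixed by the inertia group has the absolute value of an element
of the base field. The inertia group is compared with the automorphisms fixing all roots of unity
of order prime to `l` (Teichmueller representatives), and these generate extensions with the same
value group.
-/

open Polynomial

namespace BKGen

section Basic

variable {l : ℕ} [Fact l.Prime]

theorem norm_sub_le_max {x y : PadicAlgCl l} : ‖x - y‖ ≤ max ‖x‖ ‖y‖ := by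
  rw [sub_eq_add_neg, ← norm_neg y]
  exact IsUltrametricDist.norm_add_le_max _ _

/-- the closed unit ball -/
def ball (l : ℕ) [Fact l.Prime] : Subring (PadicAlgCl l) where
  carrier := {x | ‖x‖ ≤ 1}
  mul_mem' := by
    intro a b ha hb
    change ‖a * b‖ ≤ 1
    rw [norm_mul]
    exact mul_le_one₀ ha (norm_nonneg _) hb
  one_mem' := by change ‖(1 : PadicAlgCl l)‖ ≤ 1; simp
  add_mem' := by
    intro a b ha hb
    exact (IsUltrametricDist.norm_add_le_max _ _).trans (max_le ha hb)
  zero_mem' := by change ‖(0 : PadicAlgCl l)‖ ≤ 1; simp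
  neg_mem' := by
    intro a ha
    change ‖-a‖ ≤ 1
    rw [norm_neg]; exact ha

theorem norm_l_lt : ‖(l : PadicAlgCl l)‖ < 1 := by
  have h := PadicAlgCl.norm_extends l (l : ℚ_[l])
  rw [map_natCast] at h
  rw [h]
  exact Padic.norm_p_lt_one

theorem norm_natCast_eq_one {N : ℕ} (hN : ¬ l ∣ N) : ‖(N : PadicAlgCl l)‖ = 1 := by
  have h := PadicAlgCl.norm_extends l (N : ℚ_[l])
  rw [map_natCast] at h
  rw [h]
  exact Padic.norm_natCast_eq_one_iff.mpr (((Fact.out : l.Prime).coprime_iff_not_dvd).mpr hN)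

theorem norm_root {N : ℕ} (hN : N ≠ 0) {ζ : PadicAlgCl l} (h : ζ ^ N = 1) : ‖ζ‖ = 1 := by
  have h1 : ‖ζ‖ ^ N = 1 := by rw [← norm_pow, h, norm_one]
  exact (pow_eq_one_iff_of_nonneg (norm_nonneg _) hN).mp h1

/-- distinct roots of unity of order prime to `l` have distance one -/
theorem norm_root_sub_one {N : ℕ} (hN : ¬ l ∣ N) {ω : PadicAlgCl l} (h : ω ^ N = 1) (h1 : ω ≠ 1) :
    ‖ω - 1‖ = 1 := by
  have hN0 : N ≠ 0 := by rintro rfl; exact hN (dvd_zero _)
  have hω : ‖ω‖ = 1 := norm_root hN0 h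
  have hle : ‖ω - 1‖ ≤ 1 := by
    refine norm_sub_le_max.trans ?_
    rw [hω, norm_one, max_self]
  rcases lt_or_eq_of_le hle with hlt | heq
  · exfalso
    have hgeom : ∑ i ∈ Finset.range N, ω ^ i = 0 := by
      have := geom_sum_mul ω N
      rw [h, sub_self] at this
      exact (mul_eq_zero.mp this).resolve_right (sub_ne_zero.mpr h1)
    have hpow : ∀ i : ℕ, ‖ω ^ i - 1‖ < 1 := by
      intro i
      have := geom_sum_mul ω i
      rw [← this, norm_mul]
      have h2 : ‖∑ k ∈ Finset.range i, ω ^ k‖ ≤ 1 :=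
        IsUltrametricDist.norm_sum_le_of_forall_le_of_nonneg zero_le_one fun k _ => by
          rw [norm_pow, hω, one_pow]
      exact mul_lt_one_of_nonneg_of_lt_one_right h2 (norm_nonneg _) hlt
    have hsum : (N : PadicAlgCl l) = -∑ i ∈ Finset.range N, (ω ^ i - 1) := by
      rw [Finset.sum_sub_distrib, hgeom]
      simp
    have h3 : ‖(N : PadicAlgCl l)‖ < 1 := by
      rw [hsum, norm_neg]
      obtain ⟨i, -, hi⟩ := IsUltrametricDist.exists_norm_finsetSum_le_of_nonempty
        (t := Finset.range N) (Finset.nonempty_range_iff.mpr hN0) (fun i => ω ^ i - 1)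
      exact hi.trans_lt (hpow i)
    rw [norm_natCast_eq_one hN] at h3
    exact lt_irrefl _ h3
  · exact heq

theorem norm_root_sub {N : ℕ} (hN : ¬ l ∣ N) {ζ ζ' : PadicAlgCl l} (h : ζ ^ N = 1)
    (h' : ζ' ^ N = 1) (hne : ζ ≠ ζ') : ‖ζ - ζ'‖ = 1 := by
  have hN0 : N ≠ 0 := by rintro rfl; exact hN (dvd_zero _)
  have hζ' : ‖ζ'‖ = 1 := norm_root hN0 h'
  have hne0 : ζ' ≠ 0 := by rintro rfl; simp at hζ'
  have h1 : (ζ / ζ') ^ N = 1 := by rw [div_pow, h, h', div_one]
  have h2 : ζ / ζ' ≠ 1 := by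
    intro hh; exact hne ((div_eq_one_iff_eq hne0).mp hh)
  have h3 := norm_root_sub_one hN h1 h2
  have h4 : ζ - ζ' = (ζ / ζ' - 1) * ζ' := by field_simp
  rw [h4, norm_mul, h3, hζ', one_mul]

/-- if `‖y‖ ≤ 1` and `y ^ (l ^ s)` is close to one then `y` is close to one -/
theorem norm_sub_one_of_pow {y : PadicAlgCl l} (hy : ‖y‖ ≤ 1) (s : ℕ)
    (h : ‖y ^ (l ^ s) - 1‖ < 1) : ‖y - 1‖ < 1 := by
  have hl : l.Prime := Fact.out
  have hz : ‖y - 1‖ ≤ 1 := norm_sub_le_max.trans (by rw [norm_one]; exact max_le hy le_rfl)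
  obtain ⟨r, hr⟩ := exists_add_pow_prime_pow_eq hl (⟨y - 1, hz⟩ : ball l) (1 : ball l) s
  have hr2 : y ^ (l ^ s) = (y - 1) ^ (l ^ s) + 1 + (l : PadicAlgCl l) * ((y - 1) * 1 * (r : PadicAlgCl l)) := by
    have := congrArg (Subtype.val) hr
    simp only [Subring.coe_add, Subring.coe_mul, Subring.coe_pow, Subring.coe_one, one_pow,
      sub_add_cancel] at this
    rw [this]
    simp [mul_assoc]
  have h1 : (y - 1) ^ (l ^ s) = (y ^ (l ^ s) - 1) -
      (l : PadicAlgCl l) * ((y - 1) * 1 * (r : PadicAlgCl l)) := by rw [hr2]; ring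
  have h2 : ‖(y - 1) ^ (l ^ s)‖ < 1 := by
    rw [h1]
    refine norm_sub_le_max.trans_lt (max_lt h ?_)
    rw [norm_mul, norm_mul, norm_mul]
    have hr1 : ‖(r : PadicAlgCl l)‖ ≤ 1 := r.2
    have h3 : ‖y - 1‖ * ‖(1 : PadicAlgCl l)‖ * ‖(r : PadicAlgCl l)‖ ≤ 1 := by
      rw [norm_one, mul_one]
      exact mul_le_one₀ hz (norm_nonneg _) hr1
    exact mul_lt_one_of_nonneg_of_lt_one_left (norm_nonneg _) norm_l_lt h3
  rw [norm_pow] at h2
  by_contra h3
  exact absurd h2 (not_lt.mpr (one_le_pow₀ (not_lt.mp h3)))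

theorem exists_pow_near (x : PadicAlgCl l) (hx : ‖x‖ = 1) :
    ∃ M : ℕ, 0 < M ∧ ‖x ^ M - 1‖ < 1 := by
  have hint : IsIntegral ℚ_[l] x := (Algebra.IsAlgebraic.isAlgebraic x).isIntegral
  let S : Submodule ℚ_[l] (PadicAlgCl l) := Subalgebra.toSubmodule (Algebra.adjoin ℚ_[l] {x})
  have hfg : S.FG := hint.fg_adjoin_singleton
  have : FiniteDimensional ℚ_[l] S := Module.Finite.iff_fg.mpr hfg
  have hproper : ProperSpace S := FiniteDimensional.proper ℚ_[l] S
  have hmem : ∀ n : ℕ, x ^ n ∈ S := fun n =>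
    Subalgebra.pow_mem _ (Algebra.subset_adjoin (Set.mem_singleton x)) n
  let u : ℕ → S := fun n => ⟨x ^ n, hmem n⟩
  have hu : ∀ n, u n ∈ Metric.closedBall (0 : S) 1 := by
    intro n
    rw [mem_closedBall_zero_iff]
    change ‖x ^ n‖ ≤ 1
    rw [norm_pow, hx, one_pow]
  obtain ⟨a, -, φ, hφ, hlim⟩ := (isCompact_closedBall (0 : S) 1).tendsto_subseq hu
  have hc := hlim.cauchySeq
  obtain ⟨N, hN⟩ := Metric.cauchySeq_iff.mp hc 1 one_pos
  have h1 := hN (N + 1) (Nat.le_succ N) N le_rfl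
  have h2 : ‖x ^ φ (N + 1) - x ^ φ N‖ < 1 := by
    rw [dist_eq_norm] at h1
    exact h1
  have h3 : φ N < φ (N + 1) := hφ (Nat.lt_succ_self N)
  refine ⟨φ (N + 1) - φ N, Nat.sub_pos_of_lt h3, ?_⟩
  have h4 : x ^ φ (N + 1) - x ^ φ N = x ^ φ N * (x ^ (φ (N + 1) - φ N) - 1) := by
    rw [mul_sub, ← pow_add, Nat.add_sub_cancel' h3.le, mul_one]
  rw [h4, norm_mul, norm_pow, hx, one_pow, one_mul] at h2
  exact h2

/-- Teichmueller representatives -/
theorem exists_root_near (x : PadicAlgCl l) (hx : ‖x‖ = 1) :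
    ∃ (N : ℕ) (ζ : PadicAlgCl l), ¬ l ∣ N ∧ ζ ^ N = 1 ∧ ‖x - ζ‖ < 1 := by
  have hl : l.Prime := Fact.out
  obtain ⟨M, hM0, hM⟩ := exists_pow_near x hx
  obtain ⟨s, N, hN, rfl⟩ := Nat.exists_eq_pow_mul_and_not_dvd hM0.ne' l hl.ne_one
  have h1 : ‖x ^ N - 1‖ < 1 := by
    refine norm_sub_one_of_pow (by rw [norm_pow, hx, one_pow]) s ?_
    rwa [← pow_mul, mul_comm N]
  have hN0 : 0 < N := Nat.pos_of_ne_zero (by rintro rfl; exact hN (dvd_zero _))
  -- factor `X ^ N - 1`
  have hsplit : (X ^ N - 1 : (PadicAlgCl l)[X]) =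
      ((X ^ N - 1 : (PadicAlgCl l)[X]).roots.map fun a => X - C a).prod := by
    have h2 := IsAlgClosed.splits (X ^ N - 1 : (PadicAlgCl l)[X])
    have h3 : (X ^ N - 1 : (PadicAlgCl l)[X]).Monic := by
      have := monic_X_pow_sub_C (1 : PadicAlgCl l) hN0.ne'
      rwa [C_1] at this
    exact h2.eq_prod_roots_of_monic h3
  have h4 : x ^ N - 1 = ((X ^ N - 1 : (PadicAlgCl l)[X]).roots.map fun a => x - a).prod := by
    have h5 := congrArg (Polynomial.eval x) hsplit
    rw [eval_multiset_prod, Multiset.map_map] at h5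
    simpa using h5
  by_contra hcon
  push Not at hcon
  have h6 : (1 : ℝ) ≤ ‖x ^ N - 1‖ := by
    rw [h4]
    have h7 : ∀ m : Multiset (PadicAlgCl l), (∀ a ∈ m, 1 ≤ ‖x - a‖) →
        1 ≤ ‖(m.map fun a => x - a).prod‖ := by
      intro m
      induction m using Multiset.induction_on with
      | empty => intro _; simp
      | cons a m ih =>
        intro h
        rw [Multiset.map_cons, Multiset.prod_cons, norm_mul]
        exact one_le_mul_of_one_le_of_one_le (h a (Multiset.mem_cons_self _ _))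
          (ih fun b hb => h b (Multiset.mem_cons_of_mem hb))
    refine h7 _ fun a ha => hcon N a hN ?_
    have h8 := (mem_roots'.mp ha).2
    simp only [IsRoot.def, eval_sub, eval_pow, eval_X, eval_one] at h8
    exact sub_eq_zero.mp h8
  exact absurd h1 (not_lt.mpr h6)

/-- coefficients are bounded by the values at well separated points -/
theorem coeff_le_of_eval (s : Finset (PadicAlgCl l)) :
    (∀ x ∈ s, ‖x‖ ≤ 1) → (∀ x ∈ s, ∀ y ∈ s, x ≠ y → ‖x - y‖ = 1) →
    ∀ (A : (PadicAlgCl l)[X]) (δ : ℝ), 0 ≤ δ → (A = 0 ∨ A.natDegree < s.card) →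
    (∀ x ∈ s, ‖A.eval x‖ ≤ δ) → ∀ i, ‖A.coeff i‖ ≤ δ := by
  classical
  induction s using Finset.induction_on with
  | empty =>
    intro _ _ A δ hδ hA _ i
    rcases hA with rfl | h
    · simpa using hδ
    · simp at h
  | insert a s ha ih =>
    intro hs hd A δ hδ hA hv i
    rcases hA with rfl | hdeg
    · simpa using hδ
    rw [Finset.card_insert_of_notMem ha] at hdeg
    set B := A /ₘ (X - C a) with hB
    have hAB : A = C (A.eval a) + (X - C a) * B := by
      have := modByMonic_add_div A (X - C a)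
      rw [modByMonic_X_sub_C_eq_C_eval] at this
      exact this.symm
    have hBdeg : B = 0 ∨ B.natDegree < s.card := by
      by_cases hB0 : B = 0
      · exact Or.inl hB0
      · right
        have h1 := natDegree_divByMonic A (monic_X_sub_C a)
        rw [natDegree_X_sub_C, ← hB] at h1
        by_cases h2 : A.natDegree = 0
        · exfalso
          apply hB0
          rw [hB, divByMonic_eq_zero_iff (monic_X_sub_C a), degree_X_sub_C]
          calc A.degree ≤ A.natDegree := degree_le_natDegree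
            _ < 1 := by rw [h2]; exact_mod_cast one_pos
        · omega
    have hBv : ∀ x ∈ s, ‖B.eval x‖ ≤ δ := by
      intro x hx
      have hxa : x ≠ a := by rintro rfl; exact ha hx
      have h1 : (x - a) * B.eval x = A.eval x - A.eval a := by
        have := congrArg (Polynomial.eval x) hAB
        rw [eval_add, eval_C, eval_mul, eval_sub, eval_X, eval_C] at this
        rw [this]; ring
      have h2 : ‖x - a‖ = 1 := hd x (Finset.mem_insert_of_mem hx) a (Finset.mem_insert_self _ _) hxa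
      have h3 : ‖B.eval x‖ = ‖A.eval x - A.eval a‖ := by rw [← h1, norm_mul, h2, one_mul]
      rw [h3]
      exact norm_sub_le_max.trans (max_le (hv x (Finset.mem_insert_of_mem hx))
        (hv a (Finset.mem_insert_self _ _)))
    have hBc := ih (fun x hx => hs x (Finset.mem_insert_of_mem hx))
      (fun x hx y hy => hd x (Finset.mem_insert_of_mem hx) y (Finset.mem_insert_of_mem hy))
      B δ hδ hBdeg hBv
    have ha1 : ‖a‖ ≤ 1 := hs a (Finset.mem_insert_self _ _)
    have hXB : ∀ i, ‖((X - C a) * B).coeff i‖ ≤ δ := by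
      intro i
      rw [sub_mul, coeff_sub, coeff_C_mul]
      refine norm_sub_le_max.trans (max_le ?_ ?_)
      · cases i with
        | zero => simpa using hδ
        | succ i => rw [coeff_X_mul]; exact hBc i
      · rw [norm_mul]
        exact (mul_le_of_le_one_left (norm_nonneg _) ha1).trans (hBc i)
    rw [hAB, coeff_add]
    refine (IsUltrametricDist.norm_add_le_max _ _).trans (max_le ?_ (hXB i))
    rw [coeff_C]
    split_ifs
    · exact hv a (Finset.mem_insert_self _ _)
    · simpa using hδ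

/-- adjoining a root of unity of order prime to `l` does not change the absolute values -/
theorem norm_adjoin (E : IntermediateField ℚ_[l] (PadicAlgCl l)) {N : ℕ} (hN : ¬ l ∣ N)
    {ζ : PadicAlgCl l} (hζ : ζ ^ N = 1) {x : PadicAlgCl l}
    (hx : x ∈ IntermediateField.adjoin E {ζ}) : ∃ y ∈ E, ‖x‖ = ‖y‖ := by
  classical
  have hN0 : N ≠ 0 := by rintro rfl; exact hN (dvd_zero _)
  by_cases hx0 : x = 0
  · exact ⟨0, E.zero_mem, by rw [hx0]⟩
  have hint : IsIntegral E ζ := (Algebra.IsAlgebraic.isAlgebraic ζ).isIntegral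
  -- write `x` as a polynomial of small degree in `ζ`
  obtain ⟨A, hAdeg, hAx⟩ : ∃ A : E[X], (A = 0 ∨ A.natDegree < (minpoly E ζ).natDegree) ∧
      aeval ζ A = x := by
    have hx2 : x ∈ (IntermediateField.adjoin E {ζ}).toSubalgebra := hx
    rw [IntermediateField.adjoin_simple_toSubalgebra_of_isAlgebraic
      (Algebra.IsAlgebraic.isAlgebraic ζ), Algebra.adjoin_singleton_eq_range_aeval] at hx2
    obtain ⟨f, hf⟩ := hx2
    refine ⟨f %ₘ minpoly E ζ, ?_, ?_⟩
    · by_cases h0 : f %ₘ minpoly E ζ = 0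
      · exact Or.inl h0
      · right
        exact natDegree_modByMonic_lt f (minpoly.monic hint) (minpoly.ne_one E ζ)
    · have := modByMonic_add_div f (minpoly E ζ)
      have h2 := congrArg (aeval ζ) this
      rw [map_add, map_mul, minpoly.aeval, zero_mul, add_zero] at h2
      rw [h2]; exact hf
  have hA0 : A ≠ 0 := by rintro rfl; rw [map_zero] at hAx; exact hx0 hAx.symm
  have hdeg : A.natDegree < (minpoly E ζ).natDegree := hAdeg.resolve_left hA0
  -- the coefficient of largest absolute value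
  obtain ⟨k, -, hk⟩ := Finset.exists_max_image (Finset.range (A.natDegree + 1))
    (fun i => ‖(A.coeff i : PadicAlgCl l)‖) ⟨0, by simp⟩
  have hk' : ∀ i, ‖(A.coeff i : PadicAlgCl l)‖ ≤ ‖(A.coeff k : PadicAlgCl l)‖ := by
    intro i
    by_cases hi : i < A.natDegree + 1
    · exact hk i (Finset.mem_range.mpr hi)
    · rw [coeff_eq_zero_of_natDegree_lt (by omega)]
      simp
  have hck : A.coeff k ≠ 0 := by
    intro h0
    apply hA0
    ext i
    have := hk' i
    rw [h0] at this
    simp only [ZeroMemClass.coe_zero, norm_zero, norm_le_zero_iff, ZeroMemClass.coe_eq_zero] at this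
    rw [this, coeff_zero]
  have hckpos : 0 < ‖(A.coeff k : PadicAlgCl l)‖ := by
    rw [norm_pos_iff]
    intro h
    exact hck (Subtype.ext h)
  refine ⟨A.coeff k, (A.coeff k).2, ?_⟩
  have hζ1 : ‖ζ‖ = 1 := norm_root hN0 hζ
  -- upper bound
  have hup : ‖x‖ ≤ ‖(A.coeff k : PadicAlgCl l)‖ := by
    rw [← hAx, aeval_eq_sum_range]
    refine IsUltrametricDist.norm_sum_le_of_forall_le_of_nonneg hckpos.le fun i _ => ?_
    rw [Algebra.smul_def, norm_mul, norm_pow, hζ1, one_pow, mul_one]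
    exact hk' i
  refine le_antisymm hup ?_
  -- lower bound: conjugates
  set s : Finset (PadicAlgCl l) := ((minpoly E ζ).aroots (PadicAlgCl l)).toFinset with hs
  have hroot : ∀ ξ ∈ s, ∃ τ : PadicAlgCl l ≃ₐ[E] PadicAlgCl l, τ ζ = ξ := by
    intro ξ hξ
    rw [hs, Multiset.mem_toFinset, mem_aroots] at hξ
    exact minpoly.exists_algEquiv_of_root' (Algebra.IsAlgebraic.isAlgebraic ζ) hξ.2
  have hcard : s.card = (minpoly E ζ).natDegree := by
    have h1 : ((minpoly E ζ).map (algebraMap E (PadicAlgCl l))).Splits :=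
      IsAlgClosed.splits _
    have h2 : (minpoly E ζ).Separable := Algebra.IsSeparable.isSeparable E ζ
    rw [hs, Multiset.toFinset_card_of_nodup (nodup_aroots_iff_of_splits (minpoly.ne_zero hint) h1 |>.mpr h2)]
    rw [← natDegree_map (algebraMap E (PadicAlgCl l)), h1.natDegree_eq_card_roots]
  have hsN : ∀ ξ ∈ s, ξ ^ N = 1 := by
    intro ξ hξ
    obtain ⟨τ, rfl⟩ := hroot ξ hξ
    rw [← map_pow, hζ, map_one]
  set A' : (PadicAlgCl l)[X] := A.map (algebraMap E (PadicAlgCl l)) with hA'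
  have hA'deg : A' = 0 ∨ A'.natDegree < s.card := by
    right
    rw [hA', natDegree_map, hcard]
    exact hdeg
  have hval : ∀ ξ ∈ s, ‖A'.eval ξ‖ ≤ ‖x‖ := by
    intro ξ hξ
    obtain ⟨τ, rfl⟩ := hroot ξ hξ
    have h1 : A'.eval (τ ζ) = τ x := by
      rw [hA', eval_map_algebraMap, ← hAx]
      exact (aeval_algHom_apply τ.toAlgHom ζ A)
    rw [h1]
    exact (norm_equiv (τ.restrictScalars ℚ_[l]) x).le
  have := coeff_le_of_eval s (fun ξ hξ => (norm_root hN0 (hsN ξ hξ)).le)
    (fun ξ hξ η hη hne => norm_root_sub hN (hsN ξ hξ) (hsN η hη) hne) A' ‖x‖ (norm_nonneg _)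
    hA'deg hval k
  rw [hA', coeff_map] at this
  exact this

/-- the roots of unity of order prime to `l` -/
def tame (l : ℕ) [Fact l.Prime] : Set (PadicAlgCl l) := {ζ | ∃ N : ℕ, ¬ l ∣ N ∧ ζ ^ N = 1}

theorem norm_adjoin_finset (S : Set (PadicAlgCl l)) (T : Finset (PadicAlgCl l))
    (hT : (T : Set (PadicAlgCl l)) ⊆ tame l) :
    ∀ x ∈ IntermediateField.adjoin ℚ_[l] (S ∪ T),
      ∃ y ∈ IntermediateField.adjoin ℚ_[l] S, ‖x‖ = ‖y‖ := by
  classical
  induction T using Finset.induction_on with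
  | empty =>
    intro x hx
    rw [Finset.coe_empty, Set.union_empty] at hx
    exact ⟨x, hx, rfl⟩
  | insert a T ha ih =>
    intro x hx
    have hT2 : (T : Set (PadicAlgCl l)) ⊆ tame l := fun t ht => hT (by
      rw [Finset.coe_insert]; exact Set.mem_insert_of_mem _ ht)
    obtain ⟨N, hN, haN⟩ : a ∈ tame l := hT (by rw [Finset.coe_insert]; exact Set.mem_insert _ _)
    have h1 : (S ∪ ((insert a T : Finset (PadicAlgCl l)) : Set (PadicAlgCl l))) =
        (S ∪ (T : Set (PadicAlgCl l))) ∪ {a} := by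
      rw [Finset.coe_insert]
      ext y
      simp only [Set.mem_union, Set.mem_insert_iff, Set.mem_singleton_iff]
      tauto
    rw [h1, ← IntermediateField.adjoin_adjoin_left, IntermediateField.mem_restrictScalars] at hx
    obtain ⟨y, hy, hxy⟩ := norm_adjoin (IntermediateField.adjoin ℚ_[l]
      (S ∪ (T : Set (PadicAlgCl l)))) hN haN hx
    obtain ⟨z, hz, hyz⟩ := ih hT2 y hy
    exact ⟨z, hz, hxy.trans hyz⟩

theorem norm_adjoin_tame (S : Set (PadicAlgCl l)) {x : PadicAlgCl l}
    (hx : x ∈ IntermediateField.adjoin ℚ_[l] (S ∪ tame l)) :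
    ∃ y ∈ IntermediateField.adjoin ℚ_[l] S, ‖x‖ = ‖y‖ := by
  classical
  obtain ⟨T, hT, hxT⟩ := IntermediateField.exists_finset_of_mem_adjoin hx
  set T' := T.filter fun t => t ∈ tame l with hT'
  refine norm_adjoin_finset S T' (fun t ht => ?_) x ?_
  · rw [hT', Finset.coe_filter] at ht
    exact ht.2
  · refine IntermediateField.adjoin.mono ℚ_[l] _ _ ?_ hxT
    intro t ht
    rcases hT ht with h | h
    · exact Or.inl h
    · right
      rw [hT', Finset.coe_filter]
      exact ⟨ht, h⟩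

end Basic

section Density

variable {l : ℕ} [Fact l.Prime] {K : Type*} [Field K]

/-- absolute values of the completion are absolute values of `K` -/
theorem norm_comp (j : K →+* PadicAlgCl l) {y : PadicAlgCl l} (hy : y ∈ comp l j) :
    ∃ b : K, ‖y‖ = ‖j b‖ := by
  by_cases hy0 : y = 0
  · exact ⟨0, by rw [hy0, map_zero]⟩
  let C : Subfield (PadicAlgCl l) := j.fieldRange.topologicalClosure
  have hQ : ∀ q : ℚ_[l], algebraMap ℚ_[l] (PadicAlgCl l) q ∈ C := by
    intro q
    have hcont : Continuous (algebraMap ℚ_[l] (PadicAlgCl l)) :=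
      continuous_algebraMap ℚ_[l] (PadicAlgCl l)
    have h1 : algebraMap ℚ_[l] (PadicAlgCl l) q ∈
        closure (algebraMap ℚ_[l] (PadicAlgCl l) '' Set.range ((↑) : ℚ → ℚ_[l])) :=
      image_closure_subset_closure_image hcont
        ⟨q, (Padic.denseRange_ratCast l) q, rfl⟩
    refine closure_mono ?_ h1
    rintro _ ⟨_, ⟨r, rfl⟩, rfl⟩
    refine ⟨(r : K), ?_⟩
    rw [map_ratCast, map_ratCast]
  let C' : IntermediateField ℚ_[l] (PadicAlgCl l) := C.toIntermediateField hQ
  have hle : comp l j ≤ C' := by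
    refine IntermediateField.adjoin_le_iff.mpr ?_
    rintro _ ⟨b, rfl⟩
    exact j.fieldRange.le_topologicalClosure ⟨b, rfl⟩
  have hyC : y ∈ closure (j.fieldRange : Set (PadicAlgCl l)) := hle hy
  obtain ⟨z, ⟨b, rfl⟩, hz⟩ := Metric.mem_closure_iff.mp hyC ‖y‖ (norm_pos_iff.mpr hy0)
  refine ⟨b, ?_⟩
  rw [dist_eq_norm] at hz
  by_contra hne
  have h2 := IsUltrametricDist.norm_add_eq_max_of_norm_ne_norm (x := y) (y := -(j b))
    (by rwa [norm_neg])
  rw [← sub_eq_add_neg] at h2
  rw [h2] at hz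
  exact absurd (le_max_left _ _) (not_le.mpr hz)

end Density

section Inertia

variable {l : ℕ} [Fact l.Prime] {K Ω : Type*} [Field K] [Field Ω] [Algebra K Ω]

/-- An element fixed by inertia has the absolute value of an element of `K`. -/
theorem norm_of_fixed_inert [Normal K Ω] (j : Ω →+* PadicAlgCl l) (α : Ω)
    (h : ∀ σ ∈ Inert K Ω j, σ α = α) : ∃ b : K, ‖j α‖ = ‖j (algebraMap K Ω b)‖ := by
  set S : Set (PadicAlgCl l) := Set.range (j.comp (algebraMap K Ω)) with hS
  set U := IntermediateField.adjoin ℚ_[l] (S ∪ tame l) with hU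
  have hEU : comp l (j.comp (algebraMap K Ω)) ≤ U :=
    IntermediateField.adjoin.mono ℚ_[l] _ _ Set.subset_union_left
  have h1 : j α ∈ Set.range (algebraMap U (PadicAlgCl l)) := by
    rw [InfiniteGalois.mem_range_algebraMap_iff_fixed]
    intro τ
    -- `τ` as an automorphism over the completion
    let τE : PadicAlgCl l ≃ₐ[comp l (j.comp (algebraMap K Ω))] PadicAlgCl l :=
      AlgEquiv.ofRingEquiv (f := τ.toRingEquiv) (by
        intro x
        exact τ.commutes (⟨x.1, hEU x.2⟩ : U))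
    obtain ⟨σ, hσ⟩ := exists_restrict j τE
    have hσI : σ ∈ Inert K Ω j := by
      intro x hx
      rw [map_sub, hσ]
      change ‖τ (j x) - j x‖ < 1
      have hiso : ∀ z, ‖τ z‖ = ‖z‖ := fun z => norm_equiv (τ.restrictScalars ℚ_[l]) z
      rcases lt_or_eq_of_le hx with hlt | heq
      · exact norm_sub_le_max.trans_lt (max_lt (by rw [hiso]; exact hlt) hlt)
      · obtain ⟨N, ζ, hN, hζ, hxζ⟩ := exists_root_near (j x) heq
        have hζU : τ ζ = ζ := τ.commutes (⟨ζ, IntermediateField.subset_adjoin _ _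
          (Or.inr ⟨N, hN, hζ⟩)⟩ : U)
        have h3 : τ (j x) - j x = τ (j x - ζ) - (j x - ζ) := by
          rw [map_sub, hζU]; ring
        rw [h3]
        exact norm_sub_le_max.trans_lt (max_lt (by rw [hiso]; exact hxζ) hxζ)
    have h2 := hσ α
    rw [h σ hσI] at h2
    exact h2.symm
  obtain ⟨y, hy⟩ := h1
  have hyU : j α ∈ U := by rw [← hy]; exact y.2
  obtain ⟨z, hz, hxz⟩ := norm_adjoin_tame S hyU
  obtain ⟨b, hb⟩ := norm_comp (j.comp (algebraMap K Ω)) (y := z) hz
  exact ⟨b, hxz.trans hb⟩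

end Inertia

end BKGen
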