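import Pool.Agent.Lib.MP_7c08ba_nt.Gen.ProP
import Pool.Agent.Lib.MP_7c08ba_nt.Gen.Unram

/-!
Part (B), Kummer theory, and the main theorem: local triviality at one rigid place implies
triviality.
-/

open Matrix Polynomial

namespace BKGen

section Kummer

variable {K Ω : Type*} [Field K] [Field Ω] [Algebra K Ω] [IsGalois K Ω]

theorem exists_kummer {p : ℕ} [Fact p.Prime] (hζ : (primitiveRoots p K).Nonempty)
    (N : Subgroup (Ω ≃ₐ[K] Ω)) (hN : N.Normal) (hi : N.index = p) (ho : IsOpen (N : Set (Ω ≃ₐ[K] Ω))) :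
    ∃ (α : Ω) (a : K), α ^ p = algebraMap K Ω a ∧ (∀ σ ∈ N, σ α = α) ∧
      ∀ b : K, algebraMap K Ω b ≠ α := by
  have hp : p.Prime := Fact.out
  let H : ClosedSubgroup (Ω ≃ₐ[K] Ω) := ⟨N, N.isClosed_of_isOpen ho⟩
  have hHn : H.Normal := hN
  set M := IntermediateField.fixedField N with hM
  have hfix : M.fixingSubgroup = N := InfiniteGalois.fixingSubgroup_fixedField H
  have hfd : FiniteDimensional K M := by
    rw [← InfiniteGalois.isOpen_iff_finite]
    change IsOpen (M.fixingSubgroup : Set (Ω ≃ₐ[K] Ω))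
    rw [hfix]; exact ho
  have hgal : IsGalois K M := by
    rw [← InfiniteGalois.normal_iff_isGalois, hfix]; exact hN
  have hcard : Nat.card (M ≃ₐ[K] M) = p := by
    rw [← Nat.card_congr (InfiniteGalois.normalAutEquivQuotient H).toEquiv]
    exact hi
  have hrank : Module.finrank K M = p := by
    rw [← IsGalois.card_aut_eq_finrank K M, hcard]
  have hcyc : IsCyclic (M ≃ₐ[K] M) := isCyclic_of_prime_card hcard
  obtain ⟨α, ⟨a, ha⟩, htop⟩ := exists_root_adjoin_eq_top_of_isCyclic K M (by rw [hrank]; exact hζ)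
  rw [hrank] at ha
  refine ⟨α, a, ?_, ?_, ?_⟩
  · have := congrArg (algebraMap M Ω) ha
    rw [map_pow] at this
    rw [IsScalarTower.algebraMap_apply K M Ω, this]
    rfl
  · intro σ hσ
    have h1 : σ ∈ M.fixingSubgroup := by rw [hfix]; exact hσ
    exact (IntermediateField.mem_fixingSubgroup_iff M σ).mp h1 α α.2
  · intro b hb
    have h2 : α ∈ (⊥ : IntermediateField K M) := by
      rw [IntermediateField.mem_bot]
      exact ⟨b, Subtype.ext (by rw [← hb]; rfl)⟩
    have h3 : (⊤ : IntermediateField K M) = ⊥ := by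
      rw [← htop, IntermediateField.adjoin_simple_eq_bot_iff]
      exact h2
    have h4 : Module.finrank K M = 1 := by
      rw [← IntermediateField.finrank_top', h3, IntermediateField.finrank_bot]
    rw [hrank] at h4
    exact hp.one_lt.ne' h4

/-- A rigid field has no open normal subgroup of index `p` containing inertia away from `p` and
the decomposition group of the rigid place. -/
theorem no_index_p {p : ℕ} [Fact p.Prime] (hζ : (primitiveRoots p K).Nonempty)
    (ι : Ω →+* PadicAlgCl p) (hR : Rigid p K (ι.comp (algebraMap K Ω)))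
    (N : Subgroup (Ω ≃ₐ[K] Ω)) (hN : N.Normal) (hi : N.index = p)
    (ho : IsOpen (N : Set (Ω ≃ₐ[K] Ω)))
    (hI : ∀ (l : ℕ) [Fact l.Prime], l ≠ p → ∀ j : Ω →+* PadicAlgCl l, ∀ σ ∈ Inert K Ω j, σ ∈ N)
    (hD : ∀ σ ∈ Dec K Ω ι, σ ∈ N) (hext : ∀ (l : ℕ) [Fact l.Prime] (j : K →+* PadicAlgCl l),
      ∃ J : Ω →+* PadicAlgCl l, J.comp (algebraMap K Ω) = j) : False := by
  have hp : p.Prime := Fact.out
  obtain ⟨α, a, hαa, hfix, hne⟩ := exists_kummer hζ N hN hi ho
  have ha0 : a ≠ 0 := by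
    rintro rfl
    rw [map_zero] at hαa
    have : α = 0 := eq_zero_of_pow_eq_zero hαa
    exact hne 0 (by rw [map_zero, this])
  obtain ⟨b, hb⟩ := hR a ha0 (by
    intro l _ hlp j
    obtain ⟨J, rfl⟩ := hext l j
    obtain ⟨b, hb⟩ := norm_of_fixed_inert (K := K) J α (fun σ hσ => hfix σ (hI l hlp J σ hσ))
    refine ⟨b, ?_⟩
    rw [RingHom.comp_apply, RingHom.comp_apply, ← hb, ← norm_pow, ← map_pow, hαa]) (by
    refine ⟨ι α, mem_comp_of_fixed ι α (fun σ hσ => hfix σ (hD σ hσ)), ?_⟩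
    rw [← map_pow, hαa, RingHom.comp_apply])
  -- now `α` is `b` times a root of unity of `K`
  obtain ⟨ζ, hζ'⟩ := hζ
  rw [mem_primitiveRoots hp.pos] at hζ'
  have hb0 : b ≠ 0 := by
    rintro rfl
    rw [zero_pow hp.ne_zero] at hb
    exact ha0 hb.symm
  have h1 : (α / algebraMap K Ω b) ^ p = 1 := by
    rw [div_pow, hαa, ← map_pow, hb, div_self]
    rwa [Ne, map_eq_zero]
  have h2 : IsPrimitiveRoot (algebraMap K Ω ζ) p := hζ'.map_of_injective (algebraMap K Ω).injective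
  obtain ⟨i, -, hi2⟩ := h2.eq_pow_of_pow_eq_one h1
  apply hne (ζ ^ i * b)
  rw [map_mul, map_pow, hi2]
  exact div_mul_cancel₀ α (by rwa [Ne, map_eq_zero])

end Kummer

theorem exists_extension {K Ω : Type*} [Field K] [Field Ω] [Algebra K Ω]
    [Algebra.IsAlgebraic K Ω] (l : ℕ) [Fact l.Prime] (j : K →+* PadicAlgCl l) :
    ∃ J : Ω →+* PadicAlgCl l, J.comp (algebraMap K Ω) = j := by
  let _ : Algebra K (PadicAlgCl l) := j.toAlgebra
  let J : Ω →ₐ[K] PadicAlgCl l := IsAlgClosed.lift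
  exact ⟨J.toRingHom, J.comp_algebraMap⟩

section Continuity

variable {F Ω : Type*} [Field F] [Field Ω] [Algebra F Ω] [Algebra.IsIntegral F Ω]
variable (F' : IntermediateField F Ω)

theorem continuous_restrictScalars :
    Continuous (AlgEquiv.restrictScalarsHom F : (Ω ≃ₐ[F'] Ω) →* (Ω ≃ₐ[F] Ω)) := by
  have : Algebra.IsIntegral F' Ω := Algebra.IsIntegral.tower_top (R := F)
  apply continuous_of_continuousAt_one
  intro s hs
  rw [map_one, krullTopology_mem_nhds_one_iff] at hs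
  obtain ⟨E, hE, hEs⟩ := hs
  let b := Module.finBasis F E
  have h1 : ∀ i, (MulAction.stabilizer (Ω ≃ₐ[F'] Ω) (b i : Ω) : Set (Ω ≃ₐ[F'] Ω)) ∈ nhds 1 :=
    fun i => (stabilizer_isOpen_of_isIntegral (K := F') (b i : Ω)).mem_nhds (Subgroup.one_mem _)
  have h2 : (⋂ i, (MulAction.stabilizer (Ω ≃ₐ[F'] Ω) (b i : Ω) : Set (Ω ≃ₐ[F'] Ω))) ∈ nhds 1 :=
    Filter.iInter_mem.mpr h1
  rw [Filter.mem_map]
  refine Filter.mem_of_superset h2 fun τ hτ => hEs ?_
  change τ.restrictScalars F ∈ E.fixingSubgroup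
  rw [IntermediateField.mem_fixingSubgroup_iff]
  intro x hx
  have h3 : (⟨x, hx⟩ : E) = ∑ i, b.repr ⟨x, hx⟩ i • b i := (b.sum_repr _).symm
  have h4 : x = ∑ i, b.repr ⟨x, hx⟩ i • (b i : Ω) := by
    have h5 : E.val ⟨x, hx⟩ = E.val (∑ i, b.repr ⟨x, hx⟩ i • b i) := congrArg E.val h3
    rw [map_sum] at h5
    exact h5.trans (Finset.sum_congr rfl fun i _ => by rw [map_smul]; rfl)
  rw [h4, map_sum]
  refine Finset.sum_congr rfl fun i _ => ?_
  rw [map_smul]
  congr 1
  have := Set.mem_iInter.mp hτ i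
  exact this

end Continuity

section Cocycle

variable {L : Type*} [NormedField L] [IsUltrametricDist L] {G : Type*} [Group G] {n : ℕ}

/-- a cocycle with values in a matrix representation -/
def IsCocycle (ρ : G →* Matrix (Fin n) (Fin n) L) (c : G → (Fin n → L)) : Prop :=
  ∀ σ τ, c (σ * τ) = c σ + (ρ σ) *ᵥ (c τ)

omit [IsUltrametricDist L] in
theorem IsCocycle.one {ρ : G →* Matrix (Fin n) (Fin n) L} {c : G → (Fin n → L)}
    (h : IsCocycle ρ c) : c 1 = 0 := by
  have := h 1 1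
  rw [mul_one, map_one, Matrix.one_mulVec] at this
  simpa using this

omit [IsUltrametricDist L] in
theorem IsCocycle.sub_coboundary {ρ : G →* Matrix (Fin n) (Fin n) L} {c : G → (Fin n → L)}
    (h : IsCocycle ρ c) (x : Fin n → L) : IsCocycle ρ fun σ => c σ - (ρ σ *ᵥ x - x) := by
  intro σ τ
  simp only
  rw [h σ τ, map_mul, Matrix.mulVec_sub, Matrix.mulVec_sub, Matrix.mulVec_mulVec]
  abel

/-- the extension of the trivial representation given by a cocycle -/
def extRep (ρ : G →* Matrix (Fin n) (Fin n) L) (c : G → (Fin n → L)) (h : IsCocycle ρ c) :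
    G →* Matrix (Fin n ⊕ Unit) (Fin n ⊕ Unit) L where
  toFun σ := Matrix.fromBlocks (ρ σ) (Matrix.of fun i _ => c σ i) 0 1
  map_one' := by
    rw [map_one, h.one, ← Matrix.fromBlocks_one]
    congr 1
  map_mul' σ τ := by
    rw [Matrix.fromBlocks_multiply]
    congr 1
    · rw [map_mul]; simp
    · ext i u
      rw [h σ τ]
      simp [Matrix.add_apply, Matrix.mul_apply, Matrix.mulVec, dotProduct, add_comm]
    · simp
    · simp

theorem extRep_charpoly (ρ : G →* Matrix (Fin n) (Fin n) L) (c : G → (Fin n → L))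
    (h : IsCocycle ρ c) (σ : G)
    (hu : ∀ i, ‖((ρ σ).charpoly - (X - 1) ^ n).coeff i‖ < 1) (i : ℕ) :
    ‖((extRep ρ c h σ).charpoly - (X - 1) ^ Fintype.card (Fin n ⊕ Unit)).coeff i‖ < 1 := by
  have h1 : (extRep ρ c h σ).charpoly = (ρ σ).charpoly * (X - 1) := by
    change (Matrix.fromBlocks (ρ σ) (Matrix.of fun i _ => c σ i) 0 1).charpoly = _
    rw [Matrix.charpoly_fromBlocks_zero₂₁, Matrix.charpoly_one]
    simp
  have h2 : (extRep ρ c h σ).charpoly - (X - 1) ^ Fintype.card (Fin n ⊕ Unit) =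
      ((ρ σ).charpoly - (X - 1) ^ n) * (X - 1) := by
    rw [h1]
    simp only [Fintype.card_sum, Fintype.card_fin, Fintype.card_unit]
    ring
  rw [h2, mul_sub, mul_one, coeff_sub]
  cases i with
  | zero =>
    rw [coeff_mul_X_zero, zero_sub, norm_neg]
    exact hu 0
  | succ i =>
    rw [coeff_mul_X]
    have h3 : ((ρ σ).charpoly - (X - 1) ^ n).coeff i - ((ρ σ).charpoly - (X - 1) ^ n).coeff (i + 1)
      = ((ρ σ).charpoly - (X - 1) ^ n).coeff i + -((ρ σ).charpoly - (X - 1) ^ n).coeff (i + 1) :=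
      sub_eq_add_neg _ _
    rw [h3]
    exact (IsUltrametricDist.norm_add_le_max _ _).trans_lt
      (max_lt (hu i) (by rw [norm_neg]; exact hu (i + 1)))

/-- Part (A) for cocycles. -/
theorem exists_index_p_of_cocycle [TopologicalSpace G] [IsTopologicalGroup G] [CompactSpace G]
    {p : ℕ} [Fact p.Prime] (hpL : ‖(p : L)‖ < 1)
    (ρ : G →* Matrix (Fin n) (Fin n) L) (hρ : Continuous ρ) (c : G → (Fin n → L))
    (hc : Continuous c) (h : IsCocycle ρ c)
    (hu : ∀ σ i, ‖((ρ σ).charpoly - (X - 1) ^ n).coeff i‖ < 1) (σ₀ : G) (h0 : c σ₀ ≠ 0) :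
    ∃ N : Subgroup G, N.Normal ∧ N.index = p ∧ IsOpen (N : Set G) ∧ ∀ σ, c σ = 0 → σ ∈ N := by
  obtain ⟨i₀, hi₀⟩ := Function.ne_iff.mp h0
  rw [Pi.zero_apply] at hi₀
  let H : Subgroup G :=
    { carrier := {σ | c σ = 0}
      one_mem' := h.one
      mul_mem' := by
        intro a b ha hb
        change c (a * b) = 0
        have ha' : c a = 0 := ha
        have hb' : c b = 0 := hb
        rw [h a b, ha', hb', Matrix.mulVec_zero, add_zero]
      inv_mem' := by
        intro a ha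
        change c a⁻¹ = 0
        have ha' : c a = 0 := ha
        have h1 := h a⁻¹ a
        rw [inv_mul_cancel, h.one, ha', Matrix.mulVec_zero, add_zero] at h1
        exact h1.symm }
  have hM : Continuous (extRep ρ c h) := by
    change Continuous fun σ => Matrix.fromBlocks (ρ σ) (Matrix.of fun i _ => c σ i) 0 1
    refine Continuous.matrix_fromBlocks hρ ?_ continuous_const continuous_const
    exact continuous_matrix fun i _ => (continuous_apply i).comp hc
  obtain ⟨N, hN, hNi, hNo, hHN⟩ := exists_normal_index_p hpL (extRep ρ c h) hM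
    (fun σ i => extRep_charpoly ρ c h σ (hu σ) i) H σ₀ (ε := ‖c σ₀ i₀‖ / 2)
    (by have := norm_pos_iff.mpr hi₀; positivity) (by
      intro η hη u hsmall heq
      have h1 := hsmall (Sum.inl i₀) (Sum.inr ())
      have h2 : extRep ρ c h η * (extRep ρ c h u - 1) = extRep ρ c h σ₀ - extRep ρ c h η := by
        rw [Matrix.mul_sub, Matrix.mul_one, ← map_mul, heq]
      rw [h2] at h1
      have hη0 : c η = 0 := hη
      have h3 : (extRep ρ c h σ₀ - extRep ρ c h η) (Sum.inl i₀) (Sum.inr ()) = c σ₀ i₀ := by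
        change c σ₀ i₀ - c η i₀ = c σ₀ i₀
        rw [hη0]; simp
      rw [h3] at h1
      have := norm_pos_iff.mpr hi₀
      linarith)
  exact ⟨N, hN, hNi, hNo, fun σ hσ => hHN hσ⟩

end Cocycle

section Final

variable {F Ω : Type*} [Field F] [Field Ω] [Algebra F Ω] [IsGalois F Ω]
variable {L : Type*} [NormedField L] [IsUltrametricDist L]

omit [IsUltrametricDist L] in
/-- averaging over a quotient of order prime to `p` -/
theorem coboundary_of_zero_on {G : Type*} [Group G] {n : ℕ}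
    (ρ : G →* Matrix (Fin n) (Fin n) L) (c : G → (Fin n → L)) (h : IsCocycle ρ c)
    (N : Subgroup G) (hfin : Finite (G ⧸ N)) (hcard : ((Nat.card (G ⧸ N) : ℕ) : L) ≠ 0)
    (hz : ∀ τ ∈ N, c τ = 0) : ∃ x : Fin n → L, ∀ σ, c σ = ρ σ *ᵥ x - x := by
  classical
  have := Fintype.ofFinite (G ⧸ N)
  let cb : G ⧸ N → (Fin n → L) := Quotient.lift c (by
    intro a b hab
    have h1 : a⁻¹ * b ∈ N := QuotientGroup.leftRel_apply.mp hab
    have h2 := h a (a⁻¹ * b)
    rw [mul_inv_cancel_left, hz _ h1, Matrix.mulVec_zero, add_zero] at h2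
    exact h2.symm)
  have hcb : ∀ (σ : G) (q : G ⧸ N), cb (σ • q) = c σ + ρ σ *ᵥ cb q := by
    intro σ q
    induction q using QuotientGroup.induction_on with
    | H τ => exact h σ τ
  set S := ∑ q, cb q with hS
  set m : L := ((Nat.card (G ⧸ N) : ℕ) : L) with hm
  have key : ∀ σ, S = m • c σ + ρ σ *ᵥ S := by
    intro σ
    have h1 : ∑ q : G ⧸ N, cb (σ • q) = S := by
      rw [hS]
      exact Fintype.sum_equiv (MulAction.toPerm σ) _ _ fun q => rfl
    refine h1.symm.trans ?_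
    simp only [hcb]
    rw [Finset.sum_add_distrib, Finset.sum_const, ← Matrix.mulVec_sum, ← hS, hm,
      Nat.card_eq_fintype_card, Finset.card_univ, Nat.cast_smul_eq_nsmul]
  refine ⟨-(m⁻¹ • S), fun σ => ?_⟩
  have h2 := key σ
  have h3 : c σ = m⁻¹ • (S - ρ σ *ᵥ S) := by
    have : m • c σ = S - ρ σ *ᵥ S := by
      rw [eq_sub_iff_add_eq]; exact h2.symm
    rw [← this, smul_smul, inv_mul_cancel₀ hcard, one_smul]
  rw [h3, Matrix.mulVec_neg, Matrix.mulVec_smul, smul_sub]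
  abel

/-- **Main theorem.** -/
theorem coboundary_of_local {p : ℕ} [Fact p.Prime] (hpL : ‖(p : L)‖ < 1)
    (F' : IntermediateField F Ω) [FiniteDimensional F F'] [IsGalois F F']
    (hdeg : ¬ p ∣ Module.finrank F F') (hζ : (primitiveRoots p F').Nonempty)
    (ι : Ω →+* PadicAlgCl p) (hR : Rigid p F' (ι.comp (algebraMap F' Ω)))
    {n : ℕ} (ρ : (Ω ≃ₐ[F] Ω) →* Matrix (Fin n) (Fin n) L) (hρ : Continuous ρ)
    (hres : ∀ (τ : Ω ≃ₐ[F'] Ω) (i : ℕ),
      ‖((ρ (τ.restrictScalars F)).charpoly - (X - 1) ^ n).coeff i‖ < 1)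
    (hunr : ∀ (l : ℕ) [Fact l.Prime], l ≠ p → ∀ j : Ω →+* PadicAlgCl l,
      ∀ τ ∈ Inert F' Ω j, ρ (τ.restrictScalars F) = 1)
    (c : (Ω ≃ₐ[F] Ω) → (Fin n → L)) (hc : Continuous c) (hcoc : IsCocycle ρ c)
    (hcunr : ∀ (l : ℕ) [Fact l.Prime], l ≠ p → ∀ j : Ω →+* PadicAlgCl l,
      ∃ x, ∀ σ ∈ Inert F Ω j, c σ = ρ σ *ᵥ x - x)
    (hcdec : ∃ x, ∀ σ ∈ Dec F Ω ι, c σ = ρ σ *ᵥ x - x) :
    ∃ x, ∀ σ, c σ = ρ σ *ᵥ x - x := by
  have hp : p.Prime := Fact.out
  obtain ⟨x₀, hx₀⟩ := hcdec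
  -- normalise the cocycle
  set c₁ : (Ω ≃ₐ[F] Ω) → (Fin n → L) := fun σ => c σ - (ρ σ *ᵥ x₀ - x₀) with hc₁
  have hcoc₁ : IsCocycle ρ c₁ := hcoc.sub_coboundary x₀
  have hc₁cont : Continuous c₁ :=
    hc.sub ((Continuous.matrix_mulVec hρ continuous_const).sub continuous_const)
  have hGal : IsGalois F' Ω := IsGalois.tower_top_intermediateField F'
  -- vanishing on the subgroup
  have hzero : ∀ τ : Ω ≃ₐ[F'] Ω, c₁ (τ.restrictScalars F) = 0 := by
    by_contra hcon
    push Not at hcon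
    obtain ⟨τ₀, hτ₀⟩ := hcon
    let r : (Ω ≃ₐ[F'] Ω) →* (Ω ≃ₐ[F] Ω) := AlgEquiv.restrictScalarsHom F
    have hr : Continuous r := continuous_restrictScalars F'
    obtain ⟨N, hN, hNi, hNo, hNz⟩ := exists_index_p_of_cocycle (G := Ω ≃ₐ[F'] Ω) hpL (ρ.comp r)
      (hρ.comp hr) (fun τ => c₁ (r τ)) (hc₁cont.comp hr) (fun σ τ => by
        simp only [map_mul]
        exact hcoc₁ (r σ) (r τ)) (fun τ i => hres τ i) τ₀ hτ₀
    refine no_index_p hζ ι hR N hN hNi hNo (fun l _ hl j σ hσ => ?_) (fun σ hσ => ?_)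
      (fun l _ j => exists_extension l j)
    · apply hNz
      obtain ⟨x, hx⟩ := hcunr l hl j
      have h1 : ρ (σ.restrictScalars F) = 1 := hunr l hl j σ hσ
      have h2 : c (σ.restrictScalars F) = 0 := by
        rw [hx (σ.restrictScalars F) hσ, h1, Matrix.one_mulVec, sub_self]
      change c (σ.restrictScalars F) - (ρ (σ.restrictScalars F) *ᵥ x₀ - x₀) = 0
      rw [h2, h1, Matrix.one_mulVec, sub_self, sub_self]
    · apply hNz
      change c (σ.restrictScalars F) - (ρ (σ.restrictScalars F) *ᵥ x₀ - x₀) = 0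
      rw [hx₀ (σ.restrictScalars F) hσ, sub_self]
  -- averaging
  have hidx : Nat.card ((Ω ≃ₐ[F] Ω) ⧸ F'.fixingSubgroup) = Module.finrank F F' := by
    rw [IntermediateField.finrank_eq_fixingSubgroup_index Ω F']
    rfl
  have hfin : Finite ((Ω ≃ₐ[F] Ω) ⧸ F'.fixingSubgroup) := by
    apply Nat.finite_of_card_ne_zero
    rw [hidx]
    exact Module.finrank_pos.ne'
  have hcardne : ((Nat.card ((Ω ≃ₐ[F] Ω) ⧸ F'.fixingSubgroup) : ℕ) : L) ≠ 0 := by
    rw [hidx]
    intro h0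
    have hcop : Nat.Coprime (Module.finrank F F') p :=
      ((Nat.Prime.coprime_iff_not_dvd hp).mpr hdeg).symm
    obtain ⟨u, v, huv⟩ := (Nat.isCoprime_iff_coprime.mpr hcop)
    have h1 : (u : L) * (Module.finrank F F' : L) + (v : L) * (p : L) = 1 := by
      exact_mod_cast congrArg (Int.cast : ℤ → L) huv
    rw [h0, mul_zero, zero_add] at h1
    have h2 : ‖(v : L) * (p : L)‖ < 1 := by
      rw [norm_mul]
      exact mul_lt_one_of_nonneg_of_lt_one_right (IsUltrametricDist.norm_intCast_le_one L v)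
        (norm_nonneg _) hpL
    rw [h1, norm_one] at h2
    exact lt_irrefl _ h2
  obtain ⟨x, hx⟩ := coboundary_of_zero_on ρ c₁ hcoc₁ F'.fixingSubgroup hfin hcardne (by
    intro τ hτ
    rw [IntermediateField.mem_fixingSubgroup_iff] at hτ
    let τ' : Ω ≃ₐ[F'] Ω := AlgEquiv.ofRingEquiv (f := τ.toRingEquiv) (fun x => hτ x.1 x.2)
    have h1 : τ'.restrictScalars F = τ := by ext y; rfl
    rw [← h1]
    exact hzero τ')
  refine ⟨x + x₀, fun σ => ?_⟩
  have h1 := hx σ
  rw [hc₁] at h1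
  simp only at h1
  rw [Matrix.mulVec_add]
  have h2 : c σ = (ρ σ *ᵥ x - x) + (ρ σ *ᵥ x₀ - x₀) := by rw [← h1]; abel
  rw [h2]; abel

end Final

end BKGen
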