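import Mathlib

/-!
The field `ℚ_p(ζ_p)`: value group, residue field, `p`-th powers of units. `E` is a field containing
`ℚ_p`, `1 + y` is a primitive `p`-th root of unity.
-/

namespace BKGen.LocalCyc

open Polynomial IsUltrametricDist

variable {p : ℕ} [Fact p.Prime] {E : Type*} [NormedField E] [NormedAlgebra ℚ_[p] E]
  [IsUltrametricDist E]

theorem norm_p : ‖(p : E)‖ = (p : ℝ)⁻¹ := by
  have h : ((p : ℚ_[p]) : ℚ_[p]) = (p : ℚ_[p]) := rfl
  have h1 : (p : E) = algebraMap ℚ_[p] E (p : ℚ_[p]) := by rw [map_natCast]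
  rw [h1, norm_algebraMap', Padic.norm_p]

omit [NormedAlgebra ℚ_[p] E] in
theorem norm_nat_le (n : ℕ) : ‖(n : E)‖ ≤ 1 := IsUltrametricDist.norm_natCast_le_one E n

omit [NormedAlgebra ℚ_[p] E] in
/-- `(1 + z)^p = 1 + z^p + p z + p z^2 t`. -/
theorem one_add_pow {z : E} (hz : ‖z‖ ≤ 1) :
    ∃ t : E, ‖t‖ ≤ 1 ∧ (1 + z) ^ p = 1 + z ^ p + p * z + p * z ^ 2 * t := by
  have hp : p.Prime := Fact.out
  refine ⟨∑ k ∈ Finset.Ioo 1 p, z ^ (k - 2) * ((p.choose k / p : ℕ) : E), ?_, ?_⟩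
  · refine norm_sum_le_of_forall_le_of_nonneg zero_le_one fun k _ => ?_
    rw [norm_mul, norm_pow]
    exact mul_le_one₀ (pow_le_one₀ (norm_nonneg _) hz) (norm_nonneg _) (norm_nat_le _)
  · have h1 := add_pow_prime_eq' (R := E) hp z 1
    have h2 : Finset.Ioo 0 p = insert 1 (Finset.Ioo 1 p) := by
      ext k
      simp only [Finset.mem_Ioo, Finset.mem_insert]
      have := hp.one_lt
      omega
    rw [h2, Finset.sum_insert (by simp)] at h1
    simp only [one_pow, mul_one, pow_one, Nat.choose_one_right, Nat.div_self hp.pos,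
      Nat.cast_one] at h1
    rw [add_comm 1 z, h1]
    have h3 : ∑ x ∈ Finset.Ioo 1 p, z ^ x * ((p.choose x / p : ℕ) : E) =
        z ^ 2 * ∑ k ∈ Finset.Ioo 1 p, z ^ (k - 2) * ((p.choose k / p : ℕ) : E) := by
      rw [Finset.mul_sum]
      refine Finset.sum_congr rfl fun k hk => ?_
      have hk' : 2 ≤ k := (Finset.mem_Ioo.mp hk).1
      rw [← mul_assoc, ← pow_add, Nat.add_sub_cancel' hk']
    rw [h3]
    ring

omit [NormedAlgebra ℚ_[p] E] in
theorem norm_root {ζ : E} (hζ : ζ ^ p = 1) : ‖ζ‖ = 1 := by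
  have hp : p.Prime := Fact.out
  have h : ‖ζ‖ ^ p = 1 := by rw [← norm_pow, hζ, norm_one]
  exact (pow_eq_one_iff_of_nonneg (norm_nonneg _) hp.ne_zero).mp h

omit [NormedAlgebra ℚ_[p] E] in
theorem norm_sub_le {a b : E} {c : ℝ} (ha : ‖a‖ ≤ c) (hb : ‖b‖ ≤ c) : ‖a - b‖ ≤ c := by
    rw [sub_eq_add_neg]
    exact (IsUltrametricDist.norm_add_le_max _ _).trans (max_le ha (by rwa [norm_neg]))

omit [NormedAlgebra ℚ_[p] E] in
theorem norm_add_le' {a b : E} {c : ℝ} (ha : ‖a‖ ≤ c) (hb : ‖b‖ ≤ c) : ‖a + b‖ ≤ c :=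
  (IsUltrametricDist.norm_add_le_max _ _).trans (max_le ha hb)

omit [NormedAlgebra ℚ_[p] E] in
theorem norm_one_add {a : E} (ha : ‖a‖ < 1) : ‖1 + a‖ = 1 := by
  rw [IsUltrametricDist.norm_add_eq_max_of_norm_ne_norm, norm_one, max_eq_left ha.le]
  rw [norm_one]; exact ha.ne'

section Root

variable {y : E} (hy : y ≠ 0) (hroot : (1 + y) ^ p = 1)

include hy hroot

/-- The size of `y` and the first approximation of `y^{p-1}`. -/
theorem root_facts : ‖y‖ < 1 ∧ ‖y‖ ^ (p - 1) = (p : ℝ)⁻¹ ∧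
    ‖y ^ (p - 1) + p‖ ≤ ‖y‖ ^ p := by
  have hp : p.Prime := Fact.out
  have hp1 : (1 : ℝ) < p := by exact_mod_cast hp.one_lt
  have hp2 := hp.two_le
  have hle : ‖y‖ ≤ 1 := by
    have : y = (1 + y) - 1 := by ring
    rw [this]
    exact norm_sub_le (norm_root hroot).le norm_one.le
  obtain ⟨t, ht, h⟩ := one_add_pow (p := p) hle
  rw [hroot] at h
  have h1 : y * (y ^ (p - 1) + p * (1 + y * t)) = 0 := by
    have : y ^ p = y * y ^ (p - 1) := by
      rw [← pow_succ']; congr 1; omega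
    rw [this] at h
    linear_combination -h
  have h2 : y ^ (p - 1) = -(p * (1 + y * t)) := by
    have := (mul_eq_zero.mp h1).resolve_left hy
    linear_combination this
  have hyt : ‖y * t‖ ≤ ‖y‖ := by
    rw [norm_mul]
    exact mul_le_of_le_one_right (norm_nonneg _) ht
  have h3 : ‖y‖ < 1 := by
    by_contra hcon
    have hge : ‖y‖ = 1 := le_antisymm hle (not_lt.mp hcon)
    have h4 : ‖y ^ (p - 1)‖ = 1 := by rw [norm_pow, hge, one_pow]
    rw [h2, norm_neg, norm_mul, norm_p] at h4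
    have h5 : ‖1 + y * t‖ ≤ 1 := norm_add_le' norm_one.le (hyt.trans hle)
    have h6 : (p : ℝ)⁻¹ < 1 := inv_lt_one_of_one_lt₀ hp1
    have h7 : (0 : ℝ) < (p : ℝ)⁻¹ := by positivity
    nlinarith [norm_nonneg (1 + y * t)]
  have h8 : ‖y‖ ^ (p - 1) = (p : ℝ)⁻¹ := by
    rw [← norm_pow, h2, norm_neg, norm_mul, norm_p, norm_one_add (hyt.trans_lt h3), mul_one]
  refine ⟨h3, h8, ?_⟩
  have h9 : y ^ (p - 1) + p = -(p * (y * t)) := by rw [h2]; ring
  rw [h9, norm_neg, norm_mul, norm_p, ← h8]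
  calc ‖y‖ ^ (p - 1) * ‖y * t‖ ≤ ‖y‖ ^ (p - 1) * ‖y‖ := by gcongr
    _ = ‖y‖ ^ p := by rw [← pow_succ]; congr 1; omega

theorem norm_pos' : 0 < ‖y‖ := norm_pos_iff.mpr hy

omit hy hroot in
theorem norm_padic {c : ℚ_[p]} (hc : c ≠ 0) : ‖c‖ = (p : ℝ) ^ (-c.valuation) :=
  Padic.norm_eq_zpow_neg_valuation hc

/-- The value of a `p`-adic number as a power of `‖y‖`. -/
theorem norm_padic_pow {c : ℚ_[p]} (hc : c ≠ 0) :
    ‖c‖ = ‖y‖ ^ (((p - 1 : ℕ) : ℤ) * c.valuation) := by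
  have h := (root_facts hy hroot).2.1
  rw [norm_padic hc, zpow_mul, zpow_natCast, h, inv_zpow, zpow_neg]

/-- Different powers of `y` have values in different classes. -/
theorem index_eq {c d : ℚ_[p]} (hc : c ≠ 0) (hd : d ≠ 0) {i j : ℕ} (hi : i < p - 1)
    (hj : j < p - 1) (h : ‖algebraMap ℚ_[p] E c * y ^ i‖ = ‖algebraMap ℚ_[p] E d * y ^ j‖) :
    i = j := by
  have hr0 := norm_pos_iff.mpr hy
  have hr1 := (root_facts hy hroot).1
  rw [norm_mul, norm_mul, norm_algebraMap', norm_algebraMap', norm_padic_pow hy hroot hc,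
    norm_padic_pow hy hroot hd, norm_pow, norm_pow, ← zpow_natCast, ← zpow_natCast,
    ← zpow_add₀ hr0.ne', ← zpow_add₀ hr0.ne'] at h
  have h1 := zpow_right_injective₀ hr0 hr1.ne h
  have h2 : ((i : ℤ) - j) = ((p - 1 : ℕ) : ℤ) * (d.valuation - c.valuation) := by
    rw [mul_sub]; linarith
  have h3 : ((p - 1 : ℕ) : ℤ) ∣ (i : ℤ) - j := ⟨_, h2⟩
  have h4 := Int.eq_zero_of_abs_lt_dvd h3 (by rw [abs_lt]; omega)
  omega

/-- The norm of a `ℚ_p`-combination of `1, y, ..., y^{p-2}`. -/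
theorem norm_comb (c : ℕ → ℚ_[p])
    (hx : ∑ i ∈ Finset.range (p - 1), algebraMap ℚ_[p] E (c i) * y ^ i ≠ 0) :
    (∃ i, i < p - 1 ∧ c i ≠ 0 ∧ ‖∑ i ∈ Finset.range (p - 1), algebraMap ℚ_[p] E (c i) * y ^ i‖ =
      ‖algebraMap ℚ_[p] E (c i) * y ^ i‖) ∧
    ∀ i, i < p - 1 → ‖algebraMap ℚ_[p] E (c i) * y ^ i‖ ≤
      ‖∑ i ∈ Finset.range (p - 1), algebraMap ℚ_[p] E (c i) * y ^ i‖ := by
  classical
  set s := (Finset.range (p - 1)).filter (fun i => c i ≠ 0) with hs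
  have e1 : ∑ i ∈ Finset.range (p - 1), algebraMap ℚ_[p] E (c i) * y ^ i =
      ∑ i ∈ s, algebraMap ℚ_[p] E (c i) * y ^ i := by
    rw [hs, Finset.sum_filter]
    refine Finset.sum_congr rfl fun i _ => ?_
    split_ifs with h
    · rfl
    · rw [not_not.mp h, map_zero, zero_mul]
  have hne : s.Nonempty := by
    rw [Finset.nonempty_iff_ne_empty]
    intro h
    rw [e1, h, Finset.sum_empty] at hx
    exact hx rfl
  have h1 := norm_sum_eq_sup'_of_pairwise_ne (s := s)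
    (f := fun i => algebraMap ℚ_[p] E (c i) * y ^ i) hne (by
      intro i hi j hj hij h
      rw [hs, Finset.coe_filter] at hi hj
      exact hij (index_eq hy hroot hi.2 hj.2 (Finset.mem_range.mp hi.1)
        (Finset.mem_range.mp hj.1) h))
  rw [e1]
  constructor
  · obtain ⟨i, hi, hi'⟩ := s.exists_mem_eq_sup' hne (fun i => ‖algebraMap ℚ_[p] E (c i) * y ^ i‖)
    rw [hs, Finset.mem_filter, Finset.mem_range] at hi
    exact ⟨i, hi.1, hi.2, by rw [h1, hi']⟩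
  · intro i hi
    by_cases hc : c i = 0
    · rw [hc, map_zero, zero_mul, norm_zero]; exact norm_nonneg _
    · rw [h1]
      exact Finset.le_sup' (fun i => ‖algebraMap ℚ_[p] E (c i) * y ^ i‖)
        (by rw [hs, Finset.mem_filter, Finset.mem_range]; exact ⟨hi, hc⟩)

omit hy in
/-- Every element of `ℚ_p(y)` is such a combination. -/
theorem exists_comb (hy : y ≠ 0) {x : E} (hx : x ∈ IntermediateField.adjoin ℚ_[p] {y}) :
    ∃ c : ℕ → ℚ_[p], x = ∑ i ∈ Finset.range (p - 1), algebraMap ℚ_[p] E (c i) * y ^ i := by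
  have hp : p.Prime := Fact.out
  set g : ℚ_[p][X] := (cyclotomic p ℚ_[p]).comp (X + 1) with hg
  have hdeg : g.natDegree = p - 1 := by
    rw [hg, natDegree_comp, natDegree_cyclotomic, Nat.totient_prime hp]
    have : (X + 1 : ℚ_[p][X]).natDegree = 1 := natDegree_X_add_C 1
    rw [this, mul_one]
  have hmon : g.Monic := by
    have : (X + 1 : ℚ_[p][X]) = X + C 1 := by rw [C_1]
    rw [hg, this]
    exact (cyclotomic.monic p ℚ_[p]).comp (monic_X_add_C 1) (by rw [natDegree_X_add_C]; omega)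
  have hroot' : aeval y g = 0 := by
    have h1 := cyclotomic_prime_mul_X_sub_one ℚ_[p] p
    have h2 := congrArg (aeval (1 + y)) h1
    rw [map_mul, map_sub, map_sub, aeval_X, map_pow, aeval_X, map_one, hroot, sub_self,
      add_sub_cancel_left] at h2
    have h3 := (mul_eq_zero.mp h2).resolve_right hy
    rw [hg, aeval_comp, map_add, aeval_X, map_one, add_comm y 1]
    exact h3
  have hint : IsIntegral ℚ_[p] y := ⟨g, hmon, hroot'⟩
  have hx' : x ∈ Algebra.adjoin ℚ_[p] {y} := by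
    rw [← IntermediateField.adjoin_simple_toSubalgebra_of_isAlgebraic hint.isAlgebraic]
    exact hx
  rw [Algebra.adjoin_singleton_eq_range_aeval] at hx'
  obtain ⟨f, hf⟩ := hx'
  have hf' : aeval y f = x := hf
  have hne1 : g ≠ 1 := by
    intro h
    rw [h, natDegree_one] at hdeg
    have := hp.one_lt
    omega
  have h1 := natDegree_modByMonic_lt f hmon hne1
  rw [hdeg] at h1
  refine ⟨fun i => (f %ₘ g).coeff i, ?_⟩
  have h2 : aeval y f = aeval y (f %ₘ g) := by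
    conv_lhs => rw [← modByMonic_add_div f g, map_add, map_mul, hroot', zero_mul, add_zero]
  rw [← hf', h2, aeval_def, eval₂_eq_sum_range' _ h1]

/-- The value group of `ℚ_p(y)`. -/
theorem exists_zpow {x : E} (hx : x ∈ IntermediateField.adjoin ℚ_[p] {y}) (hx0 : x ≠ 0) :
    ∃ n : ℤ, ‖x‖ = ‖y‖ ^ n := by
  obtain ⟨c, hc⟩ := exists_comb hroot hy hx
  rw [hc] at hx0 ⊢
  obtain ⟨⟨i, hi, hci, h⟩, -⟩ := norm_comb hy hroot c hx0
  rw [h, norm_mul, norm_algebraMap', norm_padic_pow hy hroot hci, norm_pow, ← zpow_natCast,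
    ← zpow_add₀ (norm_pos_iff.mpr hy).ne']
  exact ⟨_, rfl⟩

/-- The value group is discrete. -/
theorem norm_le_succ {x : E} (hx : x ∈ IntermediateField.adjoin ℚ_[p] {y}) {n : ℕ}
    (h : ‖x‖ < ‖y‖ ^ n) : ‖x‖ ≤ ‖y‖ ^ (n + 1) := by
  by_cases hx0 : x = 0
  · rw [hx0, norm_zero]; positivity
  obtain ⟨m, hm⟩ := exists_zpow hy hroot hx hx0
  have hr0 := norm_pos_iff.mpr hy
  have hr1 := (root_facts hy hroot).1
  rw [hm, ← zpow_natCast] at h ⊢
  have h1 := (zpow_lt_zpow_iff_right_of_lt_one₀ hr0 hr1).mp h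
  apply zpow_le_zpow_right_of_le_one₀ hr0 hr1.le
  push_cast
  omega

/-- The residue field. -/
theorem exists_int {x : E} (hx : x ∈ IntermediateField.adjoin ℚ_[p] {y}) (h1 : ‖x‖ ≤ 1) :
    ∃ m : ℕ, ‖x - m‖ ≤ ‖y‖ := by
  have hp : p.Prime := Fact.out
  have hr0 := norm_pos_iff.mpr hy
  obtain ⟨hr1, hrp, -⟩ := root_facts hy hroot
  by_cases hx0 : x = 0
  · exact ⟨0, by rw [hx0, Nat.cast_zero, sub_zero, norm_zero]; exact hr0.le⟩
  obtain ⟨c, hc⟩ := exists_comb hroot hy hx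
  have hsum : ∑ i ∈ Finset.range (p - 1), algebraMap ℚ_[p] E (c i) * y ^ i ≠ 0 := by rwa [← hc]
  obtain ⟨-, hb⟩ := norm_comb hy hroot c hsum
  rw [← hc] at hb
  have hterm : ∀ i, i < p - 1 → 1 ≤ i → ‖algebraMap ℚ_[p] E (c i) * y ^ i‖ ≤ ‖y‖ := by
    intro i hi hi1
    by_cases hci : c i = 0
    · rw [hci, map_zero, zero_mul, norm_zero]; exact hr0.le
    have h2 := (hb i hi).trans h1
    rw [norm_mul, norm_algebraMap', norm_padic_pow hy hroot hci, norm_pow, ← zpow_natCast,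
      ← zpow_add₀ hr0.ne'] at h2 ⊢
    have h3 : 0 ≤ ((p - 1 : ℕ) : ℤ) * (c i).valuation + i := by
      by_contra hcon
      have : (1 : ℝ) < ‖y‖ ^ (((p - 1 : ℕ) : ℤ) * (c i).valuation + i) :=
        one_lt_zpow_of_neg₀ hr0 hr1 (not_le.mp hcon)
      linarith
    have h4 : 0 ≤ (c i).valuation := by
      by_contra hcon
      have h5 : (c i).valuation ≤ -1 := by omega
      have h6 : ((p - 1 : ℕ) : ℤ) * (c i).valuation ≤ ((p - 1 : ℕ) : ℤ) * (-1) :=
        mul_le_mul_of_nonneg_left h5 (by positivity)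
      omega
    have h5 : 0 ≤ ((p - 1 : ℕ) : ℤ) * (c i).valuation := mul_nonneg (by positivity) h4
    calc ‖y‖ ^ (((p - 1 : ℕ) : ℤ) * (c i).valuation + i) ≤ ‖y‖ ^ (1 : ℤ) :=
          zpow_le_zpow_right_of_le_one₀ hr0 hr1.le (by omega)
      _ = ‖y‖ := zpow_one _
  have hp1 : 0 < p - 1 := by have := hp.one_lt; omega
  have h0 := (hb 0 hp1).trans h1
  rw [pow_zero, mul_one, norm_algebraMap'] at h0
  obtain ⟨m, hm⟩ := PadicInt.exists_mem_range (x := ⟨c 0, h0⟩)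
  refine ⟨m, ?_⟩
  have hm' : ‖c 0 - m‖ < 1 := by
    have := hm.2
    rw [IsLocalRing.mem_maximalIdeal, PadicInt.mem_nonunits] at this
    exact this
  have hm2 : ‖c 0 - m‖ ≤ (p : ℝ)⁻¹ := by
    have := (Padic.norm_le_pow_iff_norm_lt_pow_add_one (c 0 - (m : ℚ_[p])) (-1)).mpr (by simpa using hm')
    rwa [zpow_neg_one] at this
  have hpr : (p : ℝ)⁻¹ ≤ ‖y‖ := by
    rw [← hrp]
    exact (pow_le_pow_of_le_one hr0.le hr1.le hp1).trans (pow_one _).le
  have e1 : x - m = algebraMap ℚ_[p] E (c 0 - m) +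
      ∑ i ∈ Finset.Ico 1 (p - 1), algebraMap ℚ_[p] E (c i) * y ^ i := by
    rw [hc, Finset.range_eq_Ico, Finset.sum_eq_sum_Ico_succ_bot hp1, pow_zero, mul_one, map_sub,
      map_natCast]
    ring
  rw [e1]
  refine norm_add_le' ?_ (norm_sum_le_of_forall_le_of_nonneg hr0.le fun i hi => ?_)
  · rw [norm_algebraMap']; exact hm2.trans hpr
  · rw [Finset.mem_Ico] at hi
    exact hterm i hi.2 hi.1

/-- The `p`-th powers of elements near one. -/
theorem norm_pow_sub_one {v : E} {n : ℕ} (hn : 1 ≤ n) (hv : ‖v - 1‖ ≤ ‖y‖ ^ n) :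
    ‖v ^ p - 1‖ ≤ ‖y‖ ^ (n + 1) := by
  have hp : p.Prime := Fact.out
  have hr0 := norm_pos_iff.mpr hy
  obtain ⟨hr1, hrp, -⟩ := root_facts hy hroot
  have hz : ‖v - 1‖ ≤ 1 := hv.trans (pow_le_one₀ hr0.le hr1.le)
  obtain ⟨t, ht, h⟩ := one_add_pow (p := p) hz
  rw [add_sub_cancel] at h
  have hyn : ‖y‖ ^ n ≤ 1 := pow_le_one₀ hr0.le hr1.le
  have hyn0 : 0 ≤ ‖y‖ ^ n := by positivity
  have hpy : (p : ℝ)⁻¹ ≤ ‖y‖ := by
    rw [← hrp]
    have : 1 ≤ p - 1 := by have := hp.one_lt; omega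
    exact (pow_le_pow_of_le_one hr0.le hr1.le this).trans (pow_one _).le
  have e : v ^ p - 1 = (v - 1) ^ p + (p * (v - 1) + p * (v - 1) ^ 2 * t) := by rw [h]; ring
  rw [e]
  refine norm_add_le' ?_ (norm_add_le' ?_ ?_)
  · rw [norm_pow]
    calc ‖v - 1‖ ^ p ≤ (‖y‖ ^ n) ^ p := by gcongr
      _ ≤ (‖y‖ ^ n) ^ 2 := pow_le_pow_of_le_one hyn0 hyn hp.two_le
      _ = ‖y‖ ^ (n + n) := by rw [← pow_mul]; congr 1; ring
      _ ≤ ‖y‖ ^ (n + 1) := pow_le_pow_of_le_one hr0.le hr1.le (by omega)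
  · rw [norm_mul, norm_p]
    calc (p : ℝ)⁻¹ * ‖v - 1‖ ≤ ‖y‖ * ‖y‖ ^ n := by gcongr
      _ = ‖y‖ ^ (n + 1) := by rw [pow_succ, mul_comm]
  · rw [norm_mul, norm_mul, norm_p, norm_pow]
    have hq : (‖y‖ ^ n) ^ 2 ≤ ‖y‖ ^ n := by nlinarith
    calc (p : ℝ)⁻¹ * ‖v - 1‖ ^ 2 * ‖t‖ ≤ ‖y‖ * (‖y‖ ^ n) ^ 2 * 1 := by gcongr
      _ ≤ ‖y‖ * ‖y‖ ^ n * 1 := by gcongr
      _ = ‖y‖ ^ (n + 1) := by rw [mul_one, pow_succ, mul_comm]

omit [NormedAlgebra ℚ_[p] E] hy hroot in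
/-- Powers of congruent elements. -/
theorem norm_pow_sub_pow {a b : E} {c : ℝ} (ha : ‖a‖ ≤ 1) (hb : ‖b‖ ≤ 1) (h : ‖a - b‖ ≤ c)
    (k : ℕ) : ‖a ^ k - b ^ k‖ ≤ c := by
  have hc : 0 ≤ c := (norm_nonneg _).trans h
  induction k with
  | zero => simpa using hc
  | succ k ih =>
    have e : a ^ (k + 1) - b ^ (k + 1) = (a ^ k - b ^ k) * a + b ^ k * (a - b) := by ring
    rw [e]
    refine norm_add_le' ?_ ?_
    · rw [norm_mul]
      calc ‖a ^ k - b ^ k‖ * ‖a‖ ≤ c * 1 := by gcongr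
        _ = c := mul_one _
    · rw [norm_mul, norm_pow]
      calc ‖b‖ ^ k * ‖a - b‖ ≤ 1 * c := by
            gcongr
            exact pow_le_one₀ (norm_nonneg _) hb
        _ = c := one_mul _

/-- `x^p = x` in the residue field. -/
theorem norm_pow_sub_self {x : E} (hx : x ∈ IntermediateField.adjoin ℚ_[p] {y}) (h1 : ‖x‖ ≤ 1) :
    ‖x ^ p - x‖ ≤ ‖y‖ := by
  have hp : p.Prime := Fact.out
  have hr0 := norm_pos_iff.mpr hy
  obtain ⟨hr1, hrp, -⟩ := root_facts hy hroot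
  obtain ⟨m, hm⟩ := exists_int hy hroot hx h1
  have hmp : ‖(m : E) ^ p - m‖ ≤ ‖y‖ := by
    have h2 : (p : ℤ) ∣ (m : ℤ) ^ p - m := by
      have : ((m : ℤ) ^ p - m : ℤ) ≡ 0 [ZMOD p] := by
        rw [← ZMod.intCast_eq_intCast_iff]
        push_cast
        rw [ZMod.pow_card, sub_self]
      exact (Int.modEq_zero_iff_dvd.mp this)
    obtain ⟨d, hd⟩ := h2
    have h3 : (m : E) ^ p - m = p * (d : ℤ) := by
      have := congrArg (fun z : ℤ => (z : E)) hd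
      push_cast at this
      exact this
    have hpy : (p : ℝ)⁻¹ ≤ ‖y‖ := by
      rw [← hrp]
      have : 1 ≤ p - 1 := by have := hp.one_lt; omega
      exact (pow_le_pow_of_le_one hr0.le hr1.le this).trans (pow_one _).le
    rw [h3, norm_mul, norm_p]
    calc (p : ℝ)⁻¹ * ‖((d : ℤ) : E)‖ ≤ ‖y‖ * 1 := by
          gcongr
          exact IsUltrametricDist.norm_intCast_le_one E d
      _ = ‖y‖ := mul_one _
  have e : x ^ p - x = (x ^ p - m ^ p) + ((m ^ p - m) - (x - m)) := by ring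
  rw [e]
  exact norm_add_le' (norm_pow_sub_pow h1 (norm_nat_le m) hm p) (norm_sub_le hmp hm)

/-- The `p (p - 1)`-th power of a unit of `ℚ_p(y)`. -/
theorem norm_unit_pow {β : E} (hx : β ∈ IntermediateField.adjoin ℚ_[p] {y}) (h1 : ‖β‖ = 1) :
    ‖β ^ ((p - 1) * p) - 1‖ ≤ ‖y‖ ^ (p + 1) := by
  have hp : p.Prime := Fact.out
  have hr0 := norm_pos_iff.mpr hy
  obtain ⟨hr1, hrp, hyp⟩ := root_facts hy hroot
  -- the power `p - 1` is congruent to one
  have h2 : ‖β ^ (p - 1) - 1‖ ≤ ‖y‖ := by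
    have h3 := norm_pow_sub_self hy hroot hx h1.le
    have e : β ^ p - β = β * (β ^ (p - 1) - 1) := by
      rw [mul_sub, ← pow_succ', mul_one]; congr 2; have := hp.one_lt; omega
    rwa [e, norm_mul, h1, one_mul] at h3
  set z := β ^ (p - 1) - 1 with hz
  have hzmem : z ∈ IntermediateField.adjoin ℚ_[p] {y} :=
    sub_mem (pow_mem hx _) (one_mem _)
  have hymem : y ∈ IntermediateField.adjoin ℚ_[p] {y} :=
    IntermediateField.subset_adjoin _ _ rfl
  set x := z / y with hxdef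
  have hxmem : x ∈ IntermediateField.adjoin ℚ_[p] {y} := div_mem hzmem hymem
  have hxn : ‖x‖ ≤ 1 := by
    rw [hxdef, norm_div, div_le_one hr0]; exact h2
  have hzx : z = x * y := by rw [hxdef, div_mul_cancel₀ _ hy]
  obtain ⟨t, ht, h⟩ := one_add_pow (p := p) (z := z) (h2.trans hr1.le)
  have e1 : β ^ ((p - 1) * p) - 1 = z ^ p + p * z + p * z ^ 2 * t := by
    rw [pow_mul, show β ^ (p - 1) = 1 + z by rw [hz]; ring, h]; ring
  have e2 : z ^ p + p * z = x * y * (y ^ (p - 1) + p) + y ^ p * (x ^ p - x) := by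
    rw [hzx, mul_pow]
    have : y ^ p = y * y ^ (p - 1) := by
      rw [← pow_succ']; congr 1; have := hp.one_lt; omega
    rw [this]; ring
  rw [e1, e2]
  refine norm_add_le' (norm_add_le' ?_ ?_) ?_
  · rw [norm_mul, norm_mul]
    calc ‖x‖ * ‖y‖ * ‖y ^ (p - 1) + p‖ ≤ 1 * ‖y‖ * ‖y‖ ^ p := by gcongr
      _ = ‖y‖ ^ (p + 1) := by rw [one_mul, pow_succ, mul_comm]
  · rw [norm_mul, norm_pow, pow_succ]
    gcongr
    exact norm_pow_sub_self hy hroot hxmem hxn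
  · rw [norm_mul, norm_mul, norm_p, norm_pow, ← hrp]
    calc ‖y‖ ^ (p - 1) * ‖z‖ ^ 2 * ‖t‖ ≤ ‖y‖ ^ (p - 1) * ‖y‖ ^ 2 * 1 := by gcongr
      _ = ‖y‖ ^ (p + 1) := by
          rw [mul_one, ← pow_add]; congr 1; have := hp.one_lt; omega

end Root

end BKGen.LocalCyc
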