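import Mathlib

/-!
Counting `Eˣ / (Eˣ)^p` for a finite extension `E` of `ℚ_p`.
-/

namespace BKGen.LocalCount

open Module

section Lattice

variable (p : ℕ) [hp : Fact p.Prime] (E : Type*) [NormedField E] [NormedAlgebra ℚ_[p] E]

theorem norm_p : ‖(p : E)‖ = (p : ℝ)⁻¹ := by
  have h : ((p : ℕ) : E) = algebraMap ℚ_[p] E (p : ℚ_[p]) := by simp
  rw [h, norm_algebraMap', Padic.norm_p]

theorem p_ne_zero : (p : E) ≠ 0 := by
  intro h
  have := norm_p p E
  rw [h, norm_zero] at this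
  have hp0 : (0 : ℝ) < p := by exact_mod_cast hp.out.pos
  exact (inv_pos.mpr hp0).ne this

/-- multiplication by `p` -/
def mulP : E →+ E := AddMonoidHom.mulLeft (p : E)

theorem mulP_injective : Function.Injective (mulP p E) := by
  intro x y h
  exact mul_left_cancel₀ (p_ne_zero p E) h

variable {p E}

/-- the index of `pH` in `H` -/
noncomputable def idx (p : ℕ) [Fact p.Prime] {E : Type*} [NormedField E] [NormedAlgebra ℚ_[p] E]
    (H : AddSubgroup E) : ℕ := (H.map (mulP p E)).relIndex H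

theorem idx_eq_of_le {H H' : AddSubgroup E} (h : H ≤ H')
    (hpH : H.map (mulP p E) ≤ H) (hpH' : H'.map (mulP p E) ≤ H') (hfin : H.relIndex H' ≠ 0) :
    idx p H = idx p H' := by
  have h1 := AddSubgroup.relIndex_mul_relIndex _ _ _ hpH h
  have h2 := AddSubgroup.relIndex_mul_relIndex _ _ _
    (AddSubgroup.map_mono (f := mulP p E) h) hpH'
  rw [AddSubgroup.relIndex_map_map_of_injective _ _ (mulP_injective p E)] at h2
  have h3 : idx p H * H.relIndex H' = H.relIndex H' * idx p H' := by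
    rw [idx, idx, h1, h2]
  rw [mul_comm] at h3
  exact Nat.eq_of_mul_eq_mul_left (Nat.pos_of_ne_zero hfin) h3

/-- the unit ball of a linear equivalence -/
def lat {n : ℕ} (φ : E ≃ₗ[ℚ_[p]] (Fin n → ℚ_[p])) : AddSubgroup E where
  carrier := {x | ∀ i, ‖φ x i‖ ≤ 1}
  zero_mem' := by intro i; simp
  add_mem' := by
    intro a b ha hb i
    rw [map_add, Pi.add_apply]
    exact (IsUltrametricDist.norm_add_le_max _ _).trans (max_le (ha i) (hb i))
  neg_mem' := by
    intro a ha i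
    rw [map_neg, Pi.neg_apply, norm_neg]
    exact ha i

theorem mem_lat {n : ℕ} (φ : E ≃ₗ[ℚ_[p]] (Fin n → ℚ_[p])) (x : E) :
    x ∈ lat φ ↔ ∀ i, ‖φ x i‖ ≤ 1 := Iff.rfl

theorem map_mulP {n : ℕ} (φ : E →ₗ[ℚ_[p]] (Fin n → ℚ_[p])) (x : E) :
    φ ((p : E) * x) = (p : ℚ_[p]) • φ x := by
  rw [← map_smul]
  congr 1
  rw [Algebra.smul_def]
  simp

theorem lat_map_le {n : ℕ} (φ : E ≃ₗ[ℚ_[p]] (Fin n → ℚ_[p])) :
    (lat φ).map (mulP p E) ≤ lat φ := by
  rintro _ ⟨x, hx, rfl⟩ i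
  change ‖φ ((p : E) * x) i‖ ≤ 1
  have := map_mulP (p := p) φ.toLinearMap x
  simp only [LinearEquiv.coe_coe] at this
  rw [this, Pi.smul_apply, smul_eq_mul, norm_mul, Padic.norm_p]
  have hp1 : (1 : ℝ) ≤ p := by exact_mod_cast hp.out.one_lt.le
  exact mul_le_one₀ (inv_le_one_of_one_le₀ hp1) (norm_nonneg _) (hx i)

/-- the coordinates of a lattice point -/
noncomputable def coord {n : ℕ} (φ : E ≃ₗ[ℚ_[p]] (Fin n → ℚ_[p])) : lat φ →+ (Fin n → ℤ_[p]) where
  toFun x i := ⟨φ x.1 i, (mem_lat φ x.1).mp x.2 i⟩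
  map_zero' := by
    funext i
    apply Subtype.ext
    change φ (0 : E) i = 0
    rw [map_zero]; rfl
  map_add' := by
    intro x y
    funext i
    apply Subtype.ext
    change φ (x.1 + y.1) i = φ x.1 i + φ y.1 i
    rw [map_add]; rfl

theorem coord_coe {n : ℕ} (φ : E ≃ₗ[ℚ_[p]] (Fin n → ℚ_[p])) (x : lat φ) (i : Fin n) :
    ((coord φ x i : ℤ_[p]) : ℚ_[p]) = φ x.1 i := rfl

/-- reduction modulo `p` of the coordinates -/
noncomputable def red {n : ℕ} (φ : E ≃ₗ[ℚ_[p]] (Fin n → ℚ_[p])) : lat φ →+ (Fin n → ZMod p) where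
  toFun x i := PadicInt.toZMod (coord φ x i)
  map_zero' := by
    funext i
    simp
  map_add' := by
    intro x y
    funext i
    simp

theorem red_apply {n : ℕ} (φ : E ≃ₗ[ℚ_[p]] (Fin n → ℚ_[p])) (x : lat φ) (i : Fin n) :
    red φ x i = PadicInt.toZMod (coord φ x i) := rfl

theorem red_surjective {n : ℕ} (φ : E ≃ₗ[ℚ_[p]] (Fin n → ℚ_[p])) :
    Function.Surjective (red φ) := by
  intro a
  choose b hb using fun i => ZMod.ringHom_surjective (PadicInt.toZMod (p := p)) (a i)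
  have hmem : φ.symm (fun i => (b i : ℚ_[p])) ∈ lat φ := by
    intro i
    rw [LinearEquiv.apply_symm_apply]
    exact (b i).2
  refine ⟨⟨_, hmem⟩, ?_⟩
  funext i
  rw [red_apply, ← hb i]
  congr 1
  apply Subtype.ext
  rw [coord_coe]
  exact congrFun (LinearEquiv.apply_symm_apply φ (fun i => (b i : ℚ_[p]))) i

theorem toZMod_eq_zero_iff (y : ℤ_[p]) : PadicInt.toZMod y = 0 ↔ ‖y‖ ≤ (p : ℝ)⁻¹ := by
  have h1 : PadicInt.toZMod y = 0 ↔ y ∈ RingHom.ker (PadicInt.toZMod (p := p)) := Iff.rfl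
  rw [h1, PadicInt.ker_toZMod, PadicInt.maximalIdeal_eq_span_p]
  have h2 := PadicInt.norm_le_pow_iff_mem_span_pow y 1
  rw [pow_one] at h2
  rw [← h2]
  simp

theorem red_ker {n : ℕ} (φ : E ≃ₗ[ℚ_[p]] (Fin n → ℚ_[p])) :
    (red φ).ker = ((lat φ).map (mulP p E)).addSubgroupOf (lat φ) := by
  ext x
  rw [AddMonoidHom.mem_ker, AddSubgroup.mem_addSubgroupOf]
  have hp0 : (0 : ℝ) < p := by exact_mod_cast hp.out.pos
  constructor
  · intro h
    refine ⟨(p : E)⁻¹ * x.1, ?_, ?_⟩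
    · intro i
      have h1 : red φ x i = 0 := congrFun h i
      rw [red_apply, toZMod_eq_zero_iff] at h1
      change ‖φ x.1 i‖ ≤ (p : ℝ)⁻¹ at h1
      have h2 : φ ((p : E)⁻¹ * x.1) = (p : ℚ_[p])⁻¹ • φ x.1 := by
        rw [← map_smul]
        congr 1
        rw [Algebra.smul_def]
        simp
      rw [h2, Pi.smul_apply, smul_eq_mul, norm_mul, norm_inv, Padic.norm_p, inv_inv]
      calc (p : ℝ) * ‖φ x.1 i‖ ≤ p * (p : ℝ)⁻¹ := by gcongr
        _ = 1 := mul_inv_cancel₀ hp0.ne'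
    · change (p : E) * ((p : E)⁻¹ * x.1) = x.1
      rw [mul_inv_cancel_left₀ (p_ne_zero p E)]
  · rintro ⟨y, hy, hyx⟩
    funext i
    rw [red_apply, Pi.zero_apply, toZMod_eq_zero_iff]
    change ‖φ x.1 i‖ ≤ (p : ℝ)⁻¹
    have hyx' : x.1 = (p : E) * y := hyx.symm
    rw [hyx']
    have := map_mulP (p := p) φ.toLinearMap y
    simp only [LinearEquiv.coe_coe] at this
    rw [this, Pi.smul_apply, smul_eq_mul, norm_mul, Padic.norm_p]
    exact mul_le_of_le_one_right (inv_nonneg.mpr hp0.le) (hy i)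

theorem idx_lat {n : ℕ} (φ : E ≃ₗ[ℚ_[p]] (Fin n → ℚ_[p])) : idx p (lat φ) = p ^ n := by
  rw [idx, AddSubgroup.relIndex, ← red_ker, AddSubgroup.index_ker]
  have h1 : (red φ).range = ⊤ := AddMonoidHom.range_eq_top.mpr (red_surjective φ)
  rw [h1]
  rw [Nat.card_congr AddSubgroup.topEquiv.toEquiv]
  rw [Nat.card_fun]
  simp

theorem idx_map (a : E) (ha : a ≠ 0) (H : AddSubgroup E) :
    idx p (H.map (AddMonoidHom.mulLeft a)) = idx p H := by
  have hinj : Function.Injective (AddMonoidHom.mulLeft a) := fun x y h => mul_left_cancel₀ ha h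
  rw [idx, idx, ← AddSubgroup.relIndex_map_map_of_injective (H.map (mulP p E)) H hinj]
  congr 1
  rw [AddSubgroup.map_map, AddSubgroup.map_map]
  congr 1
  ext x
  change (p : E) * (a * x) = a * ((p : E) * x)
  ring

theorem map_mulLeft_le {H : AddSubgroup E} (hH : H.map (mulP p E) ≤ H) (j : ℕ) :
    H.map (AddMonoidHom.mulLeft ((p : E) ^ j)) ≤ H := by
  induction j with
  | zero =>
    rintro _ ⟨x, hx, rfl⟩
    simpa using hx
  | succ j ih =>
    rintro _ ⟨x, hx, rfl⟩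
    have h1 : (p : E) ^ j * x ∈ H := ih ⟨x, hx, rfl⟩
    have h2 : (p : E) * ((p : E) ^ j * x) ∈ H := hH ⟨_, h1, rfl⟩
    have h3 : (AddMonoidHom.mulLeft ((p : E) ^ (j + 1))) x = (p : E) * ((p : E) ^ j * x) := by
      change (p : E) ^ (j + 1) * x = _
      ring
    rw [h3]; exact h2

theorem relIndex_map_pow_ne_zero {H : AddSubgroup E} (hH : H.map (mulP p E) ≤ H)
    (hidx : idx p H ≠ 0) (j : ℕ) :
    (H.map (AddMonoidHom.mulLeft ((p : E) ^ j))).relIndex H ≠ 0 := by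
  induction j with
  | zero =>
    have : H.map (AddMonoidHom.mulLeft ((p : E) ^ 0)) = H := by
      ext x
      constructor
      · rintro ⟨y, hy, rfl⟩
        simpa using hy
      · intro hx
        exact ⟨x, hx, by simp⟩
    rw [this, AddSubgroup.relIndex_self]
    exact one_ne_zero
  | succ j ih =>
    have h0 : (p : E) ^ j ≠ 0 := pow_ne_zero _ (p_ne_zero p E)
    have h1 : H.map (AddMonoidHom.mulLeft ((p : E) ^ (j + 1))) =
        (H.map (AddMonoidHom.mulLeft ((p : E) ^ j))).map (mulP p E) := by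
      rw [AddSubgroup.map_map]
      congr 1
      ext x
      change (p : E) ^ (j + 1) * x = (p : E) * ((p : E) ^ j * x)
      ring
    have h2 : (H.map (AddMonoidHom.mulLeft ((p : E) ^ j))).map (mulP p E) ≤
        H.map (AddMonoidHom.mulLeft ((p : E) ^ j)) := by
      rintro _ ⟨_, ⟨x, hx, rfl⟩, rfl⟩
      refine ⟨(p : E) * x, hH ⟨x, hx, rfl⟩, ?_⟩
      change (p : E) ^ j * ((p : E) * x) = (p : E) * ((p : E) ^ j * x)
      ring
    have h3 := AddSubgroup.relIndex_mul_relIndex _ _ _ h2 (map_mulLeft_le hH j)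
    rw [h1, ← h3]
    have h4 : ((H.map (AddMonoidHom.mulLeft ((p : E) ^ j))).map (mulP p E)).relIndex
        (H.map (AddMonoidHom.mulLeft ((p : E) ^ j))) = idx p H := idx_map _ h0 H
    rw [h4]
    exact mul_ne_zero hidx ih

variable [IsUltrametricDist E]

/-- the closed unit ball -/
def ball (E : Type*) [NormedField E] [IsUltrametricDist E] : AddSubgroup E where
  carrier := {x | ‖x‖ ≤ 1}
  zero_mem' := by simp
  add_mem' := by
    intro a b ha hb
    exact (IsUltrametricDist.norm_add_le_max _ _).trans (max_le ha hb)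
  neg_mem' := by
    intro a ha
    simpa using ha

theorem mem_ball (x : E) : x ∈ ball E ↔ ‖x‖ ≤ 1 := Iff.rfl

theorem ball_map_le : (ball E).map (mulP p E) ≤ ball E := by
  rintro _ ⟨x, hx, rfl⟩
  change ‖(p : E) * x‖ ≤ 1
  have hx' : ‖x‖ ≤ 1 := hx
  rw [norm_mul, norm_p]
  have hp1 : (1 : ℝ) ≤ p := by exact_mod_cast hp.out.one_lt.le
  exact mul_le_one₀ (inv_le_one_of_one_le₀ hp1) (norm_nonneg _) hx'

variable [FiniteDimensional ℚ_[p] E]

theorem exists_lat : ∃ φ : E ≃ₗ[ℚ_[p]] (Fin (finrank ℚ_[p] E) → ℚ_[p]), ball E ≤ lat φ ∧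
    ∃ j : ℕ, (lat φ).map (AddMonoidHom.mulLeft ((p : E) ^ j)) ≤ ball E := by
  have hp1 : (1 : ℝ) < p := by exact_mod_cast hp.out.one_lt
  have hp0 : (0 : ℝ) < p := by linarith
  let φ0 : E ≃ₗ[ℚ_[p]] (Fin (finrank ℚ_[p] E) → ℚ_[p]) := (finBasis ℚ_[p] E).equivFun
  let f0 : E →L[ℚ_[p]] (Fin (finrank ℚ_[p] E) → ℚ_[p]) := φ0.toContinuousLinearEquiv
  obtain ⟨k, hk⟩ := pow_unbounded_of_one_lt ‖f0‖ hp1
  have hpk : ((p : ℚ_[p]) ^ k) ≠ 0 := pow_ne_zero _ (by exact_mod_cast hp.out.ne_zero)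
  let φ : E ≃ₗ[ℚ_[p]] (Fin (finrank ℚ_[p] E) → ℚ_[p]) :=
    φ0.trans (LinearEquiv.smulOfNeZero ℚ_[p] _ ((p : ℚ_[p]) ^ k) hpk)
  have hφ : ∀ x, φ x = ((p : ℚ_[p]) ^ k) • φ0 x := fun x => rfl
  refine ⟨φ, ?_, ?_⟩
  · intro x hx i
    have hx' : ‖x‖ ≤ 1 := hx
    rw [hφ, Pi.smul_apply, smul_eq_mul, norm_mul, norm_pow, Padic.norm_p]
    have h1 : ‖φ0 x i‖ ≤ ‖f0‖ := by
      calc ‖φ0 x i‖ ≤ ‖φ0 x‖ := norm_le_pi_norm _ i
        _ = ‖f0 x‖ := rfl
        _ ≤ ‖f0‖ * ‖x‖ := f0.le_opNorm x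
        _ ≤ ‖f0‖ * 1 := by gcongr
        _ = ‖f0‖ := mul_one _
    calc (p : ℝ)⁻¹ ^ k * ‖φ0 x i‖ ≤ (p : ℝ)⁻¹ ^ k * (p : ℝ) ^ k := by
          gcongr
          exact h1.trans hk.le
      _ = 1 := by
          rw [← mul_pow, inv_mul_cancel₀ hp0.ne', one_pow]
  · let g : (Fin (finrank ℚ_[p] E) → ℚ_[p]) →L[ℚ_[p]] E := φ.symm.toContinuousLinearEquiv
    obtain ⟨j, hj⟩ := pow_unbounded_of_one_lt ‖g‖ hp1
    refine ⟨j, ?_⟩
    rintro _ ⟨x, hx, rfl⟩
    change ‖(p : E) ^ j * x‖ ≤ 1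
    have h1 : ‖x‖ ≤ ‖g‖ := by
      have h2 : g (φ x) = x := φ.symm_apply_apply x
      have h3 : ‖φ x‖ ≤ 1 := (pi_norm_le_iff_of_nonneg zero_le_one).mpr hx
      calc ‖x‖ = ‖g (φ x)‖ := by rw [h2]
        _ ≤ ‖g‖ * ‖φ x‖ := g.le_opNorm _
        _ ≤ ‖g‖ * 1 := by gcongr
        _ = ‖g‖ := mul_one _
    rw [norm_mul, norm_pow, norm_p]
    calc (p : ℝ)⁻¹ ^ j * ‖x‖ ≤ (p : ℝ)⁻¹ ^ j * (p : ℝ) ^ j := by
          gcongr
          exact h1.trans hj.le
      _ = 1 := by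
          rw [← mul_pow, inv_mul_cancel₀ hp0.ne', one_pow]

/-- `[O : pO] = p ^ n` -/
theorem idx_ball : idx p (ball E) = p ^ finrank ℚ_[p] E := by
  obtain ⟨φ, h1, j, h2⟩ := exists_lat (p := p) (E := E)
  rw [← idx_lat φ]
  apply idx_eq_of_le h1 ball_map_le (lat_map_le φ)
  have h3 : idx p (lat φ) ≠ 0 := by
    rw [idx_lat]
    exact pow_ne_zero _ hp.out.ne_zero
  have h4 := relIndex_map_pow_ne_zero (lat_map_le φ) h3 j
  intro h5
  apply h4
  exact AddSubgroup.relIndex_eq_zero_of_le_left h2 h5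

end Lattice

section Units

variable (p : ℕ) [hp : Fact p.Prime] (E : Type*) [NormedField E] [IsUltrametricDist E]

/-- units of norm one -/
def un : Subgroup Eˣ where
  carrier := {u | ‖(u : E)‖ = 1}
  one_mem' := by simp
  mul_mem' := by
    intro a b ha hb
    change ‖((a * b : Eˣ) : E)‖ = 1
    rw [Units.val_mul, norm_mul, show ‖(a : E)‖ = 1 from ha, show ‖(b : E)‖ = 1 from hb, one_mul]
  inv_mem' := by
    intro a ha
    change ‖((a⁻¹ : Eˣ) : E)‖ = 1
    rw [Units.val_inv_eq_inv_val, norm_inv, show ‖(a : E)‖ = 1 from ha, inv_one]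

variable {E}

theorem norm_eq_one_of_sub {x : E} (h : ‖x - 1‖ < 1) : ‖x‖ = 1 := by
  have h1 : x = (x - 1) + 1 := by ring
  rw [h1, IsUltrametricDist.norm_add_eq_max_of_norm_ne_norm (by rw [norm_one]; exact h.ne),
    norm_one, max_eq_right h.le]

variable (E)

theorem radius_lt_one (k : ℕ) : (p : ℝ)⁻¹ ^ (k + 1) < 1 := by
  have hp1 : (1 : ℝ) < p := by exact_mod_cast hp.out.one_lt
  exact pow_lt_one₀ (by positivity) (inv_lt_one_of_one_lt₀ hp1) (by omega)

/-- units congruent to one modulo `p ^ (k + 1)` -/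
def U (k : ℕ) : Subgroup Eˣ where
  carrier := {u | ‖(u : E) - 1‖ ≤ (p : ℝ)⁻¹ ^ (k + 1)}
  one_mem' := by
    change ‖((1 : Eˣ) : E) - 1‖ ≤ _
    rw [Units.val_one, sub_self, norm_zero]
    positivity
  mul_mem' := by
    intro a b ha hb
    change ‖((a * b : Eˣ) : E) - 1‖ ≤ _
    have ha1 : ‖(a : E)‖ = 1 := norm_eq_one_of_sub (lt_of_le_of_lt ha (radius_lt_one p k))
    have h : ((a * b : Eˣ) : E) - 1 = (a : E) * ((b : E) - 1) + ((a : E) - 1) := by
      rw [Units.val_mul]; ring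
    rw [h]
    refine (IsUltrametricDist.norm_add_le_max _ _).trans (max_le ?_ ha)
    rw [norm_mul, ha1, one_mul]
    exact hb
  inv_mem' := by
    intro a ha
    change ‖((a⁻¹ : Eˣ) : E) - 1‖ ≤ _
    have ha1 : ‖(a : E)‖ = 1 := norm_eq_one_of_sub (lt_of_le_of_lt ha (radius_lt_one p k))
    have h : ((a⁻¹ : Eˣ) : E) - 1 = (a : E)⁻¹ * (1 - (a : E)) := by
      rw [Units.val_inv_eq_inv_val, mul_sub, mul_one, inv_mul_cancel₀ a.ne_zero]
    rw [h, norm_mul, norm_inv, ha1, inv_one, one_mul, norm_sub_rev]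
    exact ha

theorem mem_U (k : ℕ) (u : Eˣ) : u ∈ U p E k ↔ ‖(u : E) - 1‖ ≤ (p : ℝ)⁻¹ ^ (k + 1) := Iff.rfl

theorem mem_un (u : Eˣ) : u ∈ un E ↔ ‖(u : E)‖ = 1 := Iff.rfl

theorem U_le_un (k : ℕ) : U p E k ≤ un E := fun _ ha =>
  norm_eq_one_of_sub (lt_of_le_of_lt ha (radius_lt_one p k))

theorem U_succ_le (k : ℕ) : U p E (k + 1) ≤ U p E k := by
  intro a ha
  rw [mem_U] at ha ⊢
  have hp1 : (1 : ℝ) < p := by exact_mod_cast hp.out.one_lt
  refine ha.trans (pow_le_pow_of_le_one (by positivity) (inv_le_one_of_one_le₀ hp1.le) (by omega))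

variable [NormedAlgebra ℚ_[p] E]

/-- the quotient `O / pO` -/
abbrev Q : Type _ := ball E ⧸ ((ball E).map (mulP p E)).addSubgroupOf (ball E)

/-- `u ↦ (u - 1) / p ^ (k + 1)` -/
noncomputable def dig (k : ℕ) (u : U p E k) : ball E :=
  ⟨((p : E) ^ (k + 1))⁻¹ * ((u.1 : E) - 1), by
    rw [mem_ball, norm_mul, norm_inv, norm_pow, norm_p]
    have h := (mem_U p E k u.1).mp u.2
    have hp0 : (0 : ℝ) < p := by exact_mod_cast hp.out.pos
    have h0 : (0 : ℝ) < (p : ℝ)⁻¹ ^ (k + 1) := by positivity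
    calc ((p : ℝ)⁻¹ ^ (k + 1))⁻¹ * ‖((u.1 : Eˣ) : E) - 1‖
        ≤ ((p : ℝ)⁻¹ ^ (k + 1))⁻¹ * (p : ℝ)⁻¹ ^ (k + 1) := by gcongr
      _ = 1 := inv_mul_cancel₀ h0.ne'⟩

theorem dig_spec (k : ℕ) (u : U p E k) : (u.1 : E) = 1 + (p : E) ^ (k + 1) * (dig p E k u : E) := by
  change (u.1 : E) = 1 + (p : E) ^ (k + 1) * (((p : E) ^ (k + 1))⁻¹ * ((u.1 : E) - 1))
  rw [mul_inv_cancel_left₀ (pow_ne_zero _ (p_ne_zero p E))]
  ring

theorem dig_mul (k : ℕ) (u v : U p E k) : (dig p E k (u * v) : E) =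
    dig p E k u + dig p E k v + (p : E) ^ (k + 1) * ((dig p E k u : E) * dig p E k v) := by
  have h0 : (p : E) ^ (k + 1) ≠ 0 := pow_ne_zero _ (p_ne_zero p E)
  have h1 := dig_spec p E k (u * v)
  have h2 : (((u * v : U p E k) : Eˣ) : E) = (u.1 : E) * (v.1 : E) := by
    rw [Subgroup.coe_mul, Units.val_mul]
  rw [h2, dig_spec p E k u, dig_spec p E k v] at h1
  apply mul_left_cancel₀ h0
  linear_combination -h1

/-- the hom `U_k → O / pO` -/
noncomputable def theta (k : ℕ) : U p E k →* Multiplicative (Q p E) where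
  toFun u := Multiplicative.ofAdd (QuotientAddGroup.mk (dig p E k u))
  map_one' := by
    have h : dig p E k 1 = 0 := by
      apply Subtype.ext
      change ((p : E) ^ (k + 1))⁻¹ * (((1 : Eˣ) : E) - 1) = 0
      simp
    rw [h]; rfl
  map_mul' := by
    intro u v
    rw [← ofAdd_add]
    congr 1
    rw [← QuotientAddGroup.mk_add, QuotientAddGroup.eq]
    rw [AddSubgroup.mem_addSubgroupOf]
    refine ⟨-((p : E) ^ k * ((dig p E k u : E) * dig p E k v)), ?_, ?_⟩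
    · have h1 : ‖(dig p E k u : E)‖ ≤ 1 := (dig p E k u).2
      have h2 : ‖(dig p E k v : E)‖ ≤ 1 := (dig p E k v).2
      change ‖_‖ ≤ 1
      rw [norm_neg, norm_mul, norm_mul, norm_pow, norm_p]
      have hp1 : (1 : ℝ) ≤ p := by exact_mod_cast hp.out.one_lt.le
      have h3 : (p : ℝ)⁻¹ ^ k ≤ 1 := pow_le_one₀ (by positivity) (inv_le_one_of_one_le₀ hp1)
      exact mul_le_one₀ h3 (by positivity) (mul_le_one₀ h1 (norm_nonneg _) h2)
    · change (p : E) * (-((p : E) ^ k * ((dig p E k u : E) * dig p E k v))) =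
        -(dig p E k (u * v) : E) + ((dig p E k u : E) + (dig p E k v : E))
      rw [dig_mul]
      ring

theorem theta_surjective (k : ℕ) : Function.Surjective (theta p E k) := by
  intro q
  obtain ⟨w, hw⟩ := QuotientAddGroup.mk_surjective (Multiplicative.toAdd q)
  have hw1 : ‖(w : E)‖ ≤ 1 := w.2
  have hr : ‖(p : E) ^ (k + 1) * (w : E)‖ ≤ (p : ℝ)⁻¹ ^ (k + 1) := by
    rw [norm_mul, norm_pow, norm_p]
    exact mul_le_of_le_one_right (by positivity) hw1
  have hx : (1 + (p : E) ^ (k + 1) * (w : E)) ≠ 0 := by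
    intro h
    have h1 : ‖(1 + (p : E) ^ (k + 1) * (w : E))‖ = 1 := by
      apply norm_eq_one_of_sub
      rw [add_sub_cancel_left]
      exact lt_of_le_of_lt hr (radius_lt_one p k)
    rw [h, norm_zero] at h1
    exact zero_ne_one h1
  let u : U p E k := ⟨Units.mk0 _ hx, by
    rw [mem_U, Units.val_mk0, add_sub_cancel_left]; exact hr⟩
  refine ⟨u, ?_⟩
  have h1 : dig p E k u = w := by
    apply Subtype.ext
    apply mul_left_cancel₀ (pow_ne_zero (k + 1) (p_ne_zero p E))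
    have h2 := dig_spec p E k u
    have h3 : (u.1 : E) = 1 + (p : E) ^ (k + 1) * (w : E) := rfl
    rw [h3] at h2
    exact (add_left_cancel h2).symm
  change Multiplicative.ofAdd (QuotientAddGroup.mk (dig p E k u)) = q
  rw [h1, hw]; rfl

theorem theta_ker (k : ℕ) : (theta p E k).ker = (U p E (k + 1)).subgroupOf (U p E k) := by
  ext u
  rw [MonoidHom.mem_ker, Subgroup.mem_subgroupOf, mem_U]
  have hp0 : (0 : ℝ) < p := by exact_mod_cast hp.out.pos
  have h0 : theta p E k u = 1 ↔ (QuotientAddGroup.mk (dig p E k u) : Q p E) = 0 := by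
    change Multiplicative.ofAdd (QuotientAddGroup.mk (dig p E k u) : Q p E) = 1 ↔ _
    rw [ofAdd_eq_one]
  rw [h0, QuotientAddGroup.eq_zero_iff, AddSubgroup.mem_addSubgroupOf]
  have h1 : (u.1 : E) - 1 = (p : E) ^ (k + 1) * (dig p E k u : E) := by
    rw [dig_spec p E k u]; ring
  rw [h1, norm_mul, norm_pow, norm_p]
  constructor
  · rintro ⟨y, hy, hyx⟩
    have hy1 : ‖y‖ ≤ 1 := hy
    have hyx' : (dig p E k u : E) = (p : E) * y := hyx.symm
    rw [hyx', norm_mul, norm_p, pow_succ (p : ℝ)⁻¹ (k + 1)]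
    gcongr
    exact mul_le_of_le_one_right (by positivity) hy1
  · intro h
    rw [pow_succ (p : ℝ)⁻¹ (k + 1)] at h
    have h2 : ‖(dig p E k u : E)‖ ≤ (p : ℝ)⁻¹ := le_of_mul_le_mul_left h (by positivity)
    refine ⟨(p : E)⁻¹ * dig p E k u, ?_, ?_⟩
    · change ‖_‖ ≤ 1
      rw [norm_mul, norm_inv, norm_p, inv_inv]
      calc (p : ℝ) * ‖(dig p E k u : E)‖ ≤ p * (p : ℝ)⁻¹ := by gcongr
        _ = 1 := mul_inv_cancel₀ hp0.ne'
    · change (p : E) * ((p : E)⁻¹ * dig p E k u) = dig p E k u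
      rw [mul_inv_cancel_left₀ (p_ne_zero p E)]

theorem relIndex_U (k : ℕ) : (U p E (k + 1)).relIndex (U p E k) = idx p (ball E) := by
  rw [Subgroup.relIndex, ← theta_ker, Subgroup.index_ker]
  have h1 : (theta p E k).range = ⊤ := MonoidHom.range_eq_top.mpr (theta_surjective p E k)
  rw [h1, Nat.card_congr Subgroup.topEquiv.toEquiv]
  rw [idx, AddSubgroup.relIndex, AddSubgroup.index_eq_card]
  exact Nat.card_congr Multiplicative.toAdd

theorem relIndex_U_un (hidx : idx p (ball E) ≠ 0) : (U p E 1).relIndex (un E) ≠ 0 := by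
  have h1 := relIndex_map_pow_ne_zero (p := p) (ball_map_le (E := E)) hidx 2
  rw [AddSubgroup.relIndex, AddSubgroup.index_ne_zero_iff_finite] at h1
  rw [Subgroup.relIndex, Subgroup.index_ne_zero_iff_finite]
  have hmem : ∀ u : un E, (u.1 : E) ∈ ball E := fun u => by
    rw [mem_ball]; exact ((mem_un E u.1).mp u.2).le
  apply Finite.of_injective (fun q : un E ⧸ (U p E 1).subgroupOf (un E) =>
    (QuotientAddGroup.mk (⟨(q.out.1 : E), hmem q.out⟩ : ball E) :
      ball E ⧸ ((ball E).map (AddMonoidHom.mulLeft ((p : E) ^ 2))).addSubgroupOf (ball E)))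
  intro a b hab
  rw [QuotientAddGroup.eq, AddSubgroup.mem_addSubgroupOf] at hab
  obtain ⟨y, hy, hyx⟩ := hab
  have hy1 : ‖y‖ ≤ 1 := hy
  have h2 : (p : E) ^ 2 * y = -((a.out.1 : Eˣ) : E) + ((b.out.1 : Eˣ) : E) := hyx
  rw [← Quotient.out_eq a, ← Quotient.out_eq b]
  apply QuotientGroup.eq.mpr
  rw [Subgroup.mem_subgroupOf, mem_U]
  have h3 : ‖((a.out.1 : Eˣ) : E)‖ = 1 := (mem_un E _).mp a.out.2
  have h4 : (((a.out)⁻¹ * b.out : un E) : Eˣ).val - 1 =
      ((a.out.1 : Eˣ) : E)⁻¹ * ((p : E) ^ 2 * y) := by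
    rw [h2, Subgroup.coe_mul, Units.val_mul, Subgroup.coe_inv, Units.val_inv_eq_inv_val,
      mul_add, mul_neg, inv_mul_cancel₀ (Units.ne_zero _)]
    ring
  rw [h4, norm_mul, norm_inv, h3, inv_one, one_mul, norm_mul, norm_pow, norm_p]
  exact mul_le_of_le_one_right (by positivity) hy1

theorem pow_diff {x y : E} (hx : ‖x - 1‖ ≤ (p : ℝ)⁻¹ ^ 2) (hy : ‖y - 1‖ ≤ (p : ℝ)⁻¹ ^ 2) :
    ‖x ^ p - y ^ p - (p : E) * (x - y)‖ ≤ (p : ℝ)⁻¹ ^ 2 * ‖x - y‖ := by
  have hx1 : ‖x‖ = 1 := norm_eq_one_of_sub (lt_of_le_of_lt hx (radius_lt_one p 1))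
  have hy1 : ‖y‖ = 1 := norm_eq_one_of_sub (lt_of_le_of_lt hy (radius_lt_one p 1))
  have hx0 : x ≠ 0 := by intro h; rw [h, norm_zero] at hx1; exact zero_ne_one hx1
  have hy0 : y ≠ 0 := by intro h; rw [h, norm_zero] at hy1; exact zero_ne_one hy1
  have h1 : x ^ p - y ^ p - (p : E) * (x - y) =
      (∑ i ∈ Finset.range p, (x ^ i * y ^ (p - 1 - i) - 1)) * (x - y) := by
    rw [Finset.sum_sub_distrib, sub_mul, geom_sum₂_mul]
    simp
  rw [h1, norm_mul]
  gcongr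
  apply IsUltrametricDist.norm_sum_le_of_forall_le_of_nonneg (by positivity)
  intro i _
  have hxU : Units.mk0 x hx0 ∈ U p E 1 := hx
  have hyU : Units.mk0 y hy0 ∈ U p E 1 := hy
  have h2 := (U p E 1).mul_mem ((U p E 1).pow_mem hxU i) ((U p E 1).pow_mem hyU (p - 1 - i))
  rw [mem_U] at h2
  simpa using h2

theorem pow_mem_U {u : Eˣ} (hu : u ∈ U p E 1) : u ^ p ∈ U p E 2 := by
  rw [mem_U] at hu ⊢
  have hp0 : (0 : ℝ) < p := by exact_mod_cast hp.out.pos
  have hp1 : (1 : ℝ) < p := by exact_mod_cast hp.out.one_lt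
  have h0 : ‖(1 : E) - 1‖ ≤ (p : ℝ)⁻¹ ^ 2 := by rw [sub_self, norm_zero]; positivity
  have h1 := pow_diff p E hu h0
  rw [one_pow] at h1
  have h2 : ((u ^ p : Eˣ) : E) - 1 = ((u : E) ^ p - 1 - (p : E) * ((u : E) - 1)) +
      (p : E) * ((u : E) - 1) := by
    rw [Units.val_pow_eq_pow_val]; ring
  rw [h2]
  have hinv : (p : ℝ)⁻¹ ≤ 1 := inv_le_one_of_one_le₀ hp1.le
  have hinv0 : (0 : ℝ) ≤ (p : ℝ)⁻¹ := by positivity
  refine (IsUltrametricDist.norm_add_le_max _ _).trans (max_le ?_ ?_)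
  · refine h1.trans ?_
    calc (p : ℝ)⁻¹ ^ 2 * ‖(u : E) - 1‖ ≤ (p : ℝ)⁻¹ ^ 2 * (p : ℝ)⁻¹ ^ 2 := by gcongr
      _ = (p : ℝ)⁻¹ ^ 4 := by ring
      _ ≤ (p : ℝ)⁻¹ ^ (2 + 1) := pow_le_pow_of_le_one hinv0 hinv (by norm_num)
  · rw [norm_mul, norm_p]
    calc (p : ℝ)⁻¹ * ‖(u : E) - 1‖ ≤ (p : ℝ)⁻¹ * (p : ℝ)⁻¹ ^ 2 := by gcongr
      _ = (p : ℝ)⁻¹ ^ (2 + 1) := by ring

theorem pow_inj_U {u : Eˣ} (hu : u ∈ U p E 1) (h : u ^ p = 1) : u = 1 := by
  rw [mem_U] at hu
  have hp0 : (0 : ℝ) < p := by exact_mod_cast hp.out.pos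
  have hp1 : (1 : ℝ) < p := by exact_mod_cast hp.out.one_lt
  have h0 : ‖(1 : E) - 1‖ ≤ (p : ℝ)⁻¹ ^ 2 := by rw [sub_self, norm_zero]; positivity
  have h1 := pow_diff p E hu h0
  have h2 : (u : E) ^ p = 1 := by
    rw [← Units.val_pow_eq_pow_val, h, Units.val_one]
  rw [h2, one_pow, sub_self, zero_sub, norm_neg, norm_mul, norm_p] at h1
  have h3 : ‖(u : E) - 1‖ = 0 := by
    by_contra hne
    have hpos : 0 < ‖(u : E) - 1‖ := lt_of_le_of_ne (norm_nonneg _) (Ne.symm hne)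
    have h4 : (p : ℝ)⁻¹ ≤ (p : ℝ)⁻¹ ^ 2 := le_of_mul_le_mul_right h1 hpos
    have h5 : (p : ℝ)⁻¹ ^ 2 < (p : ℝ)⁻¹ := by
      rw [pow_two]
      exact mul_lt_of_lt_one_left (by positivity) (inv_lt_one_of_one_lt₀ hp1)
    linarith
  apply Units.ext
  rw [Units.val_one]
  exact sub_eq_zero.mp (norm_eq_zero.mp h3)

theorem exists_pow_U [FiniteDimensional ℚ_[p] E] {v : Eˣ} (hv : v ∈ U p E 2) :
    ∃ u ∈ U p E 1, u ^ p = v := by
  rw [mem_U] at hv
  have hp0 : (0 : ℝ) < p := by exact_mod_cast hp.out.pos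
  have hp1 : (1 : ℝ) < p := by exact_mod_cast hp.out.one_lt
  have hpE := p_ne_zero p E
  have : CompleteSpace E := FiniteDimensional.complete ℚ_[p] E
  let s : Set E := {x | ‖x - 1‖ ≤ (p : ℝ)⁻¹ ^ 2}
  have hs : IsClosed s := isClosed_le (by fun_prop) continuous_const
  let f : E → E := fun x => x - (p : E)⁻¹ * (x ^ p - (v : E))
  have hf : ∀ x ∈ s, ∀ y ∈ s, ‖f x - f y‖ ≤ (p : ℝ)⁻¹ * ‖x - y‖ := by
    intro x hx y hy
    have h1 : f x - f y = -((p : E)⁻¹ * (x ^ p - y ^ p - (p : E) * (x - y))) := by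
      change (x - (p : E)⁻¹ * (x ^ p - (v : E))) - (y - (p : E)⁻¹ * (y ^ p - (v : E))) = _
      have h2 : (p : E)⁻¹ * ((p : E) * (x - y)) = x - y := inv_mul_cancel_left₀ hpE _
      rw [mul_sub (p : E)⁻¹ (x ^ p - y ^ p), h2]
      ring
    rw [h1, norm_neg, norm_mul, norm_inv, norm_p, inv_inv]
    calc (p : ℝ) * ‖x ^ p - y ^ p - (p : E) * (x - y)‖
        ≤ p * ((p : ℝ)⁻¹ ^ 2 * ‖x - y‖) := by gcongr; exact pow_diff p E hx hy
      _ = (p : ℝ)⁻¹ * ‖x - y‖ := by field_simp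
  have h1s : (1 : E) ∈ s := by
    change ‖(1 : E) - 1‖ ≤ _
    rw [sub_self, norm_zero]; positivity
  have hmaps : Set.MapsTo f s s := by
    intro x hx
    change ‖f x - 1‖ ≤ _
    have h2 : f x - 1 = (f x - f 1) + (f 1 - 1) := by ring
    rw [h2]
    refine (IsUltrametricDist.norm_add_le_max _ _).trans (max_le ?_ ?_)
    · refine (hf x hx 1 h1s).trans ?_
      calc (p : ℝ)⁻¹ * ‖x - 1‖ ≤ 1 * (p : ℝ)⁻¹ ^ 2 := by
            gcongr
            · exact inv_le_one_of_one_le₀ hp1.le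
            · exact hx
        _ = (p : ℝ)⁻¹ ^ 2 := one_mul _
    · have h3 : f 1 - 1 = (p : E)⁻¹ * ((v : E) - 1) := by
        change (1 - (p : E)⁻¹ * (1 ^ p - (v : E))) - 1 = _
        rw [one_pow]; ring
      rw [h3, norm_mul, norm_inv, norm_p, inv_inv]
      calc (p : ℝ) * ‖(v : E) - 1‖ ≤ p * (p : ℝ)⁻¹ ^ (2 + 1) := by gcongr
        _ = (p : ℝ)⁻¹ ^ 2 := by
          rw [pow_succ, mul_comm ((p : ℝ)⁻¹ ^ 2), ← mul_assoc, mul_inv_cancel₀ hp0.ne', one_mul]
  have hKc : (((p : NNReal)⁻¹ : NNReal) : ℝ) = (p : ℝ)⁻¹ := by simp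
  have hK : (p : NNReal)⁻¹ < 1 := by
    rw [← NNReal.coe_lt_coe, hKc, NNReal.coe_one]
    exact inv_lt_one_of_one_lt₀ hp1
  have hcontr : ContractingWith (p : NNReal)⁻¹ (hmaps.restrict f s s) := by
    refine ⟨hK, ?_⟩
    apply LipschitzWith.of_dist_le_mul
    intro x y
    rw [Subtype.dist_eq, Subtype.dist_eq, dist_eq_norm, dist_eq_norm, hKc]
    exact hf x.1 x.2 y.1 y.2
  obtain ⟨y, hys, hfix, -⟩ := ContractingWith.exists_fixedPoint' hs.isComplete hmaps hcontr h1s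
    (edist_ne_top _ _)
  have hyv : y ^ p = (v : E) := by
    have h2 : y - (p : E)⁻¹ * (y ^ p - (v : E)) = y := hfix
    have h3 : (p : E)⁻¹ * (y ^ p - (v : E)) = 0 := by
      have := sub_eq_self.mp h2
      exact this
    have h4 := (mul_eq_zero.mp h3).resolve_left (inv_ne_zero hpE)
    exact sub_eq_zero.mp h4
  have hy0 : y ≠ 0 := by
    intro h
    rw [h, zero_pow hp.out.ne_zero] at hyv
    exact v.ne_zero hyv.symm
  refine ⟨Units.mk0 y hy0, hys, ?_⟩
  apply Units.ext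
  rw [Units.val_pow_eq_pow_val, Units.val_mk0, hyv]

/-- the `p`-th power map on the units of norm one -/
noncomputable def pw : un E →* un E := powMonoidHom p

theorem index_pw [FiniteDimensional ℚ_[p] E] :
    (pw p E).range.index = p ^ finrank ℚ_[p] E * Nat.card (pw p E).ker := by
  let H : Subgroup (un E) := (U p E 1).subgroupOf (un E)
  have hidx : idx p (ball E) = p ^ finrank ℚ_[p] E := idx_ball
  have hidx0 : idx p (ball E) ≠ 0 := by rw [hidx]; exact pow_ne_zero _ hp.out.ne_zero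
  have hHidx : H.index ≠ 0 := relIndex_U_un p E hidx0
  have hmap : H.map (pw p E) = (U p E 2).subgroupOf (un E) := by
    ext v
    constructor
    · rintro ⟨u, hu, rfl⟩
      exact pow_mem_U p E (Subgroup.mem_subgroupOf.mp hu)
    · intro hv
      obtain ⟨u, hu, huv⟩ := exists_pow_U p E (Subgroup.mem_subgroupOf.mp hv)
      refine ⟨⟨u, U_le_un p E 1 hu⟩, hu, ?_⟩
      apply Subtype.ext
      exact huv
  have hinf : H ⊓ (pw p E).ker = ⊥ := by
    rw [eq_bot_iff]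
    rintro u ⟨hu, huk⟩
    have h1 : (u : Eˣ) ^ p = 1 := by
      have : pw p E u = 1 := huk
      exact congrArg Subtype.val this
    rw [Subgroup.mem_bot]
    apply Subtype.ext
    exact pow_inj_U p E hu h1
  have e1 : (H.map (pw p E)).index = p ^ finrank ℚ_[p] E * H.index := by
    rw [hmap]
    change (U p E 2).relIndex (un E) = _
    rw [← Subgroup.relIndex_mul_relIndex _ _ _ (U_succ_le p E 1) (U_le_un p E 1), relIndex_U, hidx]
    rfl
  have e2 := Subgroup.index_map H (pw p E)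
  have e3 : Nat.card (pw p E).ker * (H ⊔ (pw p E).ker).index = H.index := by
    rw [← Subgroup.relIndex_mul_index (le_sup_left : H ≤ H ⊔ (pw p E).ker)]
    congr 1
    rw [Subgroup.relIndex_sup_left, ← Subgroup.inf_relIndex_right, hinf,
      Subgroup.relIndex_bot_left]
  have hb : (H ⊔ (pw p E).ker).index ≠ 0 := by
    intro h
    rw [h, mul_zero] at e3
    exact hHidx e3.symm
  rw [e1, ← e3] at e2
  apply Nat.eq_of_mul_eq_mul_left (Nat.pos_of_ne_zero hb)
  rw [← e2]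
  ring

end Units

section Value

variable (p : ℕ) [hp : Fact p.Prime] (E : Type*) [NormedField E] [IsUltrametricDist E]
variable [NormedAlgebra ℚ_[p] E] [FiniteDimensional ℚ_[p] E]

theorem norm_algNorm (x : E) : ‖Algebra.norm ℚ_[p] x‖ = ‖x‖ ^ finrank ℚ_[p] E := by
  have hint : IsIntegral ℚ_[p] x := Algebra.IsIntegral.isIntegral x
  have h1 : ‖x‖ = ‖(minpoly ℚ_[p] x).coeff 0‖ ^ (1 / (minpoly ℚ_[p] x).natDegree : ℝ) := by
    rw [NormedAlgebra.norm_eq_spectralNorm ℚ_[p] x]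
    exact spectralNorm.spectralNorm_eq_norm_coeff_zero_rpow ℚ_[p] E x
  have hd : 0 < (minpoly ℚ_[p] x).natDegree := minpoly.natDegree_pos hint
  have h2 : ‖x‖ ^ (minpoly ℚ_[p] x).natDegree = ‖(minpoly ℚ_[p] x).coeff 0‖ := by
    rw [h1, ← Real.rpow_natCast, ← Real.rpow_mul (norm_nonneg _), one_div,
      inv_mul_cancel₀ (by exact_mod_cast hd.ne'), Real.rpow_one]
  have h3 := Algebra.norm_eq_norm_adjoin ℚ_[p] x
  have h4 : Algebra.norm ℚ_[p] (IntermediateField.AdjoinSimple.gen ℚ_[p] x) =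
      (-1) ^ (IntermediateField.adjoin.powerBasis hint).dim * (minpoly ℚ_[p] x).coeff 0 := by
    have h5 := Algebra.PowerBasis.norm_gen_eq_coeff_zero_minpoly
      (IntermediateField.adjoin.powerBasis hint)
    rw [IntermediateField.adjoin.powerBasis_gen hint, IntermediateField.minpoly_gen] at h5
    exact h5
  rw [h3, h4, norm_pow, norm_mul, norm_pow, norm_neg, norm_one, one_pow, one_mul, ← h2, ← pow_mul]
  congr 1
  rw [← IntermediateField.adjoin.finrank hint]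
  exact Module.finrank_mul_finrank _ _ _

/-- the valuation of the norm -/
noncomputable def val : Eˣ →* Multiplicative ℤ where
  toFun u := Multiplicative.ofAdd (Algebra.norm ℚ_[p] (u : E)).valuation
  map_one' := by simp
  map_mul' := by
    intro u v
    have hu : Algebra.norm ℚ_[p] (u : E) ≠ 0 := Algebra.norm_ne_zero_iff.mpr u.ne_zero
    have hv : Algebra.norm ℚ_[p] (v : E) ≠ 0 := Algebra.norm_ne_zero_iff.mpr v.ne_zero
    rw [Units.val_mul, map_mul, Padic.valuation_mul hu hv, ofAdd_add]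

theorem val_ker : (val p E).ker = un E := by
  ext u
  rw [MonoidHom.mem_ker, mem_un]
  have hu : Algebra.norm ℚ_[p] (u : E) ≠ 0 := Algebra.norm_ne_zero_iff.mpr u.ne_zero
  have h0 : val p E u = 1 ↔ (Algebra.norm ℚ_[p] (u : E)).valuation = 0 := by
    change Multiplicative.ofAdd _ = 1 ↔ _
    rw [ofAdd_eq_one]
  have hn := norm_algNorm p E (u : E)
  rw [Padic.norm_eq_zpow_neg_valuation hu] at hn
  have hp1 : (1 : ℝ) < p := by exact_mod_cast hp.out.one_lt
  have hfr : finrank ℚ_[p] E ≠ 0 := (finrank_pos (R := ℚ_[p]) (M := E)).ne'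
  rw [h0]
  constructor
  · intro h
    rw [h, neg_zero, zpow_zero] at hn
    exact (pow_eq_one_iff_of_nonneg (norm_nonneg _) hfr).mp hn.symm
  · intro h
    rw [h, one_pow] at hn
    have h1 : -(Algebra.norm ℚ_[p] (u : E)).valuation = 0 :=
      (zpow_eq_one_iff_right₀ (by linarith) hp1.ne').mp hn
    omega

/-- the element `p` of `Eˣ` -/
noncomputable def pu : Eˣ := Units.mk0 (p : E) (p_ne_zero p E)

theorem val_pu : val p E (pu p E) = Multiplicative.ofAdd (finrank ℚ_[p] E : ℤ) := by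
  change Multiplicative.ofAdd (Algebra.norm ℚ_[p] (p : E)).valuation = _
  congr 1
  have h : (p : E) = algebraMap ℚ_[p] E (p : ℚ_[p]) := by simp
  rw [h, Algebra.norm_algebraMap, Padic.valuation_pow, Padic.valuation_p, mul_one]

theorem val_range_index : (val p E).range.index ≠ 0 := by
  have h1 : AddSubgroup.toSubgroup (AddSubgroup.zmultiples (finrank ℚ_[p] E : ℤ)) ≤
      (val p E).range := by
    rintro x hx
    have hx' : Multiplicative.toAdd x ∈ AddSubgroup.zmultiples (finrank ℚ_[p] E : ℤ) := hx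
    obtain ⟨k, hk⟩ := AddSubgroup.mem_zmultiples_iff.mp hx'
    refine ⟨pu p E ^ k, ?_⟩
    rw [map_zpow, val_pu, ← ofAdd_zsmul, hk]
    rfl
  have h2 := Subgroup.index_dvd_of_le h1
  rw [AddSubgroup.index_toSubgroup, Int.index_zmultiples] at h2
  intro h3
  rw [h3, zero_dvd_iff] at h2
  have hfr : finrank ℚ_[p] E ≠ 0 := (finrank_pos (R := ℚ_[p]) (M := E)).ne'
  simp at h2
  exact hfr h2

omit hp in
theorem pow_int_range [NeZero p] :
    (powMonoidHom p : Multiplicative ℤ →* Multiplicative ℤ).range.index = p := by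
  have h1 : (powMonoidHom p : Multiplicative ℤ →* Multiplicative ℤ).range =
      AddSubgroup.toSubgroup (AddSubgroup.zmultiples (p : ℤ)) := by
    ext x
    constructor
    · rintro ⟨y, rfl⟩
      change Multiplicative.toAdd (y ^ p) ∈ AddSubgroup.zmultiples (p : ℤ)
      rw [toAdd_pow, AddSubgroup.mem_zmultiples_iff]
      exact ⟨Multiplicative.toAdd y, by simp [mul_comm]⟩
    · intro hx
      have hx' : Multiplicative.toAdd x ∈ AddSubgroup.zmultiples (p : ℤ) := hx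
      obtain ⟨k, hk⟩ := AddSubgroup.mem_zmultiples_iff.mp hx'
      refine ⟨Multiplicative.ofAdd k, ?_⟩
      change Multiplicative.ofAdd k ^ p = x
      rw [← ofAdd_nsmul]
      apply Multiplicative.toAdd.injective
      rw [toAdd_ofAdd, ← hk]
      simp [mul_comm]
  rw [h1, AddSubgroup.index_toSubgroup, Int.index_zmultiples, Int.natAbs_natCast]

/-- the `p`-th power map of `Eˣ` -/
noncomputable def pwE : Eˣ →* Eˣ := powMonoidHom p

theorem index_sup : ((pwE p E).range ⊔ un E).index = p := by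
  have : NeZero p := ⟨hp.out.ne_zero⟩
  have e1 := Subgroup.index_map (pwE p E).range (val p E)
  have e2 := Subgroup.index_map (val p E).range (powMonoidHom p)
  have h1 : (pwE p E).range.map (val p E) = (val p E).range.map (powMonoidHom p) := by
    ext x
    constructor
    · rintro ⟨_, ⟨y, rfl⟩, rfl⟩
      refine ⟨val p E y, ⟨y, rfl⟩, ?_⟩
      change (val p E y) ^ p = val p E (y ^ p)
      rw [map_pow]
    · rintro ⟨_, ⟨y, rfl⟩, rfl⟩
      refine ⟨y ^ p, ⟨y, rfl⟩, ?_⟩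
      change val p E (y ^ p) = (val p E y) ^ p
      rw [map_pow]
  have h2 : (powMonoidHom p : Multiplicative ℤ →* Multiplicative ℤ).ker = ⊥ := by
    rw [eq_bot_iff]
    intro x hx
    have hx' : x ^ p = 1 := hx
    rw [Subgroup.mem_bot]
    apply Multiplicative.toAdd.injective
    have h3 : Multiplicative.toAdd (x ^ p) = 0 := by rw [hx']; rfl
    rw [toAdd_pow, smul_eq_zero] at h3
    rcases h3 with h3 | h3
    · exact absurd h3 hp.out.ne_zero
    · rw [h3]; rfl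
  rw [h1] at e1
  rw [h2, sup_bot_eq, pow_int_range, e1, val_ker, mul_comm] at e2
  exact Nat.eq_of_mul_eq_mul_left (Nat.pos_of_ne_zero (val_range_index p E)) e2

theorem range_subgroupOf : (pwE p E).range.subgroupOf (un E) = (pw p E).range := by
  ext u
  rw [Subgroup.mem_subgroupOf]
  constructor
  · rintro ⟨y, hy⟩
    have hy' : y ^ p = (u : Eˣ) := hy
    have h1 : ‖((u : Eˣ) : E)‖ = 1 := (mem_un E _).mp u.2
    rw [← hy', Units.val_pow_eq_pow_val, norm_pow] at h1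
    have h2 : ‖(y : E)‖ = 1 := (pow_eq_one_iff_of_nonneg (norm_nonneg _) hp.out.ne_zero).mp h1
    refine ⟨⟨y, h2⟩, ?_⟩
    apply Subtype.ext
    exact hy'
  · rintro ⟨y, hy⟩
    exact ⟨y.1, congrArg Subtype.val hy⟩

theorem index_pwE : (pwE p E).range.index =
    p ^ (finrank ℚ_[p] E + 1) * Nat.card (pw p E).ker := by
  rw [← Subgroup.relIndex_mul_index (le_sup_left : (pwE p E).range ≤ (pwE p E).range ⊔ un E),
    Subgroup.relIndex_sup_left, index_sup]
  have h1 : (pwE p E).range.relIndex (un E) = (pw p E).range.index := by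
    rw [Subgroup.relIndex, range_subgroupOf]
  rw [h1, index_pw]
  ring

theorem card_ker : Nat.card (pw p E).ker = Nat.card (rootsOfUnity p E) := by
  apply Nat.card_congr
  refine ⟨fun u => ⟨u.1.1, ?_⟩, fun u => ⟨⟨u.1, ?_⟩, ?_⟩, fun u => rfl, fun u => rfl⟩
  · rw [mem_rootsOfUnity]
    exact congrArg Subtype.val (show (u.1 : un E) ^ p = 1 from u.2)
  · have h1 : (u.1 : Eˣ) ^ p = 1 := (mem_rootsOfUnity _ _).mp u.2
    have h2 : ‖((u.1 : Eˣ) : E)‖ ^ p = 1 := by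
      rw [← norm_pow, ← Units.val_pow_eq_pow_val, h1, Units.val_one, norm_one]
    exact (pow_eq_one_iff_of_nonneg (norm_nonneg _) hp.out.ne_zero).mp h2
  · rw [MonoidHom.mem_ker]
    apply Subtype.ext
    exact (mem_rootsOfUnity _ _).mp u.2

/-- `#(Eˣ / (Eˣ)^p) = p ^ (n + 1) * #μ_p(E)` -/
theorem card_quotient : Nat.card (Eˣ ⧸ (powMonoidHom p : Eˣ →* Eˣ).range) =
    p ^ (finrank ℚ_[p] E + 1) * Nat.card (rootsOfUnity p E) := by
  have h := index_pwE p E
  rw [card_ker, Subgroup.index_eq_card] at h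
  exact h

/-- **Main count.** `#(Eˣ / (Eˣ)^p) = p ^ (n + 2)` if `E` contains a primitive `p`-th root of
unity. -/
theorem card_quotient_of_primitive {ζ : E} (hζ : IsPrimitiveRoot ζ p) :
    Nat.card (Eˣ ⧸ (powMonoidHom p : Eˣ →* Eˣ).range) = p ^ (finrank ℚ_[p] E + 2) := by
  have : NeZero p := ⟨hp.out.ne_zero⟩
  rw [card_quotient, hζ.card_rootsOfUnity]
  ring

theorem finite_quotient : Finite (Eˣ ⧸ (powMonoidHom p : Eˣ →* Eˣ).range) := by
  have : NeZero p := ⟨hp.out.ne_zero⟩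
  apply Nat.finite_of_card_ne_zero
  rw [card_quotient]
  exact mul_ne_zero (pow_ne_zero _ hp.out.ne_zero) Nat.card_pos.ne'

end Value

/-- The count for intermediate fields of `PadicAlgCl p`. -/
theorem card_localField (p : ℕ) [Fact p.Prime] (E : IntermediateField ℚ_[p] (PadicAlgCl p))
    [FiniteDimensional ℚ_[p] E] {ζ : E} (hζ : IsPrimitiveRoot ζ p) :
    Nat.card ((E : Type _)ˣ ⧸ (powMonoidHom p : (E : Type _)ˣ →* (E : Type _)ˣ).range) =
      p ^ (finrank ℚ_[p] E + 2) :=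
  card_quotient_of_primitive p E hζ

end BKGen.LocalCount
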