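import Mathlib

/-!
Part (A): a continuous cocycle with values in a residually unipotent representation of a compact
group, over an ultrametric field of residue characteristic `p`; if it is not zero, then it is not
zero modulo an open normal subgroup of index `p` containing its zeros.
-/

open Matrix Polynomial

namespace BKGen

section Bound

variable {L : Type*} [NormedField L]
variable {G : Type*} [Group G]
variable {n : Type*} [Fintype n] [DecidableEq n]

/-- uniform bound for the entries of all two sided translates -/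
def Bd (M : G →* Matrix n n L) (T : Matrix n n L) (r : ℝ) : Prop :=
  ∀ g h i j, ‖(M g * T * M h) i j‖ ≤ r

theorem Bd.mono {M : G →* Matrix n n L} {T : Matrix n n L} {r s : ℝ} (h : Bd M T r)
    (hrs : r ≤ s) : Bd M T s := fun g k i j => (h g k i j).trans hrs

theorem Bd.smul {M : G →* Matrix n n L} {T : Matrix n n L} {r : ℝ} (h : Bd M T r) (c : L) :
    Bd M (c • T) (‖c‖ * r) := by
  intro g k i j
  rw [Matrix.mul_smul, Matrix.smul_mul, Matrix.smul_apply, smul_eq_mul, norm_mul]
  exact mul_le_mul_of_nonneg_left (h g k i j) (norm_nonneg _)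

theorem Bd.neg {M : G →* Matrix n n L} {T : Matrix n n L} {r : ℝ} (h : Bd M T r) :
    Bd M (-T) r := by
  intro g k i j
  rw [Matrix.mul_neg, Matrix.neg_mul, Matrix.neg_apply, norm_neg]
  exact h g k i j

theorem Bd.zero {M : G →* Matrix n n L} {r : ℝ} (hr : 0 ≤ r) : Bd M 0 r := by
  intro g k i j
  simpa using hr

theorem Bd.mul_right {M : G →* Matrix n n L} {T : Matrix n n L} {r : ℝ} (h : Bd M T r) (k : G) :
    Bd M (T * M k) r := by
  intro g l i j
  have : M g * (T * M k) * M l = M g * T * M (k * l) := by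
    rw [map_mul]; simp only [Matrix.mul_assoc]
  rw [this]
  exact h g (k * l) i j

theorem Bd.mul_left {M : G →* Matrix n n L} {T : Matrix n n L} {r : ℝ} (h : Bd M T r) (k : G) :
    Bd M (M k * T) r := by
  intro g l i j
  have : M g * (M k * T) * M l = M (g * k) * T * M l := by
    rw [map_mul]; simp only [Matrix.mul_assoc]
  rw [this]
  exact h (g * k) l i j

variable [IsUltrametricDist L]

theorem Bd.add {M : G →* Matrix n n L} {T S : Matrix n n L} {r : ℝ} (h : Bd M T r)
    (h' : Bd M S r) : Bd M (T + S) r := by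
  intro g k i j
  rw [Matrix.mul_add, Matrix.add_mul, Matrix.add_apply]
  exact (IsUltrametricDist.norm_add_le_max _ _).trans (max_le (h g k i j) (h' g k i j))

theorem Bd.sub {M : G →* Matrix n n L} {T S : Matrix n n L} {r : ℝ} (h : Bd M T r)
    (h' : Bd M S r) : Bd M (T - S) r := by
  rw [sub_eq_add_neg]; exact h.add h'.neg

theorem Bd.sum {M : G →* Matrix n n L} {ι : Type*} (s : Finset ι) (T : ι → Matrix n n L) {r : ℝ}
    (hr : 0 ≤ r) (h : ∀ i ∈ s, Bd M (T i) r) : Bd M (∑ i ∈ s, T i) r := by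
  classical
  induction s using Finset.induction_on with
  | empty => simpa using Bd.zero hr
  | insert a s ha ih =>
    rw [Finset.sum_insert ha]
    exact (h a (Finset.mem_insert_self _ _)).add
      (ih fun i hi => h i (Finset.mem_insert_of_mem hi))

theorem Bd.mul_sub_one {M : G →* Matrix n n L} {T : Matrix n n L} {r : ℝ} (h : Bd M T r) (k : G) :
    Bd M (T * (M k - 1)) r := by
  rw [Matrix.mul_sub, Matrix.mul_one]
  exact (h.mul_right k).sub h

theorem Bd.mul_sub_one_pow {M : G →* Matrix n n L} {T : Matrix n n L} {r : ℝ} (h : Bd M T r)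
    (k : G) (m : ℕ) : Bd M (T * (M k - 1) ^ m) r := by
  induction m with
  | zero => simpa using h
  | succ m ih =>
    rw [pow_succ, ← Matrix.mul_assoc]
    exact ih.mul_sub_one k

/-- multiplication with the `N`-th power of `M σ - 1` contracts, if `M σ` is residually
unipotent -/
theorem Bd.contract {M : G →* Matrix n n L} {T : Matrix n n L} {r δ : ℝ} (hr : 0 ≤ r)
    (h : Bd M T r) (k : G)
    (hk : ∀ i, ‖((M k).charpoly - (X - 1) ^ Fintype.card n).coeff i‖ ≤ δ) :
    Bd M (T * (M k - 1) ^ Fintype.card n) (δ * r) := by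
  set E : L[X] := (M k).charpoly - (X - 1) ^ Fintype.card n with hE
  have h0 : 0 ≤ δ := (norm_nonneg _).trans (hk 0)
  have h1 : (M k - 1) ^ Fintype.card n = - aeval (M k) E := by
    rw [hE, map_sub, Matrix.aeval_self_charpoly, map_pow, map_sub, aeval_X, map_one]
    simp
  have h2 : aeval (M k) E = ∑ i ∈ Finset.range (E.natDegree + 1), E.coeff i • M (k ^ i) := by
    rw [aeval_eq_sum_range]
    simp only [map_pow]
  rw [h1, Matrix.mul_neg, h2, Matrix.mul_sum]
  refine (Bd.sum _ _ (mul_nonneg h0 hr) fun i _ => ?_).neg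
  rw [Matrix.mul_smul]
  exact ((h.mul_right (k ^ i)).smul (E.coeff i)).mono (mul_le_mul_of_nonneg_right (hk i) hr)

theorem Bd.contract_pow {M : G →* Matrix n n L} {T : Matrix n n L} {r δ : ℝ} (hr : 0 ≤ r)
    (h : Bd M T r) (k : G)
    (hk : ∀ i, ‖((M k).charpoly - (X - 1) ^ Fintype.card n).coeff i‖ ≤ δ) (j : ℕ) :
    Bd M (T * (M k - 1) ^ (Fintype.card n * j)) (δ ^ j * r) := by
  have h0 : 0 ≤ δ := (norm_nonneg _).trans (hk 0)
  induction j with
  | zero => simpa using h
  | succ j ih =>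
    rw [Nat.mul_succ, pow_add, ← Matrix.mul_assoc, pow_succ, mul_comm (δ ^ j) δ, mul_assoc δ]
    exact Bd.contract (mul_nonneg (pow_nonneg h0 _) hr) ih k hk

/-- divisibility of binomial coefficients -/
theorem choose_dvd {p : ℕ} (hp : p.Prime) {k m : ℕ} (hm : 0 < m) :
    p ^ (k - m) ∣ (p ^ k).choose m := by
  rcases Nat.lt_or_ge (p ^ k) m with h | h
  · rw [Nat.choose_eq_zero_of_lt h]; exact dvd_zero _
  have h1 : p ^ k ∣ m * (p ^ k).choose m := by
    obtain ⟨q, hq⟩ : ∃ q, p ^ k = q + 1 := ⟨p ^ k - 1, by have := pow_pos hp.pos k; omega⟩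
    obtain ⟨l, rfl⟩ : ∃ l, m = l + 1 := ⟨m - 1, by omega⟩
    refine ⟨q.choose l, ?_⟩
    rw [hq]
    have := Nat.add_one_mul_choose_eq q l
    rw [mul_comm (l + 1)]
    exact this.symm
  have hne : (p ^ k).choose m ≠ 0 := (Nat.choose_pos h).ne'
  have : Fact p.Prime := ⟨hp⟩
  have h2 : k ≤ padicValNat p (m * (p ^ k).choose m) :=
    (padicValNat_dvd_iff_le (mul_ne_zero hm.ne' hne)).mp h1
  rw [padicValNat.mul hm.ne' hne] at h2
  have h3 : padicValNat p m ≤ m := by
    have h4 : p ^ padicValNat p m ∣ m := pow_padicValNat_dvd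
    have h5 : p ^ padicValNat p m ≤ m := Nat.le_of_dvd hm h4
    exact (Nat.lt_pow_self hp.one_lt).le.trans h5
  exact (padicValNat_dvd_iff_le hne).mpr (by omega)

theorem norm_choose_le {p : ℕ} (hp : p.Prime) {k m : ℕ} (hm : 0 < m) :
    ‖(((p ^ k).choose m : ℕ) : L)‖ ≤ ‖(p : L)‖ ^ (k - m) := by
  obtain ⟨q, hq⟩ := choose_dvd hp (k := k) hm
  rw [hq, Nat.cast_mul, Nat.cast_pow, norm_mul, norm_pow]
  exact mul_le_of_le_one_right (pow_nonneg (norm_nonneg _) _)
    (IsUltrametricDist.norm_natCast_le_one L q)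

/-- the `p`-power powers of a residually unipotent element tend to one, uniformly -/
theorem Bd.pow_sub_one {p : ℕ} (hp : p.Prime) (hpL : ‖(p : L)‖ < 1) {M : G →* Matrix n n L}
    {C : ℝ} (hC : Bd M 1 C) (hC0 : 0 ≤ C) (σ : G)
    (hk : ∀ i, ‖((M σ).charpoly - (X - 1) ^ Fintype.card n).coeff i‖ < 1)
    {ε : ℝ} (hε : 0 < ε) : ∃ k : ℕ, Bd M (M σ ^ (p ^ k) - 1) ε := by
  classical
  -- a uniform bound for the coefficients
  obtain ⟨δ, hδ1, hδ⟩ : ∃ δ < 1, ∀ i,
      ‖((M σ).charpoly - (X - 1) ^ Fintype.card n).coeff i‖ ≤ δ := by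
    set E : L[X] := (M σ).charpoly - (X - 1) ^ Fintype.card n with hE
    have hne : (Finset.range (E.natDegree + 1)).Nonempty := ⟨0, by simp⟩
    refine ⟨(Finset.range (E.natDegree + 1)).sup' hne fun i => ‖E.coeff i‖, ?_, fun i => ?_⟩
    · rw [Finset.sup'_lt_iff]
      exact fun i _ => hk i
    · by_cases hi : i < E.natDegree + 1
      · exact Finset.le_sup' (fun i => ‖E.coeff i‖) (Finset.mem_range.mpr hi)
      · rw [Polynomial.coeff_eq_zero_of_natDegree_lt (by omega), norm_zero]
        exact (norm_nonneg (E.coeff 0)).trans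
          (Finset.le_sup' (fun i => ‖E.coeff i‖) (Finset.mem_range.mpr (by omega)))
  have hδ0 : 0 ≤ δ := (norm_nonneg _).trans (hδ 0)
  obtain ⟨j, hj⟩ : ∃ j : ℕ, δ ^ j * C ≤ ε := by
    have : Filter.Tendsto (fun j : ℕ => δ ^ j * C) Filter.atTop (nhds (0 * C)) :=
      (tendsto_pow_atTop_nhds_zero_of_lt_one hδ0 hδ1).mul_const C
    rw [zero_mul] at this
    obtain ⟨j, hj⟩ := ((this.eventually (gt_mem_nhds hε))).exists
    exact ⟨j, hj.le⟩
  set m₀ := Fintype.card n * j with hm₀
  obtain ⟨k, hk1⟩ : ∃ k : ℕ, ‖(p : L)‖ ^ (k - m₀) * C ≤ ε := by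
    have : Filter.Tendsto (fun j : ℕ => ‖(p : L)‖ ^ j * C) Filter.atTop (nhds (0 * C)) :=
      (tendsto_pow_atTop_nhds_zero_of_lt_one (norm_nonneg _) hpL).mul_const C
    rw [zero_mul] at this
    obtain ⟨k, hk⟩ := ((this.eventually (gt_mem_nhds hε))).exists
    exact ⟨k + m₀, by rw [Nat.add_sub_cancel]; exact hk.le⟩
  refine ⟨k, ?_⟩
  set B : Matrix n n L := M σ - 1 with hB
  have hMB : M σ = B + 1 := by rw [hB]; abel
  have hexp : M σ ^ (p ^ k) - 1 =
      ∑ m ∈ Finset.range (p ^ k), (((p ^ k).choose (m + 1) : ℕ) : L) • B ^ (m + 1) := by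
    rw [hMB, Commute.add_pow (Commute.one_right B), Finset.sum_range_succ']
    simp only [one_pow, mul_one, pow_zero, Nat.choose_zero_right, Nat.cast_one, add_sub_cancel_right]
    refine Finset.sum_congr rfl fun m _ => ?_
    rw [← Nat.cast_comm, ← nsmul_eq_mul, Nat.cast_smul_eq_nsmul]
  rw [hexp]
  refine Bd.sum _ _ hε.le fun m _ => ?_
  by_cases hm : m₀ ≤ m + 1
  · have h1 : Bd M (B ^ (m + 1)) ε := by
      have h2 := (Bd.contract_pow hC0 hC σ hδ j).mul_sub_one_pow σ (m + 1 - m₀)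
      rw [Matrix.one_mul, ← hm₀, ← hB, ← pow_add] at h2
      rw [show m₀ + (m + 1 - m₀) = m + 1 by omega] at h2
      exact h2.mono hj
    refine (h1.smul _).mono ?_
    exact mul_le_of_le_one_left hε.le (IsUltrametricDist.norm_natCast_le_one L _)
  · have h1 : Bd M (B ^ (m + 1)) C := by
      have h2 := hC.mul_sub_one_pow σ (m + 1)
      rwa [Matrix.one_mul, ← hB] at h2
    refine (h1.smul _).mono (le_trans ?_ hk1)
    refine mul_le_mul_of_nonneg_right ?_ hC0
    refine (norm_choose_le hp (Nat.succ_pos m)).trans ?_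
    exact pow_le_pow_of_le_one (norm_nonneg _) hpL.le (by omega)

end Bound

section PGroup

/-- a proper subgroup of a finite `p`-group is contained in a normal subgroup of index `p` -/
theorem exists_normal_index {p : ℕ} [Fact p.Prime] {Q : Type*} [Group Q] [Finite Q]
    (hQ : IsPGroup p Q) (H : Subgroup Q) (hH : H ≠ ⊤) :
    ∃ N : Subgroup Q, N.Normal ∧ N.index = p ∧ H ≤ N := by
  obtain ⟨N, hN, hHN⟩ := (eq_top_or_exists_le_coatom H).resolve_left hH
  have hnil := hQ.isNilpotent
  have hnorm : N.Normal := Subgroup.NormalizerCondition.normal_of_coatom N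
    Group.normalizerCondition_of_isNilpotent hN
  refine ⟨N, hnorm, ?_, hHN⟩
  -- the quotient has no proper subgroups
  have hp1 : p ∣ Nat.card (Q ⧸ N) := by
    rcases (hQ.to_quotient N).card_eq_or_dvd with h | h
    · exfalso
      apply hN.1
      rw [← Subgroup.index_eq_one]
      exact h
    · exact h
  obtain ⟨x, hx⟩ := exists_prime_orderOf_dvd_card' p hp1
  have h2 : Subgroup.comap (QuotientGroup.mk' N) (Subgroup.zpowers x) = ⊤ := by
    apply hN.2
    refine lt_of_le_of_ne ?_ ?_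
    · intro y hy
      rw [Subgroup.mem_comap]
      have : (QuotientGroup.mk' N) y = 1 := (QuotientGroup.eq_one_iff y).mpr hy
      rw [this]
      exact Subgroup.one_mem _
    · intro h
      obtain ⟨y, rfl⟩ := QuotientGroup.mk'_surjective N x
      have hy : y ∈ N := by
        rw [h, Subgroup.mem_comap]
        exact Subgroup.mem_zpowers _
      have : (QuotientGroup.mk' N) y = 1 := (QuotientGroup.eq_one_iff y).mpr hy
      rw [this, orderOf_one] at hx
      exact (Fact.out : p.Prime).one_lt.ne hx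
  have h3 : Subgroup.zpowers x = ⊤ := by
    rw [← Subgroup.comap_top (QuotientGroup.mk' N)] at h2
    exact Subgroup.comap_injective (QuotientGroup.mk'_surjective N) h2
  have h4 : Nat.card (Subgroup.zpowers x) = p := by rw [Nat.card_zpowers, hx]
  rw [h3, Subgroup.card_top] at h4
  exact h4

end PGroup

section Main

variable {L : Type*} [NormedField L] [IsUltrametricDist L]
variable {G : Type*} [Group G] [TopologicalSpace G] [IsTopologicalGroup G] [CompactSpace G]
variable {n : Type*} [Fintype n] [DecidableEq n]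

omit [IsUltrametricDist L] [IsTopologicalGroup G] in
theorem exists_entry_bound (M : G →* Matrix n n L) (hM : Continuous M) :
    ∃ C : ℝ, 1 ≤ C ∧ ∀ g i j, ‖M g i j‖ ≤ C := by
  have hc : Continuous fun g : G => ∑ i, ∑ j, ‖M g i j‖ := by
    refine continuous_finsetSum _ fun i _ => continuous_finsetSum _ fun j _ => ?_
    exact (hM.matrix_elem i j).norm
  obtain ⟨C, hC⟩ := (isCompact_range hc).bddAbove
  refine ⟨max C 1, le_max_right _ _, fun g i j => ?_⟩
  have h1 : ∑ i, ∑ j, ‖M g i j‖ ≤ C := hC ⟨g, rfl⟩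
  refine le_trans ?_ (h1.trans (le_max_left _ _))
  calc ‖M g i j‖ ≤ ∑ j, ‖M g i j‖ :=
        Finset.single_le_sum (f := fun j => ‖M g i j‖) (fun _ _ => norm_nonneg _)
          (Finset.mem_univ j)
    _ ≤ ∑ i, ∑ j, ‖M g i j‖ :=
        Finset.single_le_sum (f := fun i => ∑ j, ‖M g i j‖)
          (fun _ _ => Finset.sum_nonneg fun _ _ => norm_nonneg _) (Finset.mem_univ i)

omit [TopologicalSpace G] [IsTopologicalGroup G] [CompactSpace G] in
theorem bd_of_entries (M : G →* Matrix n n L) {C : ℝ} (hC1 : 0 ≤ C) (hC : ∀ g i j, ‖M g i j‖ ≤ C)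
    (T : Matrix n n L) {η : ℝ} (hη : 0 ≤ η) (hT : ∀ i j, ‖T i j‖ ≤ η) :
    Bd M T (C * η * C) := by
  intro g h i j
  rw [Matrix.mul_apply]
  refine IsUltrametricDist.norm_sum_le_of_forall_le_of_nonneg
    (mul_nonneg (mul_nonneg hC1 hη) hC1) fun l _ => ?_
  rw [norm_mul]
  refine mul_le_mul ?_ (hC h l j) (norm_nonneg _) (mul_nonneg hC1 hη)
  rw [Matrix.mul_apply]
  refine IsUltrametricDist.norm_sum_le_of_forall_le_of_nonneg (mul_nonneg hC1 hη) fun m _ => ?_
  rw [norm_mul]
  exact mul_le_mul (hC g i m) (hT m l) (norm_nonneg _) hC1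

/-- the normal subgroup of elements which are close to one, uniformly -/
def near (M : G →* Matrix n n L) (r : ℝ) (hr : 0 < r) : Subgroup G where
  carrier := {σ | Bd M (M σ - 1) r}
  one_mem' := by
    change Bd M (M 1 - 1) r
    rw [map_one, sub_self]
    exact Bd.zero hr.le
  mul_mem' := by
    intro a b ha hb
    change Bd M (M (a * b) - 1) r
    have : M (a * b) - 1 = (M a - 1) * M b + (M b - 1) := by
      rw [map_mul, Matrix.sub_mul, Matrix.one_mul]; abel
    rw [this]
    exact (Bd.mul_right ha b).add hb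
  inv_mem' := by
    intro a ha
    change Bd M (M a⁻¹ - 1) r
    have : M a⁻¹ - 1 = -((M a - 1) * M a⁻¹) := by
      rw [Matrix.sub_mul, Matrix.one_mul, ← map_mul, mul_inv_cancel, map_one]; abel
    rw [this]
    exact (Bd.mul_right ha a⁻¹).neg

omit [TopologicalSpace G] [IsTopologicalGroup G] [CompactSpace G] in
theorem near_normal (M : G →* Matrix n n L) (r : ℝ) (hr : 0 < r) : (near M r hr).Normal := by
  refine ⟨fun σ hσ g => ?_⟩
  change Bd M (M (g * σ * g⁻¹) - 1) r
  have : M (g * σ * g⁻¹) - 1 = M g * (M σ - 1) * M g⁻¹ := by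
    rw [Matrix.mul_sub, Matrix.sub_mul, Matrix.mul_one, map_mul, map_mul, ← map_mul M g g⁻¹,
      mul_inv_cancel, map_one]
  rw [this]
  exact (Bd.mul_left (T := M σ - 1) hσ g).mul_right g⁻¹

theorem near_isOpen (M : G →* Matrix n n L) (hM : Continuous M) (r : ℝ) (hr : 0 < r) :
    IsOpen (near M r hr : Set G) := by
  obtain ⟨C, hC1, hC⟩ := exists_entry_bound M hM
  have hCpos : 0 < C := lt_of_lt_of_le one_pos hC1
  set η := r / (C * C) with hη
  have hηpos : 0 < η := by positivity
  apply Subgroup.isOpen_of_mem_nhds (g := 1)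
  have h1 : ∀ i j, ∀ᶠ σ in nhds (1 : G), ‖(M σ - 1) i j‖ < η := by
    intro i j
    have hc : Continuous fun σ : G => ‖(M σ - 1) i j‖ :=
      ((hM.sub continuous_const).matrix_elem i j).norm
    have h2 : ‖(M 1 - 1) i j‖ < η := by
      rw [map_one, sub_self, Matrix.zero_apply, norm_zero]; exact hηpos
    exact hc.continuousAt.eventually (gt_mem_nhds h2)
  have h3 : ∀ᶠ σ in nhds (1 : G), ∀ i j, ‖(M σ - 1) i j‖ < η :=
    Filter.eventually_all.mpr fun i => Filter.eventually_all.mpr fun j => h1 i j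
  refine Filter.mem_of_superset h3 fun σ hσ => ?_
  change Bd M (M σ - 1) r
  refine (bd_of_entries M hCpos.le hC _ hηpos.le fun i j => (hσ i j).le).mono ?_
  rw [hη]
  field_simp
  exact le_rfl

/-- Part (A). -/
theorem exists_normal_index_p {p : ℕ} [Fact p.Prime] (hpL : ‖(p : L)‖ < 1)
    (M : G →* Matrix n n L) (hM : Continuous M)
    (hu : ∀ σ i, ‖((M σ).charpoly - (X - 1) ^ Fintype.card n).coeff i‖ < 1)
    (H : Subgroup G) (σ₀ : G) {ε : ℝ} (hε : 0 < ε)
    (hsep : ∀ h ∈ H, ∀ u, (∀ i j, ‖(M h * (M u - 1)) i j‖ ≤ ε) → h * u ≠ σ₀) :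
    ∃ N : Subgroup G, N.Normal ∧ N.index = p ∧ IsOpen (N : Set G) ∧ H ≤ N := by
  have hp : p.Prime := Fact.out
  obtain ⟨C, hC1, hC⟩ := exists_entry_bound M hM
  have hC0 : (0 : ℝ) ≤ C := zero_le_one.trans hC1
  have hBd1 : Bd M 1 (C * 1 * C) := bd_of_entries M hC0 hC 1 zero_le_one (by
    intro i j
    by_cases h : i = j
    · subst h; simp
    · rw [Matrix.one_apply_ne h]; simp)
  set U := near M ε hε with hU
  have hUn : U.Normal := near_normal M ε hε
  have hUo : IsOpen (U : Set G) := near_isOpen M hM ε hε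
  have hfin : Finite (G ⧸ U) := U.quotient_finite_of_isOpen hUo
  have hpg : IsPGroup p (G ⧸ U) := by
    rw [isPGroup_iff_pow_pow_eq_one]
    intro x
    obtain ⟨σ, rfl⟩ := QuotientGroup.mk'_surjective U x
    obtain ⟨k, hk⟩ := Bd.pow_sub_one hp hpL hBd1 (by positivity) σ (hu σ) hε
    refine ⟨k, ?_⟩
    rw [← map_pow]
    refine (QuotientGroup.eq_one_iff _).mpr ?_
    change Bd M (M (σ ^ p ^ k) - 1) ε
    rw [map_pow]
    exact hk
  have hHne : H.map (QuotientGroup.mk' U) ≠ ⊤ := by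
    intro h
    have h1 : (QuotientGroup.mk' U) σ₀ ∈ H.map (QuotientGroup.mk' U) := by rw [h]; trivial
    obtain ⟨h0, hh0, heq⟩ := h1
    have h2 : h0⁻¹ * σ₀ ∈ U := QuotientGroup.eq.mp heq
    refine hsep h0 hh0 (h0⁻¹ * σ₀) (fun i j => ?_) (by group)
    have h3 : Bd M (M (h0⁻¹ * σ₀) - 1) ε := h2
    have h4 := h3 h0 1 i j
    rwa [map_one, Matrix.mul_one] at h4
  obtain ⟨N, hN, hNi, hHN⟩ := exists_normal_index hpg _ hHne
  refine ⟨N.comap (QuotientGroup.mk' U), hN.comap _, ?_, ?_, ?_⟩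
  · rw [Subgroup.index_comap_of_surjective _ (QuotientGroup.mk'_surjective U), hNi]
  · refine Subgroup.isOpen_mono ?_ hUo
    intro y hy
    rw [Subgroup.mem_comap]
    have : (QuotientGroup.mk' U) y = 1 := (QuotientGroup.eq_one_iff y).mpr hy
    rw [this]
    exact Subgroup.one_mem _
  · exact Subgroup.map_le_iff_le_comap.mp hHN

end Main

end BKGen
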