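import Pool.Agent.Lib.MP_7c08ba_nt.Gen.Defs

/-!
Part (C): local arguments. Automorphisms of `PadicAlgCl l` over the completion restrict to
elements of the decomposition group.
-/

namespace BKGen

section Restrict

variable {l : ℕ} [Fact l.Prime] {K Ω : Type*} [Field K] [Field Ω] [Algebra K Ω]

/-- automorphisms over `ℚ_l` are isometries -/
theorem norm_equiv (τ : PadicAlgCl l ≃ₐ[ℚ_[l]] PadicAlgCl l) (y : PadicAlgCl l) :
    ‖τ y‖ = ‖y‖ := by
  rw [← PadicAlgCl.spectralNorm_eq, ← PadicAlgCl.spectralNorm_eq]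
  exact (spectralNorm_eq_of_equiv τ y).symm

theorem mem_comp (j : K →+* PadicAlgCl l) (x : K) : j x ∈ comp l j :=
  IntermediateField.subset_adjoin _ _ ⟨x, rfl⟩

/-- An automorphism of `PadicAlgCl l` over the completion of `K` restricts to `Ω`. -/
theorem exists_restrict [Normal K Ω] (j : Ω →+* PadicAlgCl l)
    (τ : PadicAlgCl l ≃ₐ[comp l (j.comp (algebraMap K Ω))] PadicAlgCl l) :
    ∃ σ : Ω ≃ₐ[K] Ω, ∀ x, j (σ x) = τ (j x) := by
  letI : Algebra Ω (PadicAlgCl l) := j.toAlgebra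
  letI : Algebra K (PadicAlgCl l) := (j.comp (algebraMap K Ω)).toAlgebra
  haveI : IsScalarTower K Ω (PadicAlgCl l) := IsScalarTower.of_algebraMap_eq' rfl
  let τK : PadicAlgCl l ≃ₐ[K] PadicAlgCl l := AlgEquiv.ofRingEquiv (f := τ.toRingEquiv) (by
    intro x
    change τ (j (algebraMap K Ω x)) = j (algebraMap K Ω x)
    exact τ.commutes (⟨j (algebraMap K Ω x), mem_comp (j.comp (algebraMap K Ω)) x⟩ :
      comp l (j.comp (algebraMap K Ω))))
  refine ⟨τK.restrictNormal Ω, fun x => ?_⟩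
  exact τK.restrictNormal_commutes Ω x

theorem mem_dec_of_restrict [Normal K Ω] (j : Ω →+* PadicAlgCl l)
    (τ : PadicAlgCl l ≃ₐ[comp l (j.comp (algebraMap K Ω))] PadicAlgCl l)
    (σ : Ω ≃ₐ[K] Ω) (h : ∀ x, j (σ x) = τ (j x)) : σ ∈ Dec K Ω j := by
  intro x
  rw [h]
  exact norm_equiv (τ.restrictScalars ℚ_[l]) (j x)

instance isGalois_padicAlgCl (E : IntermediateField ℚ_[l] (PadicAlgCl l)) :
    IsGalois E (PadicAlgCl l) := inferInstance

/-- An element of `Ω` fixed by the decomposition group lies in the completion. -/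
theorem mem_comp_of_fixed [Normal K Ω] (j : Ω →+* PadicAlgCl l) (α : Ω)
    (h : ∀ σ ∈ Dec K Ω j, σ α = α) : j α ∈ comp l (j.comp (algebraMap K Ω)) := by
  have h1 : j α ∈ Set.range (algebraMap (comp l (j.comp (algebraMap K Ω))) (PadicAlgCl l)) := by
    rw [InfiniteGalois.mem_range_algebraMap_iff_fixed]
    intro τ
    obtain ⟨σ, hσ⟩ := exists_restrict j τ
    rw [← hσ, h σ (mem_dec_of_restrict j τ σ hσ)]
  obtain ⟨y, hy⟩ := h1
  rw [← hy]
  exact y.2

end Restrict

end BKGen
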