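import Pool.Agent.Lib.MP_7c08ba_nt.Gen.Defs

/-!
The group of `S`-units of a number field modulo `p`-th powers: Dirichlet's theorem for `S`-units.
-/

namespace BKGen
namespace SUnits

open NumberField IsDedekindDomain Module

/-! ### finitely generated abelian groups modulo `p` -/

section Groups

variable (p : ℕ)

/-- The multiples of `p` in an abelian group. -/
def pR (A : Type*) [AddCommGroup A] : AddSubgroup A := (nsmulAddMonoidHom p : A →+ A).range

lemma mem_pR {A : Type*} [AddCommGroup A] {x : A} : x ∈ pR p A ↔ ∃ y : A, p • y = x := Iff.rfl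

lemma index_pR_congr {A B : Type*} [AddCommGroup A] [AddCommGroup B] (e : A ≃+ B) :
    (pR p A).index = (pR p B).index := by
  have h : pR p B = (pR p A).map (e : A →+ B) := by
    ext x
    rw [mem_pR, AddSubgroup.mem_map]
    constructor
    · rintro ⟨y, rfl⟩
      exact ⟨p • e.symm y, ⟨e.symm y, rfl⟩, by simp⟩
    · rintro ⟨_, ⟨y, rfl⟩, rfl⟩
      exact ⟨e y, by simp⟩
  rw [h, AddSubgroup.index_map_equiv]

lemma index_pR_prod (A B : Type*) [AddCommGroup A] [AddCommGroup B] :
    (pR p (A × B)).index = (pR p A).index * (pR p B).index := by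
  have h : pR p (A × B) = (pR p A).prod (pR p B) := by
    ext ⟨x, y⟩
    rw [AddSubgroup.mem_prod, mem_pR, mem_pR, mem_pR]
    constructor
    · rintro ⟨⟨a, b⟩, h⟩
      rw [Prod.smul_mk, Prod.mk.injEq] at h
      exact ⟨⟨a, h.1⟩, ⟨b, h.2⟩⟩
    · rintro ⟨⟨a, ha⟩, ⟨b, hb⟩⟩
      exact ⟨(a, b), by rw [Prod.smul_mk]; exact Prod.ext ha hb⟩
  rw [h, AddSubgroup.index_prod]

lemma index_pR_pi (ι : Type*) [Fintype ι] : (pR p (ι → ℤ)).index = p ^ Fintype.card ι := by
  have h : pR p (ι → ℤ) = AddSubgroup.pi Set.univ (fun _ => AddSubgroup.zmultiples (p : ℤ)) := by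
    ext x
    rw [mem_pR, AddSubgroup.mem_pi]
    constructor
    · rintro ⟨y, rfl⟩ i -
      rw [AddSubgroup.mem_zmultiples_iff]
      exact ⟨y i, by simp [mul_comm]⟩
    · intro h
      have h' : ∀ i, ∃ k : ℤ, k • (p : ℤ) = x i := fun i =>
        AddSubgroup.mem_zmultiples_iff.1 (h i (Set.mem_univ i))
      choose k hk using h'
      refine ⟨k, funext fun i => ?_⟩
      rw [← hk i]
      simp [mul_comm]
  rw [h, AddSubgroup.index_pi]
  simp [Int.index_zmultiples]

lemma index_pR_finite (A : Type*) [AddCommGroup A] [Finite A] :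
    (pR p A).index = Nat.card {x : A // p • x = 0} := by
  have : (nsmulAddMonoidHom p : A →+ A).ker.FiniteIndex := inferInstance
  rw [pR, AddSubgroup.index_range]
  rfl

/-- The number of elements of a finitely generated abelian group modulo `p`. -/
theorem index_pR (hp : p ≠ 0) (M : Type*) [AddCommGroup M] [Module.Finite ℤ M] :
    (pR p M).index = p ^ finrank ℤ M * Nat.card {x : M // p • x = 0} := by
  classical
  set N : Submodule ℤ M := Submodule.torsion ℤ M with hN
  have hfree : Module.Free ℤ (M ⧸ N) := Module.free_of_finite_type_torsion_free'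
  have hNfin : Module.Finite ℤ N := inferInstance
  have hNtor : Module.IsTorsion ℤ N := Submodule.torsion_isTorsion
  have hNF : Finite N := Module.finite_of_fg_torsion N hNtor
  have hr : finrank ℤ (M ⧸ N) = finrank ℤ M := by
    have h1 := N.finrank_quotient_add_finrank
    rw [hNtor.finrank_eq_zero, add_zero] at h1
    exact h1
  obtain ⟨s, hs⟩ := Module.projective_lifting_property N.mkQ LinearMap.id N.mkQ_surjective
  have hs' : ∀ y, N.mkQ (s y) = y := fun y => by
    have := congrArg (fun f => f y) hs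
    simpa using this
  have hker : ∀ z, N.mkQ z = 0 → z ∈ N := fun z hz => by
    rwa [← LinearMap.mem_ker, Submodule.ker_mkQ] at hz
  -- the splitting
  let e : M ≃+ N × (M ⧸ N) :=
    { toFun := fun x => (⟨x - s (N.mkQ x), hker _ (by rw [map_sub, hs', sub_self])⟩, N.mkQ x)
      invFun := fun y => (y.1 : M) + s y.2
      left_inv := fun x => by simp
      right_inv := fun y => by
        have h1 : N.mkQ (y.1 : M) = 0 := by
          rw [← LinearMap.mem_ker, Submodule.ker_mkQ]; exact y.1.2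
        have h2 : N.mkQ ((y.1 : M) + s y.2) = y.2 := by rw [map_add, h1, hs', zero_add]
        refine Prod.ext (Subtype.ext ?_) ?_
        · simp only [h2]
          exact add_sub_cancel_right _ _
        · exact h2
      map_add' := fun x y => by
        refine Prod.ext (Subtype.ext ?_) ?_
        · simp only [map_add, Prod.mk_add_mk, Submodule.coe_add, AddSubgroup.coe_add]
          abel
        · simp }
  have e2 : (M ⧸ N) ≃+ (Fin (finrank ℤ (M ⧸ N)) → ℤ) :=
    (Module.finBasis ℤ (M ⧸ N)).equivFun.toAddEquiv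
  rw [index_pR_congr p e, index_pR_prod, index_pR_congr p e2, index_pR_pi, index_pR_finite,
    Fintype.card_fin, hr, mul_comm]
  congr 1
  -- the torsion
  refine Nat.card_congr ⟨fun x => ⟨(x.1 : M), by
    have h : p • x.1 = 0 := x.2
    have h' : ((p • x.1 : N) : M) = 0 := by rw [h]; rfl
    exact h'⟩, fun x => ⟨⟨x.1, ?_⟩, ?_⟩, fun x => ?_, fun x => ?_⟩
  · rw [hN, Submodule.mem_torsion_iff]
    refine ⟨⟨(p : ℤ), mem_nonZeroDivisors_of_ne_zero (by exact_mod_cast hp)⟩, ?_⟩
    have h : p • x.1 = 0 := x.2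
    show (p : ℤ) • x.1 = 0
    rw [natCast_zsmul]
    exact h
  · have h : p • x.1 = 0 := x.2
    exact Subtype.ext h
  · rfl
  · rfl

end Groups

/-! ### the rank of the group of `S`-units -/

section Rank

variable (K : Type*) [Field K] [NumberField K] (S : Set (HeightOneSpectrum (𝓞 K)))

/-- The valuations of an `S`-unit at the places of `S`. -/
noncomputable def valMap : Additive (S.unit K) →ₗ[ℤ] (S → ℤ) :=
  AddMonoidHom.toIntLinearMap
    { toFun := fun x v => Multiplicative.toAdd
        ((v : HeightOneSpectrum (𝓞 K)).valuationOfNeZero ((Additive.toMul x : S.unit K) : Kˣ))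
      map_zero' := by
        funext v
        simp
      map_add' := by
        intro x y
        funext v
        simp }

lemma valMap_apply (x : S.unit K) (v : S) : valMap K S (Additive.ofMul x) v =
    Multiplicative.toAdd ((v : HeightOneSpectrum (𝓞 K)).valuationOfNeZero (x : Kˣ)) := rfl

lemma valMap_eq_zero_iff (x : S.unit K) (v : S) : valMap K S (Additive.ofMul x) v = 0 ↔
    (v : HeightOneSpectrum (𝓞 K)).valuation K ((x : Kˣ) : K) = 1 := by
  rw [valMap_apply, toAdd_eq_zero, ← HeightOneSpectrum.valuationOfNeZero_eq]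
  rw [← WithZero.coe_one, WithZero.coe_inj]

/-- The units of the ring of integers as `S`-units. -/
noncomputable def unitMap : Additive (𝓞 K)ˣ →ₗ[ℤ] Additive (S.unit K) :=
  AddMonoidHom.toIntLinearMap (MonoidHom.toAdditive
    { toFun := fun x => ⟨Units.map (algebraMap (𝓞 K) K : 𝓞 K →* K) x, fun v _ => by
        have h := HeightOneSpectrum.valuation_of_unit_eq (K := K) v x
        rw [← HeightOneSpectrum.valuationOfNeZero_eq, h]
        rfl⟩
      map_one' := by
        apply Subtype.ext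
        simp
      map_mul' := by
        intro x y
        apply Subtype.ext
        simp })

lemma unitMap_apply (x : (𝓞 K)ˣ) : (((Additive.toMul (unitMap K S (Additive.ofMul x)) : S.unit K) :
    Kˣ) : K) = algebraMap (𝓞 K) K x := rfl

lemma unitMap_injective : Function.Injective (unitMap K S) := by
  intro x y h
  have h' := congrArg (fun z => (((Additive.toMul z : S.unit K) : Kˣ) : K)) h
  have hx := unitMap_apply K S (Additive.toMul x)
  have hy := unitMap_apply K S (Additive.toMul y)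
  rw [ofMul_toMul] at hx hy
  simp only [hx, hy] at h'
  have h2 := FaithfulSMul.algebraMap_injective (𝓞 K) K h'
  exact Additive.toMul.injective (Units.ext h2)

lemma range_unitMap : LinearMap.range (unitMap K S) = LinearMap.ker (valMap K S) := by
  ext x
  rw [LinearMap.mem_range, LinearMap.mem_ker]
  constructor
  · rintro ⟨u, rfl⟩
    funext v
    have h := HeightOneSpectrum.valuation_of_unit_eq (K := K) (v : HeightOneSpectrum (𝓞 K))
      (Additive.toMul u)
    show Multiplicative.toAdd ((v : HeightOneSpectrum (𝓞 K)).valuationOfNeZero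
      (Units.map (algebraMap (𝓞 K) K : 𝓞 K →* K) (Additive.toMul u))) = 0
    rw [h]
    rfl
  · intro hx
    set y : Kˣ := ((Additive.toMul x : S.unit K) : Kˣ) with hy
    have hv : ∀ v : HeightOneSpectrum (𝓞 K), v.valuation K (y : K) = 1 := by
      intro v
      by_cases h : v ∈ S
      · exact (valMap_eq_zero_iff K S (Additive.toMul x) ⟨v, h⟩).1 (congrFun hx _)
      · exact (Additive.toMul x : S.unit K).2 v h
    obtain ⟨a, ha⟩ := HeightOneSpectrum.mem_integers_of_valuation_le_one (R := 𝓞 K) K (y : K)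
      (fun v => (hv v).le)
    obtain ⟨b, hb⟩ := HeightOneSpectrum.mem_integers_of_valuation_le_one (R := 𝓞 K) K
      ((y⁻¹ : Kˣ) : K) (fun v => by
        rw [Units.val_inv_eq_inv_val, map_inv₀, hv v, inv_one])
    have hab : a * b = 1 := by
      apply FaithfulSMul.algebraMap_injective (𝓞 K) K
      rw [map_mul, map_one, ha, hb, Units.mul_inv]
    refine ⟨Additive.ofMul ⟨a, b, hab, by rw [mul_comm]; exact hab⟩, ?_⟩
    apply Additive.toMul.injective
    apply Subtype.ext
    apply Units.ext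
    rw [unitMap_apply]
    exact ha

/-- Every prime of `S` is, up to a power, the ideal of an `S`-unit. -/
lemma exists_single (v : HeightOneSpectrum (𝓞 K)) (hv : v ∈ S) : ∃ x : S.unit K,
    v.valuation K ((x : Kˣ) : K) ≠ 1 ∧
      ∀ w : HeightOneSpectrum (𝓞 K), w ≠ v → w.valuation K ((x : Kˣ) : K) = 1 := by
  set h : ℕ := Fintype.card (ClassGroup (𝓞 K)) with hh
  have hh0 : h ≠ 0 := Fintype.card_ne_zero
  have hI : v.asIdeal ^ h ∈ nonZeroDivisors (Ideal (𝓞 K)) :=
    mem_nonZeroDivisors_of_ne_zero (pow_ne_zero _ v.ne_bot)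
  have hpr : (v.asIdeal ^ h).IsPrincipal := by
    rw [← ClassGroup.mk0_eq_one_iff hI]
    have e : (⟨v.asIdeal ^ h, hI⟩ : nonZeroDivisors (Ideal (𝓞 K))) =
        (⟨v.asIdeal, mem_nonZeroDivisors_of_ne_zero v.ne_bot⟩ :
          nonZeroDivisors (Ideal (𝓞 K))) ^ h := rfl
    rw [e, map_pow, hh, pow_card_eq_one]
  obtain ⟨a, ha⟩ := hpr
  have ha' : v.asIdeal ^ h = Ideal.span {a} := ha
  have ha0 : a ≠ 0 := by
    rintro rfl
    rw [Ideal.span_singleton_zero] at ha'
    exact pow_ne_zero _ v.ne_bot ha'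
  have hmem : ∀ w : HeightOneSpectrum (𝓞 K), a ∈ w.asIdeal ↔ w = v := by
    intro w
    constructor
    · intro haw
      have h1 : v.asIdeal ^ h ≤ w.asIdeal := by
        rw [ha', Ideal.span_singleton_le_iff_mem]; exact haw
      have h2 : v.asIdeal ≤ w.asIdeal := Ideal.IsPrime.le_of_pow_le h1
      have h3 : v.asIdeal.IsMaximal := v.isMaximal
      have h4 := h3.eq_of_le w.isPrime.ne_top h2
      exact HeightOneSpectrum.ext h4.symm
    · rintro rfl
      have h1 : a ∈ w.asIdeal ^ h := by rw [ha']; exact Ideal.mem_span_singleton_self a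
      exact Ideal.pow_le_self hh0 h1
  have haK : algebraMap (𝓞 K) K a ≠ 0 := by
    rw [Ne, FaithfulSMul.algebraMap_eq_zero_iff]; exact ha0
  have hval : ∀ w : HeightOneSpectrum (𝓞 K), w.valuation K (algebraMap (𝓞 K) K a) = 1 ↔
      w ≠ v := by
    intro w
    rw [HeightOneSpectrum.valuation_eq_one_iff_notMem, hmem]
  refine ⟨⟨Units.mk0 _ haK, fun w hw => ?_⟩, ?_, fun w hw => ?_⟩
  · exact (hval w).2 (fun h => hw (h ▸ hv))
  · exact fun h => (hval v).1 h rfl
  · exact (hval w).2 hw

lemma finite_range_torsion [Finite S] :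
    Module.IsTorsion ℤ ((S → ℤ) ⧸ LinearMap.range (valMap K S)) := by
  classical
  have := Fintype.ofFinite S
  have h : ∀ v : S, ∃ c : ℤ, c ≠ 0 ∧ Pi.single v c ∈ LinearMap.range (valMap K S) := by
    intro v
    obtain ⟨x, h1, h2⟩ := exists_single K S v v.2
    refine ⟨valMap K S (Additive.ofMul x) v, fun h => h1 ((valMap_eq_zero_iff K S x v).1 h),
      Additive.ofMul x, ?_⟩
    funext w
    by_cases hw : w = v
    · subst hw
      rw [Pi.single_eq_same]
    · rw [Pi.single_eq_of_ne hw]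
      exact (valMap_eq_zero_iff K S x w).2 (h2 w (fun h => hw (Subtype.ext h)))
  choose c hc hcr using h
  intro z
  obtain ⟨y, rfl⟩ := Submodule.mkQ_surjective _ z
  refine ⟨⟨∏ v, c v, mem_nonZeroDivisors_of_ne_zero (Finset.prod_ne_zero_iff.2 fun v _ => hc v)⟩,
    ?_⟩
  show (∏ v, c v) • (LinearMap.range (valMap K S)).mkQ y = 0
  rw [← map_smul, ← LinearMap.mem_ker, Submodule.ker_mkQ]
  have e : (∏ v, c v) • y = ∑ v, ((∏ w ∈ Finset.univ.erase v, c w) * y v) • Pi.single v (c v) := by
    funext w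
    rw [Pi.smul_apply, Finset.sum_apply, Finset.sum_eq_single w]
    · rw [Pi.smul_apply, Pi.single_eq_same, smul_eq_mul, smul_eq_mul,
        ← Finset.mul_prod_erase Finset.univ c (Finset.mem_univ w)]
      ring
    · intro v _ hv
      rw [Pi.smul_apply, Pi.single_eq_of_ne (Ne.symm hv), smul_zero]
    · intro h; exact absurd (Finset.mem_univ w) h
  rw [e]
  exact Submodule.sum_mem _ fun v _ => Submodule.smul_mem _ _ (hcr v)

instance finite_sunits [Finite S] : Module.Finite ℤ (Additive (S.unit K)) := by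
  have := Fintype.ofFinite S
  have h1 : Module.Finite ℤ (LinearMap.ker (valMap K S)) := by
    rw [← range_unitMap]
    infer_instance
  have h2 : Module.Finite ℤ (Additive (S.unit K) ⧸ LinearMap.ker (valMap K S)) :=
    Module.Finite.equiv (valMap K S).quotKerEquivRange.symm
  exact Module.Finite.of_submodule_quotient (LinearMap.ker (valMap K S))

/-- The rank of the group of `S`-units. -/
theorem finrank_sunits [Finite S] :
    finrank ℤ (Additive (S.unit K)) = Units.rank K + Nat.card S := by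
  classical
  have := Fintype.ofFinite S
  have h1 := (LinearMap.ker (valMap K S)).finrank_quotient_add_finrank
  have h2 := (valMap K S).quotKerEquivRange.finrank_eq
  have h3 := (LinearMap.range (valMap K S)).finrank_quotient_add_finrank
  rw [(finite_range_torsion K S).finrank_eq_zero, zero_add, Module.finrank_fintype_fun_eq_card] at h3
  have h4 : finrank ℤ (LinearMap.ker (valMap K S)) = Units.rank K := by
    rw [← range_unitMap, LinearMap.finrank_range_of_inj (unitMap_injective K S), Units.finrank_eq]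
  rw [h2, h3, h4] at h1
  rw [← h1, Nat.card_eq_fintype_card, add_comm]

end Rank

/-! ### the places given by embeddings into the algebraic closure of `ℚ_l` -/

section Place

variable {l : ℕ} [Fact l.Prime]

lemma norm_int_le (n : ℤ) : ‖(n : PadicAlgCl l)‖ ≤ 1 := by
  have h := PadicAlgCl.norm_extends l (n : ℚ_[l])
  rw [map_intCast] at h
  rw [h]
  exact Padic.norm_int_le_one n

lemma norm_self_lt : ‖(l : PadicAlgCl l)‖ < 1 := by
  have h := PadicAlgCl.norm_extends l (l : ℚ_[l])
  rw [map_natCast] at h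
  rw [h]
  exact Padic.norm_p_lt_one

lemma norm_natCast_one {N : ℕ} (hN : ¬ l ∣ N) : ‖(N : PadicAlgCl l)‖ = 1 := by
  have h := PadicAlgCl.norm_extends l (N : ℚ_[l])
  rw [map_natCast] at h
  rw [h]
  exact Padic.norm_natCast_eq_one_iff.mpr (((Fact.out : l.Prime).coprime_iff_not_dvd).mpr hN)

lemma norm_le_one_of_isIntegral {y : PadicAlgCl l} (hy : IsIntegral ℤ y) : ‖y‖ ≤ 1 := by
  obtain ⟨P, hP, hy0⟩ := hy
  by_contra hlt
  rw [not_le] at hlt
  have hy0' : y ^ P.natDegree + ∑ i ∈ Finset.range P.natDegree,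
      ((P.coeff i : ℤ) : PadicAlgCl l) * y ^ i = 0 := by
    rw [hP.as_sum] at hy0
    rw [Polynomial.eval₂_add, Polynomial.eval₂_finsetSum, Polynomial.eval₂_pow,
      Polynomial.eval₂_X] at hy0
    rw [← hy0]
    congr 1
    refine Finset.sum_congr rfl fun i _ => ?_
    rw [Polynomial.eval₂_mul, Polynomial.eval₂_C, Polynomial.eval₂_pow, Polynomial.eval₂_X,
      eq_intCast]
  by_cases hn : P.natDegree = 0
  · rw [hn] at hy0'
    simp at hy0'
  have h1 : y ^ P.natDegree = -∑ i ∈ Finset.range P.natDegree,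
      ((P.coeff i : ℤ) : PadicAlgCl l) * y ^ i := eq_neg_of_add_eq_zero_left hy0'
  have h2 : ‖y ^ P.natDegree‖ ≤ ‖y‖ ^ (P.natDegree - 1) := by
    rw [h1, norm_neg]
    refine IsUltrametricDist.norm_sum_le_of_forall_le_of_nonneg (by positivity) fun i hi => ?_
    have hi' := Finset.mem_range.1 hi
    rw [norm_mul, norm_pow]
    calc ‖((P.coeff i : ℤ) : PadicAlgCl l)‖ * ‖y‖ ^ i ≤ 1 * ‖y‖ ^ i := by
          gcongr
          exact norm_int_le _
      _ = ‖y‖ ^ i := one_mul _
      _ ≤ ‖y‖ ^ (P.natDegree - 1) := pow_le_pow_right₀ hlt.le (by omega)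
  rw [norm_pow] at h2
  have h3 : ‖y‖ ^ (P.natDegree - 1) < ‖y‖ ^ P.natDegree := pow_lt_pow_right₀ hlt (by omega)
  linarith

variable {K : Type*} [Field K] [NumberField K] (j : K →+* PadicAlgCl l)

lemma norm_ring_le (a : 𝓞 K) : ‖j (algebraMap (𝓞 K) K a)‖ ≤ 1 := by
  apply norm_le_one_of_isIntegral
  have h : IsIntegral ℤ (algebraMap (𝓞 K) K a) := RingOfIntegers.isIntegral_coe a
  exact h.map (RingHom.toIntAlgHom j)

/-- The prime ideal of the place given by `j`. -/
noncomputable def plI : Ideal (𝓞 K) where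
  carrier := {a | ‖j (algebraMap (𝓞 K) K a)‖ < 1}
  zero_mem' := by simp
  add_mem' := by
    intro a b ha hb
    show ‖j (algebraMap (𝓞 K) K (a + b))‖ < 1
    rw [map_add, map_add]
    exact lt_of_le_of_lt (IsUltrametricDist.norm_add_le_max _ _) (max_lt ha hb)
  smul_mem' := by
    intro c a ha
    show ‖j (algebraMap (𝓞 K) K (c * a))‖ < 1
    rw [map_mul, map_mul, norm_mul]
    exact mul_lt_one_of_nonneg_of_lt_one_right (norm_ring_le j c) (norm_nonneg _) ha

lemma mem_plI (a : 𝓞 K) : a ∈ plI j ↔ ‖j (algebraMap (𝓞 K) K a)‖ < 1 := Iff.rfl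

lemma l_mem_plI : (l : 𝓞 K) ∈ plI j := by
  rw [mem_plI, map_natCast, map_natCast]
  exact norm_self_lt

/-- The place given by `j`. -/
noncomputable def pl : HeightOneSpectrum (𝓞 K) where
  asIdeal := plI j
  isPrime := by
    refine Ideal.isPrime_iff.2 ⟨fun h => ?_, fun {a b} hab => ?_⟩
    · have h1 : (1 : 𝓞 K) ∈ plI j := by rw [h]; exact Submodule.mem_top
      rw [mem_plI, map_one, map_one, norm_one] at h1
      exact lt_irrefl _ h1
    · by_contra hc
      rw [not_or] at hc
      have ha : ‖j (algebraMap (𝓞 K) K a)‖ = 1 :=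
        le_antisymm (norm_ring_le j a) (not_lt.1 (fun h => hc.1 h))
      have hb : ‖j (algebraMap (𝓞 K) K b)‖ = 1 :=
        le_antisymm (norm_ring_le j b) (not_lt.1 (fun h => hc.2 h))
      rw [mem_plI, map_mul, map_mul, norm_mul, ha, hb, one_mul] at hab
      exact lt_irrefl _ hab
  ne_bot := by
    intro h
    have h1 := l_mem_plI j
    rw [h, Ideal.mem_bot] at h1
    have h2 : l = 0 := by exact_mod_cast h1
    exact (Fact.out : l.Prime).ne_zero h2

lemma mem_pl (a : 𝓞 K) : a ∈ (pl j).asIdeal ↔ ‖j (algebraMap (𝓞 K) K a)‖ < 1 := Iff.rfl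

lemma norm_le_of_val {x : K} (h : (pl j).valuation K x ≤ 1) : ‖j x‖ ≤ 1 := by
  obtain ⟨n, d, hnd⟩ := HeightOneSpectrum.exists_primeCompl_mul_eq_of_integer (pl j) x h
  have hd : ‖j (algebraMap (𝓞 K) K d)‖ = 1 :=
    le_antisymm (norm_ring_le j _) (not_lt.1 (fun h' => d.2 h'))
  have h1 := congrArg (fun z => ‖j z‖) hnd
  simp only [map_mul, norm_mul, hd, mul_one] at h1
  rw [h1]
  exact norm_ring_le j n

lemma norm_eq_of_val {x : K} (h : (pl j).valuation K x = 1) : ‖j x‖ = 1 := by
  have hx : x ≠ 0 := by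
    rintro rfl
    rw [map_zero] at h
    exact zero_ne_one h
  refine le_antisymm (norm_le_of_val j h.le) ?_
  have h2 := norm_le_of_val j (x := x⁻¹) (by rw [map_inv₀, h, inv_one])
  rw [map_inv₀, norm_inv] at h2
  exact (inv_le_one₀ (norm_pos_iff.2 (by rwa [Ne, map_eq_zero]))).1 h2

/-- Two embeddings with the same prime ideal give the same absolute value. -/
lemma norm_eq_of_pl_eq {j₁ j₂ : K →+* PadicAlgCl l} (h : pl j₁ = pl j₂) (x : K) :
    ‖j₁ x‖ = ‖j₂ x‖ := by
  by_cases hx : x = 0
  · rw [hx, map_zero, map_zero]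
  have hl0 : (l : K) ≠ 0 := by exact_mod_cast (Fact.out : l.Prime).ne_zero
  set v := pl j₁ with hv
  set X : Kˣ := Units.mk0 x hx with hX
  set Lu : Kˣ := Units.mk0 (l : K) hl0 with hLu
  set e : ℤ := Multiplicative.toAdd (v.valuationOfNeZero Lu) with he
  set k : ℤ := Multiplicative.toAdd (v.valuationOfNeZero X) with hk
  have hval : v.valuation K ((X ^ e * (Lu ^ k)⁻¹ : Kˣ) : K) = 1 := by
    rw [← HeightOneSpectrum.valuationOfNeZero_eq, ← WithZero.coe_one, WithZero.coe_inj, map_mul,
      map_inv, map_zpow, map_zpow]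
    apply Multiplicative.toAdd.injective
    rw [toAdd_mul, toAdd_inv, toAdd_zpow, toAdd_zpow, toAdd_one, ← he, ← hk]
    simp only [smul_eq_mul]
    ring
  have he0 : e ≠ 0 := by
    intro h0
    have h1 : v.valuation K (Lu : K) = 1 := by
      rw [← HeightOneSpectrum.valuationOfNeZero_eq, ← WithZero.coe_one, WithZero.coe_inj]
      apply Multiplicative.toAdd.injective
      rw [toAdd_one, ← he, h0]
    have h2 : v.valuation K (algebraMap (𝓞 K) K (l : 𝓞 K)) < 1 := by
      rw [HeightOneSpectrum.valuation_lt_one_iff_mem]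
      exact l_mem_plI j₁
    rw [map_natCast] at h2
    rw [hLu, Units.val_mk0] at h1
    exact absurd h1 h2.ne
  have key : ∀ j : K →+* PadicAlgCl l, pl j = v → ‖j x‖ ^ e = ‖(l : PadicAlgCl l)‖ ^ k := by
    intro j hj
    have h1 : ‖j ((X ^ e * (Lu ^ k)⁻¹ : Kˣ) : K)‖ = 1 := norm_eq_of_val j (by rw [hj]; exact hval)
    rw [Units.val_mul, Units.val_inv_eq_inv_val, Units.val_zpow_eq_zpow_val,
      Units.val_zpow_eq_zpow_val, hX, hLu, Units.val_mk0, Units.val_mk0, map_mul, map_inv₀,
      map_zpow₀, map_zpow₀, map_natCast, norm_mul, norm_inv, norm_zpow, norm_zpow] at h1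
    have hlp : ‖(l : PadicAlgCl l)‖ ^ k ≠ 0 := by
      apply zpow_ne_zero
      rw [Ne, norm_eq_zero]
      exact_mod_cast (Fact.out : l.Prime).ne_zero
    field_simp at h1
    exact h1
  have h1 := key j₁ rfl
  have h2 := key j₂ h.symm
  have h3 : ‖j₁ x‖ ^ e = ‖j₂ x‖ ^ e := h1.trans h2.symm
  exact (zpow_left_inj₀ (norm_nonneg _) (norm_nonneg _) he0).1 h3

end Place

/-! ### the `p`-units -/

section PUnits

variable (K : Type*) [Field K] [NumberField K] (p : ℕ)

/-- The primes above `p`. -/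
def Sp : Set (HeightOneSpectrum (𝓞 K)) := {v | (p : 𝓞 K) ∈ v.asIdeal}

lemma finite_Sp (hp : p ≠ 0) : Finite (Sp K p) := by
  have h0 : (Ideal.span {(p : 𝓞 K)}) ≠ 0 := by
    rw [Ne, Ideal.zero_eq_bot, Ideal.span_singleton_eq_bot]
    exact_mod_cast hp
  have h := Ideal.finite_factors h0
  refine (h.subset fun v hv => ?_).to_subtype
  show v.asIdeal ∣ _
  rw [Ideal.dvd_iff_le, Ideal.span_singleton_le_iff_mem]
  exact hv

lemma val_eq_one_of_pow {K : Type*} [Field K] [NumberField K] {v : HeightOneSpectrum (𝓞 K)}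
    {n : ℕ} (hn : n ≠ 0) {y : Kˣ} (h : v.valuation K ((y ^ n : Kˣ) : K) = 1) :
    v.valuation K (y : K) = 1 := by
  rw [← HeightOneSpectrum.valuationOfNeZero_eq, ← WithZero.coe_one, WithZero.coe_inj] at h ⊢
  have h2 := congrArg Multiplicative.toAdd h
  rw [map_pow, toAdd_pow, toAdd_one, nsmul_eq_mul, mul_eq_zero] at h2
  apply Multiplicative.toAdd.injective
  rw [toAdd_one]
  rcases h2 with h2 | h2
  · exact absurd (by exact_mod_cast h2) hn
  · exact h2

variable [Fact p.Prime]

lemma two_le_card_Sp {j₁ j₂ : K →+* PadicAlgCl p} {x : K} (h : ‖j₁ x‖ ≠ ‖j₂ x‖) :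
    2 ≤ Nat.card (Sp K p) := by
  have hfin := finite_Sp K p (Fact.out : p.Prime).ne_zero
  have hne : (⟨pl j₁, l_mem_plI j₁⟩ : Sp K p) ≠ ⟨pl j₂, l_mem_plI j₂⟩ := fun h' =>
    h (norm_eq_of_pl_eq (congrArg Subtype.val h') x)
  have : Nontrivial (Sp K p) := ⟨_, _, hne⟩
  exact Finite.one_lt_card

/-- The `p`-units are `p`-th powers at all places away from `p`, up to units. -/
lemma powAway_of_mem {x : Kˣ} (hx : x ∈ (Sp K p).unit K) : PowAway p (x : K) := by
  intro l hl hlp j
  refine ⟨1, ?_⟩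
  rw [map_one, norm_one, one_pow]
  apply norm_eq_of_val j
  apply hx
  intro h
  have h1 : (p : 𝓞 K) ∈ plI j := h
  rw [mem_plI, map_natCast, map_natCast, norm_natCast_one] at h1
  · exact lt_irrefl _ h1
  · intro hd
    exact hlp ((Nat.prime_dvd_prime_iff_eq hl.out (Fact.out : p.Prime)).1 hd)

lemma card_tors {ζ : K} (hζ : IsPrimitiveRoot ζ p) (S : Set (HeightOneSpectrum (𝓞 K))) :
    Nat.card {x : Additive (S.unit K) // p • x = 0} = p := by
  have hp0 : p ≠ 0 := (Fact.out : p.Prime).ne_zero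
  have : NeZero p := ⟨hp0⟩
  have h1 : Nat.card (rootsOfUnity p K) = p := hζ.card_rootsOfUnity
  have hA : ∀ x : {x : Additive (S.unit K) // p • x = 0},
      ((Additive.toMul x.1 : S.unit K) : Kˣ) ∈ rootsOfUnity p K := by
    intro x
    rw [mem_rootsOfUnity]
    have h : p • x.1 = 0 := x.2
    have h' : ((Additive.toMul (p • x.1) : S.unit K) : Kˣ) = 1 := by rw [h]; rfl
    exact h'
  have hB : ∀ y : rootsOfUnity p K, (y : Kˣ) ∈ S.unit K := by
    intro y v _
    apply val_eq_one_of_pow hp0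
    rw [(mem_rootsOfUnity p _).1 y.2, Units.val_one, map_one]
  have hC : ∀ y : rootsOfUnity p K, p • (Additive.ofMul (⟨(y : Kˣ), hB y⟩ : S.unit K)) = 0 := by
    intro y
    apply Additive.toMul.injective
    apply Subtype.ext
    exact (mem_rootsOfUnity p _).1 y.2
  let e : {x : Additive (S.unit K) // p • x = 0} ≃ rootsOfUnity p K :=
    { toFun := fun x => ⟨_, hA x⟩
      invFun := fun y => ⟨_, hC y⟩
      left_inv := fun x => rfl
      right_inv := fun y => rfl }
  rw [Nat.card_congr e, h1]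

/-- Dirichlet's theorem for `S`-units modulo `p`-th powers. -/
theorem card_sunits {ζ : K} (hζ : IsPrimitiveRoot ζ p) (S : Set (HeightOneSpectrum (𝓞 K)))
    [Finite S] :
    Nat.card ((S.unit K) ⧸ (powMonoidHom p : S.unit K →* S.unit K).range) =
      p ^ (Units.rank K + Nat.card S + 1) := by
  have h := index_pR p (Fact.out : p.Prime).ne_zero (Additive (S.unit K))
  rw [card_tors K p hζ S, finrank_sunits, ← pow_succ] at h
  rw [← h]
  rfl

/-- The rank of the unit group of a totally complex field. -/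
lemma rank_of_isEmpty (hK : IsEmpty (K →+* ℝ)) : Units.rank K + 1 = finrank ℚ K / 2 := by
  classical
  have hc : IsTotallyComplex K := ⟨fun v => by
    by_contra h
    rw [InfinitePlace.not_isComplex_iff_isReal] at h
    exact hK.false (v.embedding_of_isReal h)⟩
  have h1 := IsTotallyComplex.nrRealPlaces_eq_zero (K := K)
  have h2 := IsTotallyComplex.finrank (K := K)
  have h3 := InfinitePlace.card_eq_nrRealPlaces_add_nrComplexPlaces (K := K)
  have h4 : 0 < Fintype.card (InfinitePlace K) := Fintype.card_pos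
  rw [Units.rank, h2, h3, h1]
  rw [h3, h1] at h4
  omega

lemma isEmpty_real_of_sq {s : K} {d : ℚ} (hd : d < 0) (hs : s ^ 2 = (d : K)) :
    IsEmpty (K →+* ℝ) := by
  refine ⟨fun f => ?_⟩
  have h := congrArg f hs
  rw [map_pow, map_ratCast] at h
  have h1 : (0 : ℝ) ≤ (f s) ^ 2 := sq_nonneg _
  rw [h] at h1
  have h2 : (d : ℝ) < 0 := by exact_mod_cast hd
  linarith

end PUnits

/-- Local-global principle: if `K` is rigid at `ι` and the numbers of classes agree, then every
class of the completion modulo `p`-th powers comes from a `p`-unit of `K`. -/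
theorem local_global {K : Type*} [Field K] [NumberField K] {p : ℕ} [Fact p.Prime] {ζ : K}
    (hζ : IsPrimitiveRoot ζ p) (hK : IsEmpty (K →+* ℝ)) {j₁ j₂ : K →+* PadicAlgCl p} {x : K}
    (h12 : ‖j₁ x‖ ≠ ‖j₂ x‖) (ι : K →+* PadicAlgCl p) (hR : Rigid p K ι)
    (hc : Nat.card ((comp p ι)ˣ ⧸ (powMonoidHom p : (comp p ι)ˣ →* (comp p ι)ˣ).range) =
      p ^ (finrank ℚ K / 2 + 2)) {β : PadicAlgCl p} (hβ : β ∈ comp p ι) (hβ0 : β ≠ 0) :
    ∃ a : K, a ≠ 0 ∧ PowAway p a ∧ ∃ γ ∈ comp p ι, β = ι a * γ ^ p := by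
  classical
  have hp1 : 1 < p := (Fact.out : p.Prime).one_lt
  have hfin := finite_Sp K p (Fact.out : p.Prime).ne_zero
  have hmem : ∀ y : K, ι y ∈ comp p ι := fun y =>
    IntermediateField.subset_adjoin _ _ ⟨y, rfl⟩
  set S := Sp K p with hS
  have hcard := card_sunits K p hζ S
  have hs2 : 2 ≤ Nat.card S := two_le_card_Sp K p h12
  have hrank := rank_of_isEmpty K hK
  -- the map of the classes
  let f₀ : K →+* comp p ι := ι.codRestrict (comp p ι).toSubfield hmem
  let f₁ : S.unit K →* (comp p ι)ˣ := (Units.map (f₀ : K →* comp p ι)).comp (S.unit K).subtype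
  have hf₁ : ∀ y : S.unit K, ((f₁ y : (comp p ι)ˣ) : PadicAlgCl p) = ι ((y : Kˣ) : K) :=
    fun y => rfl
  let f : (S.unit K) ⧸ (powMonoidHom p : S.unit K →* S.unit K).range →*
      (comp p ι)ˣ ⧸ (powMonoidHom p : (comp p ι)ˣ →* (comp p ι)ˣ).range :=
    QuotientGroup.map _ _ f₁ (by
      rintro _ ⟨y, rfl⟩
      exact ⟨f₁ y, by simp⟩)
  have hinj : Function.Injective f := by
    rw [injective_iff_map_eq_one]
    intro z
    obtain ⟨y, rfl⟩ := QuotientGroup.mk_surjective z
    intro h
    rw [QuotientGroup.map_mk, QuotientGroup.eq_one_iff] at h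
    obtain ⟨g, hg⟩ := h
    rw [QuotientGroup.eq_one_iff]
    have hg' : ((g : comp p ι) : PadicAlgCl p) ^ p = ι ((y : Kˣ) : K) := by
      have := congrArg (fun u : (comp p ι)ˣ => ((u : comp p ι) : PadicAlgCl p)) hg
      rw [← hf₁]
      simpa using this
    obtain ⟨b, hb⟩ := hR ((y : Kˣ) : K) (Units.ne_zero _) (powAway_of_mem K p y.2)
      ⟨(g : comp p ι), (g : comp p ι).2, hg'⟩
    have hb0 : b ≠ 0 := by
      rintro rfl
      rw [zero_pow (Fact.out : p.Prime).ne_zero] at hb
      exact Units.ne_zero _ hb.symm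
    refine ⟨⟨Units.mk0 b hb0, fun v hv => ?_⟩, ?_⟩
    · apply val_eq_one_of_pow (Fact.out : p.Prime).ne_zero
      rw [Units.val_pow_eq_pow_val, Units.val_mk0, hb]
      exact y.2 v hv
    · apply Subtype.ext
      apply Units.ext
      simpa using hb
  -- counting
  have hEfin : Finite ((comp p ι)ˣ ⧸ (powMonoidHom p : (comp p ι)ˣ →* (comp p ι)ˣ).range) := by
    apply Nat.finite_of_card_ne_zero
    rw [hc]
    positivity
  have hle := Nat.card_le_card_of_injective f hinj
  have hexp : finrank ℚ K / 2 + 2 ≤ Units.rank K + Nat.card S + 1 := by omega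
  have hge : p ^ (finrank ℚ K / 2 + 2) ≤ p ^ (Units.rank K + Nat.card S + 1) :=
    Nat.pow_le_pow_right hp1.le hexp
  have heq : Nat.card ((S.unit K) ⧸ (powMonoidHom p : S.unit K →* S.unit K).range) =
      Nat.card ((comp p ι)ˣ ⧸ (powMonoidHom p : (comp p ι)ˣ →* (comp p ι)ˣ).range) := by
    refine le_antisymm hle ?_
    rw [hc, hcard]
    exact hge
  have hSfin : Finite ((S.unit K) ⧸ (powMonoidHom p : S.unit K →* S.unit K).range) :=
    Finite.of_injective f hinj
  have hsurj : Function.Surjective f :=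
    ((Nat.bijective_iff_injective_and_card f).2 ⟨hinj, heq⟩).2
  set B : (comp p ι)ˣ := Units.mk0 ⟨β, hβ⟩ (fun h => hβ0 (congrArg Subtype.val h)) with hB
  obtain ⟨z, hz⟩ := hsurj (QuotientGroup.mk B)
  obtain ⟨y, rfl⟩ := QuotientGroup.mk_surjective z
  rw [QuotientGroup.map_mk, QuotientGroup.eq] at hz
  obtain ⟨g, hg⟩ := hz
  refine ⟨((y : Kˣ) : K), Units.ne_zero _, powAway_of_mem K p y.2, (g : comp p ι),
    (g : comp p ι).2, ?_⟩
  have h1 : f₁ y * g ^ p = B := by
    have : g ^ p = (f₁ y)⁻¹ * B := hg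
    rw [this, mul_inv_cancel_left]
  have h2 := congrArg (fun u : (comp p ι)ˣ => ((u : comp p ι) : PadicAlgCl p)) h1
  have hBβ : ((B : comp p ι) : PadicAlgCl p) = β := rfl
  rw [← hf₁, ← hBβ]
  simpa using h2.symm

end SUnits
end BKGen
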