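import Pool.Agent.Lib.MP_7c08ba_nt.Gen.Main

/-!
Layers: open normal subgroups of `Gal(Ω/K)` of `p`-power index which contain all inertia away
from `p`. Over a rigid field the local Galois group maps onto the quotient by every layer, and
the field of a layer is rigid again.
-/

open Polynomial

namespace BKGen

section Layer

variable {p : ℕ} [Fact p.Prime] {K Ω : Type*} [Field K] [Field Ω] [Algebra K Ω]

/-- `σ` is the restriction of `τ`. -/
def Restricts (ι : Ω →+* PadicAlgCl p)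
    (τ : PadicAlgCl p ≃ₐ[comp p (ι.comp (algebraMap K Ω))] PadicAlgCl p) (σ : Ω ≃ₐ[K] Ω) : Prop :=
  ∀ x, ι (σ x) = τ (ι x)

theorem Restricts.one (ι : Ω →+* PadicAlgCl p) : Restricts (K := K) ι 1 1 := fun _ => rfl

theorem Restricts.mul {ι : Ω →+* PadicAlgCl p}
    {τ τ' : PadicAlgCl p ≃ₐ[comp p (ι.comp (algebraMap K Ω))] PadicAlgCl p} {σ σ' : Ω ≃ₐ[K] Ω}
    (h : Restricts ι τ σ) (h' : Restricts ι τ' σ') : Restricts ι (τ * τ') (σ * σ') := by
  intro x
  rw [AlgEquiv.mul_apply, AlgEquiv.mul_apply, h, h']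

theorem Restricts.inv {ι : Ω →+* PadicAlgCl p}
    {τ : PadicAlgCl p ≃ₐ[comp p (ι.comp (algebraMap K Ω))] PadicAlgCl p} {σ : Ω ≃ₐ[K] Ω}
    (h : Restricts ι τ σ) : Restricts ι τ⁻¹ σ⁻¹ := by
  intro x
  have h1 := h (σ⁻¹ x)
  rw [← AlgEquiv.mul_apply, mul_inv_cancel, AlgEquiv.one_apply] at h1
  rw [h1, ← AlgEquiv.mul_apply, inv_mul_cancel, AlgEquiv.one_apply]

theorem Restricts.unique {ι : Ω →+* PadicAlgCl p}
    {τ : PadicAlgCl p ≃ₐ[comp p (ι.comp (algebraMap K Ω))] PadicAlgCl p} {σ σ' : Ω ≃ₐ[K] Ω}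
    (h : Restricts ι τ σ) (h' : Restricts ι τ σ') : σ = σ' := by
  ext x
  exact ι.injective ((h x).trans (h' x).symm)

/-- the restrictions of local automorphisms -/
def decR (ι : Ω →+* PadicAlgCl p) : Subgroup (Ω ≃ₐ[K] Ω) where
  carrier := {σ | ∃ τ, Restricts ι τ σ}
  one_mem' := ⟨1, Restricts.one ι⟩
  mul_mem' := by
    rintro a b ⟨τ, h⟩ ⟨τ', h'⟩
    exact ⟨τ * τ', h.mul h'⟩
  inv_mem' := by
    rintro a ⟨τ, h⟩
    exact ⟨τ⁻¹, h.inv⟩

/-- An element of `Ω` fixed by all restrictions of local automorphisms lies in the completion. -/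
theorem mem_comp_of_fixed' [Normal K Ω] (ι : Ω →+* PadicAlgCl p) (α : Ω)
    (h : ∀ σ ∈ decR (K := K) ι, σ α = α) : ι α ∈ comp p (ι.comp (algebraMap K Ω)) := by
  have h1 : ι α ∈ Set.range (algebraMap (comp p (ι.comp (algebraMap K Ω))) (PadicAlgCl p)) := by
    rw [InfiniteGalois.mem_range_algebraMap_iff_fixed]
    intro τ
    obtain ⟨σ, hσ⟩ := exists_restrict ι τ
    rw [← hσ, h σ ⟨τ, hσ⟩]
  obtain ⟨y, hy⟩ := h1
  rw [← hy]
  exact y.2

theorem no_index_p' [IsGalois K Ω] (hζ : (primitiveRoots p K).Nonempty)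
    (ι : Ω →+* PadicAlgCl p) (hR : Rigid p K (ι.comp (algebraMap K Ω)))
    (N : Subgroup (Ω ≃ₐ[K] Ω)) (hN : N.Normal) (hi : N.index = p)
    (ho : IsOpen (N : Set (Ω ≃ₐ[K] Ω)))
    (hI : ∀ (l : ℕ) [Fact l.Prime], l ≠ p → ∀ j : Ω →+* PadicAlgCl l, ∀ σ ∈ Inert K Ω j, σ ∈ N)
    (hD : ∀ σ ∈ decR (K := K) ι, σ ∈ N) : False := by
  have hp : p.Prime := Fact.out
  obtain ⟨α, a, hαa, hfix, hne⟩ := exists_kummer hζ N hN hi ho
  have ha0 : a ≠ 0 := by
    rintro rfl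
    rw [map_zero] at hαa
    have : α = 0 := eq_zero_of_pow_eq_zero hαa
    exact hne 0 (by rw [map_zero, this])
  obtain ⟨b, hb⟩ := hR a ha0 (by
    intro l _ hlp j
    obtain ⟨J, rfl⟩ := exists_extension (Ω := Ω) l j
    obtain ⟨b, hb⟩ := norm_of_fixed_inert (K := K) J α (fun σ hσ => hfix σ (hI l hlp J σ hσ))
    refine ⟨b, ?_⟩
    rw [RingHom.comp_apply, RingHom.comp_apply, ← hb, ← norm_pow, ← map_pow, hαa]) (by
    refine ⟨ι α, mem_comp_of_fixed' ι α (fun σ hσ => hfix σ (hD σ hσ)), ?_⟩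
    rw [← map_pow, hαa, RingHom.comp_apply])
  obtain ⟨ζ, hζ'⟩ := hζ
  rw [mem_primitiveRoots hp.pos] at hζ'
  have hb0 : b ≠ 0 := by
    rintro rfl
    rw [zero_pow hp.ne_zero] at hb
    exact ha0 hb.symm
  have h1 : (α / algebraMap K Ω b) ^ p = 1 := by
    rw [div_pow, hαa, ← map_pow, hb, div_self]
    rwa [Ne, map_eq_zero]
  have h2 : IsPrimitiveRoot (algebraMap K Ω ζ) p := hζ'.map_of_injective (algebraMap K Ω).injective
  obtain ⟨i, -, hi2⟩ := h2.eq_pow_of_pow_eq_one h1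
  apply hne (ζ ^ i * b)
  rw [map_mul, map_pow, hi2]
  exact div_mul_cancel₀ α (by rwa [Ne, map_eq_zero])

/-- open normal subgroups of `p`-power index containing inertia away from `p` -/
structure IsLayer (p : ℕ) (N : Subgroup (Ω ≃ₐ[K] Ω)) : Prop where
  normal : N.Normal
  isOpen : IsOpen (N : Set (Ω ≃ₐ[K] Ω))
  pgroup : ∀ g : Ω ≃ₐ[K] Ω, ∃ k : ℕ, g ^ p ^ k ∈ N
  inert : ∀ (l : ℕ) [Fact l.Prime], l ≠ p → ∀ j : Ω →+* PadicAlgCl l, ∀ σ ∈ Inert K Ω j, σ ∈ N

omit [Fact p.Prime] in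
theorem isLayer_top : IsLayer (K := K) (Ω := Ω) p ⊤ :=
  ⟨inferInstance, isOpen_univ, fun _ => ⟨0, trivial⟩, fun _ _ _ _ _ _ => trivial⟩

/-- the local Galois group maps onto the quotient by a layer -/
theorem IsLayer.exists_local [IsGalois K Ω] (hζ : (primitiveRoots p K).Nonempty)
    (ι : Ω →+* PadicAlgCl p) (hR : Rigid p K (ι.comp (algebraMap K Ω)))
    {N : Subgroup (Ω ≃ₐ[K] Ω)} (hN : IsLayer p N) (g : Ω ≃ₐ[K] Ω) :
    ∃ τ σ, Restricts (K := K) ι τ σ ∧ σ⁻¹ * g ∈ N := by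
  have hNn := hN.normal
  have hfin : Finite ((Ω ≃ₐ[K] Ω) ⧸ N) := N.quotient_finite_of_isOpen hN.isOpen
  have hpg : IsPGroup p ((Ω ≃ₐ[K] Ω) ⧸ N) := by
    rw [isPGroup_iff_pow_pow_eq_one]
    intro x
    obtain ⟨σ, rfl⟩ := QuotientGroup.mk'_surjective N x
    obtain ⟨k, hk⟩ := hN.pgroup σ
    refine ⟨k, ?_⟩
    rw [← map_pow]
    exact (QuotientGroup.eq_one_iff _).mpr hk
  have htop : (decR (K := K) ι).map (QuotientGroup.mk' N) = ⊤ := by
    by_contra hne
    obtain ⟨N', hN', hNi, hHN⟩ := exists_normal_index hpg _ hne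
    refine no_index_p' hζ ι hR (N'.comap (QuotientGroup.mk' N)) (hN'.comap _) ?_ ?_ ?_ ?_
    · rw [Subgroup.index_comap_of_surjective _ (QuotientGroup.mk'_surjective N), hNi]
    · refine Subgroup.isOpen_mono ?_ hN.isOpen
      intro y hy
      rw [Subgroup.mem_comap]
      have : (QuotientGroup.mk' N) y = 1 := (QuotientGroup.eq_one_iff y).mpr hy
      rw [this]
      exact Subgroup.one_mem _
    · intro l _ hl j σ hσ
      rw [Subgroup.mem_comap]
      have : (QuotientGroup.mk' N) σ = 1 :=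
        (QuotientGroup.eq_one_iff σ).mpr (hN.inert l hl j σ hσ)
      rw [this]
      exact Subgroup.one_mem _
    · intro σ hσ
      exact Subgroup.map_le_iff_le_comap.mp hHN hσ
  have h1 : (QuotientGroup.mk' N) g ∈ (decR (K := K) ι).map (QuotientGroup.mk' N) := by
    rw [htop]; trivial
  obtain ⟨σ, ⟨τ, hτ⟩, heq⟩ := h1
  exact ⟨τ, σ, hτ, QuotientGroup.eq.mp heq⟩

/-- refining a subgroup by a Kummer generator and its conjugates -/
def sub (N : Subgroup (Ω ≃ₐ[K] Ω)) (α : Ω) : Subgroup (Ω ≃ₐ[K] Ω) where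
  carrier := {g | g ∈ N ∧ ∀ h : Ω ≃ₐ[K] Ω, g (h α) = h α}
  one_mem' := ⟨N.one_mem, fun _ => rfl⟩
  mul_mem' := by
    rintro a b ⟨ha, ha'⟩ ⟨hb, hb'⟩
    refine ⟨N.mul_mem ha hb, fun h => ?_⟩
    rw [AlgEquiv.mul_apply, hb', ha']
  inv_mem' := by
    rintro a ⟨ha, ha'⟩
    refine ⟨N.inv_mem ha, fun h => ?_⟩
    have h1 := congrArg (a⁻¹ : Ω ≃ₐ[K] Ω) (ha' h)
    rw [← AlgEquiv.mul_apply, inv_mul_cancel, AlgEquiv.one_apply] at h1
    exact h1.symm

theorem sub_le (N : Subgroup (Ω ≃ₐ[K] Ω)) (α : Ω) : sub N α ≤ N := fun _ h => h.1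

/-- conjugation of inertia groups -/
theorem conj_inert {l : ℕ} [Fact l.Prime] (j : Ω →+* PadicAlgCl l) {σ : Ω ≃ₐ[K] Ω}
    (hσ : σ ∈ Inert K Ω j) (h : Ω ≃ₐ[K] Ω) :
    h⁻¹ * σ * h ∈ Inert K Ω (j.comp (h : Ω →+* Ω)) := by
  intro x hx
  have h1 := hσ (h x) hx
  have h2 : (h : Ω →+* Ω) ((h⁻¹ * σ * h) x - x) = σ (h x) - h x := by
    rw [map_sub]
    change h (h⁻¹ (σ (h x))) - h x = _
    rw [← AlgEquiv.mul_apply, mul_inv_cancel, AlgEquiv.one_apply]
  rw [RingHom.comp_apply, h2]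
  exact h1

/-- inertia away from `p` fixes Kummer generators of elements which are units up to `p`-th
powers -/
theorem inert_fix {l : ℕ} [Fact l.Prime] (hlp : l ≠ p) (j : Ω →+* PadicAlgCl l)
    {σ : Ω ≃ₐ[K] Ω} (hσ : σ ∈ Inert K Ω j) (M : IntermediateField K Ω) (hM : ∀ x ∈ M, σ x = x)
    {α : Ω} (hα : α ^ p ∈ M) {b : Ω} (hb : b ∈ M) (hab : ‖j α‖ = ‖j b‖) : σ α = α := by
  have hp : p.Prime := Fact.out
  by_cases hα0 : α = 0
  · rw [hα0, map_zero]
  have hb0 : b ≠ 0 := by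
    rintro rfl
    rw [map_zero, norm_zero, norm_eq_zero, map_eq_zero] at hab
    exact hα0 hab
  -- `u = α / b` is a unit
  have hu : ‖j (α / b)‖ = 1 := by
    rw [map_div₀, norm_div, hab, div_self]
    rw [Ne, norm_eq_zero, map_eq_zero]
    exact hb0
  set ω : Ω := σ α / α with hω
  have hωp : ω ^ p = 1 := by
    rw [hω, div_pow, ← map_pow, hM _ hα, div_self (pow_ne_zero _ hα0)]
  have h1 := hσ (α / b) hu.le
  have h2 : σ (α / b) - α / b = (ω - 1) * (α / b) := by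
    rw [map_div₀, hM b hb, hω]
    field_simp
  rw [h2, map_mul, norm_mul, hu, mul_one, map_sub, map_one] at h1
  have h3 : j ω = 1 := by
    by_contra hne
    have h4 : ¬ l ∣ p := by
      intro h5
      exact hlp ((Nat.prime_dvd_prime_iff_eq (Fact.out : l.Prime) hp).mp h5)
    have h5 := norm_root_sub_one h4 (by rw [← map_pow, hωp, map_one]) hne
    rw [h5] at h1
    exact lt_irrefl _ h1
  have h6 : ω = 1 := by
    rw [← map_one j] at h3
    exact j.injective h3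
  rw [hω, div_eq_one_iff_eq hα0] at h6
  exact h6

theorem mem_fixedField_iff {N : Subgroup (Ω ≃ₐ[K] Ω)} {x : Ω} :
    x ∈ IntermediateField.fixedField N ↔ ∀ g ∈ N, g x = x := by
  rw [IntermediateField.mem_fixedField_iff]

/-- refining a layer gives a layer -/
theorem IsLayer.sub [IsGalois K Ω] {N : Subgroup (Ω ≃ₐ[K] Ω)} (hN : IsLayer p N) {α : Ω}
    (hζ : (primitiveRoots p K).Nonempty) (M : IntermediateField K Ω)
    (hMfix : ∀ g ∈ N, ∀ x ∈ M, g x = x)
    (a : M) (hαa : α ^ p = a) (ha : PowAway p a) :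
    IsLayer p (BKGen.sub N α) := by
  have hp : p.Prime := Fact.out
  have hNn := hN.normal
  refine ⟨⟨?_⟩, ?_, ?_, ?_⟩
  · rintro g ⟨hg, hg'⟩ h
    refine ⟨hNn.conj_mem g hg h, fun k => ?_⟩
    have h1 : (h * g * h⁻¹) (k α) = h (g ((h⁻¹ * k) α)) := rfl
    rw [h1, hg']
    change h (h⁻¹ (k α)) = k α
    rw [← AlgEquiv.mul_apply, mul_inv_cancel, AlgEquiv.one_apply]
  · -- open
    have hint : IsIntegral K α := Algebra.IsIntegral.isIntegral α
    let s : Set Ω := (minpoly K α).rootSet Ω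
    have hs : s.Finite := Polynomial.rootSet_finite _ _
    let E := IntermediateField.adjoin K s
    have hE : FiniteDimensional K E := by
      have : Finite s := hs
      exact IntermediateField.finiteDimensional_adjoin fun x _ => Algebra.IsIntegral.isIntegral x
    have hEo : IsOpen ((N ⊓ E.fixingSubgroup : Subgroup (Ω ≃ₐ[K] Ω)) : Set (Ω ≃ₐ[K] Ω)) :=
      hN.isOpen.inter (IntermediateField.fixingSubgroup_isOpen E)
    refine Subgroup.isOpen_mono ?_ hEo
    rintro g ⟨hg1, hg2⟩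
    refine ⟨hg1, fun h => ?_⟩
    have h1 : h α ∈ s := by
      rw [Polynomial.mem_rootSet]
      refine ⟨minpoly.ne_zero hint, ?_⟩
      have h2 := Polynomial.aeval_algHom_apply h.toAlgHom α (minpoly K α)
      rw [minpoly.aeval, map_zero] at h2
      exact h2
    exact (IntermediateField.mem_fixingSubgroup_iff E g).mp hg2 _
      (IntermediateField.subset_adjoin K s h1)
  · intro g
    obtain ⟨k, hk⟩ := hN.pgroup g
    refine ⟨k + 1, ?_⟩
    rw [pow_succ, pow_mul]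
    set σ := g ^ p ^ k with hσ
    refine ⟨N.pow_mem hk p, fun h => ?_⟩
    by_cases hα0 : α = 0
    · rw [hα0, map_zero, map_zero]
    have hhα0 : h α ≠ 0 := by rwa [Ne, map_eq_zero_iff h h.injective]
    -- `σ` multiplies `h α` by a root of unity of `K`
    have h1 : σ (h (a : Ω)) = h (a : Ω) := by
      have h2 : (h⁻¹ * σ * h) (a : Ω) = a := hMfix _ (by
        have := hNn.conj_mem σ hk h⁻¹
        rwa [inv_inv] at this) _ a.2
      have h3 := congrArg (h : Ω → Ω) h2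
      change h (h⁻¹ (σ (h (a : Ω)))) = _ at h3
      rwa [← AlgEquiv.mul_apply, mul_inv_cancel, AlgEquiv.one_apply] at h3
    have h2 : (σ (h α) / h α) ^ p = 1 := by
      rw [div_pow, ← map_pow, ← map_pow, hαa, h1, div_self]
      rw [← hαa]
      rw [map_pow]
      exact pow_ne_zero _ hhα0
    obtain ⟨ζ, hζ'⟩ := hζ
    rw [mem_primitiveRoots hp.pos] at hζ'
    have h3 : IsPrimitiveRoot (algebraMap K Ω ζ) p :=
      hζ'.map_of_injective (algebraMap K Ω).injective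
    obtain ⟨i, -, hi2⟩ := h3.eq_pow_of_pow_eq_one h2
    have h4 : σ (h α) = algebraMap K Ω (ζ ^ i) * h α := by
      rw [map_pow, hi2, div_mul_cancel₀ _ hhα0]
    have h5 : ∀ m : ℕ, (σ ^ m) (h α) = algebraMap K Ω (ζ ^ i) ^ m * h α := by
      intro m
      induction m with
      | zero => simp
      | succ m ih =>
        rw [pow_succ', AlgEquiv.mul_apply, ih, map_mul, map_pow, AlgEquiv.commutes, h4]
        ring
    rw [h5 p, ← map_pow, ← pow_mul, mul_comm i p, pow_mul, hζ'.pow_eq_one, one_pow, map_one,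
      one_mul]
  · intro l _ hl j σ hσ
    refine ⟨hN.inert l hl j σ hσ, fun h => ?_⟩
    -- conjugate
    have h1 := conj_inert j hσ h
    set j' := j.comp (h : Ω →+* Ω) with hj'
    obtain ⟨b, hb⟩ := ha l hl (j'.comp (algebraMap M Ω))
    have hab : ‖j' α‖ = ‖j' (b : Ω)‖ := by
      have h2 : ‖j' α‖ ^ p = ‖j' (b : Ω)‖ ^ p := by
        rw [← norm_pow, ← map_pow, hαa]
        exact hb
      exact (pow_left_inj₀ (norm_nonneg _) (norm_nonneg _) hp.ne_zero).mp h2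
    have hmem : h⁻¹ * σ * h ∈ N := by
      have := hNn.conj_mem σ (hN.inert l hl j σ hσ) h⁻¹
      rwa [inv_inv] at this
    have h2 := inert_fix hl j' h1 M (fun x hx => hMfix _ hmem x hx) (α := α)
      (by rw [hαa]; exact a.2) b.2 hab
    have h3 := congrArg (h : Ω → Ω) h2
    change h (h⁻¹ (σ (h α))) = _ at h3
    rwa [← AlgEquiv.mul_apply, mul_inv_cancel, AlgEquiv.one_apply] at h3

end Layer

end BKGen
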