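import Pool.Agent.Lib.MP_7c08ba_nt.Gen.RT.QPart

/-!
Rigidity at the places above `3` of `K = ℚ(√-d, √-3)`, `d ≡ 2 mod 3`.
-/

namespace BKGen
namespace RT

open NumberField IntermediateField

variable {K : Type*} [Field K] [NumberField K] {d : ℕ} {s t : K} {u0 v0 : ℤ}

theorem sigma_sigma (h : Biq K d s t) (σ : K →+* K) (hσs : σ s = s) (hσt : σ t = -t) (x : K) :
    σ (σ x) = x := by
  obtain ⟨a, b, c, e, rfl⟩ := h.span x
  unfold cf
  simp only [map_add, map_mul, map_ratCast, hσs, hσt, map_neg]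
  ring

theorem half_unit (ι : K →+* PadicAlgCl 3) (h : Biq K d s t) (σ : K →+* K) (hσs : σ s = s)
    (hσt : σ t = -t) {x y w : K} (hx0 : x ≠ 0) (hy0 : y ≠ 0) (hw0 : w ≠ 0) (hσx : σ x = x⁻¹)
    (hw : SU 3 w) {k : ℕ} (he : x ^ k = y ^ 3 * w) :
    ∃ v U : Kˣ, (Units.mk0 x hx0) ^ (2 * k) = v ^ 3 * U ∧ (U : K) = w / σ w ∧ SU 3 (U : K) ∧
      ‖ι (U : K)‖ = 1 ∧ σ (U : K) = (U : K)⁻¹ := by
  have hsy : σ y ≠ 0 := by rwa [Ne, map_eq_zero]
  have hsw : σ w ≠ 0 := by rwa [Ne, map_eq_zero]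
  refine ⟨Units.mk0 (y / σ y) (div_ne_zero hy0 hsy), Units.mk0 (w / σ w) (div_ne_zero hw0 hsw),
    ?_, rfl, ?_, ?_, ?_⟩
  · apply Units.ext
    rw [Units.val_mul, Units.val_pow_eq_pow_val, Units.val_pow_eq_pow_val, Units.val_mk0,
      Units.val_mk0, Units.val_mk0]
    have e1 : (σ y ^ 3 * σ w) * x ^ k = 1 := by
      have e2 := congrArg σ he
      rw [map_pow, hσx, map_mul, map_pow] at e2
      rw [← e2, ← mul_pow, inv_mul_cancel₀ hx0, one_pow]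
    have e3 : x ^ (2 * k) * (σ y ^ 3 * σ w) = y ^ 3 * w := by
      rw [two_mul, pow_add]
      linear_combination x ^ k * e1 + he
    rw [div_pow, div_mul_div_comm, eq_div_iff (mul_ne_zero (pow_ne_zero _ hsy) hsw)]
    exact e3
  · rw [Units.val_mk0, div_eq_mul_inv]
    exact hw.mul (hw.map σ).inv
  · rw [Units.val_mk0, map_div₀, norm_div, norm_sigma ι h σ hσs hσt, div_self]
    rw [Ne, norm_eq_zero, map_eq_zero]
    exact hw0
  · rw [Units.val_mk0, map_div₀, sigma_sigma h σ hσs hσt, inv_div]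

/-- the sum of `U` and its inverse is integral at all places -/
theorem trace_int (ι : K →+* PadicAlgCl 3) {U : K} (h1 : SU 3 U) (h2 : ‖ι U‖ = 1) {q : ℚ}
    (hq : (q : K) = U + U⁻¹) : ∃ n : ℤ, q = n := by
  refine rat_intK ι ?_ fun l hl hl3 j => ?_
  · rw [hq, map_add]
    refine (IsUltrametricDist.norm_add_le_max _ _).trans ?_
    rw [map_inv₀, norm_inv, h2]
    simp
  · rw [hq, map_add]
    refine (IsUltrametricDist.norm_add_le_max _ _).trans ?_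
    rw [map_inv₀, norm_inv, h1 l hl3 j]
    simp

/-- elements of `ℚ(t)` -/
theorem q_t (ι : K →+* PadicAlgCl 3) (h : Biq K d s t) (σ : K →+* K) (hσs : σ s = s)
    (hσt : σ t = -t) {x : K} (hx0 : x ≠ 0) (hσx : σ x = x⁻¹) (hxL : x ∈ ℚ⟮t⟯)
    (hP : PowAway 3 x) : ∃ (k : ℕ) (v : Kˣ), (Units.mk0 x hx0) ^ 2 = ztU h ^ k * v ^ 3 := by
  obtain ⟨c, hcs, hct⟩ := h.exists_aut (-1) 1 (by norm_num) (by norm_num)
  have hs := h.s2
  have hτ : ∀ b : K, b + c b ∈ ℚ⟮t⟯ ∧ b * c b ∈ ℚ⟮t⟯ := by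
    intro x
    obtain ⟨a', b', c', e', rfl⟩ := h.span x
    rw [aut_mk c hcs hct]
    constructor
    · have e1 : cf s t a' b' c' e' + cf s t a' (-1 * b') (1 * c') (-1 * 1 * e') =
          cf s t (2 * a') 0 (2 * c') 0 := by
        unfold cf
        push_cast
        ring
      rw [e1]
      exact cf_t_mem _ _
    · have e1 : cf s t a' b' c' e' * cf s t a' (-1 * b') (1 * c') (-1 * 1 * e') =
          cf s t a' 0 c' 0 ^ 2 + d * cf s t b' 0 e' 0 ^ 2 := by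
        unfold cf
        push_cast
        linear_combination (-((b' : K) + e' * t) ^ 2) * hs
      rw [e1]
      exact add_mem (pow_mem (cf_t_mem _ _) 2)
        (mul_mem (_root_.natCast_mem _ d) (pow_mem (cf_t_mem _ _) 2))
  obtain ⟨y, w, hy, hw, hy0, hw0, hsu, he⟩ := sunit_sub ℚ⟮t⟯ c hτ hxL hx0 hP
  rw [class_t h] at he
  obtain ⟨v, U, e1, e2, e3, e4, e5⟩ := half_unit ι h σ hσs hσt hx0 hy0 hw0 hσx hsu he
  have smk : ∀ a c : ℚ, σ (cf s t a 0 c 0) = cf s t a 0 (-c) 0 := by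
    intro a c
    rw [aut_mk σ (ε₁ := 1) (ε₂ := -1) (by simpa using hσs) (by simpa using hσt)]
    simp
  obtain ⟨a', c', hw'⟩ := mem_t h hw
  have hUL : (U : K) ∈ ℚ⟮t⟯ := by
    rw [e2, hw', smk]
    exact div_mem (cf_t_mem _ _) (cf_t_mem _ _)
  obtain ⟨A, C, hAC⟩ := mem_t h hUL
  have hinv : (U : K)⁻¹ = cf s t A 0 (-C) 0 := by rw [← e5, hAC, smk]
  have ht := h.t2
  obtain ⟨k, v', hv'⟩ := unit_t h (a := A) (c := C) (by
    have e6 : ((A ^ 2 + 3 * C ^ 2 : ℚ) : K) = U * (U : K)⁻¹ := by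
      rw [hinv, hAC]
      unfold cf
      push_cast
      linear_combination (C : K) ^ 2 * ht
    rw [mul_inv_cancel₀ U.ne_zero] at e6
    exact_mod_cast e6) (by
    refine trace_int ι e3 e4 ?_
    rw [hinv, hAC]
    unfold cf
    push_cast
    ring)
  have hv0 : v' ≠ 0 := by
    rintro rfl
    rw [zero_pow three_ne_zero, mul_zero, ← hAC] at hv'
    exact U.ne_zero hv'
  refine ⟨k, v * Units.mk0 v' hv0, ?_⟩
  have e6 : U = ztU h ^ k * (Units.mk0 v' hv0) ^ 3 := by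
    apply Units.ext
    rw [Units.val_mul, Units.val_pow_eq_pow_val, Units.val_pow_eq_pow_val, Units.val_mk0, hAC, hv']
    rfl
  rw [mul_one] at e1
  rw [e1, mul_pow, e6]
  rw [mul_left_comm]

/-- elements of `ℚ(st)` -/
theorem q_st (ι : K →+* PadicAlgCl 3) (h : Biq K d s t)
    (he : u0 ^ 2 - 3 * d * v0 ^ 2 = 4) (hv : ¬ (9 : ℤ) ∣ v0)
    (hv2 : ¬ (9 : ℤ) ∣ 1 + d * v0 ^ 2) (σ : K →+* K) (hσs : σ s = s)
    (hσt : σ t = -t) {x : K} (hx0 : x ≠ 0) (hσx : σ x = x⁻¹) (hxL : x ∈ ℚ⟮s * t⟯)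
    (hP : PowAway 3 x) : ∃ (z : ℤ) (v : Kˣ),
      (Units.mk0 x hx0) ^ (2 * classNumber ℚ⟮s * t⟯) = epsU h he ^ z * v ^ 3 := by
  obtain ⟨τ, hts, htt⟩ := h.exists_aut (-1) (-1) (by norm_num) (by norm_num)
  have hs := h.s2
  have hst := st_sq h
  have hτ : ∀ b : K, b + τ b ∈ ℚ⟮s * t⟯ ∧ b * τ b ∈ ℚ⟮s * t⟯ := by
    intro x
    obtain ⟨a', b', c', e', rfl⟩ := h.span x
    rw [aut_mk τ hts htt]
    constructor
    · have e1 : cf s t a' b' c' e' + cf s t a' (-1 * b') (-1 * c') (-1 * -1 * e') =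
          cf s t (2 * a') 0 0 (2 * e') := by
        unfold cf
        push_cast
        ring
      rw [e1]
      exact cf_st_mem _ _
    · have e1 : cf s t a' b' c' e' * cf s t a' (-1 * b') (-1 * c') (-1 * -1 * e') =
          cf s t a' 0 0 e' ^ 2 + cf s t (d * b' ^ 2 + 3 * c' ^ 2) 0 0 (-2 * b' * c') := by
        have ht := h.t2
        unfold cf
        push_cast
        linear_combination (-(b' : K) ^ 2) * hs - (c' : K) ^ 2 * ht
      rw [e1]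
      exact add_mem (pow_mem (cf_st_mem _ _) 2) (cf_st_mem _ _)
  obtain ⟨y, w, hy, hw, hy0, hw0, hsu, hee⟩ := sunit_sub ℚ⟮s * t⟯ τ hτ hxL hx0 hP
  obtain ⟨v, U, e1, e2, e3, e4, e5⟩ := half_unit ι h σ hσs hσt hx0 hy0 hw0 hσx hsu hee
  have smk : ∀ a e : ℚ, σ (cf s t a 0 0 e) = cf s t a 0 0 (-e) := by
    intro a c
    rw [aut_mk σ (ε₁ := 1) (ε₂ := -1) (by simpa using hσs) (by simpa using hσt)]
    simp
  obtain ⟨a', c', hw'⟩ := mem_st h hw
  have hUL : (U : K) ∈ ℚ⟮s * t⟯ := by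
    rw [e2, hw', smk]
    exact div_mem (cf_st_mem _ _) (cf_st_mem _ _)
  obtain ⟨A, E, hAE⟩ := mem_st h hUL
  have hinv : (U : K)⁻¹ = cf s t A 0 0 (-E) := by rw [← e5, hAE, smk]
  obtain ⟨T', hT'⟩ := trace_int ι e3 e4 (q := 2 * A) (by
    rw [hinv, hAE]
    unfold cf
    push_cast
    ring)
  have hsum : (T' : K) = U + (U : K)⁻¹ := by
    have e6 : ((2 * A : ℚ) : K) = U + (U : K)⁻¹ := by
      rw [hinv, hAE]
      unfold cf
      push_cast
      ring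
    rw [← e6, hT']
    simp
  have hU2 : (U : K) ^ 2 - T' * U + 1 = 0 := by
    rw [hsum]
    have e6 := mul_inv_cancel₀ U.ne_zero
    linear_combination -e6
  obtain ⟨z, v', hv'⟩ := unit_st h ι (ε := epsU h he) (u := U) (T := u0) (T' := T')
    (cf_st_mem _ _) hUL (by
      have := eps_int h he
      push_cast at this
      exact this) hU2 (by
      intro n hn
      exact (loc_indep ι h he hv hv2 (x := 0) (z := n) (by rwa [zpow_zero, one_mul])).2)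
  refine ⟨z, v * v', ?_⟩
  rw [e1, hv', mul_pow]
  rw [mul_left_comm]

omit [NumberField K] in
theorem cube_coe (v : Kˣ) (n : ℤ) (h : (3 : ℤ) ∣ n) : v ^ n ∈ Cub K := by
  obtain ⟨k, rfl⟩ := h
  rw [mul_comm, zpow_mul]
  exact_mod_cast cube_mem_Cub (v ^ k)

/-- elements inverted by `σ` -/
theorem cube_q (ι : K →+* PadicAlgCl 3) (h : Biq K d s t)
    (he : u0 ^ 2 - 3 * d * v0 ^ 2 = 4) (hv : ¬ (9 : ℤ) ∣ v0)
    (hv2 : ¬ (9 : ℤ) ∣ 1 + d * v0 ^ 2) (hcl : ¬ 3 ∣ classNumber ℚ⟮s * t⟯)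
    (σ : K →+* K) (hσs : σ s = s) (hσt : σ t = -t) {q : K} (hq0 : q ≠ 0) (hσq : σ q = q⁻¹)
    (h1 : PowAway 3 q) (h2 : PowAt 3 ι q) : Units.mk0 q hq0 ∈ Cub K := by
  obtain ⟨c, hcs, hct⟩ := h.exists_aut (-1) 1 (by norm_num) (by norm_num)
  have smk : ∀ a b c e : ℚ, σ (cf s t a b c e) = cf s t a b (-c) (-e) := by
    intro a b c e
    rw [aut_mk σ (ε₁ := 1) (ε₂ := -1) (by simpa using hσs) (by simpa using hσt)]
    simp
  have cmk : ∀ a b c' e : ℚ, c (cf s t a b c' e) = cf s t a (-b) c' (-e) := by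
    intro a b c' e
    rw [aut_mk c hcs hct]
    simp
  have hcc : ∀ x, c (c x) = x := by
    intro x
    obtain ⟨a, b, c', e, rfl⟩ := h.span x
    rw [cmk, cmk, neg_neg, neg_neg]
  have hsc : ∀ x, σ (c x) = c (σ x) := by
    intro x
    obtain ⟨a, b, c', e, rfl⟩ := h.span x
    rw [cmk, smk, smk, cmk]
  have hcq0 : c q ≠ 0 := by rwa [Ne, map_eq_zero]
  -- the part in `ℚ(t)`
  have h10 : q * c q ≠ 0 := mul_ne_zero hq0 hcq0
  have h1L : q * c q ∈ ℚ⟮t⟯ := by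
    have e1 : c (q * c q) = q * c q := by rw [map_mul, hcc, mul_comm]
    obtain ⟨a, b, c', e, hx⟩ := h.span (q * c q)
    rw [hx, cmk] at e1
    obtain ⟨-, e2, -, e3⟩ := h.inj e1
    have e4 : b = 0 := by linarith
    have e5 : e = 0 := by linarith
    rw [hx, e4, e5]
    exact cf_t_mem _ _
  have h1σ : σ (q * c q) = (q * c q)⁻¹ := by
    rw [map_mul, hsc, hσq, map_inv₀, mul_inv]
  obtain ⟨k, v1, hk⟩ := q_t ι h σ hσs hσt h10 h1σ h1L (PowAway.mul h1 (PowAway.map h1 c))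
  -- the part in `ℚ(st)`
  have h20 : q * (c q)⁻¹ ≠ 0 := mul_ne_zero hq0 (inv_ne_zero hcq0)
  have h2L : q * (c q)⁻¹ ∈ ℚ⟮s * t⟯ := by
    have e1 : σ (c (q * (c q)⁻¹)) = q * (c q)⁻¹ := by
      rw [map_mul, map_inv₀, hcc, map_mul, hsc, map_inv₀, hσq, map_inv₀, inv_inv, mul_comm]
    obtain ⟨a, b, c', e, hx⟩ := h.span (q * (c q)⁻¹)
    rw [hx, cmk, smk] at e1
    obtain ⟨-, e2, e3, -⟩ := h.inj e1
    have e4 : b = 0 := by linarith
    have e5 : c' = 0 := by linarith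
    rw [hx, e4, e5]
    exact cf_st_mem _ _
  have h2σ : σ (q * (c q)⁻¹) = (q * (c q)⁻¹)⁻¹ := by
    rw [map_mul, map_inv₀, hsc, hσq, map_inv₀, mul_inv]
  obtain ⟨z, v2, hz⟩ := q_st ι h he hv hv2 σ hσs hσt h20 h2σ h2L (PowAway.mul h1 (PowAway.inv (PowAway.map h1 c)))
  set m := classNumber ℚ⟮s * t⟯ with hm
  set Q : Kˣ := Units.mk0 q hq0 with hQ
  have hQ2 : Q ^ 2 = Units.mk0 _ h10 * Units.mk0 _ h20 := by
    apply Units.ext
    rw [Units.val_mul, Units.val_pow_eq_pow_val, Units.val_mk0, Units.val_mk0, Units.val_mk0]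
    field_simp
  have key : Q ^ (4 * m) = ztU h ^ ((k * m : ℕ) : ℤ) * epsU h he ^ z * (v1 ^ m * v2) ^ 3 := by
    have e1 : Q ^ (4 * m) = (Units.mk0 _ h10 ^ 2) ^ m * Units.mk0 _ h20 ^ (2 * m) := by
      rw [← pow_mul, ← mul_pow, ← hQ2, ← pow_mul]
      congr 1
      ring
    rw [e1, hk, hz, zpow_natCast, mul_pow, mul_pow, ← pow_mul, ← pow_mul, ← pow_mul,
      mul_comm 3 m]
    simp only [mul_comm, mul_left_comm, mul_assoc]
  have hQL : Q ∈ LCub ι := h2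
  have hL : ztU h ^ ((k * m : ℕ) : ℤ) * epsU h he ^ z ∈ LCub ι := by
    have e1 : ztU h ^ ((k * m : ℕ) : ℤ) * epsU h he ^ z =
        Q ^ (4 * m) * ((v1 ^ m * v2) ^ 3)⁻¹ := by
      rw [key, mul_inv_cancel_right]
    rw [e1]
    exact mul_mem (pow_mem hQL _) (inv_mem (Cub_le ι (cube_mem_Cub _)))
  obtain ⟨e1, e2⟩ := loc_indep ι h he hv hv2 hL
  refine mem_of_zpow (Cub K) cube_mem_Cub (n := ((4 * m : ℕ) : ℤ)) ?_ ?_
  · intro h3
    have h4 : 3 ∣ 4 * m := by exact_mod_cast h3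
    rcases (Nat.Prime.dvd_mul Nat.prime_three).1 h4 with h5 | h5
    · omega
    · exact hcl h5
  · rw [zpow_natCast, key]
    exact mul_mem (mul_mem (cube_coe _ _ e1) (cube_coe _ _ e2)) (cube_mem_Cub _)

end RT

open NumberField IntermediateField RT

/-- RIGIDITY at the places above `3` of `K = ℚ(s, t)`, `s² = -d`, `t² = -3`, `d ≡ 2 mod 3`. The
hypotheses: the class numbers of `ℚ(√-d)` and `ℚ(√(3d))` are prime to `3`; `(x₀ + y₀√-d)/2` has
norm `3^m`, `m` prime to `3`, and is no cube at the place where it is a unit (the congruences for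
`x₀`); `(u₀ + v₀√(3d))/2` is a unit of norm one which satisfies two congruences modulo `9`. -/
theorem rigidThree {K : Type*} [Field K] [NumberField K] {d : ℕ} {s t : K} (h : Biq K d s t)
    (ι : K →+* PadicAlgCl 3) {m : ℕ} (hm : ¬ 3 ∣ m)
    {x0 y0 : ℤ} (hα : x0 ^ 2 + d * y0 ^ 2 = 4 * 3 ^ m) (hx0 : ¬ (3 : ℤ) ∣ x0)
    (h9 : ¬ (9 : ℤ) ∣ x0 ^ 2 - 2 * 3 ^ m - 1) (hcl : ¬ 3 ∣ classNumber ℚ⟮s⟯)
    {u0 v0 : ℤ} (he : u0 ^ 2 - 3 * d * v0 ^ 2 = 4) (hv : ¬ (9 : ℤ) ∣ v0)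
    (hv2 : ¬ (9 : ℤ) ∣ 1 + d * v0 ^ 2) (hcl2 : ¬ 3 ∣ classNumber ℚ⟮s * t⟯) :
    Rigid 3 K ι := by
  intro a ha0 h1 h2
  obtain ⟨σ, hσs, hσt⟩ := h.exists_aut 1 (-1) (by norm_num) (by norm_num)
  replace hσs : σ s = s := by simpa using hσs
  replace hσt : σ t = -t := by simpa using hσt
  have ht := h.t2
  have smk : ∀ a b c e : ℚ, σ (cf s t a b c e) = cf s t a b (-c) (-e) := by
    intro a b c e
    rw [aut_mk σ (ε₁ := 1) (ε₂ := -1) (by simpa using hσs) (by simpa using hσt)]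
    simp
  have hσσ := sigma_sigma h σ hσs hσt
  have hsa0 : σ a ≠ 0 := by rwa [Ne, map_eq_zero]
  have hsA : PowAt 3 ι (σ a) := by
    obtain ⟨r, hr, hr2, hr1⟩ := exists_r ι h
    obtain ⟨a1, b1, c1, e1, rfl⟩ := h.span a
    rw [smk, powAt_iff ι h hr]
    rw [powAt_iff ι h hr] at h2
    obtain ⟨A, B, h3, h4⟩ := h2
    refine ⟨A, -B, by rw [← h3]; ring, ?_⟩
    push_cast
    linear_combination -h4
  have hn0 : a * σ a ≠ 0 := mul_ne_zero ha0 hsa0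
  have hnF : a * σ a ∈ ℚ⟮s⟯ := by
    obtain ⟨a', b', c', e', rfl⟩ := h.span a
    rw [smk]
    have e1 : cf s t a' b' c' e' * cf s t a' b' (-c') (-e') =
        cf s t a' b' 0 0 ^ 2 + 3 * cf s t c' e' 0 0 ^ 2 := by
      unfold cf
      push_cast
      linear_combination (-((c' : K) + e' * s) ^ 2) * ht
    rw [e1]
    exact add_mem (pow_mem (cf_s_mem _ _) 2)
      (mul_mem (ofNat_mem _ 3) (pow_mem (cf_s_mem _ _) 2))
  have hA : Units.mk0 a ha0 ∈ LCub ι := h2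
  have hSA : Units.mk0 (σ a) hsa0 ∈ LCub ι := hsA
  have hnL : PowAt 3 ι (a * σ a) := (mul_mem hA hSA : _ ∈ LCub ι)
  have hN : Units.mk0 (a * σ a) hn0 ∈ Cub K := by
    rw [mem_Cub_iff]
    exact cube_F ι h hm hα hx0 h9 hcl hnF hn0 (PowAway.mul h1 (PowAway.map h1 σ)) hnL
  have hq0 : a * (σ a)⁻¹ ≠ 0 := mul_ne_zero ha0 (inv_ne_zero hsa0)
  have hqL : PowAt 3 ι (a * (σ a)⁻¹) := by
    have e1 := mul_mem hA (inv_mem hSA)
    rw [mem_LCub] at e1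
    simpa using e1
  have hσq : σ (a * (σ a)⁻¹) = (a * (σ a)⁻¹)⁻¹ := by
    rw [map_mul, map_inv₀, hσσ, mul_inv, inv_inv, mul_comm]
  have hQ := cube_q ι h he hv hv2 hcl2 σ hσs hσt hq0 hσq (PowAway.mul h1 (PowAway.inv (PowAway.map h1 σ))) hqL
  have hA2 : Units.mk0 a ha0 ^ 2 = Units.mk0 (a * σ a) hn0 * Units.mk0 _ hq0 := by
    apply Units.ext
    rw [Units.val_mul, Units.val_pow_eq_pow_val, Units.val_mk0, Units.val_mk0, Units.val_mk0]
    field_simp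
  have hfin : Units.mk0 a ha0 ∈ Cub K := by
    refine mem_of_zpow (Cub K) cube_mem_Cub (n := (2 : ℤ)) (by norm_num) ?_
    have e1 : Units.mk0 a ha0 ^ (2 : ℤ) = Units.mk0 a ha0 ^ 2 := by
      exact_mod_cast zpow_natCast (Units.mk0 a ha0) 2
    rw [e1, hA2]
    exact mul_mem hN hQ
  rw [mem_Cub_iff] at hfin
  exact hfin

end BKGen
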