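import Mathlib

/-!
Genus theory: arithmetic of an imaginary quadratic field in which an odd prime splits.
-/

set_option linter.unusedSectionVars false

namespace BKGen.Genus

open Ideal NumberField IsDedekindDomain HeightOneSpectrum WithZero
open scoped Pointwise

section Residue

variable {K : Type*} [Field K] [NumberField K]

/-- The residue ring of an ideal of prime norm is generated by the integers. -/
theorem exists_int_sub_mem {p : ℕ} (hp : p.Prime) {Q : Ideal (𝓞 K)} (hQ : absNorm Q = p)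
    (x : 𝓞 K) : ∃ n : ℤ, x - n ∈ Q := by
  have := Fact.mk hp
  have hcard : Nat.card (𝓞 K ⧸ Q) = p := by rw [← hQ]; rfl
  have hfin : Finite (𝓞 K ⧸ Q) := Nat.finite_of_card_ne_zero (by rw [hcard]; exact hp.ne_zero)
  have hpz : (p : 𝓞 K ⧸ Q) = 0 := by
    have h1 : ((absNorm Q : ℕ) : 𝓞 K) ∈ Q := absNorm_mem Q
    rw [hQ] at h1
    rw [← map_natCast (Ideal.Quotient.mk Q)]
    exact Ideal.Quotient.eq_zero_iff_mem.mpr h1
  have hnt : Nontrivial (𝓞 K ⧸ Q) := by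
    rw [← Finite.one_lt_card_iff_nontrivial, hcard]
    exact hp.one_lt
  have hchar : CharP (𝓞 K ⧸ Q) p := by
    have h1 : ringChar (𝓞 K ⧸ Q) ∣ p := ringChar.dvd hpz
    rcases (Nat.dvd_prime hp).mp h1 with h | h
    · exact absurd h CharP.ringChar_ne_one
    · exact ringChar.eq_iff.mp h
  let f : ZMod p →+* 𝓞 K ⧸ Q := ZMod.castHom dvd_rfl _
  have hinj : Function.Injective f := f.injective
  have hbij : Function.Bijective f := by
    rw [Nat.bijective_iff_injective_and_card]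
    exact ⟨hinj, by rw [hcard, Nat.card_zmod]⟩
  obtain ⟨y, hy⟩ := hbij.2 (Ideal.Quotient.mk Q x)
  obtain ⟨n, rfl⟩ := ZMod.intCast_surjective y
  refine ⟨n, ?_⟩
  rw [← Ideal.Quotient.eq]
  rw [← hy, map_intCast, map_intCast]

theorem coprime_dvd_of_mem {p : ℕ} {Q : Ideal (𝓞 K)} {N : ℕ} (hp : p.Prime) (hN : ¬ p ∣ N)
    (hQp : ((p ^ 2 : ℕ) : 𝓞 K) ∈ Q) {t : 𝓞 K} (h : (N : 𝓞 K) * t ∈ Q) : t ∈ Q := by
  have hcop : IsCoprime ((N : ℕ) : ℤ) ((p ^ 2 : ℕ) : ℤ) :=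
    Nat.isCoprime_iff_coprime.mpr
      (((Nat.Prime.coprime_iff_not_dvd hp).mpr hN).symm.pow_right 2)
  obtain ⟨a, b, hab⟩ := hcop
  have h1 : ((a : 𝓞 K)) * (N : 𝓞 K) + (b : 𝓞 K) * ((p ^ 2 : ℕ) : 𝓞 K) = 1 := by
    exact_mod_cast congrArg (Int.cast : ℤ → 𝓞 K) hab
  have h2 : t = (a : 𝓞 K) * ((N : 𝓞 K) * t) + (b : 𝓞 K) * t * ((p ^ 2 : ℕ) : 𝓞 K) := by
    linear_combination (-t) * h1
  rw [h2]
  exact Q.add_mem (Q.mul_mem_left _ h) (Q.mul_mem_left _ hQp)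

theorem pow_sub_mem {P : Ideal (𝓞 K)} {t : 𝓞 K} (ht : t ∈ P) (n : ℕ) :
    (1 + t) ^ n - (1 + n * t) ∈ P ^ 2 := by
  induction n with
  | zero => simp
  | succ n ih =>
    have h1 : (1 + t) ^ (n + 1) - (1 + ((n + 1 : ℕ) : 𝓞 K) * t) =
        ((1 + t) ^ n - (1 + n * t)) * (1 + t) + n * (t * t) := by
      push_cast
      ring
    rw [h1]
    refine (P ^ 2).add_mem ((P ^ 2).mul_mem_right _ ih) ((P ^ 2).mul_mem_left _ ?_)
    rw [pow_two]
    exact Ideal.mul_mem_mul ht ht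

/-- Fermat's little theorem. -/
theorem pow_sub_one_mem {p : ℕ} (hp : p.Prime) {P : Ideal (𝓞 K)} [P.IsPrime]
    (hP : absNorm P = p) {x : 𝓞 K} (hx : x ∉ P) : x ^ (p - 1) - 1 ∈ P := by
  obtain ⟨n, hn⟩ := exists_int_sub_mem hp hP x
  have hpP : (p : 𝓞 K) ∈ P := by
    have := absNorm_mem P
    rwa [hP] at this
  have hpn : ¬ (p : ℤ) ∣ n := by
    rintro ⟨m, rfl⟩
    apply hx
    have h1 : x = (x - ((p : ℤ) * m : ℤ)) + (m : 𝓞 K) * p := by push_cast; ring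
    rw [h1]
    exact P.add_mem hn (P.mul_mem_left _ hpP)
  have h1 : n ^ (p - 1) ≡ 1 [ZMOD p] := by
    apply Int.ModEq.pow_card_sub_one_eq_one hp
    rw [isCoprime_comm]
    exact (Prime.coprime_iff_not_dvd (Nat.prime_iff_prime_int.mp hp)).mpr hpn
  obtain ⟨m, hm⟩ := h1.symm.dvd
  have h2 : (n : 𝓞 K) ^ (p - 1) - 1 = (p : 𝓞 K) * m := by exact_mod_cast congrArg (Int.cast : ℤ → 𝓞 K) hm
  have h3 : x ^ (p - 1) - (n : 𝓞 K) ^ (p - 1) ∈ P :=
    P.mem_of_dvd (sub_dvd_pow_sub_pow x (n : 𝓞 K) (p - 1)) hn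
  have h4 : x ^ (p - 1) - 1 = (x ^ (p - 1) - (n : 𝓞 K) ^ (p - 1)) + ((n : 𝓞 K) ^ (p - 1) - 1) := by
    ring
  rw [h4, h2]
  exact P.add_mem h3 (P.mul_mem_right _ hpP)

/-- A root of unity of odd order `p` in the field makes `p` ramified. -/
theorem p_mem_sq {p : ℕ} (hp : p.Prime) (hp2 : p ≠ 2) {P : Ideal (𝓞 K)} [hP : P.IsPrime]
    (hpP : (p : 𝓞 K) ∈ P) {z : 𝓞 K} (hz : z ^ p = 1) (hz1 : z ≠ 1) : (p : 𝓞 K) ∈ P ^ 2 := by
  have := Fact.mk hp
  set t : 𝓞 K := z - 1 with ht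
  have ht0 : t ≠ 0 := sub_ne_zero.mpr hz1
  have htP : t ∈ P := by
    obtain ⟨r, hr⟩ := exists_add_pow_prime_eq hp z (-1)
    have hodd : Odd p := hp.odd_of_ne_two hp2
    rw [hodd.neg_one_pow, hz] at hr
    have h1 : t ^ p ∈ P := by
      have h2 : t ^ p = (p : 𝓞 K) * (z * -1 * r) := by
        have : t = z + -1 := by rw [ht]; ring
        rw [this, hr]
        ring
      rw [h2]
      exact P.mul_mem_right _ hpP
    exact hP.mem_of_pow_mem p h1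
  have hsum : ∑ i ∈ Finset.range p, z ^ i = 0 := by
    have h1 := geom_sum_mul z p
    rw [hz, sub_self] at h1
    rcases mul_eq_zero.mp h1 with h | h
    · exact h
    · exact absurd h ht0
  have h2 : ∑ i ∈ Finset.range p, (z ^ i - (1 + i * t)) ∈ P ^ 2 := by
    refine Ideal.sum_mem _ fun i _ => ?_
    have h3 := pow_sub_mem htP i
    have : (1 : 𝓞 K) + t = z := by rw [ht]; ring
    rwa [this] at h3
  rw [Finset.sum_sub_distrib, hsum, Finset.sum_add_distrib, Finset.sum_const, Finset.card_range,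
    nsmul_eq_mul, mul_one, ← Finset.sum_mul, ← Nat.cast_sum, zero_sub] at h2
  have h3 : (∑ i ∈ Finset.range p, i : ℕ) = p * ((p - 1) / 2) := by
    have h4 := Finset.sum_range_id_mul_two p
    have hodd : Odd p := hp.odd_of_ne_two hp2
    obtain ⟨k, hk⟩ := hodd
    have h5 : (p - 1) / 2 = k := by omega
    have h6 : p - 1 = 2 * k := by omega
    rw [h5]
    rw [h6] at h4
    have : (∑ i ∈ Finset.range p, i) * 2 = (p * k) * 2 := by rw [h4]; ring
    exact Nat.eq_of_mul_eq_mul_right two_pos this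
  rw [h3] at h2
  have h5 : ((p * ((p - 1) / 2) : ℕ) : 𝓞 K) * t ∈ P ^ 2 := by
    have h6 : ((p * ((p - 1) / 2) : ℕ) : 𝓞 K) * t = (((p - 1) / 2 : ℕ) : 𝓞 K) * ((p : 𝓞 K) * t) := by
      rw [Nat.cast_mul]; ring
    rw [h6, pow_two]
    exact Ideal.mul_mem_left _ _ (Ideal.mul_mem_mul hpP htP)
  have h6 := (P ^ 2).neg_mem ((P ^ 2).add_mem h2 h5)
  have h7 : (p : 𝓞 K) = -(-((p : 𝓞 K) + ((p * ((p - 1) / 2) : ℕ) : 𝓞 K) * t) +
      ((p * ((p - 1) / 2) : ℕ) : 𝓞 K) * t) := by ring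
  rw [h7]
  exact h6

end Residue

section Quad

variable {F : Type*} [Field F] [NumberField F]

/-- The decomposition of a split prime in a quadratic field. -/
theorem split_norms (hF : Module.finrank ℚ F = 2) {p : ℕ} (hp : p.Prime) {P Pb : Ideal (𝓞 F)}
    [hP : P.IsPrime] [hPb : Pb.IsPrime] (hne : P ≠ Pb) (h1 : (p : 𝓞 F) ∈ P)
    (h2 : (p : 𝓞 F) ∈ Pb) : absNorm P = p ∧ absNorm Pb = p ∧ P * Pb = span {(p : 𝓞 F)} := by
  have hp0 : (p : 𝓞 F) ≠ 0 := by exact_mod_cast hp.ne_zero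
  have hP0 : P ≠ ⊥ := fun h => hp0 (by rwa [h, Ideal.mem_bot] at h1)
  have hPb0 : Pb ≠ ⊥ := fun h => hp0 (by rwa [h, Ideal.mem_bot] at h2)
  have hmax : P.IsMaximal := hP.isMaximal hP0
  have hmaxb : Pb.IsMaximal := hPb.isMaximal hPb0
  have hcop : IsCoprime P Pb := Ideal.isCoprime_of_isMaximal hne
  have hdvd : P * Pb ∣ span {(p : 𝓞 F)} :=
    hcop.mul_dvd (Ideal.dvd_span_singleton.mpr h1) (Ideal.dvd_span_singleton.mpr h2)
  obtain ⟨J, hJ⟩ := hdvd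
  have hn : absNorm (span {(p : 𝓞 F)}) = p ^ 2 := by
    rw [absNorm_span_natCast, RingOfIntegers.rank, hF]
  have hmul : absNorm P * absNorm Pb * absNorm J = p ^ 2 := by
    rw [← map_mul, ← map_mul, ← hJ, hn]
  have hdP : absNorm P ∣ p ^ 2 := ⟨absNorm Pb * absNorm J, by rw [← hmul]; ring⟩
  have hdPb : absNorm Pb ∣ p ^ 2 := ⟨absNorm P * absNorm J, by rw [← hmul]; ring⟩
  have hneP : absNorm P ≠ 1 := by
    rw [Ne, absNorm_eq_one_iff]; exact hP.ne_top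
  have hnePb : absNorm Pb ≠ 1 := by
    rw [Ne, absNorm_eq_one_iff]; exact hPb.ne_top
  obtain ⟨i, hi, hi2⟩ := (Nat.dvd_prime_pow hp).mp hdP
  obtain ⟨j, hj, hj2⟩ := (Nat.dvd_prime_pow hp).mp hdPb
  have hi0 : i ≠ 0 := by rintro rfl; exact hneP (by rw [hi2, pow_zero])
  have hj0 : j ≠ 0 := by rintro rfl; exact hnePb (by rw [hj2, pow_zero])
  have hdij : p ^ (i + j) ∣ p ^ 2 := ⟨absNorm J, by rw [← hmul, hi2, hj2, pow_add]⟩
  have hij : i + j ≤ 2 := (Nat.pow_dvd_pow_iff_le_right hp.one_lt).mp hdij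
  have hi1 : i = 1 := by omega
  have hj1 : j = 1 := by omega
  rw [hi1, pow_one] at hi2
  rw [hj1, pow_one] at hj2
  refine ⟨hi2, hj2, ?_⟩
  rw [hi2, hj2] at hmul
  have hJ1 : absNorm J = 1 := by
    have : p * p * absNorm J = p * p * 1 := by rw [hmul]; ring
    exact Nat.eq_of_mul_eq_mul_left (Nat.mul_pos hp.pos hp.pos) this
  rw [absNorm_eq_one_iff] at hJ1
  rw [hJ, hJ1, Ideal.mul_top]

theorem not_mem_sq {p : ℕ} {P Pb : Ideal (𝓞 F)} [hP : P.IsPrime] [hPb : Pb.IsPrime] (hne : P ≠ Pb)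
    (hP0 : P ≠ ⊥) (hPb0 : Pb ≠ ⊥) (h : P * Pb = span {(p : 𝓞 F)}) : (p : 𝓞 F) ∉ P ^ 2 := by
  intro hmem
  rw [← Ideal.span_singleton_le_iff_mem, ← h, ← Ideal.dvd_iff_le, pow_two] at hmem
  have h1 : P ∣ Pb := (mul_dvd_mul_iff_left hP0).mp hmem
  have h2 : Pb ≤ P := Ideal.dvd_iff_le.mp h1
  have hmaxb : Pb.IsMaximal := hPb.isMaximal hPb0
  exact hne (hmaxb.eq_of_le hP.ne_top h2).symm

theorem valuation_eq {p : ℕ} (u : HeightOneSpectrum (𝓞 F)) (h1 : (p : 𝓞 F) ∈ u.asIdeal)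
    (h2 : (p : 𝓞 F) ∉ u.asIdeal ^ 2) : u.valuation F (p : F) = exp (-1) := by
  have h3 : u.valuation F (p : F) = u.intValuation (p : 𝓞 F) := by
    have h0 : (p : F) = algebraMap (𝓞 F) F (p : 𝓞 F) := (map_natCast _ _).symm
    rw [h0, valuation_of_algebraMap]
  rw [h3]
  have h4 : u.intValuation (p : 𝓞 F) ≤ exp (-(1 : ℕ) : ℤ) := by
    rw [intValuation_le_pow_iff_mem, pow_one]; exact h1
  have h5 : ¬ u.intValuation (p : 𝓞 F) ≤ exp (-(2 : ℕ) : ℤ) := by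
    rw [intValuation_le_pow_iff_mem]; exact h2
  have h6 : u.intValuation (p : 𝓞 F) ≠ 0 := by
    intro h
    rw [h] at h5
    exact h5 zero_le
  rw [← exp_log h6] at h4 h5 ⊢
  rw [exp_le_exp] at h4 h5
  congr 1
  push_cast at h4 h5
  omega

/-- The units of an imaginary quadratic field have order prime to `p`. -/
theorem units_pow [IsTotallyComplex F] (hF : Module.finrank ℚ F = 2) (u : (𝓞 F)ˣ) :
    u ^ Units.torsionOrder F = 1 := by
  have hrank : Units.rank F = 0 := by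
    have h1 := InfinitePlace.card_add_two_mul_card_eq_rank F
    have h2 := InfinitePlace.card_eq_nrRealPlaces_add_nrComplexPlaces F
    have h3 := IsTotallyComplex.nrRealPlaces_eq_zero F
    rw [Units.rank, h2]
    rw [hF] at h1
    omega
  obtain ⟨⟨ζ, e⟩, hζ, -⟩ := Units.exist_unique_eq_mul_prod F u
  have h4 : u = ζ := by
    rw [hζ]
    have : IsEmpty (Fin (Units.rank F)) := by rw [hrank]; infer_instance
    simp
  rw [h4, Units.torsionOrder]
  have : ζ ^ Nat.card (Units.torsion F) = 1 := pow_card_eq_one'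
  exact congrArg Subtype.val this

theorem torsionOrder_not_dvd {p : ℕ} (hp : p.Prime) (hp2 : p ≠ 2) {P : Ideal (𝓞 F)}
    [hP : P.IsPrime] (hpP : (p : 𝓞 F) ∈ P) (h : (p : 𝓞 F) ∉ P ^ 2) :
    ¬ p ∣ Units.torsionOrder F := by
  intro hd
  have := Fact.mk hp
  obtain ⟨ζ, hζ⟩ := exists_prime_orderOf_dvd_card' (G := Units.torsion F) p hd
  apply h
  have h1 : ζ ^ p = 1 := by rw [← hζ, pow_orderOf_eq_one]
  have h2 : ζ ≠ 1 := by
    rintro rfl
    rw [orderOf_one] at hζ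
    exact hp.one_lt.ne hζ
  apply p_mem_sq hp hp2 hpP (z := ((ζ : (𝓞 F)ˣ) : 𝓞 F))
  · have h3 := congrArg (fun x : Units.torsion F => ((x : (𝓞 F)ˣ) : 𝓞 F)) h1
    simpa using h3
  · intro h3
    apply h2
    apply Subtype.ext
    apply Units.ext
    exact h3

end Quad

end BKGen.Genus
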