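import Pool.Agent.Lib.MP_7c08ba_nt.Gen.GenusStep

/-!
Genus theory: the unit of norm one.
-/

set_option linter.unusedSectionVars false

namespace BKGen.Genus

open Ideal NumberField Finset
open scoped Pointwise

variable {F K : Type*} [Field F] [NumberField F] [Field K] [NumberField K] [Algebra F K]
  [IsGalois F K]

/-- the action on the units -/
noncomputable def unitHom (σ : Gal(K/F)) : (𝓞 K)ˣ →* (𝓞 K)ˣ :=
  Units.map (MulSemiringAction.toRingHom Gal(K/F) (𝓞 K) σ).toMonoidHom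

theorem unitHom_val (σ : Gal(K/F)) (u : (𝓞 K)ˣ) : (unitHom σ u : 𝓞 K) = σ • (u : 𝓞 K) := rfl

/-- the action on the additive group of units -/
noncomputable def unitEnd (σ : Gal(K/F)) : AddMonoid.End (Additive (𝓞 K)ˣ) :=
  MonoidHom.toAdditive (unitHom σ)

theorem unitEnd_val (σ : Gal(K/F)) (u : Additive (𝓞 K)ˣ) :
    ((unitEnd σ u).toMul : 𝓞 K) = σ • (u.toMul : 𝓞 K) := rfl

theorem unitEnd_pow_val (σ : Gal(K/F)) (i : ℕ) (u : Additive (𝓞 K)ˣ) :
    (((unitEnd σ ^ i) u).toMul : 𝓞 K) = σ ^ i • (u.toMul : 𝓞 K) := by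
  induction i generalizing u with
  | zero => rw [pow_zero, pow_zero, one_smul]; rfl
  | succ i ih =>
    rw [pow_succ, pow_succ]
    change (((unitEnd σ ^ i) (unitEnd σ u)).toMul : 𝓞 K) = _
    rw [ih, unitEnd_val, mul_smul]

theorem sum_val (σ : Gal(K/F)) (n : ℕ) (u : Additive (𝓞 K)ˣ) :
    ((∑ i ∈ range n, (unitEnd σ ^ i) u).toMul : 𝓞 K) = ∏ i ∈ range n, σ ^ i • (u.toMul : 𝓞 K) := by
  rw [toMul_sum, Units.coe_prod]
  exact prod_congr rfl fun i _ => unitEnd_pow_val σ i u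

omit [NumberField F] [Algebra F K] [IsGalois F K] [Field F] in
theorem exists_functional (K : Type*) [Field K] [NumberField K] (hrank : 0 < Units.rank K) :
    ∃ f : Additive (𝓞 K)ˣ →+ ℤ, ∃ e, f e = 1 := by
  classical
  let g : Additive (𝓞 K)ˣ →+ Units.unitLattice K :=
    { toFun := fun x => ⟨Units.logEmbedding K x, Submodule.mem_map_of_mem trivial⟩
      map_zero' := by
        apply Subtype.ext
        exact map_zero _
      map_add' := fun x y => by
        apply Subtype.ext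
        exact map_add _ _ _ }
  refine ⟨(((Units.basisUnitLattice K).coord ⟨0, hrank⟩).toAddMonoidHom).comp g, ?_⟩
  obtain ⟨e, -, he⟩ := (Units.basisUnitLattice K ⟨0, hrank⟩).2
  refine ⟨e, ?_⟩
  change (Units.basisUnitLattice K).coord ⟨0, hrank⟩ (g e) = 1
  have h1 : g e = Units.basisUnitLattice K ⟨0, hrank⟩ := Subtype.ext he
  rw [h1, Module.Basis.coord_apply, Module.Basis.repr_self, Finsupp.single_eq_same]

/-- A unit of norm one which is not a quotient. -/
theorem exists_unit {p : ℕ} (hp : p.Prime) (hp2 : p ≠ 2) (hcard : Nat.card Gal(K/F) = p)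
    {σ : Gal(K/F)} (hσ : σ ≠ 1) {w : ℕ} (hw : ¬ p ∣ w) (hu : ∀ u : (𝓞 F)ˣ, u ^ w = 1)
    (hrank : 0 < Units.rank K) :
    ∃ x : (𝓞 K)ˣ, ∏ g : Gal(K/F), g • (x : 𝓞 K) = 1 ∧
      ∀ (u : (𝓞 K)ˣ) (m : ℕ), ¬ p ∣ m → σ • (u : 𝓞 K) ≠ (x : 𝓞 K) ^ m * u := by
  obtain ⟨f, hf⟩ := exists_functional K hrank
  have hS : unitEnd σ ^ p = 1 := by
    ext u
    change (((unitEnd σ ^ p) (Additive.ofMul u)).toMul : K) = _
    have := unitEnd_pow_val σ p (Additive.ofMul u)
    rw [pow_card_eq hp hcard hσ, one_smul] at this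
    rw [this]
    rfl
  obtain ⟨x, hx, hxu⟩ := exists_norm_zero hp hp2 (unitEnd σ) hS hw (by
    intro x
    have h1 : ((∑ i ∈ range p, (unitEnd σ ^ i) x).toMul) ^ w = 1 := by
      apply inv_unit (G := Gal(K/F)) (𝓞 F) hu
      intro g
      rw [sum_val, ← prod_eq_prod_range hp hcard hσ (fun g => g • (x.toMul : 𝓞 K)), smul_prod']
      simp only [smul_smul]
      exact Fintype.prod_equiv (Equiv.mulLeft g) _ _ fun g => rfl
    apply Additive.toMul.injective
    rw [toMul_nsmul, h1, toMul_zero]) f hf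
  refine ⟨x.toMul, ?_, ?_⟩
  · rw [prod_eq_prod_range hp hcard hσ (fun g => g • (x.toMul : 𝓞 K)), ← sum_val, hx]
    rfl
  · intro u m hm h
    apply hxu (Additive.ofMul u) m (by exact_mod_cast hm)
    apply Additive.toMul.injective
    rw [natCast_zsmul, toMul_nsmul, toMul_sub, eq_div_iff_mul_eq']
    apply Units.ext
    rw [Units.val_mul, Units.val_pow_eq_pow_val, unitEnd_val]
    exact h.symm

end BKGen.Genus
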