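import Pool.Agent.Lib.MP_7c08ba_nt.Gen.GenusData
import Pool.Agent.Lib.MP_7c08ba_nt.Gen.GenusUnitK
import Pool.Agent.Lib.MP_7c08ba_nt.Gen.GenusQuad

/-!
Genus theory: an imaginary quadratic field in which the odd prime `p` splits as `P * Pb`, with class
number prime to `p` and with `Pb ^ h = (α)`, `α ^ (p - 1) ≢ 1 mod P ^ 2`, has no cyclic extension of
degree `p` which is unramified outside `p` and in which `Pb` splits.
-/

set_option linter.unusedSectionVars false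

namespace BKGen.Genus

open Ideal NumberField IsDedekindDomain HeightOneSpectrum WithZero
open scoped Pointwise

section Hilbert

variable {F K : Type} [Field F] [NumberField F] [Field K] [NumberField K] [Algebra F K]
  [IsGalois F K]

/-- Hilbert 90. -/
theorem h90 {p : ℕ} (hp : p.Prime) (hcard : Nat.card Gal(K/F) = p) {σ : Gal(K/F)} (hσ : σ ≠ 1)
    (a b : 𝓞 K) (ha : a ≠ 0) (hb : b ≠ 0)
    (hab : ∏ g : Gal(K/F), g • a = ∏ g : Gal(K/F), g • b) :
    ∃ ε : 𝓞 K, ε ≠ 0 ∧ a * σ • ε = b * ε := by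
  have hcyc : IsCyclic Gal(K/F) := by
    have := Fact.mk hp
    exact isCyclic_of_prime_card hcard
  have ha' : (a : K) ≠ 0 := RingOfIntegers.coe_ne_zero_iff.mpr ha
  have hb' : (b : K) ≠ 0 := RingOfIntegers.coe_ne_zero_iff.mpr hb
  have hprod : ∀ x : 𝓞 K, ((∏ g : Gal(K/F), g • x : 𝓞 K) : K) = ∏ g : Gal(K/F), g (x : K) := by
    intro x
    rw [RingOfIntegers.val, map_prod]
    rfl
  have hx : Algebra.norm F ((a : K) / b) = 1 := by
    apply (algebraMap F K).injective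
    rw [Algebra.norm_eq_prod_automorphisms, map_one]
    simp only [map_div₀]
    rw [Finset.prod_div_distrib, ← hprod, ← hprod, hab]
    apply div_self
    rw [hprod]
    exact Finset.prod_ne_zero_iff.mpr fun g _ => by
      rw [Ne, map_eq_zero]; exact hb'
  obtain ⟨y, hy⟩ := groupCohomology.exists_div_of_norm_eq_one (g := σ)
    (fun x => mem_zpowers' hp hcard hσ x) hx
  have hy0 : (y : K) ≠ 0 := y.ne_zero
  have hσy0 : σ (y : K) ≠ 0 := by rw [Ne, map_eq_zero]; exact hy0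
  have halg : IsAlgebraic ℤ (y : K) :=
    (IsFractionRing.isAlgebraic_iff ℤ ℚ K).mpr (Algebra.IsAlgebraic.isAlgebraic (y : K))
  obtain ⟨n, hn0, hn⟩ := halg.exists_integral_multiple
  refine ⟨⟨n • (y : K), hn⟩, ?_, ?_⟩
  · intro h
    have h1 : n • (y : K) = 0 := congrArg (fun z : 𝓞 K => (z : K)) h
    rw [zsmul_eq_mul, mul_eq_zero] at h1
    rcases h1 with h1 | h1
    · exact hn0 (by exact_mod_cast h1)
    · exact hy0 h1
  · apply RingOfIntegers.ext
    change (a : K) * σ (n • (y : K)) = (b : K) * (n • (y : K))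
    rw [map_zsmul, zsmul_eq_mul, zsmul_eq_mul]
    have h2 : (y : K) * b = a * σ (y : K) := by
      rw [div_eq_div_iff hσy0 hb'] at hy
      exact hy
    linear_combination (-(n : K)) * h2

end Hilbert

section Unram

variable {F K : Type*} [Field F] [NumberField F] [Field K] [NumberField K] [Algebra F K]
  [IsGalois F K]

/-- A prime on which the generator acts nontrivially modulo the prime is unramified. -/
theorem ramificationIdx_eq_one {p : ℕ} (hp : p.Prime) (hcard : Nat.card Gal(K/F) = p)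
    {σ : Gal(K/F)} {q : Ideal (𝓞 K)} (hq : q.IsPrime) (hq0 : q ≠ ⊥)
    (h : ∃ x : 𝓞 K, σ • x - x ∉ q) : q.ramificationIdx (𝓞 F) = 1 := by
  obtain ⟨hmax, hbot⟩ := isMaximal_under (R := 𝓞 F) hq hq0
  have hlo : q.LiesOver (q.under (𝓞 F)) := ⟨rfl⟩
  rw [← ramificationIdxIn_eq_ramificationIdx (q.under (𝓞 F)) q Gal(K/F),
    ← card_inertia_eq_ramificationIdxIn (G := Gal(K/F)) (q.under (𝓞 F)) q]
  have htriv : q.inertia Gal(K/F) = ⊥ := by
    rw [Subgroup.eq_bot_iff_forall]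
    intro τ hτ
    by_contra hτ1
    obtain ⟨x, hx⟩ := h
    have h1 : σ ∈ Subgroup.zpowers τ := mem_zpowers' hp hcard hτ1 σ
    have h2 : Subgroup.zpowers τ ≤ q.inertia Gal(K/F) := by
      rw [Subgroup.zpowers_le]; exact hτ
    exact hx (h2 h1 x)
  rw [htriv, Subgroup.card_bot]

end Unram

section Main

variable {F K : Type} [Field F] [NumberField F] [Field K] [NumberField K] [Algebra F K]
  [IsGalois F K]

/-- The genus theory lemma. -/
theorem no_split_ext [IsTotallyComplex F] (hF : Module.finrank ℚ F = 2) {p : ℕ} (hp : p.Prime)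
    (hp2 : p ≠ 2) {P Pb : Ideal (𝓞 F)} [hP : P.IsPrime] [hPb : Pb.IsPrime] (hne : P ≠ Pb)
    (hpP : (p : 𝓞 F) ∈ P) (hpPb : (p : 𝓞 F) ∈ Pb)
    (hcl : ¬ p ∣ Nat.card (ClassGroup (𝓞 F))) {h : ℕ} {α : 𝓞 F} (hα : Pb ^ h = span {α})
    (hα2 : α ^ (p - 1) - 1 ∉ P ^ 2)
    (hcard : Nat.card Gal(K/F) = p) {σ : Gal(K/F)} (hσ : σ ≠ 1)
    (hunr : ∀ q : Ideal (𝓞 K), q.IsPrime → q ≠ ⊥ → (p : 𝓞 K) ∉ q → q.ramificationIdx (𝓞 F) = 1)
    {q : Ideal (𝓞 K)} (hq : q.IsPrime) (hqPb : q.under (𝓞 F) = Pb) (hqσ : σ • q ≠ q) : False := by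
  classical
  obtain ⟨hNP, hNPb, hmul⟩ := split_norms hF hp hne hpP hpPb
  have hp0 : (p : 𝓞 F) ≠ 0 := by exact_mod_cast hp.ne_zero
  have hP0 : P ≠ ⊥ := fun h => hp0 (by rwa [h, Ideal.mem_bot] at hpP)
  have hPb0 : Pb ≠ ⊥ := fun h => hp0 (by rwa [h, Ideal.mem_bot] at hpPb)
  have hmaxP : P.IsMaximal := hP.isMaximal hP0
  have hmaxPb : Pb.IsMaximal := hPb.isMaximal hPb0
  have hpsq : (p : 𝓞 F) ∉ P ^ 2 := not_mem_sq hne hP0 hPb0 hmul
  have hw := torsionOrder_not_dvd hp hp2 hpP hpsq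
  have hu := units_pow hF
  have hq0 : q ≠ ⊥ := by
    rintro rfl
    apply hPb0
    rw [← hqPb, Ideal.under_bot]
  -- primes above `Pb` are unramified
  have hover : ∀ q' : Ideal (𝓞 K), q'.IsPrime → q' ≠ ⊥ → q'.under (𝓞 F) = Pb →
      q'.ramificationIdx (𝓞 F) = 1 := by
    intro q' hq' hq'0 hunder
    by_contra he
    obtain ⟨h1, -⟩ := ramified (R := 𝓞 F) (G := Gal(K/F)) hp hcard hq' hq'0 he
    have hlo : q'.LiesOver Pb := ⟨hunder.symm⟩
    have hlo' : q.LiesOver Pb := ⟨hqPb.symm⟩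
    obtain ⟨g, hg⟩ := exists_smul_eq_of_isGaloisGroup Pb q' q Gal(K/F)
    rw [h1 g] at hg
    rw [← hg] at hqσ
    exact hqσ (h1 σ)
  have hram' : ∀ q' : Ideal (𝓞 K), q'.IsPrime → q' ≠ ⊥ → q'.ramificationIdx (𝓞 F) ≠ 1 →
      q'.under (𝓞 F) = P := by
    intro q' hq' hq'0 he
    have hpq : (p : 𝓞 K) ∈ q' := by
      by_contra hcon
      exact he (hunr q' hq' hq'0 hcon)
    have hpu : (p : 𝓞 F) ∈ q'.under (𝓞 F) := by
      rw [Ideal.mem_comap, map_natCast]; exact hpq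
    have hprime : (q'.under (𝓞 F)).IsPrime := inferInstance
    rw [← Ideal.span_singleton_le_iff_mem, ← hmul] at hpu
    rcases hprime.mul_le.mp hpu with h1 | h1
    · exact (hmaxP.eq_of_le hprime.ne_top h1).symm
    · exact absurd (hover q' hq' hq'0 (hmaxPb.eq_of_le hprime.ne_top h1).symm) he
  -- choose the ramified prime
  have hex : ∃ Q : Ideal (𝓞 K), Hyp (𝓞 F) p σ (Units.torsionOrder F) Q ∧ (Q = ⊤ ∨
      (Q.IsPrime ∧ Q.ramificationIdx (𝓞 F) = p ∧ Q.under (𝓞 F) = P ∧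
        Q.inertiaDeg (𝓞 F) = 1)) := by
    by_cases hall : ∃ Q : Ideal (𝓞 K), Q.IsPrime ∧ Q ≠ ⊥ ∧ Q.ramificationIdx (𝓞 F) ≠ 1
    · obtain ⟨Q, hQp, hQ0, hQe⟩ := hall
      obtain ⟨h1, h2, h3, h4⟩ := ramified (R := 𝓞 F) (G := Gal(K/F)) hp hcard hQp hQ0 hQe
      have hQu := hram' Q hQp hQ0 hQe
      refine ⟨Q, ⟨hp, hcard, hσ, h90 hp hcard hσ, hw, hu, hcl, h1, hQ0, ?_, ?_⟩,
        Or.inr ⟨hQp, h3, hQu, h4⟩⟩
      · intro q' hq' hq'0
        by_cases he : q'.ramificationIdx (𝓞 F) = 1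
        · exact Or.inl he
        · right
          have h5 : q'.under (𝓞 F) = Q.under (𝓞 F) := by rw [hram' q' hq' hq'0 he, hQu]
          have h6 : (q'.under (𝓞 F)).map (algebraMap (𝓞 F) (𝓞 K)) ≤ q' := Ideal.map_comap_le
          rw [h5, h2] at h6
          have h7 : Q ≤ q' := hq'.le_of_pow_le h6
          exact ((hQp.isMaximal hQ0).eq_of_le hq'.ne_top h7).symm
      · right
        refine ⟨P, hP0, ?_⟩
        rw [← hQu, h2]
    · push Not at hall
      refine ⟨⊤, ⟨hp, hcard, hσ, h90 hp hcard hσ, hw, hu, hcl, ?_, top_ne_bot, ?_, Or.inl rfl⟩,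
        Or.inl rfl⟩
      · intro g
        rw [← Ideal.one_eq_top, smul_one]
      · intro q' hq' hq'0
        exact Or.inl (hall q' hq' hq'0)
  obtain ⟨Q, H, hQalt⟩ := hex
  -- the unit
  have hdeg : Module.finrank F K = p := by
    rw [← IsGalois.card_aut_eq_finrank F K, hcard]
  have hrank : 0 < Units.rank K := by
    have h1 := InfinitePlace.card_add_two_mul_card_eq_rank K
    have h2 := InfinitePlace.card_eq_nrRealPlaces_add_nrComplexPlaces K
    have h3 : Module.finrank ℚ K = 2 * p := by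
      rw [← Module.finrank_mul_finrank ℚ F K, hF, hdeg]
    have h4 : 3 ≤ p := by
      have := hp.two_le
      omega
    rw [Units.rank, h2]
    omega
  obtain ⟨x, hx1, hxu⟩ := exists_unit hp hp2 hcard hσ hw hu hrank
  obtain ⟨hQtop, hQcl⟩ := H.step_one x hx1 hxu
  have hnS := H.step_two hQcl
  obtain ⟨β, c, hβQ, hc, hcα⟩ := H.step_three hQtop hq hq0 hqσ (h := h) (α := α) (by rw [hqPb, hα])
  obtain ⟨hQp, hQe, hQu, hQf⟩ : Q.IsPrime ∧ Q.ramificationIdx (𝓞 F) = p ∧ Q.under (𝓞 F) = P ∧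
      Q.inertiaDeg (𝓞 F) = 1 := by
    rcases hQalt with h | h
    · exact absurd h hQtop
    · exact h
  -- the local step
  let v : HeightOneSpectrum (𝓞 K) := ⟨Q, hQp, H.hQ0⟩
  let u : HeightOneSpectrum (𝓞 F) := ⟨P, hP, hP0⟩
  have hlo : v.asIdeal.LiesOver u.asIdeal := ⟨hQu.symm⟩
  have hlo' : Q.LiesOver P := ⟨hQu.symm⟩
  have hQnorm : absNorm Q = p := by
    have hQmax : Q.IsMaximal := hQp.isMaximal H.hQ0
    rw [← absNorm_relNorm (𝓞 F) (𝓞 K) Q, relNorm_eq_pow_of_isMaximal Q P, hQf, pow_one, hNP]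
  obtain ⟨π, D⟩ := locData hp hcard hσ v u (H.hQ σ) hQe (exists_int_sub_mem hp hQnorm)
    (valuation_eq u hpP hpsq)
  have hβv : v.valuation K (β : K) = 1 := by
    rw [valuation_eq_one_iff_notMem]; exact hβQ
  have hnm := D.nm_unit hp hp2 hβv
  have hcnm : algebraMap F K (c : F) = LocData.nm p (σ : K ≃+* K) (β : K) := by
    have h1 := congrArg (fun z : 𝓞 K => (z : K)) hc
    rw [LocData.nm]
    simp only [iterate_eq]
    rw [prod_eq_prod_range hp hcard hσ (fun g => g • β)] at h1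
    refine Eq.trans ?_ (h1.trans ?_)
    · rfl
    · simp only [RingOfIntegers.val, map_prod]
      rfl
  have hcsq : c ^ (p - 1) - 1 ∈ P ^ 2 := by
    rw [← hcnm] at hnm
    have h1 : algebraMap F K (c : F) ^ (p - 1) - 1 = algebraMap F K ((c : F) ^ (p - 1) - 1) := by
      rw [map_sub, map_pow, map_one]
    rw [h1, mem_M, ← valuation_liesOver K u v,
      ramificationIdx'_eq_ramificationIdx u.asIdeal v.asIdeal u.ne_bot, hQe] at hnm
    have h2 : (exp (-(2 * p : ℤ)) : ℤᵐ⁰) = exp (-(2 : ℤ)) ^ p := by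
      rw [← exp_nsmul]
      congr 1
      simp
      ring
    rw [h2] at hnm
    have h3 : u.valuation F ((c : F) ^ (p - 1) - 1) ≤ exp (-(2 : ℤ)) :=
      (pow_le_pow_iff_left₀ zero_le zero_le hp.ne_zero).mp hnm
    have h4 : ((c : F) ^ (p - 1) - 1) = algebraMap (𝓞 F) F (c ^ (p - 1) - 1) := by
      rw [map_sub, map_pow, map_one]
    rw [h4, valuation_of_algebraMap] at h3
    exact (intValuation_le_pow_iff_mem u _ 2).mp h3
  -- conclusion
  have hαP : α ∉ P := by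
    intro h1
    rw [← Ideal.span_singleton_le_iff_mem, ← hα] at h1
    have h2 : Pb ≤ P := hP.le_of_pow_le h1
    exact hne (hmaxPb.eq_of_le hP.ne_top h2).symm
  set t : 𝓞 F := α ^ (p - 1) - 1 with ht
  have htP : t ∈ P := pow_sub_one_mem hp hNP hαP
  set N := Nat.card (ClassGroup (𝓞 K)) * Units.torsionOrder F with hN
  have hNp : ¬ p ∣ N := by
    intro hd
    rcases hp.dvd_mul.mp hd with h1 | h1
    · exact hnS h1
    · exact hw h1
  have h1 : (1 + t) ^ N - 1 ∈ P ^ 2 := by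
    have h2 : (1 + t) ^ N - 1 = (c ^ (p - 1)) ^ (h * Units.torsionOrder F) - 1 ^ (h * Units.torsionOrder F) := by
      have h3 : 1 + t = α ^ (p - 1) := by rw [ht]; ring
      rw [h3, ← pow_mul, mul_comm, pow_mul, ← hcα, ← pow_mul, ← pow_mul, one_pow]
      ring
    rw [h2]
    exact (P ^ 2).mem_of_dvd (sub_dvd_pow_sub_pow _ _ _) hcsq
  have h2 := pow_sub_mem htP N
  have h3 : (N : 𝓞 F) * t ∈ P ^ 2 := by
    have h4 := (P ^ 2).sub_mem h1 h2
    have h5 : (1 + t) ^ N - 1 - ((1 + t) ^ N - (1 + (N : 𝓞 F) * t)) = (N : 𝓞 F) * t := by ring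
    rwa [h5] at h4
  apply hα2
  refine coprime_dvd_of_mem hp hNp ?_ h3
  rw [Nat.cast_pow]
  exact Ideal.pow_mem_pow hpP 2

end Main

end BKGen.Genus
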