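import Pool.Agent.Lib.MP_7c08ba_nt.Gen.Iso
import Pool.Agent.Lib.MP_7c08ba_nt.Gen.SUnits

/-!
Counting classes modulo `p`-th powers: over a totally complex rigid field with at least two places
above `p`, whose completion has degree at most half the degree of the field, all classes of the
completions of all layers are global.
-/

open Polynomial NumberField

namespace BKGen

open SUnits Module

/-- The upper bound for the number of classes modulo `p`-th powers of a local field. -/
def LocalBound (p : ℕ) [Fact p.Prime] : Prop :=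
  ∀ E : IntermediateField ℚ_[p] (PadicAlgCl p), FiniteDimensional ℚ_[p] E →
    (∃ ζ ∈ E, IsPrimitiveRoot ζ p) →
    Nat.card (Eˣ ⧸ (powMonoidHom p : Eˣ →* Eˣ).range) = p ^ (finrank ℚ_[p] E + 2)

/-- Local-global principle, with an upper bound for the number of local classes. -/
theorem local_global_le {K : Type*} [Field K] [NumberField K] {p : ℕ} [Fact p.Prime] {ζ : K}
    (hζ : IsPrimitiveRoot ζ p) (hK : IsEmpty (K →+* ℝ)) {j₁ j₂ : K →+* PadicAlgCl p} {x : K}
    (h12 : ‖j₁ x‖ ≠ ‖j₂ x‖) (ι : K →+* PadicAlgCl p) (hR : Rigid p K ι) {d : ℕ}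
    (hd : 2 * d ≤ finrank ℚ K)
    (hc : Nat.card ((comp p ι)ˣ ⧸ (powMonoidHom p : (comp p ι)ˣ →* (comp p ι)ˣ).range) =
      p ^ (d + 2)) : LocGlob p K ι := by
  classical
  have hp1 : 1 < p := (Fact.out : p.Prime).one_lt
  have hfin := finite_Sp K p (Fact.out : p.Prime).ne_zero
  have hmem : ∀ y : K, ι y ∈ comp p ι := fun y =>
    IntermediateField.subset_adjoin _ _ ⟨y, rfl⟩
  have hcard := card_sunits K p hζ (Sp K p)
  have hs2 : 2 ≤ Nat.card (Sp K p) := two_le_card_Sp K p h12
  have hrank := rank_of_isEmpty K hK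
  have hmin : d = finrank ℚ K / 2 := by
    -- the map of the classes
    let f₀ : K →+* comp p ι := ι.codRestrict (comp p ι).toSubfield hmem
    let f₁ : (Sp K p).unit K →* (comp p ι)ˣ :=
      (Units.map (f₀ : K →* comp p ι)).comp ((Sp K p).unit K).subtype
    have hf₁ : ∀ y : (Sp K p).unit K,
        ((f₁ y : (comp p ι)ˣ) : PadicAlgCl p) = ι ((y : Kˣ) : K) := fun y => rfl
    let f : ((Sp K p).unit K) ⧸ (powMonoidHom p : (Sp K p).unit K →* (Sp K p).unit K).range →*
        (comp p ι)ˣ ⧸ (powMonoidHom p : (comp p ι)ˣ →* (comp p ι)ˣ).range :=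
      QuotientGroup.map _ _ f₁ (by
        rintro _ ⟨y, rfl⟩
        exact ⟨f₁ y, by simp⟩)
    have hinj : Function.Injective f := by
      rw [injective_iff_map_eq_one]
      intro z
      obtain ⟨y, rfl⟩ := QuotientGroup.mk_surjective z
      intro h
      rw [QuotientGroup.map_mk, QuotientGroup.eq_one_iff] at h
      obtain ⟨g, hg⟩ := h
      rw [QuotientGroup.eq_one_iff]
      have hg' : ((g : comp p ι) : PadicAlgCl p) ^ p = ι ((y : Kˣ) : K) := by
        have := congrArg (fun u : (comp p ι)ˣ => ((u : comp p ι) : PadicAlgCl p)) hg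
        rw [← hf₁]
        simpa using this
      obtain ⟨b, hb⟩ := hR ((y : Kˣ) : K) (Units.ne_zero _) (powAway_of_mem K p y.2)
        ⟨(g : comp p ι), (g : comp p ι).2, hg'⟩
      have hb0 : b ≠ 0 := by
        rintro rfl
        rw [zero_pow (Fact.out : p.Prime).ne_zero] at hb
        exact Units.ne_zero _ hb.symm
      refine ⟨⟨Units.mk0 b hb0, fun v hv => ?_⟩, ?_⟩
      · apply val_eq_one_of_pow (Fact.out : p.Prime).ne_zero
        rw [Units.val_pow_eq_pow_val, Units.val_mk0, hb]
        exact y.2 v hv
      · apply Subtype.ext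
        apply Units.ext
        simpa using hb
    have hEfin : Finite ((comp p ι)ˣ ⧸ (powMonoidHom p : (comp p ι)ˣ →* (comp p ι)ˣ).range) := by
      apply Nat.finite_of_card_ne_zero
      rw [hc]
      positivity
    have hle := Nat.card_le_card_of_injective f hinj
    rw [hc, hcard] at hle
    have h1 := (Nat.pow_le_pow_iff_right hp1).mp hle
    omega
  intro β hβ hβ0
  exact local_global hζ hK h12 ι hR (by rw [hc, hmin]) hβ hβ0

section Degree

variable {p : ℕ} [Fact p.Prime] {K Ω : Type*} [Field K] [Field Ω] [Algebra K Ω]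

theorem finrank_comp_le [CharZero K] (ι : Ω →+* PadicAlgCl p) (M : IntermediateField K Ω)
    [FiniteDimensional K M]
    [FiniteDimensional ℚ_[p] (comp p (ι.comp (algebraMap K Ω)))] :
    FiniteDimensional ℚ_[p] (comp p (ι.comp (algebraMap M Ω))) ∧
    finrank ℚ_[p] (comp p (ι.comp (algebraMap M Ω))) ≤
      finrank ℚ_[p] (comp p (ι.comp (algebraMap K Ω))) * finrank K M := by
  obtain ⟨x, hx⟩ := Field.exists_primitive_element K M
  let k := comp p (ι.comp (algebraMap K Ω))
  let f : K →+* k := (ι.comp (algebraMap K Ω)).codRestrict k.toSubfield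
    (fun y => mem_comp (ι.comp (algebraMap K Ω)) y)
  have hxK : IsIntegral K x := Algebra.IsIntegral.isIntegral x
  let q : Polynomial k := (minpoly K x).map f
  have hq : q.Monic := (minpoly.monic hxK).map f
  have hcomp : (algebraMap k (PadicAlgCl p)).comp f = (ι.comp (algebraMap M Ω)).comp
      (algebraMap K M) := by
    ext y; rfl
  have hqx : Polynomial.aeval (ι (x : Ω)) q = 0 := by
    rw [Polynomial.aeval_def, Polynomial.eval₂_map, hcomp]
    have h1 := congrArg (ι.comp (algebraMap M Ω)) (minpoly.aeval K x)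
    rw [map_zero, Polynomial.aeval_def, Polynomial.hom_eval₂] at h1
    exact h1
  have hxk : IsIntegral k (ι (x : Ω)) := ⟨q, hq, hqx⟩
  let E : IntermediateField k (PadicAlgCl p) := IntermediateField.adjoin k {ι (x : Ω)}
  have hEfd : FiniteDimensional k E := IntermediateField.adjoin.finiteDimensional hxk
  have hEdeg : finrank k E ≤ finrank K M := by
    rw [IntermediateField.adjoin.finrank hxk]
    have h1 : (minpoly k (ι (x : Ω))).natDegree ≤ q.natDegree :=
      Polynomial.natDegree_le_of_dvd (minpoly.dvd k _ hqx) hq.ne_zero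
    have h2 : q.natDegree = (minpoly K x).natDegree := Polynomial.natDegree_map f
    have h3 : (minpoly K x).natDegree = finrank K M := by
      rw [← IntermediateField.adjoin.finrank hxK, hx, IntermediateField.finrank_top']
    omega
  let E' : IntermediateField ℚ_[p] (PadicAlgCl p) := E.restrictScalars ℚ_[p]
  have hle : comp p (ι.comp (algebraMap M Ω)) ≤ E' := by
    rw [comp, IntermediateField.adjoin_le_iff]
    rintro _ ⟨m, rfl⟩
    have hm : m ∈ IntermediateField.adjoin K {x} := by rw [hx]; trivial
    change (ι.comp (algebraMap M Ω)) m ∈ E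
    induction hm using IntermediateField.adjoin_induction with
    | mem y hy =>
      rw [Set.mem_singleton_iff] at hy
      rw [hy]
      exact IntermediateField.subset_adjoin k _ (Set.mem_singleton _)
    | algebraMap y =>
      exact E.algebraMap_mem (f y)
    | add y z hy hz ih ih' => rw [map_add]; exact add_mem ih ih'
    | inv y hy ih => rw [map_inv₀]; exact inv_mem ih
    | mul y z hy hz ih ih' => rw [map_mul]; exact mul_mem ih ih'
  have hE'fd : FiniteDimensional ℚ_[p] E' := by
    change FiniteDimensional ℚ_[p] E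
    exact Module.Finite.trans k E
  have h1 : finrank ℚ_[p] E' = finrank ℚ_[p] k * finrank k E := by
    change finrank ℚ_[p] E = _
    exact (finrank_mul_finrank ℚ_[p] k E).symm
  have hinj : Function.Injective (IntermediateField.inclusion hle) :=
    (IntermediateField.inclusion hle).injective
  refine ⟨FiniteDimensional.of_injective (IntermediateField.inclusion hle).toLinearMap hinj, ?_⟩
  have h2 : finrank ℚ_[p] (comp p (ι.comp (algebraMap M Ω))) ≤ finrank ℚ_[p] E' :=
    LinearMap.finrank_le_finrank_of_injective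
      (f := (IntermediateField.inclusion hle).toLinearMap) hinj
  rw [h1] at h2
  exact h2.trans (Nat.mul_le_mul_left _ hEdeg)

/-- All local classes of all layers are global. -/
theorem locGlob_layer [NumberField K] [IsGalois K Ω] [IsAlgClosed Ω] (hLB : LocalBound p)
    (hζ : (primitiveRoots p K).Nonempty) (hK : IsEmpty (K →+* ℝ)) {j₁ j₂ : K →+* PadicAlgCl p}
    {x : K} (h12 : ‖j₁ x‖ ≠ ‖j₂ x‖)
    (ι : Ω →+* PadicAlgCl p) (hR : Rigid p K (ι.comp (algebraMap K Ω)))
    (hfd : FiniteDimensional ℚ_[p] (comp p (ι.comp (algebraMap K Ω))))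
    (hd : 2 * finrank ℚ_[p] (comp p (ι.comp (algebraMap K Ω))) ≤ finrank ℚ K)
    (N : Subgroup (Ω ≃ₐ[K] Ω)) (hN : IsLayer p N) :
    LocGlob p (IntermediateField.fixedField N)
      (ι.comp (algebraMap (IntermediateField.fixedField N) Ω)) := by
  have hp : p.Prime := Fact.out
  have hR' := hN.rigid hζ ι hR
  have hfix : (IntermediateField.fixedField N).fixingSubgroup = N :=
    InfiniteGalois.fixingSubgroup_fixedField (⟨N, N.isClosed_of_isOpen hN.isOpen⟩ :
      ClosedSubgroup (Ω ≃ₐ[K] Ω))
  have hMfd : FiniteDimensional K (IntermediateField.fixedField N) := by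
    rw [← InfiniteGalois.isOpen_iff_finite]
    change IsOpen ((IntermediateField.fixedField N).fixingSubgroup : Set (Ω ≃ₐ[K] Ω))
    rw [hfix]; exact hN.isOpen
  have hMnf : NumberField (IntermediateField.fixedField N) := NumberField.of_module_finite K _
  obtain ⟨ζ, hζ'⟩ := hζ
  rw [mem_primitiveRoots hp.pos] at hζ'
  have hζM : IsPrimitiveRoot (algebraMap K (IntermediateField.fixedField N) ζ) p :=
    hζ'.map_of_injective (algebraMap K _).injective
  have hKM : IsEmpty (IntermediateField.fixedField N →+* ℝ) :=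
    ⟨fun f => hK.false (f.comp (algebraMap K _))⟩
  obtain ⟨J₁, hJ₁⟩ := exists_extension (Ω := Ω) p j₁
  obtain ⟨J₂, hJ₂⟩ := exists_extension (Ω := Ω) p j₂
  obtain ⟨hfdM, hle⟩ := finrank_comp_le ι (IntermediateField.fixedField N)
  refine local_global_le (d := finrank ℚ_[p] (comp p
    (ι.comp (algebraMap (IntermediateField.fixedField N) Ω)))) hζM hKM
    (j₁ := J₁.comp (algebraMap (IntermediateField.fixedField N) Ω))
    (j₂ := J₂.comp (algebraMap (IntermediateField.fixedField N) Ω))
    (x := algebraMap K _ x) ?_ _ hR' ?_ ?_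
  · rw [← hJ₁, ← hJ₂] at h12
    exact h12
  · have h1 : finrank ℚ K * finrank K (IntermediateField.fixedField N) =
        finrank ℚ (IntermediateField.fixedField N) := finrank_mul_finrank _ _ _
    rw [← h1]
    calc _ ≤ 2 * (finrank ℚ_[p] (comp p (ι.comp (algebraMap K Ω))) *
          finrank K (IntermediateField.fixedField N)) := Nat.mul_le_mul_left _ hle
      _ = 2 * finrank ℚ_[p] (comp p (ι.comp (algebraMap K Ω))) *
          finrank K (IntermediateField.fixedField N) := by ring
      _ ≤ _ := Nat.mul_le_mul_right _ hd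
  · refine hLB _ hfdM ⟨ι (algebraMap K Ω ζ), ?_, ?_⟩
    · exact mem_comp (ι.comp (algebraMap (IntermediateField.fixedField N) Ω))
        (algebraMap K _ ζ)
    · exact (hζ'.map_of_injective (algebraMap K Ω).injective).map_of_injective ι.injective

end Degree

end BKGen
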