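import Pool.Agent.Lib.MP_7c08ba_nt.Gen.GenusMain
import Pool.Agent.Lib.MP_7c08ba_nt.Gen.GenusPlace

/-!
Genus theory: the bridge to the absolute Galois group.
-/

set_option linter.unusedSectionVars false

namespace BKGen.Genus

open Ideal NumberField IsDedekindDomain HeightOneSpectrum WithZero
open scoped Pointwise

section Places

variable {Ω : Type} [Field Ω] [CharZero Ω] [IsAlgClosed Ω] [Algebra.IsAlgebraic ℚ Ω]

/-- Every prime of the ring of all algebraic integers is given by an embedding. -/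
theorem exists_place {l : ℕ} [Fact l.Prime] (Q : Ideal (𝓞 Ω)) [Q.IsPrime] (hl : (l : 𝓞 Ω) ∈ Q) :
    ∃ j : Ω →+* PadicAlgCl l, primeOf j = Q := by
  have hnormal : Normal ℚ Ω := by
    have : IsAlgClosure ℚ Ω := ⟨inferInstance, inferInstance⟩
    exact IsAlgClosure.normal ℚ Ω
  have hgal : IsGalois ℚ Ω := { }
  let j₀ : Ω →+* PadicAlgCl l := (IsAlgClosed.lift : Ω →ₐ[ℚ] PadicAlgCl l).toRingHom
  have hmaxl : (Ideal.span {(l : ℤ)}).IsMaximal := by
    have h1 : Prime (l : ℤ) := Nat.prime_iff_prime_int.mp Fact.out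
    exact ((Ideal.span_singleton_prime h1.ne_zero).mpr h1).isMaximal (by
      rw [Ne, Ideal.span_singleton_eq_bot]; exact h1.ne_zero)
  -- both primes contain the same integers
  have hint : ∀ (P : Ideal (𝓞 Ω)), P.IsPrime → (l : 𝓞 Ω) ∈ P → ∀ n : ℤ, (n : 𝓞 Ω) ∈ P ↔ (l : ℤ) ∣ n := by
    intro P hP hlP n
    constructor
    · intro h
      have h1 : Ideal.span {(l : ℤ)} ≤ P.comap (Int.castRingHom (𝓞 Ω)) := by
        rw [Ideal.span_singleton_le_iff_mem, Ideal.mem_comap]
        simpa using hlP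
      have h2 : P.comap (Int.castRingHom (𝓞 Ω)) ≠ ⊤ := (hP.comap _).ne_top
      have h3 := hmaxl.eq_of_le h2 h1
      rw [← Ideal.mem_span_singleton, h3, Ideal.mem_comap]
      simpa using h
    · rintro ⟨m, rfl⟩
      push_cast
      exact P.mul_mem_right _ hlP
  obtain ⟨k, -, hk⟩ := Pool.Agent.Lib.MP_7c08ba_nt.exists_smul_eq (F := ℚ) (Ω := Ω) ⊤ isClosed_univ
    (primeOf j₀) Q (by
      intro x hx
      have h1 : (x : Ω) ∈ Set.range (algebraMap ℚ Ω) := by
        rw [InfiniteGalois.mem_range_algebraMap_iff_fixed]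
        intro τ
        exact congrArg (fun z : 𝓞 Ω => (z : Ω)) (hx τ (Subgroup.mem_top τ))
      obtain ⟨r, hr⟩ := h1
      have h2 : IsIntegral ℤ r := by
        have h3 : IsIntegral ℤ (algebraMap ℚ Ω r) := by rw [hr]; exact x.2
        exact (isIntegral_algebraMap_iff (algebraMap ℚ Ω).injective).mp h3
      obtain ⟨n, rfl⟩ := IsIntegrallyClosed.isIntegral_iff.mp h2
      have h3 : x = (n : 𝓞 Ω) := by
        apply RingOfIntegers.ext
        rw [← hr]
        simp
      rw [h3, hint _ inferInstance (l_mem_primeOf j₀), hint Q inferInstance hl])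
  refine ⟨j₀.comp ((k⁻¹ : Gal(Ω/ℚ)) : Ω →+* Ω), ?_⟩
  ext x
  rw [hk, mem_pointwise_smul_iff_inv_smul_mem]
  exact Iff.rfl

end Places

section Restrict

variable {Ω : Type} [Field Ω] [CharZero Ω] [IsAlgClosed Ω] [Algebra.IsAlgebraic ℚ Ω]
  {K : Type*} [Field K] [NumberField K] [Algebra K Ω]

theorem exists_prime_mem {K : Type*} [Field K] [NumberField K] (q : Ideal (𝓞 K)) [hq : q.IsPrime]
    (hq0 : q ≠ ⊥) : ∃ l : ℕ, l.Prime ∧ (l : 𝓞 K) ∈ q := by
  have h1 : ((absNorm q : ℕ) : 𝓞 K) ∈ q := absNorm_mem q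
  have h2 : absNorm q ≠ 0 := by rwa [Ne, absNorm_eq_zero_iff]
  have h3 : ((absNorm q).primeFactorsList.map (fun m : ℕ => (m : 𝓞 K))).prod ∈ q := by
    have h4 := Nat.prod_primeFactorsList h2
    have h5 : ((absNorm q).primeFactorsList.map (fun m : ℕ => (m : 𝓞 K))).prod =
        ((absNorm q : ℕ) : 𝓞 K) := by
      conv_rhs => rw [← h4]
      rw [Nat.cast_list_prod]
    rw [h5]; exact h1
  rw [← Multiset.prod_coe, hq.multiset_prod_mem_iff_exists_mem] at h3
  obtain ⟨m, hm, hmq⟩ := h3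
  rw [Multiset.mem_coe, List.mem_map] at hm
  obtain ⟨l, hl, rfl⟩ := hm
  exact ⟨l, Nat.prime_of_mem_primeFactorsList hl, hmq⟩

/-- Every nonzero prime of a number field is given by an embedding of `Ω`. -/
theorem exists_place_of_prime (q : Ideal (𝓞 K)) [hq : q.IsPrime] {l : ℕ} [Fact l.Prime]
    (hl : (l : 𝓞 K) ∈ q) :
    ∃ j : Ω →+* PadicAlgCl l, primeOf (j.comp (algebraMap K Ω)) = q := by
  have hinj : Function.Injective (algebraMap (𝓞 K) (𝓞 Ω)) :=
    FaithfulSMul.algebraMap_injective _ _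
  obtain ⟨Q, hQ, hQq⟩ := exists_ideal_over_prime_of_isIntegral_of_isDomain (S := 𝓞 Ω) q (by
    rw [(RingHom.injective_iff_ker_eq_bot _).mp hinj]; exact bot_le)
  have hlQ : (l : 𝓞 Ω) ∈ Q := by
    have h1 : (l : 𝓞 K) ∈ Q.comap (algebraMap (𝓞 K) (𝓞 Ω)) := by rw [hQq]; exact hl
    rw [Ideal.mem_comap, map_natCast] at h1
    exact h1
  obtain ⟨j, hj⟩ := exists_place Q hlQ
  refine ⟨j, ?_⟩
  rw [← hQq, ← hj]
  ext x
  exact Iff.rfl

end Restrict

section Ramification

variable {l : ℕ} [Fact l.Prime] {F K : Type*} [Field F] [NumberField F] [Field K] [NumberField K]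
  [Algebra F K] (j : K →+* PadicAlgCl l)

theorem under_primeOf : (primeOf j).under (𝓞 F) = primeOf (j.comp (algebraMap F K)) := by
  ext x
  exact Iff.rfl

/-- If all absolute values of `K` are absolute values of `F` then the prime is unramified. -/
theorem ramificationIdx_of_norm
    (h : ∀ x : K, ∃ b : F, ‖j x‖ = ‖j (algebraMap F K b)‖) :
    (primeOf j).ramificationIdx (𝓞 F) = 1 := by
  set v := spec j with hv
  set u := spec (j.comp (algebraMap F K)) with hu
  have hlo : v.asIdeal.LiesOver u.asIdeal := ⟨(under_primeOf j).symm⟩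
  obtain ⟨x, hx⟩ := v.valuation_exists_uniformizer K
  obtain ⟨b, hb⟩ := h x
  have hx0 : x ≠ 0 := by
    rintro rfl
    rw [map_zero] at hx
    exact exp_ne_zero hx.symm
  have hjx : ‖j x‖ ≠ 0 := by rwa [norm_ne_zero_iff, Ne, map_eq_zero]
  have hb0 : b ≠ 0 := by
    rintro rfl
    rw [map_zero, map_zero, norm_zero] at hb
    exact hjx hb
  have hb0' : algebraMap F K b ≠ 0 := by rwa [Ne, map_eq_zero]
  have h1 : ‖j (x / algebraMap F K b)‖ = 1 := by
    rw [map_div₀, norm_div, hb, div_self]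
    rw [← hb]; exact hjx
  have h2 := val_eq_one_of_norm j h1
  rw [← hv, map_div₀, div_eq_one_iff_eq (by rwa [Ne, (v.valuation K).zero_iff]), hx] at h2
  rw [← valuation_liesOver K u v,
    ramificationIdx'_eq_ramificationIdx u.asIdeal v.asIdeal u.ne_bot] at h2
  have hub : u.valuation F b ≠ 0 := by rwa [Ne, (u.valuation F).zero_iff]
  rw [← exp_log hub, ← exp_nsmul] at h2
  have h3 := exp_injective h2
  simp only [nsmul_eq_mul] at h3
  have h4 : ((v.asIdeal.ramificationIdx (𝓞 F) : ℕ) : ℤ) ∣ 1 :=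
    ⟨-log (u.valuation F b), by rw [mul_neg, ← h3]; ring⟩
  have h5 : v.asIdeal.ramificationIdx (𝓞 F) = 1 := by
    have := Int.natAbs_dvd_natAbs.mpr h4
    simpa using this
  exact h5

end Ramification

section Split

variable {p : ℕ} [Fact p.Prime] {F K : Type*} [Field F] [NumberField F] [Field K] [NumberField K]
  [Algebra F K] [IsGalois F K]

/-- If `K` embeds into `ℚ_p` then the corresponding prime is moved by every nontrivial
automorphism. -/
theorem smul_ne (j : K →+* PadicAlgCl p)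
    (hj : ∀ x : K, ∃ r : ℚ_[p], j x = algebraMap ℚ_[p] (PadicAlgCl p) r) {σ : Gal(K/F)}
    (hσ : σ ≠ 1) : σ • primeOf j ≠ primeOf j := by
  intro h
  have h1 : primeOf (j.comp (σ : K →+* K)) = primeOf j := by
    ext x
    have h2 : x ∈ primeOf (j.comp (σ : K →+* K)) ↔ σ • x ∈ primeOf j := Iff.rfl
    rw [h2]
    constructor
    · intro h3
      rw [← h, smul_mem_pointwise_smul_iff] at h3
      exact h3
    · intro h3
      rw [← h, smul_mem_pointwise_smul_iff]
      exact h3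
  have h2 := norm_eq_of_prime_eq _ _ h1
  apply hσ
  ext x
  change σ x = x
  by_contra hne
  have hpos : 0 < ‖j (σ x - x)‖ := by
    rw [norm_pos_iff, Ne, map_eq_zero]
    exact sub_ne_zero.mpr hne
  obtain ⟨r, hr⟩ := hj x
  obtain ⟨s, hs⟩ := (Padic.denseRange_ratCast p).exists_dist_lt r hpos
  have h3 : ‖j (x - (s : K))‖ < ‖j (σ x - x)‖ := by
    rw [map_sub, hr, map_ratCast, ← map_ratCast (algebraMap ℚ_[p] (PadicAlgCl p)), ← map_sub,
      PadicAlgCl.norm_extends, ← dist_eq_norm]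
    exact hs
  have h4 : ‖j (σ (x - (s : K)))‖ < ‖j (σ x - x)‖ := by
    have h5 := h2 (x - (s : K))
    change ‖j (σ (x - (s : K)))‖ = _ at h5
    rw [h5]
    exact h3
  have h5 : j (σ x - x) = j (σ (x - (s : K))) - j (x - (s : K)) := by
    rw [← map_sub, map_sub σ, map_ratCast]
    congr 1
    ring
  have h6 : ‖j (σ x - x)‖ < ‖j (σ x - x)‖ := by
    conv_lhs => rw [h5]
    exact norm_sub_le_max.trans_lt (max_lt h4 h3)
  exact lt_irrefl _ h6

end Split

end BKGen.Genus
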