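import Pool.Agent.Lib.MP_7c08ba_nt.Gen.Layer
import Pool.Agent.Lib.MP_7c08ba_nt.Gen.GenusBridge

/-!
Genus theory: the final form for the Galois group of an algebraically closed field over an imaginary
quadratic field.
-/

set_option linter.unusedSectionVars false

namespace BKGen.Genus

open Ideal NumberField IsDedekindDomain HeightOneSpectrum WithZero
open scoped Pointwise

/-- The arithmetic condition on the imaginary quadratic field `F` and its place `j` above `p`: `p`
does not divide the class number, and a power of the other prime above `p` has a generator `β` with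
`β ^ (p - 1) ≢ 1` modulo `p ^ 2` at the place `j`. -/
structure Good (p : ℕ) [Fact p.Prime] (F : Type) [Field F] [NumberField F] (j : F →+* ℚ_[p]) :
    Prop where
  complex : IsTotallyComplex F
  degree : Module.finrank ℚ F = 2
  classNumber : ¬ p ∣ classNumber F
  exists_gen : ∃ (h : ℕ) (β : 𝓞 F), h ≠ 0 ∧ Algebra.norm ℤ β = (p : ℤ) ^ h ∧ ‖j β‖ = 1 ∧
    (p : ℝ) ^ (-2 : ℤ) < ‖(j β) ^ (p - 1) - 1‖

section Arith

variable {p : ℕ} [Fact p.Prime] {F : Type} [Field F] [NumberField F]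

theorem Good.exists_ideals {j : F →+* ℚ_[p]} (H : Good p F j)
    (ι : F →+* PadicAlgCl p) (hι : ∀ x, ι x = algebraMap ℚ_[p] (PadicAlgCl p) (j x)) :
    ∃ (P : Ideal (𝓞 F)) (h : ℕ) (α : 𝓞 F), P.IsPrime ∧ P ≠ primeOf ι ∧ (p : 𝓞 F) ∈ P ∧
      (primeOf ι) ^ h = span {α} ∧ α ^ (p - 1) - 1 ∉ P ^ 2 := by
  have hp : p.Prime := Fact.out
  have hdeg := H.degree
  have hquad : Algebra.IsQuadraticExtension ℚ F := ⟨hdeg⟩
  have hgal : IsGalois ℚ F := inferInstance
  obtain ⟨h, β, hh, hβN, hβ1, hβ2⟩ := H.exists_gen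
  have hcard : Nat.card Gal(F/ℚ) = 2 := by rw [IsGalois.card_aut_eq_finrank, hdeg]
  obtain ⟨c, hc⟩ : ∃ c : Gal(F/ℚ), c ≠ 1 := by
    have : Nontrivial Gal(F/ℚ) := by
      rw [← Finite.one_lt_card_iff_nontrivial, hcard]; norm_num
    exact exists_ne 1
  set Pb := primeOf ι with hPb
  have hnorm : ∀ x : F, ‖ι x‖ = ‖j x‖ := by
    intro x
    rw [hι, PadicAlgCl.norm_extends]
  -- the norm of `β`
  have hβc : β * c • β = (p : 𝓞 F) ^ h := by
    apply RingOfIntegers.ext
    have h1 : (algebraMap ℚ F) (Algebra.norm ℚ (β : F)) = ∏ τ : Gal(F/ℚ), τ (β : F) :=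
      Algebra.norm_eq_prod_automorphisms ℚ (β : F)
    have h2 : Algebra.norm ℚ (β : F) = (p : ℚ) ^ h := by
      rw [← Algebra.coe_norm_int, hβN]
      push_cast
      rfl
    rw [h2, prod_eq_prod_range Nat.prime_two hcard hc (fun τ : Gal(F/ℚ) => τ (β : F)),
      Finset.prod_range_succ, Finset.prod_range_one] at h1
    simp only [pow_zero, pow_one, map_pow, map_natCast] at h1
    have h3 : ((β * c • β : 𝓞 F) : F) = (β : F) * c (β : F) :=
      map_mul (algebraMap (𝓞 F) F) _ _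
    have h4 : (((p : 𝓞 F) ^ h : 𝓞 F) : F) = (p : F) ^ h := by
      simp only [RingOfIntegers.val, map_pow, map_natCast]
    rw [h3, h4, h1]
    rfl
  have hβPb : β ∉ Pb := by
    rw [hPb, mem_primeOf, hnorm, hβ1]
    exact lt_irrefl _
  have hpPb : (p : 𝓞 F) ∈ Pb := l_mem_primeOf ι
  have hcβ : c • β ∈ Pb := by
    have h1 : β * c • β ∈ Pb := by
      rw [hβc]
      exact Ideal.pow_mem_of_mem _ hpPb _ (Nat.pos_of_ne_zero hh)
    exact ((primeOf_isPrime ι).mem_or_mem h1).resolve_left hβPb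
  set P : Ideal (𝓞 F) := c • Pb with hP
  have hPprime : P.IsPrime := inferInstance
  have hcP : c • β ∉ P := by
    rw [hP, smul_mem_pointwise_smul_iff]; exact hβPb
  have hne : P ≠ Pb := by
    intro h
    rw [h] at hcP
    exact hcP hcβ
  have hpP : (p : 𝓞 F) ∈ P := by
    have h1 : (p : 𝓞 F) = c • (p : 𝓞 F) := by
      apply RingOfIntegers.ext
      change _ = c ((p : 𝓞 F) : F)
      simp only [RingOfIntegers.val, map_natCast]
    rw [h1, hP, smul_mem_pointwise_smul_iff]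
    exact hpPb
  obtain ⟨-, -, hmul⟩ := split_norms hdeg hp hne hpP hpPb
  have hp0 : (p : 𝓞 F) ≠ 0 := by exact_mod_cast hp.ne_zero
  have hP0 : P ≠ ⊥ := fun h => hp0 (by rwa [h, Ideal.mem_bot] at hpP)
  have hPb0 : Pb ≠ ⊥ := primeOf_ne_bot ι
  -- the ideal generated by `c • β`
  have hprod : span {β} * span {c • β} = P ^ h * Pb ^ h := by
    rw [Ideal.span_singleton_mul_span_singleton, hβc, ← Ideal.span_singleton_pow, ← hmul, mul_pow]
  have hPprime' : Prime P := Ideal.prime_of_isPrime hP0 hPprime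
  have hPbprime' : Prime Pb := Ideal.prime_of_isPrime hPb0 (primeOf_isPrime ι)
  have hd1 : P ^ h ∣ span {β} := by
    apply hPprime'.pow_dvd_of_dvd_mul_right h (b := span {c • β})
    · rw [Ideal.dvd_span_singleton]; exact hcP
    · rw [hprod]; exact dvd_mul_right _ _
  have hd2 : Pb ^ h ∣ span {c • β} := by
    apply hPbprime'.pow_dvd_of_dvd_mul_left h (a := span {β})
    · rw [Ideal.dvd_span_singleton]; exact hβPb
    · rw [hprod]; exact dvd_mul_left _ _
  obtain ⟨A, hA⟩ := hd1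
  obtain ⟨B, hB⟩ := hd2
  have hAB : A * B = 1 := by
    rw [hA, hB] at hprod
    have h1 : P ^ h * Pb ^ h * (A * B) = P ^ h * Pb ^ h * 1 := by
      rw [mul_one]
      calc _ = P ^ h * A * (Pb ^ h * B) := by ring
        _ = _ := hprod
    exact mul_left_cancel₀ (mul_ne_zero (pow_ne_zero _ hP0) (pow_ne_zero _ hPb0)) h1
  have hB1 : B = 1 := by
    rw [Ideal.one_eq_top, ← Ideal.isUnit_iff]
    exact IsUnit.of_mul_eq_one A (by rw [mul_comm]; exact hAB)
  rw [hB1, mul_one] at hB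
  refine ⟨P, h, c • β, hPprime, hne, hpP, hB.symm, ?_⟩
  intro hmem
  have h1 : (c • β) ^ (p - 1) - 1 = c • (β ^ (p - 1) - 1) := by
    rw [smul_sub, smul_pow', smul_one]
  rw [h1, hP, ← smul_pow', smul_mem_pointwise_smul_iff] at hmem
  -- elements of `Pb ^ 2` are divisible by `p ^ 2`
  have hsq : ∀ x ∈ Pb ^ 2, ‖j (x : F)‖ ≤ (p : ℝ) ^ (-2 : ℤ) := by
    intro x hx
    rw [pow_two] at hx
    have hlt : ∀ y ∈ Pb, ‖j (y : F)‖ ≤ (p : ℝ) ^ (-1 : ℤ) := by
      intro y hy
      rw [hPb, mem_primeOf, hnorm] at hy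
      have := (Padic.norm_le_pow_iff_norm_lt_pow_add_one (j (y : F)) (-1)).mpr (by simpa using hy)
      exact this
    refine Submodule.mul_induction_on hx ?_ ?_
    · intro a ha b hb
      have h2 : ((a * b : 𝓞 F) : F) = (a : F) * b := map_mul _ _ _
      rw [h2, map_mul, norm_mul]
      calc ‖j (a : F)‖ * ‖j (b : F)‖ ≤ (p : ℝ) ^ (-1 : ℤ) * (p : ℝ) ^ (-1 : ℤ) :=
            mul_le_mul (hlt a ha) (hlt b hb) (norm_nonneg _) (by positivity)
        _ = _ := by
          rw [← zpow_add₀ (by exact_mod_cast hp.ne_zero)]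
          norm_num
    · intro a b ha hb
      have h2 : ((a + b : 𝓞 F) : F) = (a : F) + b := map_add _ _ _
      rw [h2, map_add]
      exact (IsUltrametricDist.norm_add_le_max _ _).trans (max_le ha hb)
  have h2 := hsq _ hmem
  have h3 : ((β ^ (p - 1) - 1 : 𝓞 F) : F) = (β : F) ^ (p - 1) - 1 := by
    simp only [RingOfIntegers.val, map_sub, map_pow, map_one]
  rw [h3, map_sub, map_pow, map_one] at h2
  exact absurd hβ2 (not_lt.mpr h2)

end Arith

section Final

variable {p : ℕ} [Fact p.Prime] {F Ω : Type} [Field F] [NumberField F] [Field Ω] [Algebra F Ω]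
  [IsAlgClosed Ω] [IsGalois F Ω]

theorem comp_le_bot {K : Type*} [Field K] {ι : K →+* PadicAlgCl p} {j : K →+* ℚ_[p]}
    (hι : ∀ x, ι x = algebraMap ℚ_[p] (PadicAlgCl p) (j x)) : comp p ι ≤ ⊥ := by
  rw [comp, IntermediateField.adjoin_le_iff]
  rintro _ ⟨x, rfl⟩
  rw [hι]
  exact (⊥ : IntermediateField ℚ_[p] (PadicAlgCl p)).algebraMap_mem (j x)

/-- **Genus theory**: the Galois group of `Ω` over `F` has no open normal subgroup of index `p`
containing the inertia groups away from `p` and the restrictions of the local automorphisms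
at `ι`. -/
theorem no_index_p_genus' (hp2 : p ≠ 2) {j : F →+* ℚ_[p]} (H : Good p F j)
    (ι : Ω →+* PadicAlgCl p)
    (hι : ∀ x, ι (algebraMap F Ω x) = algebraMap ℚ_[p] (PadicAlgCl p) (j x))
    (N : Subgroup (Ω ≃ₐ[F] Ω)) (hN : N.Normal) (hi : N.index = p)
    (ho : IsOpen (N : Set (Ω ≃ₐ[F] Ω)))
    (hI : ∀ (l : ℕ) [Fact l.Prime], l ≠ p → ∀ j : Ω →+* PadicAlgCl l, ∀ σ ∈ Inert F Ω j, σ ∈ N)
    (hD : ∀ σ ∈ decR (K := F) ι, σ ∈ N) : False := by
  have hp : p.Prime := Fact.out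
  have hchar : CharZero Ω := charZero_of_injective_algebraMap (algebraMap F Ω).injective
  have halg : Algebra.IsAlgebraic ℚ Ω := by
    have h1 : Algebra.IsAlgebraic F Ω := inferInstance
    have h2 : Algebra.IsAlgebraic ℚ F := inferInstance
    exact Algebra.IsAlgebraic.trans ℚ F Ω
  have hcomplex := H.complex
  let H' : ClosedSubgroup (Ω ≃ₐ[F] Ω) := ⟨N, N.isClosed_of_isOpen ho⟩
  have hHn : H'.Normal := hN
  set M := IntermediateField.fixedField N with hM
  have hfix : M.fixingSubgroup = N := InfiniteGalois.fixingSubgroup_fixedField H'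
  have hfd : FiniteDimensional F M := by
    rw [← InfiniteGalois.isOpen_iff_finite]
    change IsOpen (M.fixingSubgroup : Set (Ω ≃ₐ[F] Ω))
    rw [hfix]; exact ho
  have hgal : IsGalois F M := by
    rw [← InfiniteGalois.normal_iff_isGalois, hfix]; exact hN
  have hcard : Nat.card (M ≃ₐ[F] M) = p := by
    rw [← Nat.card_congr (InfiniteGalois.normalAutEquivQuotient H').toEquiv]
    exact hi
  have hNF : NumberField M := NumberField.of_module_finite F M
  obtain ⟨σ, hσ⟩ : ∃ σ : M ≃ₐ[F] M, σ ≠ 1 := by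
    have : Nontrivial (M ≃ₐ[F] M) := by
      rw [← Finite.one_lt_card_iff_nontrivial, hcard]; exact hp.one_lt
    exact exists_ne 1
  have hmem : ∀ τ ∈ N, ∀ x : M, τ (x : Ω) = x := by
    intro τ hτ x
    have h1 : τ ∈ M.fixingSubgroup := by rw [hfix]; exact hτ
    exact (IntermediateField.mem_fixingSubgroup_iff M τ).mp h1 x x.2
  -- the prime of `F`
  obtain ⟨P, h, α, hPp, hPne, hpP, hα, hα2⟩ := H.exists_ideals (ι.comp (algebraMap F Ω)) hι
  refine no_split_ext (F := F) (K := M) (P := P) (Pb := primeOf (ι.comp (algebraMap F Ω))) H.degree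
    hp hp2 hPne hpP (l_mem_primeOf _) ?_ hα hα2 hcard hσ ?_
    (q := primeOf (ι.comp (algebraMap M Ω))) inferInstance ?_ ?_
  · rw [Nat.card_eq_fintype_card]
    exact H.classNumber
  · intro q hq hq0 hpq
    obtain ⟨l, hl, hlq⟩ := exists_prime_mem q hq0
    have := Fact.mk hl
    have hlp : l ≠ p := by
      rintro rfl
      exact hpq hlq
    obtain ⟨J, hJ⟩ := exists_place_of_prime (Ω := Ω) q hlq
    rw [← hJ]
    apply ramificationIdx_of_norm
    intro x
    exact norm_of_fixed_inert (K := F) J (x : Ω) (fun τ hτ => hmem τ (hI l hlp J τ hτ) x)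
  · rw [under_primeOf]
    rfl
  · apply smul_ne _ _ hσ
    intro x
    have h1 := mem_comp_of_fixed' (K := F) ι (x : Ω) (fun τ hτ => hmem τ (hD τ hτ) x)
    have h2 := comp_le_bot hι h1
    rw [IntermediateField.mem_bot] at h2
    obtain ⟨r, hr⟩ := h2
    exact ⟨r, hr.symm⟩

/-- **Genus theory**: the Galois group of `Ω` over `F` has no open normal subgroup of index `p`
containing the inertia groups away from `p` and the decomposition group at `ι`. -/
theorem no_index_p_genus (hp2 : p ≠ 2) {j : F →+* ℚ_[p]} (H : Good p F j)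
    (ι : Ω →+* PadicAlgCl p)
    (hι : ∀ x, ι (algebraMap F Ω x) = algebraMap ℚ_[p] (PadicAlgCl p) (j x))
    (N : Subgroup (Ω ≃ₐ[F] Ω)) (hN : N.Normal) (hi : N.index = p)
    (ho : IsOpen (N : Set (Ω ≃ₐ[F] Ω)))
    (hI : ∀ (l : ℕ) [Fact l.Prime], l ≠ p → ∀ j : Ω →+* PadicAlgCl l, ∀ σ ∈ Inert F Ω j, σ ∈ N)
    (hD : ∀ σ ∈ Dec F Ω ι, σ ∈ N) : False :=
  no_index_p_genus' hp2 H ι hι N hN hi ho hI fun σ ⟨τ, hτ⟩ =>
    hD σ (mem_dec_of_restrict ι τ σ hτ)

end Final

end BKGen.Genus
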