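import Mathlib

/-!
Genus theory, units: in a cyclic extension of odd prime degree of a field with few units there is a
unit of norm one which is not of the form `σ u / u`.
-/

namespace BKGen.Genus

open Finset

section Abstract

variable {A : Type*} [AddCommGroup A]

/-- `(S - 1) ^ p` is divisible by `p` if `S ^ p = 1`. -/
theorem exists_sub_one_pow {p : ℕ} (hp : p.Prime) (hp2 : p ≠ 2) (S : AddMonoid.End A)
    (hS : S ^ p = 1) : ∃ R : AddMonoid.End A, (S - 1) ^ p = p • R := by
  obtain ⟨r, hr⟩ := exists_add_pow_prime_eq hp (Polynomial.X : Polynomial ℤ) (-1)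
  have h1 := congrArg (Polynomial.aeval S) hr
  have hodd : Odd p := hp.odd_of_ne_two hp2
  rw [hodd.neg_one_pow] at h1
  simp only [map_pow, map_add, map_neg, map_one, map_mul, map_natCast, Polynomial.aeval_X, hS] at h1
  refine ⟨S * -1 * Polynomial.aeval S r, ?_⟩
  rw [sub_eq_add_neg, h1, nsmul_eq_mul]
  have : (1 : AddMonoid.End A) + -1 = 0 := by abel
  rw [this, zero_add]
  simp only [mul_assoc]

/-- The abstract form. -/
theorem exists_norm_zero {p : ℕ} (hp : p.Prime) (hp2 : p ≠ 2) (S : AddMonoid.End A)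
    (hS : S ^ p = 1) {w : ℕ} (hw : ¬ p ∣ w) (hN : ∀ x, w • (∑ i ∈ range p, (S ^ i) x) = 0)
    (f : A →+ ℤ) (hf : ∃ e, f e = 1) :
    ∃ x, ∑ i ∈ range p, (S ^ i) x = 0 ∧ ∀ (u : A) (m : ℤ), ¬ (p : ℤ) ∣ m → m • x ≠ S u - u := by
  by_contra hcon
  push Not at hcon
  -- `p • x` is a difference
  have hpx : ∀ x, ∑ i ∈ range p, (S ^ i) x = 0 → ∃ u, (p : ℤ) • x = S u - u := by
    intro x hx
    have h1 : ∀ i : ℕ, ∃ u, (S ^ i) x - x = S u - u := by
      intro i
      induction i with
      | zero => exact ⟨0, by simp⟩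
      | succ i ih =>
        obtain ⟨u, hu⟩ := ih
        refine ⟨(S ^ i) x + u, ?_⟩
        rw [map_add, pow_succ']
        change S ((S ^ i) x) - x = _
        have : S ((S ^ i) x) + S u - ((S ^ i) x + u) = S ((S ^ i) x) - (S ^ i) x + (S u - u) := by
          abel
        rw [this, ← hu]
        abel
    choose u hu using h1
    refine ⟨-∑ i ∈ range p, u i, ?_⟩
    have h2 : ∑ i ∈ range p, ((S ^ i) x - x) = ∑ i ∈ range p, (S (u i) - u i) :=
      sum_congr rfl fun i _ => hu i
    rw [sum_sub_distrib, sum_sub_distrib, hx, sum_const, card_range, ← map_sum] at h2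
    rw [map_neg]
    have h3 : (p : ℤ) • x = -(0 - p • x) := by simp
    rw [h3, h2]
    abel
  have hx1 : ∀ x, ∑ i ∈ range p, (S ^ i) x = 0 → ∃ u, x = S u - u := by
    intro x hx
    obtain ⟨u, m, hm, hu⟩ := hcon x hx
    obtain ⟨u', hu'⟩ := hpx x hx
    have hcop : IsCoprime (p : ℤ) m :=
      (Prime.coprime_iff_not_dvd (Nat.prime_iff_prime_int.mp hp)).mpr hm
    obtain ⟨a, b, hab⟩ := hcop
    refine ⟨a • u' + b • u, ?_⟩
    have h1 : x = a • ((p : ℤ) • x) + b • (m • x) := by
      rw [← mul_smul, ← mul_smul, ← add_smul, hab, one_smul]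
    rw [hu, hu', smul_sub, smul_sub, ← map_zsmul, ← map_zsmul] at h1
    rw [map_add, h1]
    abel
  -- `w ^ j • e` is in the image of `(S - 1) ^ j`
  have hj : ∀ (j : ℕ) (e : A), ∃ u, w ^ j • e = ((S - 1) ^ j) u := by
    intro j
    induction j with
    | zero => intro e; exact ⟨e, by simp⟩
    | succ j ih =>
      intro e
      obtain ⟨u, hu⟩ := hx1 (w • e) (by
        have : ∀ i, (S ^ i) (w • e) = w • (S ^ i) e := fun i => map_nsmul _ _ _
        simp only [this]
        rw [← smul_sum]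
        exact hN e)
      obtain ⟨u', hu'⟩ := ih u
      refine ⟨u', ?_⟩
      rw [pow_succ, mul_smul, hu, pow_succ']
      change _ = (S - 1) (((S - 1) ^ j) u')
      rw [← hu']
      change _ = S (w ^ j • u) - w ^ j • u
      rw [map_nsmul, smul_sub]
  obtain ⟨R, hR⟩ := exists_sub_one_pow hp hp2 S hS
  obtain ⟨e, he⟩ := hf
  obtain ⟨u, hu⟩ := hj p e
  rw [hR] at hu
  have h1 := congrArg f hu
  rw [map_nsmul, he] at h1
  have h2 : (p • R) u = p • R u := rfl
  rw [h2, map_nsmul, nsmul_eq_mul, nsmul_eq_mul, mul_one] at h1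
  have h3 : (p : ℤ) ∣ (w : ℤ) ^ p := ⟨f (R u), by exact_mod_cast h1⟩
  exact hw (by exact_mod_cast (Nat.prime_iff_prime_int.mp hp).dvd_of_dvd_pow h3)

end Abstract

section Cyclic

variable {G : Type*} [Group G] {p : ℕ}

theorem orderOf_eq (hp : p.Prime) (hcard : Nat.card G = p) {σ : G} (hσ : σ ≠ 1) :
    orderOf σ = p := by
  have h1 : orderOf σ ∣ p := hcard ▸ orderOf_dvd_natCard σ
  rcases (Nat.dvd_prime hp).mp h1 with h | h
  · exact absurd (orderOf_eq_one_iff.mp h) hσ
  · exact h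

theorem pow_card_eq (hp : p.Prime) (hcard : Nat.card G = p) {σ : G} (hσ : σ ≠ 1) : σ ^ p = 1 := by
  rw [← orderOf_eq hp hcard hσ, pow_orderOf_eq_one]

theorem mem_zpowers' (hp : p.Prime) (hcard : Nat.card G = p) {σ : G} (hσ : σ ≠ 1) (τ : G) :
    τ ∈ Subgroup.zpowers σ := by
  have := Fact.mk hp
  exact mem_zpowers_of_prime_card hcard hσ

theorem exists_pow (hp : p.Prime) (hcard : Nat.card G = p) {σ : G} (hσ : σ ≠ 1) (τ : G) :
    ∃ i < p, σ ^ i = τ := by
  classical
  have : Finite G := Nat.finite_of_card_ne_zero (by rw [hcard]; exact hp.ne_zero)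
  have h1 := mem_zpowers' hp hcard hσ τ
  rw [← mem_powers_iff_mem_zpowers, (isOfFinOrder_of_finite σ).mem_powers_iff_mem_range_orderOf] at h1
  rw [orderOf_eq hp hcard hσ, Finset.mem_image] at h1
  obtain ⟨i, hi, hi2⟩ := h1
  exact ⟨i, Finset.mem_range.mp hi, hi2⟩

/-- products over a group of prime order -/
theorem prod_eq_prod_range [Fintype G] (hp : p.Prime) (hcard : Nat.card G = p) {σ : G}
    (hσ : σ ≠ 1) {M : Type*} [CommMonoid M] (f : G → M) :
    ∏ τ, f τ = ∏ i ∈ range p, f (σ ^ i) := by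
  classical
  symm
  apply Finset.prod_bij (fun i _ => σ ^ i)
  · intro i _; exact Finset.mem_univ _
  · intro i hi j hj hij
    rw [Finset.mem_range, ← orderOf_eq hp hcard hσ] at hi hj
    exact pow_injOn_Iio_orderOf hi hj hij
  · intro τ _
    obtain ⟨i, hi, hi2⟩ := exists_pow hp hcard hσ τ
    exact ⟨i, Finset.mem_range.mpr hi, hi2⟩
  · intro i _; rfl

end Cyclic

end BKGen.Genus
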