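import Pool.Agent.Lib.MP_7c08ba_nt.Gen.GenusIdeal
import Pool.Agent.Lib.MP_7c08ba_nt.Gen.GenusUnits

/-!
Genus theory, classes: the action of a group on the class group and ambiguous classes.
-/

namespace BKGen.Genus

open Ideal
open scoped Pointwise nonZeroDivisors

section Class

variable {S : Type*} [CommRing S] [IsDedekindDomain S]

open Classical in
/-- The class of a nonzero ideal. -/
noncomputable def cl (I : Ideal S) : ClassGroup S :=
  if h : I = ⊥ then 1 else ClassGroup.mk0 ⟨I, mem_nonZeroDivisors_of_ne_zero h⟩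

theorem cl_eq {I : Ideal S} (h : I ≠ ⊥) :
    cl I = ClassGroup.mk0 ⟨I, mem_nonZeroDivisors_of_ne_zero h⟩ := dif_neg h

theorem cl_mul {I J : Ideal S} (hI : I ≠ ⊥) (hJ : J ≠ ⊥) : cl (I * J) = cl I * cl J := by
  rw [cl_eq hI, cl_eq hJ, cl_eq (mul_ne_zero hI hJ), ← map_mul]
  rfl

theorem cl_one : cl (1 : Ideal S) = 1 := by
  rw [cl_eq one_ne_zero]
  exact map_one _

theorem cl_pow {I : Ideal S} (hI : I ≠ ⊥) (n : ℕ) : cl (I ^ n) = cl I ^ n := by
  induction n with
  | zero => rw [pow_zero, pow_zero, cl_one]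
  | succ n ih => rw [pow_succ, pow_succ, cl_mul (pow_ne_zero n hI) hI, ih]

theorem cl_eq_one {I : Ideal S} (hI : I ≠ ⊥) : cl I = 1 ↔ ∃ a, a ≠ 0 ∧ I = span {a} := by
  rw [cl_eq hI, ClassGroup.mk0_eq_one_iff]
  constructor
  · intro h
    obtain ⟨a, ha⟩ := h.principal
    refine ⟨a, ?_, ha⟩
    rintro rfl
    apply hI
    rw [ha]
    simp
  · rintro ⟨a, -, ha⟩
    exact ⟨⟨a, ha⟩⟩

theorem cl_span {a : S} (ha : a ≠ 0) : cl (span {a}) = 1 :=
  (cl_eq_one (by rwa [Ne, span_singleton_eq_bot])).mpr ⟨a, ha, rfl⟩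

theorem cl_eq_cl {I J : Ideal S} (hI : I ≠ ⊥) (hJ : J ≠ ⊥) : cl I = cl J ↔
    ∃ x y : S, x ≠ 0 ∧ y ≠ 0 ∧ span {x} * I = span {y} * J := by
  rw [cl_eq hI, cl_eq hJ, ClassGroup.mk0_eq_mk0_iff]
  constructor
  · rintro ⟨x, y, hx, hy, h⟩
    exact ⟨x, y, hx, hy, h⟩
  · rintro ⟨x, y, hx, hy, h⟩
    exact ⟨x, y, hx, hy, h⟩

theorem cl_surj (c : ClassGroup S) : ∃ I : Ideal S, I ≠ ⊥ ∧ cl I = c := by
  obtain ⟨⟨I, hI⟩, rfl⟩ := ClassGroup.mk0_surjective c
  have hI0 : I ≠ ⊥ := nonZeroDivisors.ne_zero hI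
  exact ⟨I, hI0, cl_eq hI0⟩

theorem cl_pow_card {I : Ideal S} [Finite (ClassGroup S)] :
    cl I ^ Nat.card (ClassGroup S) = 1 := pow_card_eq_one'

variable {G : Type*} [Group G] [MulSemiringAction G S]

omit [IsDedekindDomain S] in
theorem smul_ne_bot {I : Ideal S} (hI : I ≠ ⊥) (g : G) : g • I ≠ ⊥ := by
  intro h
  apply hI
  have : I = g⁻¹ • (⊥ : Ideal S) := by rw [← h, inv_smul_smul]
  rw [this, smul_bot]

omit [IsDedekindDomain S] in
theorem smul_span (g : G) (x : S) : g • span {x} = span {g • x} := by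
  rw [smul_closure, Set.smul_set_singleton]

theorem cl_smul {I J : Ideal S} (hI : I ≠ ⊥) (hJ : J ≠ ⊥) (h : cl I = cl J) (g : G) :
    cl (g • I) = cl (g • J) := by
  rw [cl_eq_cl hI hJ] at h
  obtain ⟨x, y, hx, hy, h⟩ := h
  rw [cl_eq_cl (smul_ne_bot hI g) (smul_ne_bot hJ g)]
  refine ⟨g • x, g • y, (smul_ne_zero_iff_ne g).mpr hx, (smul_ne_zero_iff_ne g).mpr hy, ?_⟩
  rw [← smul_span, ← smul_span, ← smul_mul', ← smul_mul', h]

/-- the representing ideal of a class -/
noncomputable def rep (c : ClassGroup S) : Ideal S := (cl_surj c).choose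

theorem rep_ne (c : ClassGroup S) : rep c ≠ ⊥ := (cl_surj c).choose_spec.1

theorem cl_rep (c : ClassGroup S) : cl (rep c) = c := (cl_surj c).choose_spec.2

/-- The action on the classes killed by `n`. -/
@[reducible] noncomputable def action (n : ℕ) : MulAction G {c : ClassGroup S // c ^ n = 1} where
  smul g c := ⟨cl (g • rep c.1), by
    rw [← cl_pow (smul_ne_bot (rep_ne _) g), ← smul_pow']
    have h1 : cl (rep c.1 ^ n) = cl 1 := by
      rw [cl_pow (rep_ne _), cl_rep, c.2, cl_one]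
    rw [cl_smul (pow_ne_zero n (rep_ne _)) one_ne_zero h1 g, smul_one, cl_one]⟩
  one_smul c := by
    apply Subtype.ext
    change cl ((1 : G) • rep c.1) = c.1
    rw [one_smul, cl_rep]
  mul_smul g h c := by
    apply Subtype.ext
    change cl ((g * h) • rep c.1) = cl (g • rep (cl (h • rep c.1)))
    rw [mul_smul]
    exact cl_smul (smul_ne_bot (rep_ne _) h) (rep_ne _) (cl_rep _).symm g

/-- A nontrivial invariant class of order `p`. -/
theorem exists_fixed_class {p : ℕ} (hp : p.Prime) (hcard : Nat.card G = p)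
    [Finite (ClassGroup S)] (hd : p ∣ Nat.card (ClassGroup S)) :
    ∃ I : Ideal S, I ≠ ⊥ ∧ cl I ≠ 1 ∧ cl I ^ p = 1 ∧ ∀ g : G, cl (g • I) = cl I := by
  have := Fact.mk hp
  have hG : IsPGroup p G := IsPGroup.of_card (n := 1) (by rw [hcard, pow_one])
  let A : Subgroup (ClassGroup S) :=
    { carrier := {c | c ^ p = 1}
      one_mem' := one_pow p
      mul_mem' := by
        intro a b ha hb
        change (a * b) ^ p = 1
        rw [mul_pow, show a ^ p = 1 from ha, show b ^ p = 1 from hb, one_mul]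
      inv_mem' := by
        intro a ha
        change a⁻¹ ^ p = 1
        rw [inv_pow, show a ^ p = 1 from ha, inv_one] }
  have hA : IsPGroup p A := by
    rintro ⟨a, ha⟩
    exact ⟨1, Subtype.ext (by rw [pow_one]; exact ha)⟩
  have hdA : p ∣ Nat.card A := by
    obtain ⟨c, hc⟩ := exists_prime_orderOf_dvd_card' p hd
    have hcA : c ∈ A := by
      change c ^ p = 1
      rw [← hc, pow_orderOf_eq_one]
    have h1 : orderOf (⟨c, hcA⟩ : A) = p := by
      rw [← hc]
      exact (orderOf_injective A.subtype A.subtype_injective ⟨c, hcA⟩).symm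
    rw [← h1]
    exact orderOf_dvd_natCard _
  let act : MulAction G {c : ClassGroup S // c ^ p = 1} := action p
  have hone : (⟨1, one_pow p⟩ : {c : ClassGroup S // c ^ p = 1}) ∈
      MulAction.fixedPoints G {c : ClassGroup S // c ^ p = 1} := by
    intro g
    apply Subtype.ext
    change cl (g • rep 1) = 1
    have h1 : cl (rep (1 : ClassGroup S)) = cl (1 : Ideal S) := by rw [cl_rep, cl_one]
    rw [cl_smul (rep_ne _) one_ne_zero h1 g, smul_one, cl_one]
  obtain ⟨⟨b, hb⟩, hbfix, hb1⟩ := hG.exists_fixed_point_of_prime_dvd_card_of_fixed_point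
    {c : ClassGroup S // c ^ p = 1} hdA hone
  refine ⟨rep b, rep_ne b, ?_, ?_, ?_⟩
  · rw [cl_rep]
    rintro rfl
    exact hb1 rfl
  · rw [cl_rep, hb]
  · intro g
    rw [cl_rep]
    exact congrArg Subtype.val (hbfix g)

end Class

end BKGen.Genus
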