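import Mathlib

/-!
Genus theory, local part: norms of units in a totally and wildly ramified cyclic extension of odd
prime degree `p` of `ℚ_p`, in terms of an automorphism and a discrete valuation.
-/

namespace BKGen.Genus

open WithZero

variable {K : Type*} [Field K]

/-- the filtration of a discrete valuation -/
def M (v : Valuation K ℤᵐ⁰) (k : ℤ) : AddSubgroup K where
  carrier := {z | v z ≤ exp (-k)}
  add_mem' := by
    intro a b ha hb
    exact (v.map_add a b).trans (max_le ha hb)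
  zero_mem' := by simp
  neg_mem' := by
    intro a ha
    change v (-a) ≤ _
    rw [v.map_neg]; exact ha

theorem mem_M {v : Valuation K ℤᵐ⁰} {k : ℤ} {z : K} : z ∈ M v k ↔ v z ≤ exp (-k) := Iff.rfl

theorem mul_mem {v : Valuation K ℤᵐ⁰} {i j : ℤ} {z w : K} (hz : z ∈ M v i) (hw : w ∈ M v j) :
    z * w ∈ M v (i + j) := by
  rw [mem_M, v.map_mul]
  have h : exp (-(i + j)) = exp (-i) * exp (-j) := by rw [← exp_add]; congr 1; ring
  rw [h]
  exact mul_le_mul' hz hw

theorem M_anti {v : Valuation K ℤᵐ⁰} {i j : ℤ} (h : i ≤ j) {z : K} (hz : z ∈ M v j) :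
    z ∈ M v i := by
  rw [mem_M] at *
  exact hz.trans (exp_le_exp.mpr (by omega))

theorem lt_exp_iff {x : ℤᵐ⁰} {k : ℤ} : x < exp (-k) ↔ x ≤ exp (-(k + 1)) := by
  induction x using WithZero.expRecOn with
  | zero => simp [exp_pos]
  | exp n =>
    rw [exp_lt_exp, exp_le_exp]
    omega

theorem lt_one_iff {v : Valuation K ℤᵐ⁰} {z : K} : v z < 1 ↔ z ∈ M v 1 := by
  have h := lt_exp_iff (x := v z) (k := 0)
  rw [neg_zero, exp_zero, zero_add] at h
  exact h

theorem mem_M_zero {v : Valuation K ℤᵐ⁰} {z : K} : z ∈ M v 0 ↔ v z ≤ 1 := by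
  rw [mem_M, neg_zero, exp_zero]

theorem int_mem {v : Valuation K ℤᵐ⁰} (n : ℤ) : (n : K) ∈ M v 0 := by
  rw [mem_M_zero]
  exact intCast_mem v.integer n

/-- The data of a totally and wildly ramified cyclic extension of degree `p` of `ℚ_p`. -/
structure LocData (p : ℕ) (s : K ≃+* K) (v : Valuation K ℤᵐ⁰) (π : K) : Prop where
  hs : ∀ z, (s^[p]) z = z
  hv : ∀ z, v (s z) = v z
  hπ : v π = exp (-1)
  hres : ∀ z, v z ≤ 1 → ∃ n : ℤ, v (z - n) < 1
  hvp : v (p : K) = exp (-(p : ℤ))
  hfix : ∀ x, s x = x → x ≠ 0 → ∃ n : ℤ, v x = exp (p * n)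

theorem add_pow_dvd_aux {p : ℕ} (hp : p.Prime) (m : ℤ) :
    ∃ r : ℤ, (1 + p * m) ^ p - 1 = ((p ^ 2 : ℕ) : ℤ) * r := by
  have h : ∀ k : ℕ, ∃ r : ℤ, (1 + p * m) ^ k = 1 + k * p * m + (p : ℤ) ^ 2 * r := by
    intro k
    induction k with
    | zero => exact ⟨0, by simp⟩
    | succ k ih =>
      obtain ⟨r, hr⟩ := ih
      refine ⟨k * m ^ 2 + r + r * p * m, ?_⟩
      rw [pow_succ, hr]
      push_cast
      ring
  obtain ⟨r, hr⟩ := h p
  refine ⟨m + r, ?_⟩
  rw [hr]
  push_cast
  ring

namespace LocData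

variable {p : ℕ} {s : K ≃+* K} {v : Valuation K ℤᵐ⁰} {π : K} (h : LocData p s v π)

include h

theorem pi_ne : π ≠ 0 := by
  rintro rfl
  have := h.hπ
  rw [v.map_zero] at this
  exact exp_ne_zero this.symm

theorem p_pos : 0 < p := by
  rcases Nat.eq_zero_or_pos p with h0 | h0
  · exfalso
    have := h.hvp
    rw [h0] at this
    simp at this
  · exact h0

theorem pi_mem : π ∈ M v 1 := by
  rw [mem_M, h.hπ]

theorem p_mem : (p : K) ∈ M v p := by
  rw [mem_M, h.hvp]

theorem s_mem {z : K} {k : ℤ} : s z ∈ M v k ↔ z ∈ M v k := by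
  rw [mem_M, mem_M, h.hv]

theorem iter_v (i : ℕ) (z : K) : v ((s^[i]) z) = v z := by
  induction i with
  | zero => rfl
  | succ i ih => rw [Function.iterate_succ_apply', h.hv, ih]

theorem iter_mem {z : K} {k : ℤ} (i : ℕ) (hz : z ∈ M v k) : (s^[i]) z ∈ M v k := by
  rw [mem_M, h.iter_v]; exact hz

omit h in
theorem iter_sub (i : ℕ) (a b : K) : (s^[i]) (a - b) = (s^[i]) a - (s^[i]) b := by
  induction i with
  | zero => rfl
  | succ i ih => rw [Function.iterate_succ_apply', ih, map_sub, Function.iterate_succ_apply',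
      Function.iterate_succ_apply']

omit h in
theorem iter_mul (i : ℕ) (a b : K) : (s^[i]) (a * b) = (s^[i]) a * (s^[i]) b := by
  induction i with
  | zero => rfl
  | succ i ih => rw [Function.iterate_succ_apply', ih, map_mul, Function.iterate_succ_apply',
      Function.iterate_succ_apply']

omit h in
theorem iter_int (i : ℕ) (n : ℤ) : (s^[i]) (n : K) = n := by
  induction i with
  | zero => rfl
  | succ i ih => rw [Function.iterate_succ_apply', ih, map_intCast]

/-- the norm -/
noncomputable def nm (p : ℕ) (s : K ≃+* K) (z : K) : K := ∏ i ∈ Finset.range p, (s^[i]) z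

omit h in
theorem nm_mul (a b : K) : nm p s (a * b) = nm p s a * nm p s b := by
  unfold nm
  rw [← Finset.prod_mul_distrib]
  exact Finset.prod_congr rfl fun i _ => iter_mul i a b

theorem nm_s (z : K) : nm p s (s z) = nm p s z := by
  unfold nm
  have h1 : ∀ i, (s^[i]) (s z) = (s^[i + 1]) z := fun i => (Function.iterate_succ_apply s i z).symm
  simp only [h1]
  rcases Nat.eq_zero_or_pos p with h0 | h0
  · rw [h0]; rfl
  obtain ⟨q, hq⟩ : ∃ q, p = q + 1 := ⟨p - 1, by omega⟩
  rw [hq, Finset.prod_range_succ, Finset.prod_range_succ' (fun i => (s^[i]) z)]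
  congr 1
  rw [← hq, h.hs]
  rfl

theorem s_nm (z : K) : s (nm p s z) = nm p s z := by
  have h1 : s (nm p s z) = nm p s (s z) := by
    unfold nm
    rw [map_prod]
    refine Finset.prod_congr rfl fun i _ => ?_
    rw [← Function.iterate_succ_apply' s, Function.iterate_succ_apply]
  rw [h1, h.nm_s]

theorem nm_ne {z : K} (hz : z ≠ 0) : nm p s z ≠ 0 := by
  unfold nm
  rw [Finset.prod_ne_zero_iff]
  intro i _ h0
  apply hz
  have := h.iter_v i z
  rw [h0, v.map_zero] at this
  exact (v.zero_iff).mp this.symm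

/-- the difference -/
def dl (s : K ≃+* K) (z : K) : K := s z - z

theorem nm_chi {z : K} (hz : z ≠ 0) : nm p s (s z / z) = 1 := by
  have h1 : nm p s (s z / z) * nm p s z = nm p s (s z) := by
    rw [← nm_mul, div_mul_cancel₀ _ hz]
  rw [h.nm_s] at h1
  exact mul_right_cancel₀ (h.nm_ne hz) (by rw [h1, one_mul])

omit h in
theorem prod_sub_pow {v : Valuation K ℤᵐ⁰} {k : ℤ} {n : K} (hn : n ∈ M v 0) (a : ℕ → K)
    (ha : ∀ i, a i ∈ M v 0) (ha' : ∀ i, a i - n ∈ M v k) (m : ℕ) :
    ∏ i ∈ Finset.range m, a i - n ^ m ∈ M v k := by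
  induction m with
  | zero => simpa using (M v k).zero_mem
  | succ m ih =>
    rw [Finset.prod_range_succ, pow_succ]
    have e : (∏ i ∈ Finset.range m, a i) * a m - n ^ m * n =
        (∏ i ∈ Finset.range m, a i - n ^ m) * a m + n ^ m * (a m - n) := by ring
    rw [e]
    have hnm : n ^ m ∈ M v 0 := by
      rw [mem_M_zero] at hn ⊢
      rw [v.map_pow]
      exact pow_le_one' hn m
    have h1 := mul_mem ih (ha m)
    have h2 := mul_mem hnm (ha' m)
    rw [add_zero] at h1
    rw [zero_add] at h2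
    exact (M v k).add_mem h1 h2

/-- units are congruent to `1` times ... : `s z / z` is a one-unit -/
theorem chi_mem (hp : p.Prime) {z : K} (hz : z ≠ 0) : s z / z - 1 ∈ M v 1 := by
  have hw : v (s z / z) = 1 := by
    rw [map_div₀, h.hv, div_self ((v.ne_zero_iff).mpr hz)]
  obtain ⟨n, hn⟩ := h.hres (s z / z) hw.le
  rw [lt_one_iff] at hn
  have h1 := prod_sub_pow (v := v) (k := 1) (int_mem n) (fun i => (s^[i]) (s z / z))
    (fun i => h.iter_mem i (mem_M_zero.mpr hw.le)) (fun i => by
      have := h.iter_mem i hn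
      rw [iter_sub, iter_int] at this
      exact this) p
  change nm p s (s z / z) - (n : K) ^ p ∈ M v 1 at h1
  rw [h.nm_chi hz] at h1
  have : Fact p.Prime := ⟨hp⟩
  obtain ⟨m, hm⟩ : (p : ℤ) ∣ n ^ p - n := by
    have := ZMod.pow_card (p := p) (n : ZMod p)
    rw [← ZMod.intCast_zmod_eq_zero_iff_dvd, Int.cast_sub, Int.cast_pow, this, sub_self]
  have h2 : (n : K) ^ p - n ∈ M v 1 := by
    have e : (n : K) ^ p - n = (p : K) * (m : K) := by exact_mod_cast congrArg (Int.cast : ℤ → K) hm
    rw [e]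
    have := mul_mem h.p_mem (int_mem (v := v) m)
    refine M_anti ?_ this
    have := hp.pos
    omega
  have e : s z / z - 1 = (s z / z - n) - (1 - (n : K) ^ p) - ((n : K) ^ p - n) := by ring
  rw [e]
  exact (M v 1).sub_mem ((M v 1).sub_mem hn h1) h2

omit h in
theorem exists_exp {z : K} (hz : z ≠ 0) : ∃ k : ℤ, v z = exp (-k) := by
  refine ⟨-(log (v z)), ?_⟩
  rw [neg_neg, exp_log ((v.ne_zero_iff).mpr hz)]

theorem pi_zpow (k : ℤ) : v (π ^ k) = exp (-k) := by
  rw [map_zpow₀, h.hπ, ← exp_zsmul]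
  congr 1
  simp

omit h in
theorem chi_zpow (k : ℤ) : s (π ^ k) / π ^ k = (s π / π) ^ k := by
  rw [map_zpow₀, div_zpow]

omit h in
/-- one-units form a group -/
theorem one_mul_mem {k : ℤ} (hk : 0 ≤ k) {a b : K} (ha : a - 1 ∈ M v k) (hb : b - 1 ∈ M v k) :
    a * b - 1 ∈ M v k := by
  have e : a * b - 1 = (a - 1) * (b - 1) + ((a - 1) + (b - 1)) := by ring
  rw [e]
  refine (M v k).add_mem ?_ ((M v k).add_mem ha hb)
  exact M_anti (by omega) (mul_mem ha hb)

omit h in
theorem one_v {k : ℤ} (hk : 1 ≤ k) {a : K} (ha : a - 1 ∈ M v k) : v a = 1 := by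
  have h1 : v (a - 1) < 1 := lt_one_iff.mpr (M_anti hk ha)
  have h2 : a = 1 + (a - 1) := by ring
  rw [h2, v.map_one_add_of_lt h1]

omit h in
theorem one_inv_mem {k : ℤ} (hk : 1 ≤ k) {a : K} (ha : a - 1 ∈ M v k) : a⁻¹ - 1 ∈ M v k := by
  have hv := one_v hk ha
  have ha0 : a ≠ 0 := by
    rintro rfl
    rw [v.map_zero] at hv
    exact zero_ne_one hv
  have e : a⁻¹ - 1 = a⁻¹ * (-(a - 1)) := by
    field_simp
    ring
  rw [e]
  have h1 : a⁻¹ ∈ M v 0 := by
    rw [mem_M_zero, map_inv₀, hv, inv_one]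
  have := mul_mem h1 ((M v k).neg_mem ha)
  rwa [zero_add] at this

omit h in
theorem one_zpow_mem {k : ℤ} (hk : 1 ≤ k) {a : K} (ha : a - 1 ∈ M v k) (n : ℤ) :
    a ^ n - 1 ∈ M v k := by
  have hpow : ∀ {b : K}, b - 1 ∈ M v k → ∀ m : ℕ, b ^ m - 1 ∈ M v k := by
    intro b hb m
    induction m with
    | zero => simpa using (M v k).zero_mem
    | succ m ih =>
      rw [pow_succ]
      exact one_mul_mem (by omega) ih hb
  rcases n with n | n
  · rw [Int.ofNat_eq_natCast, zpow_natCast]
    exact hpow ha n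
  · rw [zpow_negSucc, ← inv_pow]
    exact hpow (one_inv_mem hk ha) _

/-- If `s` moved `π` too little then it would move everything too little. -/
theorem chi_mem_two (hp : p.Prime) (h3 : s π / π - 1 ∈ M v 2) {z : K} (hz : z ≠ 0) :
    s z / z - 1 ∈ M v 2 := by
  -- units
  have hunit : ∀ u : K, v u = 1 → s u / u - 1 ∈ M v 2 := by
    intro u hu
    have hu0 : u ≠ 0 := by
      rintro rfl
      rw [v.map_zero] at hu
      exact zero_ne_one hu
    obtain ⟨n, hn⟩ := h.hres u hu.le
    rw [lt_one_iff] at hn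
    set q := u - n with hq
    have e : s u / u - 1 = u⁻¹ * (s q - q) := by
      have h1 : s q = s u - n := by rw [hq, map_sub, map_intCast]
      rw [h1, hq]
      field_simp
      ring
    rw [e]
    have h1 : u⁻¹ ∈ M v 0 := by
      rw [mem_M_zero, map_inv₀, hu, inv_one]
    have h2 : s q - q ∈ M v 2 := by
      rcases eq_or_ne q 0 with h0 | h0
      · rw [h0, map_zero, sub_zero]; exact (M v 2).zero_mem
      · have e2 : s q - q = q * (s q / q - 1) := by field_simp
        rw [e2]
        exact mul_mem hn (h.chi_mem hp h0)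
    have := mul_mem h1 h2
    rwa [zero_add] at this
  obtain ⟨k, hk⟩ := exists_exp (v := v) hz
  set u := z / π ^ k with hu
  have hpk : π ^ k ≠ 0 := zpow_ne_zero k h.pi_ne
  have hvu : v u = 1 := by
    rw [hu, map_div₀, hk, h.pi_zpow, div_self exp_ne_zero]
  have hu0 : u ≠ 0 := div_ne_zero hz hpk
  have e : s z / z = (s (π ^ k) / π ^ k) * (s u / u) := by
    have hzu : z = π ^ k * u := by rw [hu]; field_simp
    rw [hzu, map_mul]
    field_simp
  rw [e]
  refine one_mul_mem (by norm_num) ?_ (hunit u hvu)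
  rw [chi_zpow]
  exact one_zpow_mem (by norm_num) h3 k

/-- the trace -/
noncomputable def tr (p : ℕ) (s : K ≃+* K) (z : K) : K := ∑ i ∈ Finset.range p, (s^[i]) z

theorem s_tr (z : K) : s (tr p s z) = tr p s z := by
  unfold tr
  rw [map_sum]
  have h1 : ∀ i, s ((s^[i]) z) = (s^[i + 1]) z := fun i =>
    (Function.iterate_succ_apply' s i z).symm
  simp only [h1]
  have hp := h.p_pos
  obtain ⟨q, hq⟩ : ∃ q, p = q + 1 := ⟨p - 1, by omega⟩
  rw [hq, Finset.sum_range_succ, Finset.sum_range_succ' (fun i => (s^[i]) z)]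
  congr 1
  rw [← hq, h.hs]
  rfl

/-- the trace in terms of differences -/
theorem tr_eq (z : K) : tr p s z =
    ∑ j ∈ Finset.range p, (p.choose (j + 1) : K) * ((dl s)^[j]) z := by
  let S : AddMonoid.End K := s.toAddMonoidHom
  have hS : ∀ i, (s^[i]) z = (S ^ i) z := by
    intro i
    induction i with
    | zero => rfl
    | succ i ih => rw [Function.iterate_succ_apply', ih, pow_succ']; rfl
  have hD : ∀ j, ((dl s)^[j]) z = ((S - 1) ^ j) z := by
    intro j
    induction j with
    | zero => rfl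
    | succ j ih => rw [Function.iterate_succ_apply', ih, pow_succ']; rfl
  have key := congrArg (Polynomial.aeval (R := ℤ) (S - 1))
    (Polynomial.geom_sum_X_comp_X_add_one_eq_sum (R := ℤ) p)
  simp only [Polynomial.comp, map_sum, map_mul,
    map_pow, Polynomial.aeval_X, map_add, map_one, map_natCast, sub_add_cancel,
    Polynomial.eval₂_finsetSum, Polynomial.eval₂_X_pow] at key
  have key2 := DFunLike.congr_fun key z
  unfold tr
  simp only [hS, hD]
  have e1 : ∀ (t : Finset ℕ) (f : ℕ → AddMonoid.End K), (∑ i ∈ t, f i) z = ∑ i ∈ t, f i z := by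
    intro t f
    exact AddMonoidHom.finsetSum_apply _ _ _
  rw [e1, e1] at key2
  rw [key2]
  refine Finset.sum_congr rfl fun j _ => ?_
  have e2 : ((p.choose (j + 1) : ℕ) : AddMonoid.End K) = (p.choose (j + 1)) • (1 : AddMonoid.End K) := by
    rw [nsmul_eq_mul, mul_one]
  rw [e2, smul_mul_assoc, one_mul]
  change (p.choose (j + 1)) • (((S - 1) ^ j) z) = _
  rw [nsmul_eq_mul]

/-- iterated differences -/
theorem iter_dl_mem {c : ℤ} (hc : ∀ z : K, z ≠ 0 → s z / z - 1 ∈ M v c) {k : ℤ} {z : K}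
    (hz : z ∈ M v k) (j : ℕ) : ((dl s)^[j]) z ∈ M v (k + c * j) := by
  induction j with
  | zero => simpa using hz
  | succ j ih =>
    rw [Function.iterate_succ_apply']
    set y := ((dl s)^[j]) z
    change s y - y ∈ _
    rcases eq_or_ne y 0 with h0 | h0
    · rw [h0, map_zero, sub_zero]; exact (M v _).zero_mem
    · have e : s y - y = y * (s y / y - 1) := by field_simp
      rw [e]
      have := mul_mem ih (hc y h0)
      refine M_anti (le_of_eq ?_) this
      push_cast
      ring

/-- The ramification is as small as possible. -/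
theorem chi_pi_not (hp : p.Prime) (hp2 : p ≠ 2) : s π / π - 1 ∉ M v 2 := by
  intro h2
  have hc : ∀ z : K, z ≠ 0 → s z / z - 1 ∈ M v 2 := fun z hz => h.chi_mem_two hp h2 hz
  have hp3 : 3 ≤ p := by
    have := hp.two_le
    omega
  -- the trace of `π`
  have htr : tr p s π - (p : K) * π ∈ M v (p + 2) := by
    rw [h.tr_eq]
    obtain ⟨q, hq⟩ : ∃ q, p = q + 1 := ⟨p - 1, by omega⟩
    have h0 : ((p.choose (0 + 1) : ℕ) : K) * ((dl s)^[0]) π = (p : K) * π := by
      simp
    have e : ∑ j ∈ Finset.range p, (p.choose (j + 1) : K) * ((dl s)^[j]) π - (p : K) * π =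
        ∑ j ∈ Finset.range q, (p.choose (j + 1 + 1) : K) * ((dl s)^[j + 1]) π := by
      conv_lhs => rw [hq, Finset.sum_range_succ', ← hq, h0]
      rw [add_sub_cancel_right]
    rw [e]
    refine (M v _).sum_mem fun j hj => ?_
    rw [Finset.mem_range] at hj
    have h1 := h.iter_dl_mem hc h.pi_mem (j + 1)
    rcases eq_or_lt_of_le (show j + 1 + 1 ≤ p by omega) with he | hlt
    · -- last term
      have h3 : ((p.choose (j + 1 + 1) : ℕ) : K) = 1 := by
        rw [he, Nat.choose_self]; simp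
      rw [h3, one_mul]
      refine M_anti ?_ h1
      have : (p : ℤ) = j + 1 + 1 := by exact_mod_cast he.symm
      rw [this]
      push_cast
      omega
    · have h3 : ((p.choose (j + 1 + 1) : ℕ) : K) ∈ M v p := by
        obtain ⟨m, hm⟩ := hp.dvd_choose_self (k := j + 1 + 1) (by omega) hlt
        rw [hm, Nat.cast_mul]
        have := mul_mem h.p_mem (int_mem (v := v) (m : ℤ))
        rw [add_zero] at this
        exact_mod_cast this
      have h4 := mul_mem h3 h1
      refine M_anti ?_ h4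
      push_cast
      omega
  have hpp : v ((p : K) * π) = exp (-(p + 1 : ℤ)) := by
    rw [v.map_mul, h.hvp, h.hπ, ← exp_add]
    congr 1
    ring
  have hlt : v (tr p s π - (p : K) * π) < v ((p : K) * π) := by
    rw [hpp]
    refine lt_of_le_of_lt (mem_M.mp htr) ?_
    rw [exp_lt_exp]
    omega
  have hvt : v (tr p s π) = exp (-(p + 1 : ℤ)) := by
    have e : tr p s π = (p : K) * π + (tr p s π - (p : K) * π) := by ring
    rw [e, v.map_add_eq_of_lt_left hlt, hpp]
  have hne : tr p s π ≠ 0 := by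
    intro h0
    rw [h0, v.map_zero] at hvt
    exact exp_ne_zero hvt.symm
  obtain ⟨n, hn⟩ := h.hfix _ (h.s_tr π) hne
  rw [hvt, exp_inj] at hn
  have h5 : (p : ℤ) ∣ 1 := ⟨-n - 1, by linarith⟩
  have := Int.le_of_dvd one_pos h5
  omega

theorem v_chi_pi (hp : p.Prime) (hp2 : p ≠ 2) : v (s π / π - 1) = exp (-1) := by
  have h1 := mem_M.mp (h.chi_mem hp h.pi_ne)
  have h2 := h.chi_pi_not hp hp2
  rw [mem_M, not_le] at h2
  have h3 : ¬ v (s π / π - 1) < exp (-1) := by
    intro h4
    rw [lt_exp_iff] at h4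
    exact absurd h4 (not_le.mpr h2)
  exact le_antisymm h1 (not_lt.mp h3)

/-- `(s π / π) ^ k - 1` for `k` prime to `p` -/
theorem v_chi_pow (hp : p.Prime) (hp2 : p ≠ 2) {k : ℕ} (hk : ¬ p ∣ k) :
    v ((s π / π) ^ k - 1) = exp (-1) := by
  set w := s π / π with hw
  have h1 : w - 1 ∈ M v 1 := h.chi_mem hp h.pi_ne
  -- `w ^ k - 1 - k (w - 1)` is in `M 2`
  have h2 : ∀ k : ℕ, w ^ k - 1 - k * (w - 1) ∈ M v 2 := by
    intro k
    induction k with
    | zero => simp [(M v 2).zero_mem]
    | succ k ih =>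
      have e : w ^ (k + 1) - 1 - ((k + 1 : ℕ) : K) * (w - 1) =
          (w ^ k - 1 - k * (w - 1)) + (w ^ k - 1) * (w - 1) := by
        push_cast
        ring
      rw [e]
      refine (M v 2).add_mem ih ?_
      have h3 : w ^ k - 1 ∈ M v 1 := by
        have := one_zpow_mem (v := v) le_rfl h1 (k : ℤ)
        rwa [zpow_natCast] at this
      exact mul_mem h3 h1
  have hvk : v ((k : ℕ) : K) = 1 := by
    obtain ⟨a, b, hab⟩ := Nat.isCoprime_iff_coprime.mpr ((hp.coprime_iff_not_dvd).mpr hk)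
    have hle : v ((k : ℕ) : K) ≤ 1 := by
      have := mem_M_zero.mp (int_mem (v := v) (k : ℤ))
      rwa [Int.cast_natCast] at this
    refine le_antisymm hle (not_lt.mp fun hlt => ?_)
    have h4 : (1 : K) = a * p + b * k := by exact_mod_cast congrArg (Int.cast : ℤ → K) hab.symm
    have h5 : (1 : K) ∈ M v 1 := by
      rw [h4]
      refine (M v 1).add_mem ?_ ?_
      · have := mul_mem (int_mem (v := v) a) h.p_mem
        refine M_anti ?_ this
        have := hp.pos
        omega
      · have := mul_mem (int_mem (v := v) b) (lt_one_iff.mp hlt)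
        rwa [zero_add] at this
    rw [mem_M, v.map_one, ← exp_zero, exp_le_exp] at h5
    omega
  have h3 : v ((k : K) * (w - 1)) = exp (-1) := by
    rw [v.map_mul, hvk, one_mul]
    exact h.v_chi_pi hp hp2
  have h4 : v (w ^ k - 1 - k * (w - 1)) < v ((k : K) * (w - 1)) := by
    rw [h3]
    exact lt_of_le_of_lt (mem_M.mp (h2 k)) (by rw [exp_lt_exp]; norm_num)
  have e : w ^ k - 1 = k * (w - 1) + (w ^ k - 1 - k * (w - 1)) := by ring
  rw [e, v.map_add_eq_of_lt_left h4, h3]

/-- One-units of level `k ≤ p` are, up to higher level, of the form `s z / z`. -/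
theorem exists_chi (hp : p.Prime) (hp2 : p ≠ 2) {k : ℕ} (hk1 : 1 ≤ k) (hkp : k ≤ p) {w : K}
    (hw : w - 1 ∈ M v k) : ∃ z : K, z ≠ 0 ∧ w / (s z / z) - 1 ∈ M v (k + 1) := by
  have hχ : ∀ z : K, z ≠ 0 → v (s z / z) = 1 := fun z hz => by
    rw [map_div₀, h.hv, div_self ((v.ne_zero_iff).mpr hz)]
  -- reduction: find `z` with `w - s z / z` of level `k + 1`
  suffices H : ∃ z : K, z ≠ 0 ∧ w - s z / z ∈ M v (k + 1) by
    obtain ⟨z, hz, hwz⟩ := H
    refine ⟨z, hz, ?_⟩
    have hne : s z / z ≠ 0 := div_ne_zero ((map_ne_zero s).mpr hz) hz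
    have e : ∀ c : K, c ≠ 0 → w / c - 1 = c⁻¹ * (w - c) := by
      intro c hc
      field_simp
    rw [e _ hne]
    have h1 : (s z / z)⁻¹ ∈ M v 0 := by
      rw [mem_M_zero, map_inv₀, hχ z hz, inv_one]
    have := mul_mem h1 hwz
    rwa [zero_add] at this
  rcases eq_or_lt_of_le hk1 with h1 | h1
  · -- `k = 1`
    subst h1
    set c := s π / π with hc
    have hvc := h.v_chi_pi hp hp2
    have hc0 : c - 1 ≠ 0 := by
      intro h0
      rw [← hc, h0, v.map_zero] at hvc
      exact exp_ne_zero hvc.symm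
    obtain ⟨m, hm⟩ := h.hres ((w - 1) / (c - 1)) (by
      rw [map_div₀, ← hc] at *
      rw [hvc]
      have := mem_M.mp hw
      rw [div_le_iff₀ (exp_pos), one_mul]
      exact_mod_cast this)
    rw [lt_one_iff] at hm
    refine ⟨π ^ m, zpow_ne_zero m h.pi_ne, ?_⟩
    rw [chi_zpow, ← hc]
    -- `c ^ m - 1 - m (c - 1)` is in `M 2`
    have hc1 : c - 1 ∈ M v 1 := by rw [mem_M, ← hc] at *; exact hvc.le
    have hcm : c ^ m - 1 - m * (c - 1) ∈ M v 2 := by
      have hnat : ∀ {b : K}, b - 1 ∈ M v 1 → ∀ n : ℕ, b ^ n - 1 - n * (b - 1) ∈ M v 2 := by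
        intro b hb n
        induction n with
        | zero => simp [(M v 2).zero_mem]
        | succ n ih =>
          have e : b ^ (n + 1) - 1 - ((n + 1 : ℕ) : K) * (b - 1) =
              (b ^ n - 1 - n * (b - 1)) + (b ^ n - 1) * (b - 1) := by
            push_cast
            ring
          rw [e]
          refine (M v 2).add_mem ih ?_
          have h3 : b ^ n - 1 ∈ M v 1 := by
            have := one_zpow_mem (v := v) le_rfl hb (n : ℤ)
            rwa [zpow_natCast] at this
          exact mul_mem h3 hb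
      rcases m with n | n
      · have := hnat hc1 n
        simpa using this
      · have hinv := one_inv_mem (v := v) le_rfl hc1
        have h3 := hnat hinv (n + 1)
        have hcne : c ≠ 0 := div_ne_zero ((map_ne_zero s).mpr h.pi_ne) h.pi_ne
        have e : c ^ (Int.negSucc n) - 1 - ((Int.negSucc n : ℤ) : K) * (c - 1) =
            (c⁻¹ ^ (n + 1) - 1 - ((n + 1 : ℕ) : K) * (c⁻¹ - 1)) +
              ((n + 1 : ℕ) : K) * ((c⁻¹ - 1) * -(c - 1) * -1) * -1 := by
          rw [zpow_negSucc, ← inv_pow, Int.cast_negSucc]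
          push_cast
          field_simp
          ring
        rw [e]
        refine (M v 2).add_mem h3 ?_
        have h4 := mul_mem hinv hc1
        have h5 := mul_mem (int_mem (v := v) ((n + 1 : ℕ) : ℤ)) h4
        have e2 : ((n + 1 : ℕ) : K) * ((c⁻¹ - 1) * -(c - 1) * -1) * -1 =
            -((((n + 1 : ℕ) : ℤ) : K) * ((c⁻¹ - 1) * (c - 1))) := by
          push_cast
          ring
        rw [e2]
        refine (M v 2).neg_mem (M_anti ?_ h5)
        norm_num
    have e : w - c ^ m = (c - 1) * ((w - 1) / (c - 1) - m) - (c ^ m - 1 - m * (c - 1)) := by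
      field_simp
      ring
    rw [e]
    refine (M v _).sub_mem ?_ ?_
    · have := mul_mem hc1 hm
      exact M_anti (by norm_num) this
    · exact M_anti (by norm_num) hcm
  · -- `2 ≤ k ≤ p`
    have hpk : ¬ p ∣ k - 1 := by
      intro hd
      have := Nat.le_of_dvd (by omega) hd
      omega
    set a := s π / π with ha
    have hva := h.v_chi_pow hp hp2 hpk
    -- `δ = s (π^(k-1)) - π^(k-1)` has valuation `exp (-k)`
    set t := π ^ (k - 1) with ht
    have ht0 : t ≠ 0 := pow_ne_zero _ h.pi_ne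
    have hδ : s t - t = t * (a ^ (k - 1) - 1) := by
      rw [ha, div_pow, ← map_pow, ← ht]
      field_simp
    have hvt : v t = exp (-((k : ℤ) - 1)) := by
      rw [ht, v.map_pow, h.hπ, ← exp_nsmul]
      congr 1
      rw [nsmul_eq_mul]
      have : ((k - 1 : ℕ) : ℤ) = (k : ℤ) - 1 := by omega
      rw [this]; ring
    have hvδ : v (s t - t) = exp (-(k : ℤ)) := by
      rw [hδ, v.map_mul, hvt, hva, ← exp_add]
      congr 1
      ring
    have hδ0 : s t - t ≠ 0 := by
      intro h0
      rw [h0, v.map_zero] at hvδ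
      exact exp_ne_zero hvδ.symm
    obtain ⟨m, hm⟩ := h.hres ((w - 1) / (s t - t)) (by
      rw [map_div₀, hvδ, div_le_iff₀ exp_pos, one_mul]
      exact mem_M.mp hw)
    rw [lt_one_iff] at hm
    have hmt : (m : K) * t ∈ M v (k - 1) := by
      have := mul_mem (int_mem (v := v) m) (mem_M.mpr hvt.le)
      rwa [zero_add] at this
    have hz1 : (1 + m * t) - 1 ∈ M v (k - 1) := by
      rw [add_sub_cancel_left]; exact hmt
    have hvz : v (1 + m * t) = 1 := one_v (k := (k : ℤ) - 1) (by omega) hz1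
    have hz0 : (1 + m * t) ≠ 0 := by
      intro h0
      rw [h0, v.map_zero] at hvz
      exact zero_ne_one hvz
    refine ⟨1 + m * t, hz0, ?_⟩
    have hs : s (1 + m * t) = 1 + m * t + m * (s t - t) := by
      rw [map_add, map_one, map_mul, map_intCast]
      ring
    have e : w - s (1 + m * t) / (1 + m * t) = (s t - t) * ((w - 1) / (s t - t) - m) +
        (m * (s t - t)) * ((1 + m * t)⁻¹ * (m * t)) := by
      rw [hs]
      field_simp
      ring
    rw [e]
    refine (M v _).add_mem ?_ ?_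
    · exact mul_mem (mem_M.mpr hvδ.le) hm
    · have h2 : (1 + m * t)⁻¹ ∈ M v 0 := by
        rw [mem_M_zero, map_inv₀, hvz, inv_one]
      have h3 := mul_mem (int_mem (v := v) m) (mem_M.mpr hvδ.le)
      have h4 := mul_mem h3 (mul_mem h2 hmt)
      refine M_anti ?_ h4
      omega

/-- norms of one-units of level `p + 1` -/
theorem nm_high (hp : p.Prime) {w : K} (hw : w - 1 ∈ M v (p + 1)) :
    nm p s w - 1 ∈ M v (2 * p) := by
  have h1 := prod_sub_pow (v := v) (k := (p : ℤ) + 1) (n := 1) (by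
      rw [mem_M_zero, v.map_one]) (fun i => (s^[i]) w) (fun i => by
        rw [mem_M_zero, h.iter_v, one_v (k := (p : ℤ) + 1) (by have := hp.pos; omega) hw])
      (fun i => by
        have := h.iter_mem i hw
        rw [iter_sub] at this
        have h2 := iter_int (s := s) i 1
        rw [Int.cast_one] at h2
        rwa [h2] at this) p
  rw [one_pow] at h1
  change nm p s w - 1 ∈ _ at h1
  rcases eq_or_ne (nm p s w - 1) 0 with h0 | h0
  · rw [h0]; exact (M v _).zero_mem
  · obtain ⟨n, hn⟩ := h.hfix (nm p s w - 1) (by rw [map_sub, h.s_nm, map_one]) h0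
    rw [mem_M, hn, exp_le_exp] at h1
    rw [mem_M, hn, exp_le_exp]
    have hp0 : (0 : ℤ) < p := by exact_mod_cast hp.pos
    have h2 : n ≤ -2 := by
      by_contra hcon
      have h3 : -1 ≤ n := by omega
      nlinarith
    nlinarith

theorem nm_one_unit (hp : p.Prime) (hp2 : p ≠ 2) {w : K} (hw : w - 1 ∈ M v 1) :
    nm p s w - 1 ∈ M v (2 * p) := by
  -- descending induction on the level
  suffices H : ∀ j : ℕ, j ≤ p → ∀ w : K, w - 1 ∈ M v ((p : ℤ) + 1 - j) →
      nm p s w - 1 ∈ M v (2 * p) by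
    exact H p le_rfl w (by simpa using hw)
  intro j
  induction j with
  | zero => intro _ w hw; exact h.nm_high hp (by simpa using hw)
  | succ j ih =>
    intro hj w hw
    have hk : ((p - j : ℕ) : ℤ) = (p : ℤ) + 1 - ((j + 1 : ℕ) : ℤ) := by
      push_cast
      omega
    rw [← hk] at hw
    obtain ⟨z, hz, hwz⟩ := h.exists_chi hp hp2 (k := p - j) (by omega) (by omega) hw
    have h1 := ih (by omega) (w / (s z / z)) (by
      refine M_anti (le_of_eq ?_) hwz
      push_cast at hk
      omega)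
    have h2 : nm p s w = nm p s (w / (s z / z)) := by
      have hne : s z / z ≠ 0 := div_ne_zero ((map_ne_zero s).mpr hz) hz
      have h3 : w = (w / (s z / z)) * (s z / z) := (div_mul_cancel₀ w hne).symm
      conv_lhs => rw [h3]
      rw [nm_mul, h.nm_chi hz, mul_one]
    rw [h2]
    exact h1

/-- **Local theorem**: norms of units are `p`-th powers modulo `p ^ 2`. -/
theorem nm_unit (hp : p.Prime) (hp2 : p ≠ 2) {u : K} (hu : v u = 1) :
    nm p s u ^ (p - 1) - 1 ∈ M v (2 * p) := by
  obtain ⟨n, hn⟩ := h.hres u hu.le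
  rw [lt_one_iff] at hn
  have hvn : v (n : K) = 1 := by
    have e : (n : K) = u - (u - n) := by ring
    rw [e, v.map_sub_eq_of_lt_left (by rw [hu]; exact lt_one_iff.mpr hn), hu]
  have hn0 : (n : K) ≠ 0 := by
    intro h0
    rw [h0, v.map_zero] at hvn
    exact zero_ne_one hvn
  have hw : u / n - 1 ∈ M v 1 := by
    have e : u / n - 1 = (n : K)⁻¹ * (u - n) := by
      field_simp
    rw [e]
    have h1 : (n : K)⁻¹ ∈ M v 0 := by
      rw [mem_M_zero, map_inv₀, hvn, inv_one]
    have := mul_mem h1 hn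
    rwa [zero_add] at this
  have h1 := h.nm_one_unit hp hp2 hw
  have h2 : nm p s u = (n : K) ^ p * nm p s (u / n) := by
    have h3 : u = (n : K) * (u / n) := by field_simp
    conv_lhs => rw [h3]
    rw [nm_mul]
    congr 1
    unfold nm
    simp only [iter_int]
    rw [Finset.prod_const, Finset.card_range]
  have h4 : nm p s (u / n) ^ (p - 1) - 1 ∈ M v (2 * p) := by
    have := one_zpow_mem (v := v) (k := 2 * (p : ℤ)) (by have := hp.pos; omega) h1
      ((p - 1 : ℕ) : ℤ)
    rwa [zpow_natCast] at this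
  have h5 : ((n : K) ^ p) ^ (p - 1) - 1 ∈ M v (2 * p) := by
    -- Euler
    have hcop : IsCoprime n (p : ℤ) := by
      rw [isCoprime_comm, (Nat.prime_iff_prime_int.mp hp).coprime_iff_not_dvd]
      rintro ⟨m, hm⟩
      have h6 : (n : K) ∈ M v 1 := by
        rw [hm]
        push_cast
        have := mul_mem h.p_mem (int_mem (v := v) m)
        refine M_anti ?_ this
        have := hp.pos
        omega
      rw [mem_M, hvn, ← exp_zero, exp_le_exp] at h6
      omega
    have h6 : n ^ (p * (p - 1)) ≡ 1 [ZMOD (p ^ 2 : ℕ)] := by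
      have h7 := Int.ModEq.pow_card_sub_one_eq_one hp hcop
      obtain ⟨m, hm⟩ := h7.symm.dvd
      have h8 : n ^ (p - 1) = 1 + p * m := by linarith
      have h9 : n ^ (p * (p - 1)) = (1 + p * m) ^ p := by rw [mul_comm, pow_mul, h8]
      rw [h9]
      have h10 : ((p ^ 2 : ℕ) : ℤ) ∣ (1 + p * m) ^ p - 1 := by
        obtain ⟨r, hr⟩ := add_pow_dvd_aux hp m
        exact ⟨r, hr⟩
      exact (Int.modEq_iff_dvd.mpr h10).symm
    obtain ⟨m, hm⟩ := h6.symm.dvd
    have e : ((n : K) ^ p) ^ (p - 1) - 1 = (p : K) * ((p : K) * (m : K)) := by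
      rw [← pow_mul]
      have := congrArg (Int.cast : ℤ → K) hm
      push_cast at this
      rw [this]
      ring
    rw [e]
    have h7 := mul_mem h.p_mem (mul_mem h.p_mem (int_mem (v := v) m))
    refine M_anti ?_ h7
    omega
  rw [h2, mul_pow]
  exact one_mul_mem (by have := hp.pos; omega) h5 h4

end LocData

end BKGen.Genus
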