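import Pool.Agent.Lib.MP_7c08ba_nt.Gen.GenusStep
import Pool.Agent.Lib.MP_7c08ba_nt.Gen.GenusLocal

/-!
Genus theory: the local data at a totally ramified prime of a cyclic extension of number fields of
prime degree.
-/

set_option linter.unusedSectionVars false

namespace BKGen.Genus

open Ideal NumberField IsDedekindDomain HeightOneSpectrum WithZero
open scoped Pointwise

variable {F K : Type*} [Field F] [NumberField F] [Field K] [NumberField K] [Algebra F K]
  [IsGalois F K]

theorem coe_smul_int (σ : Gal(K/F)) (x : 𝓞 K) : ((σ • x : 𝓞 K) : K) = σ (x : K) := rfl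

theorem intVal_smul (σ : Gal(K/F)) (v : HeightOneSpectrum (𝓞 K)) (hv : σ • v.asIdeal = v.asIdeal)
    (x : 𝓞 K) : v.intValuation (σ • x) = v.intValuation x := by
  have hmem : ∀ n : ℕ, σ • x ∈ v.asIdeal ^ n ↔ x ∈ v.asIdeal ^ n := by
    intro n
    have h1 : σ • (v.asIdeal ^ n) = v.asIdeal ^ n := by rw [smul_pow', hv]
    constructor
    · intro h
      rw [← h1, smul_mem_pointwise_smul_iff] at h
      exact h
    · intro h
      rw [← h1, smul_mem_pointwise_smul_iff]
      exact h
  have hle : ∀ n : ℕ, v.intValuation (σ • x) ≤ exp (-(n : ℤ)) ↔ v.intValuation x ≤ exp (-(n : ℤ)) := by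
    intro n
    rw [intValuation_le_pow_iff_mem, intValuation_le_pow_iff_mem, hmem]
  by_cases hx : x = 0
  · rw [hx, smul_zero]
  have hx' : σ • x ≠ 0 := (smul_ne_zero_iff_ne σ).mpr hx
  have h1 := v.intValuation_if_neg hx
  have h2 := v.intValuation_if_neg hx'
  apply le_antisymm
  · rw [h1]
    exact (hle _).mpr h1.le
  · rw [h2]
    exact (hle _).mp h2.le

theorem val_smul (σ : Gal(K/F)) (v : HeightOneSpectrum (𝓞 K)) (hv : σ • v.asIdeal = v.asIdeal)
    (z : K) : v.valuation K (σ z) = v.valuation K z := by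
  obtain ⟨x, y, hy, rfl⟩ := IsFractionRing.div_surjective (A := 𝓞 K) z
  rw [map_div₀, map_div₀, map_div₀]
  have h : ∀ x : 𝓞 K, v.valuation K (σ (algebraMap (𝓞 K) K x)) =
      v.valuation K (algebraMap (𝓞 K) K x) := by
    intro x
    rw [← coe_smul_int, valuation_of_algebraMap, valuation_of_algebraMap, intVal_smul σ v hv]
  rw [h, h]

theorem iterate_eq (σ : Gal(K/F)) (i : ℕ) (z : K) :
    ((σ : K ≃+* K) ^[i]) z = (σ ^ i) z := by
  induction i generalizing z with
  | zero => rfl
  | succ i ih =>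
    rw [Function.iterate_succ_apply', ih, pow_succ']
    rfl

/-- The local data. -/
theorem locData {p : ℕ} (hp : p.Prime) (hcard : Nat.card Gal(K/F) = p) {σ : Gal(K/F)}
    (hσ : σ ≠ 1) (v : HeightOneSpectrum (𝓞 K)) (u : HeightOneSpectrum (𝓞 F))
    [hlo : v.asIdeal.LiesOver u.asIdeal] (hQ : σ • v.asIdeal = v.asIdeal)
    (he : v.asIdeal.ramificationIdx (𝓞 F) = p)
    (hres : ∀ x : 𝓞 K, ∃ n : ℤ, x - n ∈ v.asIdeal)
    (hvp : u.valuation F (p : F) = exp (-1)) :
    ∃ π : K, LocData p (σ : K ≃+* K) (v.valuation K) π := by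
  obtain ⟨π, hπ⟩ := v.valuation_exists_uniformizer K
  have he' : u.asIdeal.ramificationIdx' v.asIdeal = p := by
    rw [ramificationIdx'_eq_ramificationIdx u.asIdeal v.asIdeal u.ne_bot, he]
  have hval : ∀ x : F, v.valuation K (algebraMap F K x) = u.valuation F x ^ p := by
    intro x
    rw [← valuation_liesOver K u v x, he']
  refine ⟨π, ⟨?_, ?_, hπ, ?_, ?_, ?_⟩⟩
  · intro z
    rw [iterate_eq, pow_card_eq hp hcard hσ]
    rfl
  · intro z
    exact val_smul σ v hQ z
  · intro z hz
    obtain ⟨a, ha⟩ := v.exists_valuation_sub_lt_of_integer (K := K) hz 1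
    obtain ⟨n, hn⟩ := hres a
    refine ⟨n, ?_⟩
    have h1 : z - (n : K) = -(algebraMap (𝓞 K) K a - z) + algebraMap (𝓞 K) K (a - n) := by
      rw [map_sub, map_intCast]; ring
    rw [h1]
    refine ((v.valuation K).map_add _ _).trans_lt (max_lt ?_ ?_)
    · rw [Valuation.map_neg]
      exact ha
    · exact (v.valuation_lt_one_iff_mem _).mpr hn
  · have h1 := hval (p : F)
    rw [map_natCast, hvp] at h1
    rw [h1, ← exp_nsmul]
    congr 1
    simp
  · intro x hx hx0
    have h1 : x ∈ Set.range (algebraMap F K) := by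
      rw [IsGalois.mem_range_algebraMap_iff_fixed]
      intro τ
      obtain ⟨i, -, rfl⟩ := exists_pow hp hcard hσ τ
      rw [← iterate_eq]
      have hfix : Function.IsFixedPt (σ : K ≃+* K) x := hx
      exact hfix.iterate i
    obtain ⟨y, rfl⟩ := h1
    have hy0 : y ≠ 0 := by
      rintro rfl
      exact hx0 (map_zero _)
    have hvy : u.valuation F y ≠ 0 := by
      rwa [Ne, (u.valuation F).zero_iff]
    obtain ⟨m, hm⟩ : ∃ m : ℤ, u.valuation F y = exp m :=
      ⟨log (u.valuation F y), (exp_log hvy).symm⟩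
    refine ⟨m, ?_⟩
    rw [hval, hm, ← exp_nsmul]
    congr 1

end BKGen.Genus
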