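import Mathlib

/-!
Genus theory, ideals: invariant ideals in a Galois extension of Dedekind domains of prime degree, and
the action on the class group.
-/

namespace BKGen.Genus

open Ideal
open scoped Pointwise nonZeroDivisors

section Invariant

variable {R S G : Type*} [CommRing R] [IsDedekindDomain R] [CommRing S] [IsDedekindDomain S]
  [Algebra R S] [Module.Finite R S] [Module.IsTorsionFree R S]
  [Group G] [Finite G] [MulSemiringAction G S] [IsGaloisGroup G R S]

omit [IsDedekindDomain R] [IsDedekindDomain S] [Module.Finite R S] [Module.IsTorsionFree R S]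
  [Finite G] in
theorem smul_map (g : G) (J : Ideal R) : g • J.map (algebraMap R S) = J.map (algebraMap R S) := by
  rw [pointwise_smul_def, Ideal.map_map]
  congr 1
  ext x
  have : SMulCommClass G R S := IsGaloisGroup.commutes
  exact smul_algebraMap g x

omit [Module.IsTorsionFree R S] in
theorem isMaximal_under {q : Ideal S} (hq : q.IsPrime) (hq0 : q ≠ ⊥) :
    (q.under R).IsMaximal ∧ q.under R ≠ ⊥ := by
  have h1 : q.under R ≠ ⊥ := Ideal.under_ne_bot R hq0
  exact ⟨Ring.DimensionLEOne.maximalOfPrime h1 inferInstance, h1⟩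

include G in
/-- An unramified prime dividing an invariant ideal. -/
theorem map_dvd {q : Ideal S} (hq : q.IsPrime) (hq0 : q ≠ ⊥) (he : q.ramificationIdx R = 1)
    {I : Ideal S} (hI : ∀ g : G, g • I = I) (hqI : q ∣ I) :
    (q.under R).map (algebraMap R S) ∣ I := by
  classical
  obtain ⟨hmax, hbot⟩ := isMaximal_under (R := R) hq hq0
  have hlo : q.LiesOver (q.under R) := ⟨rfl⟩
  rw [Ideal.map_algebraMap_eq_finsetProd_pow hbot]
  apply Finset.prod_dvd_of_coprime
  · intro P hP P' hP' hne
    rw [Set.coe_toFinset] at hP hP'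
    have h1 : P.IsMaximal := by
      have := hP.1
      have := hP.2
      exact Ideal.IsMaximal.of_liesOver_isMaximal P (q.under R)
    have h2 : P'.IsMaximal := by
      have := hP'.1
      have := hP'.2
      exact Ideal.IsMaximal.of_liesOver_isMaximal P' (q.under R)
    exact IsCoprime.pow (Ideal.isCoprime_of_isMaximal hne)
  · intro P hP
    rw [Set.mem_toFinset] at hP
    have h1 := hP.1
    have h2 := hP.2
    obtain ⟨g, hg⟩ := Ideal.exists_smul_eq_of_isGaloisGroup (q.under R) q P G
    rw [← Ideal.ramificationIdx_eq_of_isGaloisGroup (q.under R) q P G, he, pow_one, ← hg, ← hI g]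
    obtain ⟨J, hJ⟩ := hqI
    exact ⟨g • J, by rw [hJ, smul_mul']⟩

/-- The structure of invariant ideals. -/
theorem exists_eq_pow_mul {Q : Ideal S} (hQ : ∀ g : G, g • Q = Q)
    (hram : ∀ q : Ideal S, q.IsPrime → q ≠ ⊥ → q.ramificationIdx R = 1 ∨ q = Q) (I : Ideal S) :
    (∀ g : G, g • I = I) → I ≠ ⊥ →
      ∃ (j : ℕ) (J : Ideal R), J ≠ ⊥ ∧ I = Q ^ j * J.map (algebraMap R S) := by
  induction I using WellFoundedGT.induction with
  | ind I ih =>
  intro hI hI0
  by_cases htop : I = ⊤
  · exact ⟨0, ⊤, by simp, by rw [Ideal.map_top, htop]; simp⟩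
  obtain ⟨q, hqmax, hqI⟩ := Ideal.exists_le_maximal I htop
  have hq0 : q ≠ ⊥ := fun h => hI0 (by rw [h] at hqI; exact le_bot_iff.mp hqI)
  have hq : q.IsPrime := hqmax.isPrime
  -- the general step
  have step : ∀ T : Ideal S, T ≠ ⊤ → (∀ g : G, g • T = T) → T ∣ I →
      ∃ I' : Ideal S, I = T * I' ∧ (∀ g : G, g • I' = I') ∧ I' ≠ ⊥ ∧ I < I' := by
    intro T hT hTg hTI
    obtain ⟨I', hI'⟩ := hTI
    have hI'0 : I' ≠ ⊥ := by
      rintro rfl
      rw [Ideal.mul_bot] at hI'
      exact hI0 hI'
    have hT0 : T ≠ ⊥ := by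
      rintro rfl
      rw [Ideal.bot_mul] at hI'
      exact hI0 hI'
    refine ⟨I', hI', fun g => ?_, hI'0, ?_⟩
    · have h1 := hI g
      rw [hI', smul_mul', hTg g] at h1
      exact mul_left_cancel₀ hT0 h1
    · refine lt_of_le_of_ne (Ideal.dvd_iff_le.mp ⟨T, by rw [mul_comm]; exact hI'⟩) fun h => ?_
      apply hT
      rw [← Ideal.one_eq_top]
      have h1 : T * I' = 1 * I' := by rw [one_mul, ← hI', h]
      exact mul_right_cancel₀ hI'0 h1
  rcases hram q hq hq0 with he | heq
  · obtain ⟨hmax, hbot⟩ := isMaximal_under (R := R) hq hq0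
    have hlo : q.LiesOver (q.under R) := ⟨rfl⟩
    obtain ⟨I', h1, h2, h3, h4⟩ := step ((q.under R).map (algebraMap R S)) (by
      intro h
      have h5 : (q.under R).map (algebraMap R S) ≤ q := Ideal.map_comap_le
      rw [h] at h5
      exact hq.ne_top (top_le_iff.mp h5)) (fun g => smul_map g _)
      (map_dvd (G := G) hq hq0 he hI (Ideal.dvd_iff_le.mpr hqI))
    obtain ⟨j, J, hJ0, hJ⟩ := ih I' h4 h2 h3
    refine ⟨j, q.under R * J, ?_, ?_⟩
    · exact mul_ne_zero hbot hJ0
    · rw [h1, hJ, Ideal.map_mul]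
      ring
  · obtain ⟨I', h1, h2, h3, h4⟩ := step Q (by rw [← heq]; exact hq.ne_top) hQ
      (by rw [← heq]; exact Ideal.dvd_iff_le.mpr hqI)
    obtain ⟨j, J, hJ0, hJ⟩ := ih I' h4 h2 h3
    refine ⟨j + 1, J, hJ0, ?_⟩
    rw [h1, hJ, pow_succ]
    ring

end Invariant

section Degree

variable {R S G : Type*} [CommRing R] [IsDedekindDomain R] [CommRing S] [IsDedekindDomain S]
  [Algebra R S] [Module.Finite R S] [Module.IsTorsionFree R S]
  [Group G] [Finite G] [MulSemiringAction G S] [IsGaloisGroup G R S]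
  {p : ℕ} (hp : p.Prime) (hcard : Nat.card G = p)

include hp hcard in
/-- A ramified prime in an extension of prime degree. -/
theorem ramified {q : Ideal S} (hq : q.IsPrime) (hq0 : q ≠ ⊥) (he : q.ramificationIdx R ≠ 1) :
    (∀ g : G, g • q = q) ∧ (q.under R).map (algebraMap R S) = q ^ p ∧ q.ramificationIdx R = p ∧
      q.inertiaDeg R = 1 := by
  classical
  obtain ⟨hmax, hbot⟩ := isMaximal_under (R := R) hq hq0
  have hlo : q.LiesOver (q.under R) := ⟨rfl⟩
  have hmul := Ideal.ncard_primesOver_mul_ramificationIdxIn_mul_inertiaDegIn (q.under R) S G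
  rw [hcard, Ideal.ramificationIdxIn_eq_ramificationIdx (q.under R) q G,
    Ideal.inertiaDegIn_eq_inertiaDeg (q.under R) q G] at hmul
  have h1 : q.ramificationIdx R = p := by
    have : q.ramificationIdx R ∣ p :=
      ⟨(primesOver (q.under R) S).ncard * q.inertiaDeg R, by rw [← hmul]; ring⟩
    rcases (Nat.dvd_prime hp).mp this with h | h
    · exact absurd h he
    · exact h
  rw [h1] at hmul
  have h2 : (primesOver (q.under R) S).ncard * q.inertiaDeg R = 1 := by
    have : p * ((primesOver (q.under R) S).ncard * q.inertiaDeg R) = p * 1 := by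
      rw [mul_one]
      calc _ = (primesOver (q.under R) S).ncard * (p * q.inertiaDeg R) := by ring
        _ = p := hmul
    exact Nat.eq_of_mul_eq_mul_left hp.pos this
  have h3 := Nat.eq_one_of_mul_eq_one_right h2
  have h4 := Nat.eq_one_of_mul_eq_one_left h2
  rw [Set.ncard_eq_one] at h3
  obtain ⟨a, ha⟩ := h3
  have hqa : q = a := by
    have : q ∈ primesOver (q.under R) S := ⟨hq, hlo⟩
    rw [ha] at this
    exact this
  refine ⟨fun g => ?_, ?_, h1, h4⟩
  · have : g • q ∈ primesOver (q.under R) S := by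
      have : SMulCommClass G R S := IsGaloisGroup.commutes
      exact ⟨inferInstance, inferInstance⟩
    rw [ha] at this
    rw [hqa]
    rw [← hqa]
    rw [this, ← hqa]
  · rw [Ideal.map_algebraMap_eq_finsetProd_pow hbot]
    have h5 : (primesOver (q.under R) S).toFinset = {q} := by
      ext P
      rw [Set.mem_toFinset, ha, Set.mem_singleton_iff, Finset.mem_singleton, ← hqa]
    rw [h5, Finset.prod_singleton, h1]

include hp hcard in
/-- A prime which is moved splits completely. -/
theorem split {q : Ideal S} (hq : q.IsPrime) (hq0 : q ≠ ⊥) {g₀ : G} (hg₀ : g₀ • q ≠ q) [Fintype G] :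
    (q.under R).map (algebraMap R S) = ∏ g : G, g • q := by
  classical
  obtain ⟨hmax, hbot⟩ := isMaximal_under (R := R) hq hq0
  have hlo : q.LiesOver (q.under R) := ⟨rfl⟩
  have hcomm : SMulCommClass G R S := IsGaloisGroup.commutes
  have hmul := Ideal.ncard_primesOver_mul_ramificationIdxIn_mul_inertiaDegIn (q.under R) S G
  rw [hcard, Ideal.ramificationIdxIn_eq_ramificationIdx (q.under R) q G,
    Ideal.inertiaDegIn_eq_inertiaDeg (q.under R) q G] at hmul
  have hne1 : (primesOver (q.under R) S).ncard ≠ 1 := by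
    intro h
    rw [Set.ncard_eq_one] at h
    obtain ⟨a, ha⟩ := h
    have h1 : q ∈ primesOver (q.under R) S := ⟨hq, hlo⟩
    have h2 : g₀ • q ∈ primesOver (q.under R) S := ⟨inferInstance, inferInstance⟩
    rw [ha] at h1 h2
    exact hg₀ (h2.trans h1.symm)
  have hdvd : (primesOver (q.under R) S).ncard ∣ p := ⟨_, hmul.symm⟩
  have hn : (primesOver (q.under R) S).ncard = p := by
    rcases (Nat.dvd_prime hp).mp hdvd with h | h
    · exact absurd h hne1
    · exact h
  rw [hn] at hmul
  have h2 : q.ramificationIdx R * q.inertiaDeg R = 1 :=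
    Nat.eq_of_mul_eq_mul_left hp.pos (by rw [mul_one]; exact hmul)
  have h3 := Nat.eq_one_of_mul_eq_one_right h2
  rw [Ideal.map_algebraMap_eq_finsetProd_pow hbot]
  have himg : (primesOver (q.under R) S).toFinset = Finset.univ.image (fun g : G => g • q) := by
    ext P
    rw [Set.mem_toFinset, Finset.mem_image]
    constructor
    · intro hP
      have := hP.1
      have := hP.2
      obtain ⟨g, hg⟩ := Ideal.exists_smul_eq_of_isGaloisGroup (q.under R) q P G
      exact ⟨g, Finset.mem_univ _, hg⟩
    · rintro ⟨g, -, rfl⟩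
      exact ⟨inferInstance, inferInstance⟩
  have hinj : Function.Injective (fun g : G => g • q) := by
    have hc : (Finset.univ.image (fun g : G => g • q)).card = (Finset.univ : Finset G).card := by
      rw [← himg, ← Set.ncard_eq_toFinset_card', hn, Finset.card_univ, ← Nat.card_eq_fintype_card,
        hcard]
    have := Finset.card_image_iff.mp hc
    rwa [Finset.coe_univ, Set.injOn_univ] at this
  rw [himg, Finset.prod_image (fun a _ b _ h => hinj h)]
  refine Finset.prod_congr rfl fun g _ => ?_
  rw [← Ideal.ramificationIdx_eq_of_isGaloisGroup (q.under R) q (g • q) G, h3, pow_one]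

end Degree

end BKGen.Genus
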