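import Pool.Agent.Lib.MP_7c08ba_nt.Gen.GenusClass

/-!
Genus theory: the three global steps, for a Galois extension of Dedekind domains of prime degree.
-/

set_option linter.unusedSectionVars false

namespace BKGen.Genus

open Ideal
open scoped Pointwise nonZeroDivisors

section Steps

variable {R S G : Type*} [CommRing R] [IsDedekindDomain R] [CommRing S] [IsDedekindDomain S]
  [Algebra R S] [Module.Finite R S] [Module.IsTorsionFree R S]
  [Group G] [Fintype G] [MulSemiringAction G S] [IsGaloisGroup G R S]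

variable (R) in
/-- The hypotheses on the extension. -/
structure Hyp (p : ℕ) (σ : G) (w : ℕ) (Q : Ideal S) : Prop where
  hp : p.Prime
  hcard : Nat.card G = p
  hσ : σ ≠ 1
  h90 : ∀ a b : S, a ≠ 0 → b ≠ 0 → ∏ g : G, g • a = ∏ g : G, g • b →
    ∃ ε : S, ε ≠ 0 ∧ a * σ • ε = b * ε
  hw : ¬ p ∣ w
  hu : ∀ u : Rˣ, u ^ w = 1
  hh : ¬ p ∣ Nat.card (ClassGroup R)
  hQ : ∀ g : G, g • Q = Q
  hQ0 : Q ≠ ⊥
  hram : ∀ q : Ideal S, q.IsPrime → q ≠ ⊥ → q.ramificationIdx R = 1 ∨ q = Q
  hQP : Q = ⊤ ∨ ∃ P : Ideal R, P ≠ ⊥ ∧ P.map (algebraMap R S) = Q ^ p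

variable {p : ℕ} {σ : G} {w : ℕ} {Q : Ideal S}

omit [IsDedekindDomain S] [IsDedekindDomain R] [Module.Finite R S] [Module.IsTorsionFree R S]
  [Fintype G] in
theorem algebraMap_inj [IsDomain R] [IsDomain S] [Module.IsTorsionFree R S] :
    Function.Injective (algebraMap R S) :=
  FaithfulSMul.algebraMap_injective R S

omit [Fintype G] in
include G in
theorem exists_of_inv {x : S} (hx : ∀ g : G, g • x = x) : ∃ r : R, algebraMap R S r = x := by
  have : Algebra.IsInvariant R S G := IsGaloisGroup.isInvariant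
  exact Algebra.IsInvariant.isInvariant x hx

variable (R) in
/-- An invariant unit is a root of unity. -/
theorem inv_unit (hu : ∀ u : Rˣ, u ^ w = 1) (u : Sˣ) (h : ∀ g : G, g • (u : S) = u) :
    u ^ w = 1 := by
  obtain ⟨r, hr⟩ := exists_of_inv (R := R) h
  obtain ⟨r', hr'⟩ := exists_of_inv (R := R) (x := ((u⁻¹ : Sˣ) : S)) (fun g : G => by
    have h1 : g • ((u : S) * ((u⁻¹ : Sˣ) : S)) = (u : S) * g • ((u⁻¹ : Sˣ) : S) := by
      rw [smul_mul', h g]
    rw [Units.mul_inv, smul_one] at h1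
    exact (Units.eq_inv_of_mul_eq_one_left h1.symm))
  have h1 : r * r' = 1 := by
    apply algebraMap_inj (R := R) (S := S)
    rw [map_mul, hr, hr', Units.mul_inv, map_one]
  have h2 := congrArg Units.val (hu ⟨r, r', h1, by rw [mul_comm]; exact h1⟩)
  apply Units.ext
  rw [Units.val_pow_eq_pow_val, ← hr, ← map_pow]
  have h3 : r ^ w = 1 := h2
  rw [h3, map_one, Units.val_one]

/-- The extension of an ideal raised to the class number. -/
theorem ext_span [Finite (ClassGroup R)] {J : Ideal R} (hJ : J ≠ ⊥) :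
    ∃ b : R, b ≠ 0 ∧ (J.map (algebraMap R S)) ^ Nat.card (ClassGroup R) = span {algebraMap R S b} := by
  have h1 : cl (J ^ Nat.card (ClassGroup R)) = 1 := by rw [cl_pow hJ, cl_pow_card]
  rw [cl_eq_one (pow_ne_zero _ hJ)] at h1
  obtain ⟨b, hb0, hb⟩ := h1
  refine ⟨b, hb0, ?_⟩
  rw [← Ideal.map_pow, hb, Ideal.map_span, Set.image_singleton]

theorem map_ne {J : Ideal R} (hJ : J ≠ ⊥) : J.map (algebraMap R S) ≠ ⊥ :=
  Ideal.map_ne_bot_of_ne_bot hJ

theorem ext_cl [Finite (ClassGroup R)] {J : Ideal R} (hJ : J ≠ ⊥) :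
    cl (J.map (algebraMap R S)) ^ Nat.card (ClassGroup R) = 1 := by
  obtain ⟨b, hb0, hb⟩ := ext_span (S := S) hJ
  rw [← cl_pow (map_ne hJ), hb]
  exact cl_span (by rwa [Ne, map_eq_zero_iff _ (algebraMap_inj (R := R) (S := S))])

omit [Fintype G] [IsDedekindDomain S] in
theorem inv_of_gen (hp : p.Prime) (hcard : Nat.card G = p) (hσ : σ ≠ 1) {I : Ideal S}
    (h : σ • I = I) (g : G) : g • I = I := by
  obtain ⟨i, -, rfl⟩ := exists_pow hp hcard hσ g
  induction i with
  | zero => rw [pow_zero, one_smul]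
  | succ i ih => rw [pow_succ, mul_smul, h, ih]

omit [IsDedekindDomain R] [Module.Finite R S] [Module.IsTorsionFree R S] [IsGaloisGroup G R S] in
/-- Coprime exponents. -/
theorem eq_one_of_coprime {A : Type*} [Group A] {a : A} {m n : ℕ} (h : Nat.Coprime m n)
    (h1 : a ^ m = 1) (h2 : a ^ n = 1) : a = 1 := by
  have h3 : orderOf a ∣ Nat.gcd m n := Nat.dvd_gcd (orderOf_dvd_of_pow_eq_one h1)
    (orderOf_dvd_of_pow_eq_one h2)
  rw [h.gcd_eq_one, Nat.dvd_one] at h3
  exact orderOf_eq_one_iff.mp h3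

/-- **Step 1**: a unit of norm one which is not a quotient makes `Q` ramified, and the class of
`Q` has order prime to `p`. -/
theorem Hyp.step_one (H : Hyp R p σ w Q) [Finite (ClassGroup R)] (x : Sˣ)
    (hx : ∏ g : G, g • (x : S) = 1)
    (hxu : ∀ (u : Sˣ) (m : ℕ), ¬ p ∣ m → σ • (u : S) ≠ (x : S) ^ m * u) :
    Q ≠ ⊤ ∧ cl Q ^ Nat.card (ClassGroup R) = 1 := by
  set h := Nat.card (ClassGroup R) with hh
  obtain ⟨ε, hε0, hε⟩ := H.h90 1 (x : S) one_ne_zero x.ne_zero (by
    rw [hx]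
    simp)
  rw [one_mul] at hε
  have hspan : span {ε} ≠ (⊥ : Ideal S) := by rwa [Ne, span_singleton_eq_bot]
  have hinv : ∀ g : G, g • span {ε} = span {ε} := by
    apply inv_of_gen H.hp H.hcard H.hσ
    rw [smul_span, hε]
    exact Ideal.span_singleton_mul_left_unit x.isUnit ε
  obtain ⟨j, J, hJ0, hJ⟩ := exists_eq_pow_mul (R := R) H.hQ H.hram (span {ε}) hinv hspan
  -- the contradiction if `span {ε}` comes from below
  have key : ∀ J' : Ideal R, J' ≠ ⊥ → span {ε} = J'.map (algebraMap R S) → False := by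
    intro J' hJ'0 hJ'
    obtain ⟨b, hb0, hb⟩ := ext_span (S := S) hJ'0
    rw [← hh, ← hJ', Ideal.span_singleton_pow, Ideal.span_singleton_eq_span_singleton] at hb
    obtain ⟨u, hu⟩ := hb.symm
    -- `b * u = ε ^ h`
    have hb0' : algebraMap R S b ≠ 0 := by
      rwa [Ne, map_eq_zero_iff _ (algebraMap_inj (R := R) (S := S))]
    have hcomm : SMulCommClass G R S := IsGaloisGroup.commutes
    apply hxu u h H.hh
    have h1 : σ • (algebraMap R S b * (u : S)) = algebraMap R S b * σ • (u : S) := by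
      rw [smul_mul', smul_algebraMap]
    rw [hu, smul_pow', hε, mul_pow, ← hu] at h1
    have h2 : algebraMap R S b * ((x : S) ^ h * u) = algebraMap R S b * σ • (u : S) := by
      rw [← h1]; ring
    exact (mul_left_cancel₀ hb0' h2).symm
  rcases H.hQP with hQ | ⟨P, hP0, hP⟩
  · exfalso
    apply key J hJ0
    rw [hJ, hQ, ← Ideal.one_eq_top, one_pow, one_mul]
  have hQtop : Q ≠ ⊤ := by
    intro hQ
    apply key J hJ0
    rw [hJ, hQ, ← Ideal.one_eq_top, one_pow, one_mul]
  refine ⟨hQtop, ?_⟩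
  by_cases hj : p ∣ j
  · exfalso
    obtain ⟨j', rfl⟩ := hj
    apply key (P ^ j' * J) (mul_ne_zero (pow_ne_zero _ hP0) hJ0)
    rw [hJ, Ideal.map_mul, Ideal.map_pow, hP, ← pow_mul]
  · have h1 : (cl Q ^ h) ^ p = 1 := by
      rw [← pow_mul, mul_comm, pow_mul, ← cl_pow H.hQ0, ← hP]
      exact ext_cl hP0
    have h2 : (cl Q ^ h) ^ j = 1 := by
      have h3 : cl (span {ε}) = 1 := cl_span hε0
      rw [hJ, cl_mul (pow_ne_zero _ H.hQ0) (map_ne hJ0), cl_pow H.hQ0] at h3
      have h4 := congrArg (· ^ h) h3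
      simp only [mul_pow, one_pow] at h4
      rw [ext_cl hJ0, mul_one] at h4
      rw [← pow_mul, mul_comm, pow_mul]
      exact h4
    exact eq_one_of_coprime ((Nat.Prime.coprime_iff_not_dvd H.hp).mpr hj) h1 h2

/-- **Step 2**: the class number of `S` is prime to `p`. -/
theorem Hyp.step_two (H : Hyp R p σ w Q) [Finite (ClassGroup R)] [Finite (ClassGroup S)]
    (hQc : cl Q ^ Nat.card (ClassGroup R) = 1) : ¬ p ∣ Nat.card (ClassGroup S) := by
  intro hd
  set h := Nat.card (ClassGroup R) with hh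
  obtain ⟨I, hI0, hI1, hIp, hIg⟩ := exists_fixed_class (G := G) H.hp H.hcard hd
  apply hI1
  obtain ⟨x, y, hx0, hy0, hxy⟩ := (cl_eq_cl (smul_ne_bot hI0 σ) hI0).mp (hIg σ)
  have hcomm : SMulCommClass G R S := IsGaloisGroup.commutes
  -- the norms of `x` and `y` differ by a unit
  set Nx : S := ∏ g : G, g • x with hNx
  set Ny : S := ∏ g : G, g • y with hNy
  have hprod0 : ∀ z : S, z ≠ 0 → ∏ g : G, g • z ≠ 0 := fun z hz =>
    Finset.prod_ne_zero_iff.mpr fun g _ => (smul_ne_zero_iff_ne g).mpr hz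
  have hinvN : ∀ z : S, ∀ τ : G, τ • ∏ g : G, g • z = ∏ g : G, g • z := by
    intro z τ
    rw [Finset.smul_prod']
    simp only [smul_smul]
    exact Fintype.prod_equiv (Equiv.mulLeft τ) _ _ fun g => rfl
  have hspan : span {Nx} = span {Ny} := by
    have h1 : ∏ g : G, g • (span {x} * σ • I) = ∏ g : G, g • (span {y} * I) := by rw [hxy]
    simp only [smul_mul', smul_span, Finset.prod_mul_distrib, Ideal.prod_span_singleton] at h1
    have h2 : ∏ g : G, g • σ • I = ∏ g : G, g • I := by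
      simp only [smul_smul]
      exact Fintype.prod_equiv (Equiv.mulRight σ) _ _ fun g => rfl
    rw [h2] at h1
    exact mul_right_cancel₀ (Finset.prod_ne_zero_iff.mpr fun g _ => smul_ne_bot hI0 g) h1
  rw [Ideal.span_singleton_eq_span_singleton] at hspan
  obtain ⟨u, hu⟩ := hspan
  have huinv : ∀ g : G, g • (u : S) = u := by
    intro g
    have h1 : g • (Nx * (u : S)) = Nx * g • (u : S) := by rw [smul_mul', hinvN x g]
    have h2 : g • Ny = Ny := hinvN y g
    rw [hu, h2, ← hu] at h1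
    exact (mul_left_cancel₀ (hprod0 x hx0) h1).symm
  have huw : (u : S) ^ w = 1 := by
    have := congrArg Units.val (inv_unit R H.hu u huinv)
    exact this
  obtain ⟨ε, hε0, hε⟩ := H.h90 (y ^ w) (x ^ w) (pow_ne_zero _ hy0) (pow_ne_zero _ hx0) (by
    simp only [smul_pow', Finset.prod_pow]
    change Ny ^ w = Nx ^ w
    rw [← hu, mul_pow, huw, mul_one])
  -- `I ^ w * span {ε}` is invariant
  have hinv : σ • (I ^ w * span {ε}) = I ^ w * span {ε} := by
    rw [smul_mul', smul_pow', smul_span]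
    have h1 : span {x ^ w} * (σ • I) ^ w = span {y ^ w} * I ^ w := by
      rw [← Ideal.span_singleton_pow, ← Ideal.span_singleton_pow, ← mul_pow, ← mul_pow, hxy]
    have h2 : span {x ^ w} * ((σ • I) ^ w * span {σ • ε}) = span {x ^ w} * (I ^ w * span {ε}) := by
      rw [← mul_assoc, h1, mul_right_comm, Ideal.span_singleton_mul_span_singleton, hε,
        ← Ideal.span_singleton_mul_span_singleton]
      ring
    have h3 : span {x ^ w} ≠ (0 : Ideal S) := by
      rw [Ne, Submodule.zero_eq_bot, span_singleton_eq_bot]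
      exact pow_ne_zero _ hx0
    exact mul_left_cancel₀ h3 h2
  have hne : span {ε} ≠ (⊥ : Ideal S) := by rwa [Ne, span_singleton_eq_bot]
  obtain ⟨j, J, hJ0, hJ⟩ := exists_eq_pow_mul (R := R) H.hQ H.hram (I ^ w * span {ε})
    (inv_of_gen H.hp H.hcard H.hσ hinv) (mul_ne_zero (pow_ne_zero _ hI0) hne)
  have h1 : cl I ^ w = cl Q ^ j * cl (J.map (algebraMap R S)) := by
    rw [← cl_pow H.hQ0, ← cl_mul (pow_ne_zero _ H.hQ0) (map_ne hJ0), ← hJ,
      cl_mul (pow_ne_zero _ hI0) hne, cl_span hε0, mul_one, cl_pow hI0]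
  have h2 : cl I ^ (w * h) = 1 := by
    rw [pow_mul, h1, mul_pow, ext_cl hJ0, mul_one, ← pow_mul, mul_comm, pow_mul, hQc, one_pow]
  exact eq_one_of_coprime ((Nat.Prime.coprime_iff_not_dvd H.hp).mpr (fun hd' => by
    rcases H.hp.dvd_mul.mp hd' with h | h
    · exact H.hw h
    · exact H.hh h)) hIp h2

/-- **Step 3**: the element whose norm generates a power of a split prime. -/
theorem Hyp.step_three (H : Hyp R p σ w Q) [Finite (ClassGroup S)] (hQtop : Q ≠ ⊤)
    {q : Ideal S} (hq : q.IsPrime) (hq0 : q ≠ ⊥) (hqσ : σ • q ≠ q) {h : ℕ} {α : R}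
    (hα : (q.under R) ^ h = span {α}) :
    ∃ (β : S) (c : R), β ∉ Q ∧ algebraMap R S c = ∏ g : G, g • β ∧
      c ^ (h * w) = α ^ (Nat.card (ClassGroup S) * w) := by
  set n := Nat.card (ClassGroup S) with hn
  have hcomm : SMulCommClass G R S := IsGaloisGroup.commutes
  have h1 : cl (q ^ n) = 1 := by rw [cl_pow hq0, cl_pow_card]
  rw [cl_eq_one (pow_ne_zero _ hq0)] at h1
  obtain ⟨β, hβ0, hβ⟩ := h1
  have hinvN : ∀ τ : G, τ • ∏ g : G, g • β = ∏ g : G, g • β := by
    intro τ
    rw [Finset.smul_prod']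
    simp only [smul_smul]
    exact Fintype.prod_equiv (Equiv.mulLeft τ) _ _ fun g => rfl
  obtain ⟨c, hc⟩ := exists_of_inv (R := R) hinvN
  have hqQ : q ≠ Q := fun h => hqσ (by rw [h]; exact H.hQ σ)
  refine ⟨β, c, ?_, hc, ?_⟩
  · intro hβQ
    have h2 : q ^ n ≤ Q := by rw [hβ, Ideal.span_singleton_le_iff_mem]; exact hβQ
    -- `Q` is contained in a maximal ideal, which is `Q` or unramified
    obtain ⟨m, hm, hQm⟩ := Ideal.exists_le_maximal Q hQtop
    have h3 : q ≤ m := hm.isPrime.le_of_pow_le (h2.trans hQm)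
    have hqmax : q.IsMaximal := hq.isMaximal hq0
    have h4 : q = m := hqmax.eq_of_le hm.ne_top h3
    have h5 : Q ≤ q := by rw [h4]; exact hQm
    have h6 : ∀ g : G, Q ≤ g • q := by
      intro g
      rw [← H.hQ g]
      exact Ideal.map_mono h5
    -- then `q ^ n ≤ Q ≤ σ • q`
    have h7 : q ≤ σ • q := by
      have : (σ • q).IsPrime := inferInstance
      exact this.le_of_pow_le (h2.trans (h6 σ))
    exact hqσ (hqmax.eq_of_le (by
      have : (σ • q).IsPrime := inferInstance
      exact this.ne_top) h7).symm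
  · have h2 : span {algebraMap R S c} = ((q.under R).map (algebraMap R S)) ^ n := by
      rw [hc, ← Ideal.prod_span_singleton, split (R := R) H.hp H.hcard hq hq0 hqσ,
        ← Finset.prod_pow]
      refine Finset.prod_congr rfl fun g _ => ?_
      rw [← smul_span, ← hβ, smul_pow']
    have h3 : span {algebraMap R S (c ^ h)} = span {algebraMap R S (α ^ n)} := by
      rw [map_pow, ← Ideal.span_singleton_pow, h2, ← pow_mul, mul_comm, pow_mul, ← Ideal.map_pow,
        hα, Ideal.map_span, Set.image_singleton, Ideal.span_singleton_pow, ← map_pow]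
    rw [Ideal.span_singleton_eq_span_singleton] at h3
    obtain ⟨u, hu⟩ := h3
    have hc0 : algebraMap R S (c ^ h) ≠ 0 := by
      rw [map_pow, hc]
      exact pow_ne_zero _ (Finset.prod_ne_zero_iff.mpr fun g _ => (smul_ne_zero_iff_ne g).mpr hβ0)
    have huinv : ∀ g : G, g • (u : S) = u := by
      intro g
      have h1 : g • (algebraMap R S (c ^ h) * (u : S)) = algebraMap R S (c ^ h) * g • (u : S) := by
        rw [smul_mul', smul_algebraMap]
      rw [hu, smul_algebraMap, ← hu] at h1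
      exact (mul_left_cancel₀ hc0 h1).symm
    have huw : (u : S) ^ w = 1 := by
      have := congrArg Units.val (inv_unit R H.hu u huinv)
      exact this
    apply algebraMap_inj (R := R) (S := S)
    rw [pow_mul, map_pow, pow_mul, map_pow _ (α ^ n), ← hu, mul_pow, huw, mul_one]

end Steps

end BKGen.Genus
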