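import Pool.Agent.Lib.MP_7c08ba_nt.Gen.Layer

/-!
The field of a layer over a rigid field is rigid; if in addition all classes modulo `p`-th powers
of the completion come from global elements which are `p`-th powers up to units away from `p`,
then every continuous homomorphism from the local Galois group to a finite `p`-group extends
uniquely to the global one, unramified away from `p`.
-/

open Polynomial

namespace BKGen

section Basic

variable {p : ℕ} [Fact p.Prime] {K Ω : Type*} [Field K] [Field Ω] [Algebra K Ω]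

theorem fix_comp {ι : Ω →+* PadicAlgCl p}
    {τ : PadicAlgCl p ≃ₐ[comp p (ι.comp (algebraMap K Ω))] PadicAlgCl p} {σ : Ω ≃ₐ[K] Ω}
    (h : Restricts ι τ σ) (M : IntermediateField K Ω) (hM : ∀ x ∈ M, σ x = x) :
    ∀ y ∈ comp p (ι.comp (algebraMap M Ω)), τ y = y := by
  intro y hy'
  change y ∈ IntermediateField.adjoin ℚ_[p] (Set.range (ι.comp (algebraMap M Ω))) at hy'
  induction hy' using IntermediateField.adjoin_induction with
  | mem x hx =>
    obtain ⟨m, rfl⟩ := hx
    rw [RingHom.comp_apply, ← h]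
    exact congrArg ι (hM _ m.2)
  | algebraMap x =>
    exact (τ.restrictScalars ℚ_[p]).commutes x
  | add x y hx hy ih ih' => rw [map_add, ih, ih']
  | inv x hx ih => rw [map_inv₀, ih]
  | mul x y hx hy ih ih' => rw [map_mul, ih, ih']

/-- `p`-th roots of unity lie in the completion. -/
theorem root_mem_comp (hζ : (primitiveRoots p K).Nonempty) (j : K →+* PadicAlgCl p)
    {ω : PadicAlgCl p} (hω : ω ^ p = 1) : ω ∈ comp p j := by
  have hp : p.Prime := Fact.out
  obtain ⟨ζ, hζ'⟩ := hζ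
  rw [mem_primitiveRoots hp.pos] at hζ'
  have h2 : IsPrimitiveRoot (j ζ) p := hζ'.map_of_injective j.injective
  obtain ⟨i, -, hi2⟩ := h2.eq_pow_of_pow_eq_one hω
  rw [← hi2]
  exact pow_mem (mem_comp j ζ) i

theorem comp_le (ι : Ω →+* PadicAlgCl p) (M : IntermediateField K Ω) :
    comp p (ι.comp (algebraMap K Ω)) ≤ comp p (ι.comp (algebraMap M Ω)) := by
  rw [comp, IntermediateField.adjoin_le_iff]
  rintro _ ⟨x, rfl⟩
  exact mem_comp (ι.comp (algebraMap M Ω)) (algebraMap K M x)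

/-- elements with the same `p`-th power up to a `p`-th power of the completion -/
theorem mem_comp_of_pow (hζ : (primitiveRoots p K).Nonempty) (j : K →+* PadicAlgCl p)
    {x y : PadicAlgCl p} (hy : y ∈ comp p j) (h : x ^ p = y ^ p) : x ∈ comp p j := by
  have hp : p.Prime := Fact.out
  by_cases hy0 : y = 0
  · rw [hy0, zero_pow hp.ne_zero] at h
    rw [eq_zero_of_pow_eq_zero h]
    exact zero_mem _
  have h1 : (x / y) ^ p = 1 := by
    rw [div_pow, h, div_self (pow_ne_zero _ hy0)]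
  have h2 := root_mem_comp hζ j h1
  have h3 : x = x / y * y := (div_mul_cancel₀ x hy0).symm
  rw [h3]
  exact mul_mem h2 hy

/-- The field of a layer over a rigid field is rigid. -/
theorem IsLayer.rigid [IsGalois K Ω] [IsAlgClosed Ω] (hζ : (primitiveRoots p K).Nonempty)
    (ι : Ω →+* PadicAlgCl p) (hR : Rigid p K (ι.comp (algebraMap K Ω)))
    {N : Subgroup (Ω ≃ₐ[K] Ω)} (hN : IsLayer p N) :
    Rigid p (IntermediateField.fixedField N)
      (ι.comp (algebraMap (IntermediateField.fixedField N) Ω)) := by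
  have hp : p.Prime := Fact.out
  intro a ha0 ha hβ'
  obtain ⟨β, hβ, hβa⟩ := hβ'
  obtain ⟨α, hα⟩ := IsAlgClosed.exists_pow_nat_eq (a : Ω) hp.pos
  have hMfix : ∀ g ∈ N, ∀ x ∈ IntermediateField.fixedField N, g x = x :=
    fun g hg x hx => mem_fixedField_iff.mp hx g hg
  have hL := hN.sub hζ (IntermediateField.fixedField N) hMfix a hα ha
  have hαM : α ∈ IntermediateField.fixedField N := by
    rw [mem_fixedField_iff]
    intro g hg
    obtain ⟨τ, σ, hτ, hσ⟩ := hL.exists_local hζ ι hR g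
    have hσN : σ ∈ N := by
      have h1 := N.mul_mem hg (N.inv_mem (hσ.1))
      have h2 : g * (σ⁻¹ * g)⁻¹ = σ := by group
      rwa [h2] at h1
    have h1 := fix_comp hτ (IntermediateField.fixedField N) (hMfix σ hσN) (ι α) (by
      have hζM : (primitiveRoots p (IntermediateField.fixedField N)).Nonempty := by
        obtain ⟨ζ, hζ'⟩ := hζ
        rw [mem_primitiveRoots hp.pos] at hζ'
        refine ⟨algebraMap K _ ζ, ?_⟩
        rw [mem_primitiveRoots hp.pos]
        exact hζ'.map_of_injective (algebraMap K _).injective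
      refine mem_comp_of_pow hζM _ hβ ?_
      rw [hβa, ← map_pow, hα]
      rfl)
    have h2 : σ α = α := by
      apply ι.injective
      rw [hτ, h1]
    have h3 : (σ⁻¹ * g) α = α := hσ.2 1
    have h4 := congrArg σ h3
    rw [← AlgEquiv.mul_apply, mul_inv_cancel_left, h2] at h4
    exact h4
  exact ⟨⟨α, hαM⟩, Subtype.ext hα⟩

end Basic

section Kummer

variable {k E : Type*} [Field k] [Field E] [Algebra k E] [IsGalois k E]

/-- a nontrivial homomorphism to a group of order `p` is given by a Kummer generator -/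
theorem exists_kummer_hom {p : ℕ} [Fact p.Prime] (hζ : (primitiveRoots p k).Nonempty)
    {P : Type*} [Group P] (ψ : (E ≃ₐ[k] E) →* P) (C : Subgroup P) (hC : Nat.card C = p)
    (hψ : ∀ τ, ψ τ ∈ C) (ho : IsOpen (ψ.ker : Set (E ≃ₐ[k] E))) (hne : ∃ τ, ψ τ ≠ 1) :
    ∃ (α : E) (a : k), a ≠ 0 ∧ α ^ p = algebraMap k E a ∧ ∀ τ, τ α = α → ψ τ = 1 := by
  have hp : p.Prime := Fact.out
  have hi : ψ.ker.index = p := by
    rw [Subgroup.index_ker]
    have h1 : ψ.range ≤ C := by
      rintro _ ⟨τ, rfl⟩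
      exact hψ τ
    have hfin : Finite C := Nat.finite_of_card_ne_zero (by rw [hC]; exact hp.ne_zero)
    have h2 : Nat.card ψ.range ∣ p := by
      rw [← hC]
      exact Subgroup.card_dvd_of_le h1
    rcases (Nat.dvd_prime hp).mp h2 with h3 | h3
    · exfalso
      obtain ⟨τ, hτ⟩ := hne
      rw [Subgroup.card_eq_one] at h3
      apply hτ
      have : ψ τ ∈ ψ.range := ⟨τ, rfl⟩
      rw [h3] at this
      exact Subgroup.mem_bot.mp this
    · exact h3
  obtain ⟨α, a, hαa, hfix, hne'⟩ := exists_kummer hζ ψ.ker inferInstance hi ho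
  refine ⟨α, a, ?_, hαa, ?_⟩
  · rintro rfl
    rw [map_zero] at hαa
    have : α = 0 := eq_zero_of_pow_eq_zero hαa
    exact hne' 0 (by rw [map_zero, this])
  · -- the stabiliser
    let S : Subgroup (E ≃ₐ[k] E) := MulAction.stabilizer (E ≃ₐ[k] E) α
    have hNS : ψ.ker ≤ S := fun σ hσ => hfix σ hσ
    have h1 : S.index ≠ 1 := by
      intro h2
      rw [Subgroup.index_eq_one] at h2
      have h3 : α ∈ Set.range (algebraMap k E) := by
        rw [InfiniteGalois.mem_range_algebraMap_iff_fixed]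
        intro τ
        have : τ ∈ S := by rw [h2]; trivial
        exact this
      obtain ⟨b, hb⟩ := h3
      exact hne' b hb
    have h2 : ψ.ker.relIndex S * S.index = p := by
      rw [Subgroup.relIndex_mul_index hNS, hi]
    have h3 : S.index = p := by
      have h4 : S.index ∣ p := ⟨ψ.ker.relIndex S, by rw [mul_comm, h2]⟩
      rcases (Nat.dvd_prime hp).mp h4 with h5 | h5
      · exact absurd h5 h1
      · exact h5
    have h4 : ψ.ker.relIndex S = 1 := by
      rw [h3] at h2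
      exact Nat.eq_of_mul_eq_mul_right hp.pos (by rw [h2, one_mul])
    rw [Subgroup.relIndex_eq_one] at h4
    intro τ hτ
    exact h4 hτ

end Kummer

section Iso

variable {p : ℕ} [Fact p.Prime] {K Ω : Type*} [Field K] [Field Ω] [Algebra K Ω]

/-- all classes modulo `p`-th powers of the completion are global, unramified away from `p` -/
def LocGlob (p : ℕ) [Fact p.Prime] (K : Type*) [Field K] (ι : K →+* PadicAlgCl p) : Prop :=
  ∀ β ∈ comp p ι, β ≠ 0 → ∃ a : K, a ≠ 0 ∧ PowAway p a ∧ ∃ γ ∈ comp p ι, β = ι a * γ ^ p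

theorem exists_layer [IsGalois K Ω] [IsAlgClosed Ω] (hζ : (primitiveRoots p K).Nonempty)
    (ι : Ω →+* PadicAlgCl p)
    (hLG : ∀ N : Subgroup (Ω ≃ₐ[K] Ω), IsLayer p N → LocGlob p (IntermediateField.fixedField N)
      (ι.comp (algebraMap (IntermediateField.fixedField N) Ω))) (n : ℕ) :
    ∀ (P : Type*) [Group P] [Finite P], IsPGroup p P → Nat.card P ≤ n →
    ∀ φ : (PadicAlgCl p ≃ₐ[comp p (ι.comp (algebraMap K Ω))] PadicAlgCl p) →* P,
    IsOpen (φ.ker : Set (PadicAlgCl p ≃ₐ[comp p (ι.comp (algebraMap K Ω))] PadicAlgCl p)) →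
    ∃ N : Subgroup (Ω ≃ₐ[K] Ω), IsLayer p N ∧ ∀ τ σ, Restricts ι τ σ → σ ∈ N → φ τ = 1 := by
  have hp : p.Prime := Fact.out
  induction n with
  | zero =>
    intro P _ _ _ hn
    exact absurd (Nat.le_zero.mp hn) Nat.card_pos.ne'
  | succ n ih =>
    intro P _ _ hP hn φ hφ
    by_cases hP1 : Nontrivial P
    swap
    · rw [not_nontrivial_iff_subsingleton] at hP1
      exact ⟨⊤, isLayer_top, fun τ _ _ _ => Subsingleton.elim _ _⟩
    -- a central subgroup of order `p`
    have hZ : Nontrivial (Subgroup.center P) := hP.center_nontrivial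
    have hdvd : p ∣ Nat.card (Subgroup.center P) := by
      obtain ⟨m, hm⟩ := IsPGroup.iff_card.mp (hP.to_subgroup (Subgroup.center P))
      rw [hm]
      refine dvd_pow_self p ?_
      rintro rfl
      rw [pow_zero] at hm
      exact absurd hm (Finite.one_lt_card_iff_nontrivial.mpr hZ).ne'
    obtain ⟨z, hz⟩ := exists_prime_orderOf_dvd_card' p hdvd
    set C : Subgroup P := Subgroup.zpowers (z : P) with hC
    have hCc : Nat.card C = p := by
      rw [hC, Nat.card_zpowers, Subgroup.orderOf_coe, hz]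
    have hCcen : C ≤ Subgroup.center P := by
      rw [hC, Subgroup.zpowers_le]
      exact z.2
    have hCn : C.Normal := by
      refine ⟨fun x hx g => ?_⟩
      have h1 := Subgroup.mem_center_iff.mp (hCcen hx) g
      rw [h1, mul_inv_cancel_right]
      exact hx
    obtain ⟨N₁, hN₁, hN₁φ⟩ := ih (P ⧸ C) (hP.to_quotient C) (by
      have h1 := Subgroup.card_mul_index C
      have h2 : C.index < Nat.card P := by
        rw [← h1, hCc]
        have h3 : 0 < C.index := Nat.pos_of_ne_zero Subgroup.index_ne_zero_of_finite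
        have h4 := hp.one_lt
        nlinarith
      have h3 : Nat.card (P ⧸ C) = C.index := rfl
      omega) ((QuotientGroup.mk' C).comp φ) (by
      refine Subgroup.isOpen_mono ?_ hφ
      intro τ hτ
      rw [MonoidHom.mem_ker] at hτ ⊢
      rw [MonoidHom.comp_apply, hτ, map_one])
    have hN₁C : ∀ τ σ, Restricts ι τ σ → σ ∈ N₁ → φ τ ∈ C := by
      intro τ σ h hσ
      have := hN₁φ τ σ h hσ
      rw [MonoidHom.comp_apply] at this
      exact (QuotientGroup.eq_one_iff _).mp this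
    set M := IntermediateField.fixedField N₁ with hM
    have hMfix : ∀ g ∈ N₁, ∀ x ∈ M, g x = x := fun g hg x hx => mem_fixedField_iff.mp hx g hg
    let F' : IntermediateField (comp p (ι.comp (algebraMap K Ω))) (PadicAlgCl p) :=
      IntermediateField.extendScalars (comp_le ι M)
    let r : (PadicAlgCl p ≃ₐ[F'] PadicAlgCl p) →*
        (PadicAlgCl p ≃ₐ[comp p (ι.comp (algebraMap K Ω))] PadicAlgCl p) :=
      AlgEquiv.restrictScalarsHom (comp p (ι.comp (algebraMap K Ω)))
    have hr : Continuous r := continuous_restrictScalars F'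
    -- the restriction of `φ` takes values in `C`
    have hGal : IsGalois F' (PadicAlgCl p) := IsGalois.tower_top_intermediateField F'
    have hN₁cl : (N₁ : Set (Ω ≃ₐ[K] Ω)) = M.fixingSubgroup := by
      let H : ClosedSubgroup (Ω ≃ₐ[K] Ω) := ⟨N₁, N₁.isClosed_of_isOpen hN₁.isOpen⟩
      have : M.fixingSubgroup = N₁ := InfiniteGalois.fixingSubgroup_fixedField H
      rw [this]
    have hval : ∀ τ, (φ.comp r) τ ∈ C := by
      intro τ
      obtain ⟨σ, hσ⟩ := exists_restrict ι (r τ)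
      refine hN₁C (r τ) σ hσ ?_
      change σ ∈ (N₁ : Set (Ω ≃ₐ[K] Ω))
      rw [hN₁cl]
      change σ ∈ M.fixingSubgroup
      rw [IntermediateField.mem_fixingSubgroup_iff]
      intro x hx
      apply ι.injective
      rw [hσ]
      exact τ.commutes (⟨ι x, mem_comp (ι.comp (algebraMap M Ω)) ⟨x, hx⟩⟩ : F')
    have hζK : (primitiveRoots p M).Nonempty := by
      obtain ⟨ζ, hζ'⟩ := hζ
      rw [mem_primitiveRoots hp.pos] at hζ'
      refine ⟨algebraMap K _ ζ, ?_⟩
      rw [mem_primitiveRoots hp.pos]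
      exact hζ'.map_of_injective (algebraMap K _).injective
    have hζ' : (primitiveRoots p F').Nonempty := by
      obtain ⟨ζ, hζ'⟩ := hζK
      rw [mem_primitiveRoots hp.pos] at hζ'
      refine ⟨⟨ι ζ, mem_comp (ι.comp (algebraMap M Ω)) ζ⟩, ?_⟩
      rw [mem_primitiveRoots hp.pos]
      have h1 : IsPrimitiveRoot (ι ζ) p :=
        (hζ'.map_of_injective (algebraMap M Ω).injective).map_of_injective ι.injective
      exact IsPrimitiveRoot.of_map_of_injective (f := algebraMap F' (PadicAlgCl p)) h1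
        (algebraMap F' (PadicAlgCl p)).injective
    by_cases htriv : ∃ τ, (φ.comp r) τ ≠ 1
    swap
    · push Not at htriv
      refine ⟨N₁, hN₁, fun τ σ h hσ => ?_⟩
      let τ' : PadicAlgCl p ≃ₐ[F'] PadicAlgCl p := AlgEquiv.ofRingEquiv (f := τ.toRingEquiv)
        (fun x => fix_comp h M (hMfix σ hσ) x x.2)
      have h1 := htriv τ'
      have h2 : r τ' = τ := by ext y; rfl
      rw [MonoidHom.comp_apply, h2] at h1
      exact h1
    · obtain ⟨α', a', ha'0, hαa', hα'⟩ := exists_kummer_hom hζ' (φ.comp r) C hCc hval (by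
        have h1 : ((φ.comp r).ker : Set (PadicAlgCl p ≃ₐ[F'] PadicAlgCl p)) = r ⁻¹' φ.ker := by
          ext τ; rfl
        rw [h1]
        exact hφ.preimage hr) htriv
      obtain ⟨a, ha0, ha, γ, hγ, hγa⟩ := hLG N₁ hN₁ a' a'.2 (by
        intro h0
        exact ha'0 (Subtype.ext h0))
      obtain ⟨α, hα⟩ := IsAlgClosed.exists_pow_nat_eq (a : Ω) hp.pos
      refine ⟨BKGen.sub N₁ α, hN₁.sub hζ M hMfix a hα ha, fun τ σ h hσ => ?_⟩
      let τ' : PadicAlgCl p ≃ₐ[F'] PadicAlgCl p := AlgEquiv.ofRingEquiv (f := τ.toRingEquiv)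
        (fun x => fix_comp h M (hMfix σ hσ.1) x x.2)
      have h2 : r τ' = τ := by ext y; rfl
      have h1 := hα' τ' (by
        change τ α' = α'
        -- `α' = ω * ια * γ`
        have hιa0 : ι (a : Ω) ≠ 0 := by
          rw [Ne, map_eq_zero]
          intro h0
          exact ha0 (Subtype.ext h0)
        have hα0 : ι α ≠ 0 := by
          intro h0
          apply hιa0
          rw [← hα, map_pow, h0, zero_pow hp.ne_zero]
        have h3 : (α' / ι α) ^ p = γ ^ p := by
          have h4 : α' ^ p = ι (a : Ω) * γ ^ p := by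
            rw [hαa']
            exact hγa
          rw [div_pow, h4, ← map_pow, hα, mul_div_cancel_left₀ _ hιa0]
        have h4 : α' / ι α ∈ comp p (ι.comp (algebraMap M Ω)) := mem_comp_of_pow hζK _ hγ h3
        have h5 := fix_comp h M (hMfix σ hσ.1) _ h4
        have h6 : τ (ι α) = ι α := by
          rw [← h α]
          exact congrArg ι (hσ.2 1)
        rw [map_div₀, h6] at h5
        have h7 : τ α' / ι α * ι α = α' / ι α * ι α := by rw [h5]
        rwa [div_mul_cancel₀ _ hα0, div_mul_cancel₀ _ hα0] at h7)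
      rw [MonoidHom.comp_apply, h2] at h1
      exact h1

omit [Fact p.Prime] in
/-- the kernel of a homomorphism to a finite `p`-group, unramified away from `p`, is a layer -/
theorem isLayer_ker {P : Type*} [Group P] (hP : IsPGroup p P) (Φ : (Ω ≃ₐ[K] Ω) →* P)
    (ho : IsOpen (Φ.ker : Set (Ω ≃ₐ[K] Ω)))
    (hI : ∀ (l : ℕ) [Fact l.Prime], l ≠ p → ∀ j : Ω →+* PadicAlgCl l, ∀ σ ∈ Inert K Ω j, Φ σ = 1) :
    IsLayer p Φ.ker where
  normal := inferInstance
  isOpen := ho
  pgroup g := by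
    obtain ⟨k, hk⟩ := hP (Φ g)
    exact ⟨k, by rw [MonoidHom.mem_ker, map_pow, hk]⟩
  inert l _ hl j σ hσ := hI l hl j σ hσ

omit [Fact p.Prime] in
theorem IsLayer.inf {N N' : Subgroup (Ω ≃ₐ[K] Ω)} (h : IsLayer p N) (h' : IsLayer p N') :
    IsLayer p (N ⊓ N') where
  normal := by
    have := h.normal
    have := h'.normal
    infer_instance
  isOpen := h.isOpen.inter h'.isOpen
  pgroup g := by
    obtain ⟨k, hk⟩ := h.pgroup g
    obtain ⟨k', hk'⟩ := h'.pgroup g
    refine ⟨k + k', ?_, ?_⟩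
    · rw [pow_add, pow_mul]
      exact N.pow_mem hk _
    · rw [add_comm, pow_add, pow_mul]
      exact N'.pow_mem hk' _
  inert l _ hl j σ hσ := ⟨h.inert l hl j σ hσ, h'.inert l hl j σ hσ⟩

/-- homomorphisms to finite `p`-groups, unramified away from `p`, are determined by their
restriction to the local Galois group -/
theorem hom_unique [IsGalois K Ω] (hζ : (primitiveRoots p K).Nonempty)
    (ι : Ω →+* PadicAlgCl p) (hR : Rigid p K (ι.comp (algebraMap K Ω)))
    {P : Type*} [Group P] (hP : IsPGroup p P) (Φ Φ' : (Ω ≃ₐ[K] Ω) →* P)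
    (ho : IsOpen (Φ.ker : Set (Ω ≃ₐ[K] Ω))) (ho' : IsOpen (Φ'.ker : Set (Ω ≃ₐ[K] Ω)))
    (hI : ∀ (l : ℕ) [Fact l.Prime], l ≠ p → ∀ j : Ω →+* PadicAlgCl l, ∀ σ ∈ Inert K Ω j, Φ σ = 1)
    (hI' : ∀ (l : ℕ) [Fact l.Prime], l ≠ p → ∀ j : Ω →+* PadicAlgCl l, ∀ σ ∈ Inert K Ω j,
      Φ' σ = 1)
    (h : ∀ τ σ, Restricts (K := K) ι τ σ → Φ σ = Φ' σ) : Φ = Φ' := by
  ext g
  obtain ⟨τ, σ, hτ, hσ⟩ := ((isLayer_ker hP Φ ho hI).inf (isLayer_ker hP Φ' ho' hI')).exists_local
    hζ ι hR g
  have h1 : Φ g = Φ σ := by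
    have : Φ (σ⁻¹ * g) = 1 := (Subgroup.mem_inf.mp hσ).1
    rw [map_mul, map_inv, inv_mul_eq_one] at this
    exact this.symm
  have h2 : Φ' g = Φ' σ := by
    have : Φ' (σ⁻¹ * g) = 1 := (Subgroup.mem_inf.mp hσ).2
    rw [map_mul, map_inv, inv_mul_eq_one] at this
    exact this.symm
  rw [h1, h2, h τ σ hτ]

/-- a local homomorphism trivial on a layer extends -/
theorem exists_extend_of_layer [IsGalois K Ω] (hζ : (primitiveRoots p K).Nonempty)
    (ι : Ω →+* PadicAlgCl p) (hR : Rigid p K (ι.comp (algebraMap K Ω)))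
    {P : Type*} [Group P]
    (φ : (PadicAlgCl p ≃ₐ[comp p (ι.comp (algebraMap K Ω))] PadicAlgCl p) →* P)
    (N : Subgroup (Ω ≃ₐ[K] Ω)) (hN : IsLayer p N)
    (hφ : ∀ τ σ, Restricts ι τ σ → σ ∈ N → φ τ = 1) :
    ∃ Φ : (Ω ≃ₐ[K] Ω) →* P, N ≤ Φ.ker ∧ ∀ τ σ, Restricts ι τ σ → Φ σ = φ τ := by
  have hNn := hN.normal
  choose t s hts hs using fun g => hN.exists_local hζ ι hR g
  -- well-definedness
  have key : ∀ g τ σ, Restricts ι τ σ → σ⁻¹ * g ∈ N → φ τ = φ (t g) := by
    intro g τ σ hτ hσ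
    have h1 : σ⁻¹ * s g ∈ N := by
      have h2 : σ⁻¹ * s g = (σ⁻¹ * g) * ((s g)⁻¹ * g)⁻¹ := by group
      rw [h2]
      exact N.mul_mem hσ (N.inv_mem (hs g))
    have h2 := hφ (τ⁻¹ * t g) (σ⁻¹ * s g) (hτ.inv.mul (hts g)) h1
    rw [map_mul, map_inv, inv_mul_eq_one] at h2
    exact h2
  have hmul : ∀ g g', φ (t (g * g')) = φ (t g) * φ (t g') := by
    intro g g'
    rw [← map_mul]
    symm
    refine key (g * g') (t g * t g') (s g * s g') ((hts g).mul (hts g')) ?_
    have h2 : (s g * s g')⁻¹ * (g * g') =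
        ((s g')⁻¹ * ((s g)⁻¹ * g) * ((s g')⁻¹)⁻¹) * ((s g')⁻¹ * g') := by group
    rw [h2]
    exact N.mul_mem (hNn.conj_mem _ (hs g) _) (hs g')
  refine ⟨⟨⟨fun g => φ (t g), ?_⟩, hmul⟩, ?_, ?_⟩
  · have h1 := key 1 1 1 (Restricts.one ι) (by rw [inv_one, one_mul]; exact N.one_mem)
    rw [← h1, map_one]
  · intro g hg
    rw [MonoidHom.mem_ker]
    change φ (t g) = 1
    have h1 := key g 1 1 (Restricts.one ι) (by rw [inv_one, one_mul]; exact hg)
    rw [← h1, map_one]
  · intro τ σ h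
    change φ (t σ) = φ τ
    exact (key σ τ σ h (by rw [inv_mul_cancel]; exact N.one_mem)).symm

/-- **The local Galois group and the global one, unramified away from `p`, have the same
finite `p`-quotients.** -/
theorem exists_extend [IsGalois K Ω] [IsAlgClosed Ω] (hζ : (primitiveRoots p K).Nonempty)
    (ι : Ω →+* PadicAlgCl p) (hR : Rigid p K (ι.comp (algebraMap K Ω)))
    (hLG : ∀ N : Subgroup (Ω ≃ₐ[K] Ω), IsLayer p N → LocGlob p (IntermediateField.fixedField N)
      (ι.comp (algebraMap (IntermediateField.fixedField N) Ω)))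
    {P : Type*} [Group P] [Finite P] (hP : IsPGroup p P)
    (φ : (PadicAlgCl p ≃ₐ[comp p (ι.comp (algebraMap K Ω))] PadicAlgCl p) →* P)
    (hφ : IsOpen (φ.ker :
      Set (PadicAlgCl p ≃ₐ[comp p (ι.comp (algebraMap K Ω))] PadicAlgCl p))) :
    ∃ Φ : (Ω ≃ₐ[K] Ω) →* P, IsOpen (Φ.ker : Set (Ω ≃ₐ[K] Ω)) ∧
      (∀ (l : ℕ) [Fact l.Prime], l ≠ p → ∀ j : Ω →+* PadicAlgCl l, ∀ σ ∈ Inert K Ω j, Φ σ = 1) ∧
      ∀ τ σ, Restricts ι τ σ → Φ σ = φ τ := by
  obtain ⟨N, hN, hNφ⟩ := exists_layer hζ ι hLG (Nat.card P) P hP le_rfl φ hφ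
  obtain ⟨Φ, hΦN, hΦ⟩ := exists_extend_of_layer hζ ι hR φ N hN hNφ
  exact ⟨Φ, Subgroup.isOpen_mono hΦN hN.isOpen, fun l _ hl j σ hσ => hΦN (hN.inert l hl j σ hσ), hΦ⟩

end Iso

end BKGen
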