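import Pool.Agent.Lib.MP_7c08ba_nt.Gen.RigidThree
import Pool.Agent.Lib.MP_7c08ba_nt.Gen.RT.ClassNo

/-!
The instance `d = 2`: `K = ℚ(√-2, √-3)` is rigid at each of its places above `3`.
-/

namespace BKGen
namespace RT

open NumberField IntermediateField

theorem exists_Qd {K : Type*} [Field K] [NumberField K] {x : K} {m : ℤ} (hx : x ^ 2 = (m : K))
    (hne : ∀ q : ℚ, (q : K) ≠ x) : ∃ θ : 𝓞 ℚ⟮x⟯, Qd ℚ⟮x⟯ θ m := by
  have hint : IsIntegral ℤ (⟨x, mem_adjoin_simple_self ℚ x⟩ : ℚ⟮x⟯) := by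
    refine integral_of (T := 0) (N := -m) ?_
    apply Subtype.ext
    push_cast
    rw [hx]
    ring
  refine ⟨⟨⟨x, mem_adjoin_simple_self ℚ x⟩, hint⟩, ?_, ?_, ?_⟩
  · apply RingOfIntegers.ext
    apply Subtype.ext
    simpa using hx
  · rintro ⟨y, hy⟩
    have hsq : x ^ 2 = algebraMap ℚ K (m : ℚ) := by
      rw [hx]
      simp
    obtain ⟨A, B, rfl⟩ := mem_adjoin_sqrt hsq hy
    refine ⟨A, B, ?_⟩
    apply Subtype.ext
    rfl
  · intro A B h0
    have h1 : (A : K) + B * x = 0 := congrArg (fun z : ℚ⟮x⟯ => (z : K)) h0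
    by_cases hB : B = 0
    · subst hB
      simp only [Rat.cast_zero, zero_mul, add_zero] at h1
      exact ⟨by exact_mod_cast h1, rfl⟩
    · exfalso
      apply hne (-A / B)
      have hB' : (B : K) ≠ 0 := by exact_mod_cast hB
      push_cast
      rw [div_eq_iff hB']
      linear_combination -h1

end RT

open NumberField IntermediateField RT

/-- RIGIDITY of `K = ℚ(√-2, √-3)` at every place above `3`. -/
theorem rigidThree_two {K : Type*} [Field K] [NumberField K] {s t : K} (hs : s ^ 2 = -2)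
    (ht : t ^ 2 = -3) (hdeg : Module.finrank ℚ K = 4) (ι : K →+* PadicAlgCl 3) :
    Rigid 3 K ι := by
  have h : Biq K 2 s t := ⟨rfl, by rw [hs]; norm_num, ht, hdeg⟩
  have c1 : classNumber ℚ⟮s⟯ = 1 := by
    obtain ⟨θ, hθ⟩ := exists_Qd (x := s) (m := -2) (by rw [hs]; norm_num) h.s_not_rat
    exact hθ.classNo_small (by norm_num) (by norm_num)
  have c2 : classNumber ℚ⟮s * t⟯ = 1 := by
    obtain ⟨θ, hθ⟩ := exists_Qd (x := s * t) (m := 6) (by rw [st_sq h]; norm_num) (by
      intro q hq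
      have h1 : cf s t q 0 0 0 = cf s t 0 0 0 1 := by
        unfold cf
        push_cast
        rw [hq]
        ring
      have := (h.inj h1).2.2.2
      norm_num at this)
    exact hθ.classNo_six
  exact rigidThree h ι (m := 1) (x0 := 2) (y0 := 2) (u0 := 10) (v0 := 4) (by norm_num)
    (by norm_num) (by norm_num) (by norm_num) (by rw [c1]; norm_num) (by norm_num) (by norm_num)
    (by norm_num) (by rw [c2]; norm_num)

end BKGen
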